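import Mathlib

/-!
# The divisor bound `τ(n) ≤ C_ε n^ε`
-/

namespace Pool.Agent.Lib.P5632c9

open Finset

theorem card_divisors_le (ε : ℝ) (hε : 0 < ε) :
    ∃ C : ℝ, 1 ≤ C ∧ ∀ n : ℕ, n ≠ 0 → (n.divisors.card : ℝ) ≤ C * (n : ℝ) ^ ε := by
  have hl2 : 0 < Real.log 2 := Real.log_pos (by norm_num)
  set C₀ : ℝ := 1 + 1 / (ε * Real.log 2) with hC₀
  have hC₀1 : 1 ≤ C₀ := by rw [hC₀]; have : 0 < 1 / (ε * Real.log 2) := by positivity
                           linarith
  set P : ℕ := ⌈(2 : ℝ) ^ (1 / ε)⌉₊ with hP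
  refine ⟨C₀ ^ P, one_le_pow₀ hC₀1, ?_⟩
  intro n hn
  have hA : ∀ p k : ℕ, 2 ≤ p → (k + 1 : ℝ) ≤ (if p < P then C₀ else 1) * (p : ℝ) ^ (k * ε) := by
    intro p k hp
    have hp2 : (2 : ℝ) ≤ p := by exact_mod_cast hp
    split_ifs with hlt
    · have h1 : 1 + k * ε * Real.log 2 ≤ (p : ℝ) ^ (k * ε) := by
        calc 1 + k * ε * Real.log 2 ≤ Real.exp (k * ε * Real.log 2) := by
              have := Real.add_one_le_exp (k * ε * Real.log 2); linarith
          _ = (2 : ℝ) ^ (k * ε) := by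
              rw [Real.rpow_def_of_pos (by norm_num)]; ring_nf
          _ ≤ (p : ℝ) ^ (k * ε) := Real.rpow_le_rpow (by norm_num) hp2 (by positivity)
      calc (k + 1 : ℝ) ≤ C₀ * (1 + k * ε * Real.log 2) := by
            rw [hC₀]
            have h2 : (1 + 1 / (ε * Real.log 2)) * (1 + k * ε * Real.log 2) =
                1 + 1 / (ε * Real.log 2) + k * (ε * Real.log 2) + k := by field_simp; ring
            rw [h2]
            have : 0 < 1 / (ε * Real.log 2) := by positivity
            have h3 : 0 ≤ k * (ε * Real.log 2) := by positivity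
            linarith
        _ ≤ _ := mul_le_mul_of_nonneg_left h1 (by linarith)
    · have h1 : (2 : ℝ) ≤ (p : ℝ) ^ ε := by
        have h2 : (2 : ℝ) ^ (1 / ε) ≤ p := (Nat.le_ceil _).trans (by exact_mod_cast not_lt.mp hlt)
        calc (2 : ℝ) = ((2 : ℝ) ^ (1 / ε)) ^ ε := by
              rw [← Real.rpow_mul (by norm_num), one_div_mul_cancel hε.ne', Real.rpow_one]
          _ ≤ _ := Real.rpow_le_rpow (by positivity) h2 hε.le
      have h3 : (p : ℝ) ^ (k * ε) = ((p : ℝ) ^ ε) ^ k := by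
        rw [← Real.rpow_natCast, ← Real.rpow_mul (by positivity)]; ring_nf
      rw [one_mul, h3]
      calc (k + 1 : ℝ) ≤ 2 ^ k := by exact_mod_cast Nat.lt_two_pow_self
        _ ≤ _ := pow_le_pow_left₀ (by norm_num) h1 k
  have hn0 : (n : ℝ) ^ ε = ∏ p ∈ n.primeFactors, (p : ℝ) ^ ((n.factorization p : ℝ) * ε) := by
    conv_lhs => rw [← Nat.factorization_prod_pow_eq_self hn]
    rw [Nat.prod_factorization_eq_prod_primeFactors]
    push_cast
    rw [← Real.finsetProd_rpow _ _ (fun i _ => by positivity)]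
    refine prod_congr rfl fun p _ => ?_
    rw [← Real.rpow_natCast, ← Real.rpow_mul (by positivity)]
  rw [Nat.card_divisors hn, hn0]
  push_cast
  have hB : ∏ p ∈ n.primeFactors, ((n.factorization p : ℝ) + 1) ≤
      ∏ p ∈ n.primeFactors, ((if p < P then C₀ else 1) *
        (p : ℝ) ^ ((n.factorization p : ℝ) * ε)) := by
    refine prod_le_prod (fun p _ => by positivity) fun p hp => ?_
    exact hA p _ (Nat.prime_of_mem_primeFactors hp).two_le
  refine hB.trans ?_
  rw [prod_mul_distrib]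
  refine mul_le_mul_of_nonneg_right ?_ (prod_nonneg fun p _ => by positivity)
  rw [prod_ite]
  simp only [prod_const_one, mul_one, prod_const]
  refine pow_le_pow_right₀ hC₀1 ?_
  calc #({p ∈ n.primeFactors | p < P}) ≤ #(range P) := by
        refine card_le_card fun p hp => ?_
        exact mem_range.mpr (mem_filter.mp hp).2
    _ = P := card_range P

end Pool.Agent.Lib.P5632c9
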