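import Mathlib

/-!
# Dirichlet L-functions by partial summation

For a nontrivial Dirichlet character `χ` mod `N` we show
`L(s,χ) = ∑ S(k+1) ((k+1)^{-s} - (k+2)^{-s})` for `Re s > 0`, where `S` are the partial sums,
and `‖S‖ ≤ N`.
-/

namespace Pool.Agent.Lib.P5632c9

open Finset Complex Filter Topology

/-- Partial sums of a character. -/
noncomputable def psum {N : ℕ} (χ : DirichletCharacter ℂ N) (K : ℕ) : ℂ :=
  ∑ j ∈ range K, χ ((j + 1 : ℕ) : ZMod N)

lemma psum_succ {N : ℕ} (χ : DirichletCharacter ℂ N) (K : ℕ) :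
    psum χ (K + 1) = psum χ K + χ ((K + 1 : ℕ) : ZMod N) := by
  simp [psum, sum_range_succ]

lemma sum_range_zmod (N : ℕ) [NeZero N] (g : ZMod N → ℂ) :
    ∑ j ∈ range N, g (j : ZMod N) = ∑ a, g a := by
  refine Finset.sum_bij' (fun j _ => (j : ZMod N)) (fun a _ => a.val) ?_ ?_ ?_ ?_ ?_
  · intro a _; exact mem_univ _
  · intro a _; exact mem_range.mpr (ZMod.val_lt a)
  · intro a ha; exact ZMod.val_cast_of_lt (mem_range.mp ha)
  · intro a _; exact ZMod.natCast_zmod_val a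
  · intro a _; rfl

lemma sum_period {N : ℕ} [NeZero N] {χ : DirichletCharacter ℂ N} (hχ : χ ≠ 1) (m : ℕ) :
    ∑ j ∈ range N, χ ((m + j + 1 : ℕ) : ZMod N) = 0 := by
  have h := sum_range_zmod N (fun a => χ (a + ((m + 1 : ℕ) : ZMod N)))
  have h2 : ∑ a : ZMod N, χ (a + ((m + 1 : ℕ) : ZMod N)) = ∑ a : ZMod N, χ a :=
    Equiv.sum_comp (Equiv.addRight ((m + 1 : ℕ) : ZMod N)) (fun a => χ a)
  rw [h2, MulChar.sum_eq_zero_of_ne_one hχ] at h
  rw [← h]
  refine sum_congr rfl fun j _ => ?_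
  congr 1
  push_cast
  ring

lemma psum_add_period {N : ℕ} [NeZero N] {χ : DirichletCharacter ℂ N} (hχ : χ ≠ 1) (m : ℕ) :
    psum χ (m + N) = psum χ m := by
  have h := sum_period hχ m
  unfold psum
  rw [sum_range_add, h, add_zero]

lemma norm_psum_le_self {N : ℕ} (χ : DirichletCharacter ℂ N) (K : ℕ) : ‖psum χ K‖ ≤ K := by
  unfold psum
  refine (norm_sum_le _ _).trans ?_
  refine (sum_le_sum fun j _ => DirichletCharacter.norm_le_one χ _).trans ?_
  simp

lemma norm_psum_le {N : ℕ} [NeZero N] {χ : DirichletCharacter ℂ N} (hχ : χ ≠ 1) (K : ℕ) :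
    ‖psum χ K‖ ≤ N := by
  induction K using Nat.strong_induction_on with
  | _ K ih =>
    by_cases h : K < N
    · exact (norm_psum_le_self χ K).trans (by exact_mod_cast h.le)
    · have hN : 0 < N := Nat.pos_of_ne_zero (NeZero.ne N)
      have e : K = (K - N) + N := by omega
      rw [e, psum_add_period hχ]
      exact ih _ (by omega)

/-- the `k`-th term of the partial summation series -/
noncomputable def abelTerm {N : ℕ} (χ : DirichletCharacter ℂ N) (k : ℕ) (s : ℂ) : ℂ :=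
  psum χ (k + 1) * ((k + 1 : ℂ) ^ (-s) - (k + 2 : ℂ) ^ (-s))

lemma finite_abel {N : ℕ} (χ : DirichletCharacter ℂ N) (s : ℂ) (K : ℕ) :
    ∑ k ∈ range K, χ ((k + 1 : ℕ) : ZMod N) * (k + 1 : ℂ) ^ (-s) =
      psum χ K * (K + 1 : ℂ) ^ (-s) + ∑ k ∈ range K, abelTerm χ k s := by
  induction K with
  | zero => simp [psum]
  | succ K ih =>
    rw [sum_range_succ, ih, sum_range_succ, abelTerm, psum_succ]
    push_cast
    have e : (K : ℂ) + 1 + 1 = K + 2 := by ring
    rw [e]
    ring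

lemma norm_cpow_sub_le (k : ℕ) {s : ℂ} (hs : 0 < s.re) :
    ‖((k + 1 : ℂ) ^ (-s) - (k + 2 : ℂ) ^ (-s))‖ ≤ ‖s‖ * (k + 1 : ℝ) ^ (-s.re - 1) := by
  have hder : ∀ x ∈ Set.Icc (k + 1 : ℝ) (k + 2), HasDerivWithinAt (fun x : ℝ => (x : ℂ) ^ (-s))
      ((-s) * (x : ℂ) ^ (-s - 1)) (Set.Icc (k + 1 : ℝ) (k + 2)) x := by
    intro x hx
    have hx0 : 0 < x := lt_of_lt_of_le (by positivity) hx.1
    have h1 : HasDerivAt (fun z : ℂ => z ^ (-s)) ((-s) * (x : ℂ) ^ (-s - 1)) (x : ℂ) := by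
      have := (hasDerivAt_id (x : ℂ)).cpow_const (c := -s) (Or.inl (by simpa using hx0))
      simpa using this
    exact (h1.comp_ofReal).hasDerivWithinAt
  have hbound : ∀ x ∈ Set.Icc (k + 1 : ℝ) (k + 2),
      ‖(-s) * (x : ℂ) ^ (-s - 1)‖ ≤ ‖s‖ * (k + 1 : ℝ) ^ (-s.re - 1) := by
    intro x hx
    have hx0 : 0 < x := lt_of_lt_of_le (by positivity) hx.1
    rw [norm_mul, norm_neg, Complex.norm_cpow_eq_rpow_re_of_pos hx0]
    have : (-s - 1).re = -s.re - 1 := by simp
    rw [this]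
    refine mul_le_mul_of_nonneg_left ?_ (norm_nonneg _)
    exact Real.rpow_le_rpow_of_nonpos (by positivity) hx.1 (by linarith)
  have := (convex_Icc (k + 1 : ℝ) (k + 2)).norm_image_sub_le_of_norm_hasDerivWithin_le
    (𝕜 := ℝ) hder hbound (x := (k + 2 : ℝ)) (y := (k + 1 : ℝ)) (by constructor <;> linarith)
    (by constructor <;> linarith)
  have e : ‖((k : ℝ) + 1) - (k + 2)‖ = 1 := by
    rw [show ((k : ℝ) + 1) - (k + 2) = -1 by ring]; simp
  rw [e, mul_one] at this
  push_cast at this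
  exact this

lemma norm_abelTerm_le {N : ℕ} [NeZero N] {χ : DirichletCharacter ℂ N} (hχ : χ ≠ 1) (k : ℕ)
    {s : ℂ} (hs : 0 < s.re) :
    ‖abelTerm χ k s‖ ≤ N * ‖s‖ * (k + 1 : ℝ) ^ (-s.re - 1) := by
  unfold abelTerm
  rw [norm_mul]
  calc _ ≤ (N : ℝ) * (‖s‖ * (k + 1 : ℝ) ^ (-s.re - 1)) :=
        mul_le_mul (norm_psum_le hχ _) (norm_cpow_sub_le k hs) (norm_nonneg _) (by positivity)
    _ = _ := by ring

lemma summable_shift_rpow {a : ℝ} (ha : 0 < a) :
    Summable (fun k : ℕ => (k + 1 : ℝ) ^ (-a - 1)) := by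
  have h : Summable (fun k : ℕ => (k : ℝ) ^ (-a - 1)) :=
    Real.summable_nat_rpow.mpr (by linarith)
  have := (summable_nat_add_iff 1).mpr h
  simpa using this

lemma summable_abelTerm {N : ℕ} [NeZero N] {χ : DirichletCharacter ℂ N} (hχ : χ ≠ 1)
    {s : ℂ} (hs : 0 < s.re) : Summable (fun k => abelTerm χ k s) :=
  Summable.of_norm_bounded ((summable_shift_rpow hs).mul_left _) (fun k => norm_abelTerm_le hχ k hs)

lemma differentiableOn_abel {N : ℕ} [NeZero N] {χ : DirichletCharacter ℂ N} (hχ : χ ≠ 1) :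
    DifferentiableOn ℂ (fun s => ∑' k, abelTerm χ k s) {s : ℂ | 0 < s.re} := by
  have hopen : IsOpen {s : ℂ | 0 < s.re} := isOpen_lt continuous_const Complex.continuous_re
  intro s hs
  have hs' : 0 < s.re := hs
  -- neighbourhood
  let U : Set ℂ := {z : ℂ | s.re / 2 < z.re} ∩ Metric.ball s 1
  have hU : IsOpen U := (isOpen_lt continuous_const Complex.continuous_re).inter Metric.isOpen_ball
  have hsU : s ∈ U := ⟨by show s.re / 2 < s.re; linarith, Metric.mem_ball_self one_pos⟩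
  have hd : DifferentiableOn ℂ (fun s => ∑' k, abelTerm χ k s) U := by
    refine differentiableOn_tsum_of_summable_norm
      (u := fun k : ℕ => N * (‖s‖ + 1) * (k + 1 : ℝ) ^ (-(s.re / 2) - 1))
      ((summable_shift_rpow (by linarith)).mul_left _) ?_ hU ?_
    · intro k z hz
      refine DifferentiableAt.differentiableWithinAt ?_
      unfold abelTerm
      refine (DifferentiableAt.sub ?_ ?_).const_mul _
      · refine DifferentiableAt.const_cpow (differentiableAt_id.neg) (Or.inl ?_)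
        exact_mod_cast Nat.succ_ne_zero k
      · refine DifferentiableAt.const_cpow (differentiableAt_id.neg) (Or.inl ?_)
        exact_mod_cast Nat.succ_ne_zero (k+1)
    · intro k z hz
      have hz1 : s.re / 2 < z.re := hz.1
      have hz2 : ‖z‖ ≤ ‖s‖ + 1 := by
        have : dist z s < 1 := hz.2
        rw [dist_eq_norm] at this
        calc ‖z‖ = ‖(z - s) + s‖ := by ring_nf
          _ ≤ ‖z - s‖ + ‖s‖ := norm_add_le _ _
          _ ≤ _ := by linarith
      refine (norm_abelTerm_le hχ k (by linarith)).trans ?_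
      refine mul_le_mul ?_ ?_ (by positivity) (by positivity)
      · exact mul_le_mul_of_nonneg_left hz2 (by positivity)
      · refine Real.rpow_le_rpow_of_exponent_le ?_ (by linarith)
        have : (0 : ℝ) ≤ k := by positivity
        linarith
  exact (hd.differentiableAt (hU.mem_nhds hsU)).differentiableWithinAt

lemma LFunction_eq_abel_of_one_lt {N : ℕ} [NeZero N] {χ : DirichletCharacter ℂ N} (hχ : χ ≠ 1)
    {s : ℂ} (hs : 1 < s.re) : DirichletCharacter.LFunction χ s = ∑' k, abelTerm χ k s := by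
  rw [DirichletCharacter.LFunction_eq_LSeries χ hs]
  have hsum := ZMod.LSeriesSummable_of_one_lt_re (N := N) χ hs
  have h1 : HasSum (fun k => LSeries.term (fun n => χ (n : ZMod N)) s k)
      (LSeries (fun n => χ (n : ZMod N)) s) := hsum.hasSum
  have h2 : HasSum (fun k => LSeries.term (fun n => χ (n : ZMod N)) s (k + 1))
      (LSeries (fun n => χ (n : ZMod N)) s) := by
    have := (hasSum_nat_add_iff' 1).mpr h1
    simpa using this
  have h3 := h2.tendsto_sum_nat
  have h4 : Tendsto (fun K => psum χ K * (K + 1 : ℂ) ^ (-s) + ∑ k ∈ range K, abelTerm χ k s) atTop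
      (𝓝 (LSeries (fun n => χ (n : ZMod N)) s)) := by
    refine h3.congr fun K => ?_
    rw [← finite_abel]
    refine sum_congr rfl fun k _ => ?_
    rw [LSeries.term_of_ne_zero (Nat.succ_ne_zero k), Complex.cpow_neg, div_eq_mul_inv]
    push_cast
    rfl
  have h5 : Tendsto (fun K : ℕ => psum χ K * (K + 1 : ℂ) ^ (-s)) atTop (𝓝 0) := by
    rw [tendsto_zero_iff_norm_tendsto_zero]
    have h6 : Tendsto (fun K : ℕ => (N : ℝ) * ((K + 1 : ℕ) : ℝ) ^ (-s.re)) atTop (𝓝 (N * 0)) := by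
      refine Tendsto.const_mul _ ?_
      exact (tendsto_rpow_neg_atTop (by linarith)).comp
        (tendsto_natCast_atTop_atTop.comp (tendsto_add_atTop_nat 1))
    rw [mul_zero] at h6
    refine squeeze_zero (fun _ => norm_nonneg _) (fun K => ?_) h6
    rw [norm_mul]
    have : ‖((K : ℂ) + 1) ^ (-s)‖ = ((K + 1 : ℕ) : ℝ) ^ (-s.re) := by
      have e : (K : ℂ) + 1 = (((K + 1 : ℕ) : ℝ) : ℂ) := by push_cast; ring
      rw [e, Complex.norm_cpow_eq_rpow_re_of_pos (by positivity)]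
      simp
    rw [this]
    exact mul_le_mul_of_nonneg_right (norm_psum_le hχ K) (by positivity)
  have h7 : Tendsto (fun K => ∑ k ∈ range K, abelTerm χ k s) atTop (𝓝 (∑' k, abelTerm χ k s)) :=
    (summable_abelTerm hχ (by linarith)).hasSum.tendsto_sum_nat
  have h8 := h5.add h7
  rw [zero_add] at h8
  exact tendsto_nhds_unique h4 h8

theorem LFunction_eq_abel {N : ℕ} [NeZero N] {χ : DirichletCharacter ℂ N} (hχ : χ ≠ 1)
    {s : ℂ} (hs : 0 < s.re) : DirichletCharacter.LFunction χ s = ∑' k, abelTerm χ k s := by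
  have hopen : IsOpen {s : ℂ | 0 < s.re} := isOpen_lt continuous_const Complex.continuous_re
  have hconv : Convex ℝ {s : ℂ | 0 < s.re} := convex_halfSpace_re_gt 0
  have h1 : AnalyticOnNhd ℂ (DirichletCharacter.LFunction χ) {s : ℂ | 0 < s.re} :=
    (DirichletCharacter.differentiable_LFunction hχ).differentiableOn.analyticOnNhd hopen
  have h2 : AnalyticOnNhd ℂ (fun s => ∑' k, abelTerm χ k s) {s : ℂ | 0 < s.re} :=
    (differentiableOn_abel hχ).analyticOnNhd hopen
  refine h1.eqOn_of_preconnected_of_eventuallyEq h2 hconv.isPreconnected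
    (z₀ := 2) (by simp) ?_ hs
  have hopen2 : IsOpen {s : ℂ | 1 < s.re} := isOpen_lt continuous_const Complex.continuous_re
  filter_upwards [hopen2.mem_nhds (show (2 : ℂ) ∈ {s : ℂ | 1 < s.re} by simp)] with z hz
  exact LFunction_eq_abel_of_one_lt hχ hz

/-- The bound for L-functions on the circle `|s - 2| = 3/2`. -/
theorem norm_LFunction_le : ∃ C : ℝ, 0 < C ∧ ∀ (N : ℕ) [NeZero N] (χ : DirichletCharacter ℂ N),
    χ ≠ 1 → ∀ s ∈ Metric.sphere (2 : ℂ) (3 / 2), ‖DirichletCharacter.LFunction χ s‖ ≤ C * N := by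
  have hsum : Summable (fun k : ℕ => (k + 1 : ℝ) ^ (-(1 / 2 : ℝ) - 1)) :=
    summable_shift_rpow (by norm_num)
  have hpos : 0 ≤ ∑' k : ℕ, (k + 1 : ℝ) ^ (-(1 / 2 : ℝ) - 1) := tsum_nonneg fun k => by positivity
  refine ⟨(7 / 2) * (∑' k : ℕ, (k + 1 : ℝ) ^ (-(1 / 2 : ℝ) - 1)) + 1, by positivity, ?_⟩
  intro N _ χ hχ s hs
  rw [mem_sphere_iff_norm] at hs
  have hre : 1 / 2 ≤ s.re := by
    have h1 : |(s - 2).re| ≤ 3 / 2 := (Complex.abs_re_le_norm _).trans hs.le
    have h2 : (s - 2).re = s.re - 2 := by simp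
    rw [h2, abs_le] at h1
    linarith [h1.1]
  have hn : ‖s‖ ≤ 7 / 2 := by
    calc ‖s‖ = ‖(s - 2) + 2‖ := by ring_nf
      _ ≤ ‖s - 2‖ + ‖(2 : ℂ)‖ := norm_add_le _ _
      _ ≤ 7 / 2 := by rw [hs]; simp; norm_num
  rw [LFunction_eq_abel hχ (by linarith)]
  have hb : ∀ k, ‖abelTerm χ k s‖ ≤ N * (7 / 2) * (k + 1 : ℝ) ^ (-(1 / 2 : ℝ) - 1) := by
    intro k
    refine (norm_abelTerm_le hχ k (by linarith)).trans ?_
    refine mul_le_mul ?_ ?_ (by positivity) (by positivity)
    · exact mul_le_mul_of_nonneg_left hn (by positivity)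
    · refine Real.rpow_le_rpow_of_exponent_le ?_ (by linarith)
      have : (0 : ℝ) ≤ k := by positivity
      linarith
  refine (tsum_of_norm_bounded (hsum.mul_left _).hasSum hb).trans ?_
  rw [tsum_mul_left]
  have hN : (0 : ℝ) ≤ N := by positivity
  nlinarith

end Pool.Agent.Lib.P5632c9
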