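import Pool.Agent.Lib.P5632c9.Conic

/-!
# Counting points on the conic by labels and cells
-/

namespace Pool.Agent.Lib.P5632c9

open Finset

lemma cell_close {x y θ : ℝ} (hθ : 0 < θ) (hθ1 : θ ≤ 1) (hx : x ≠ 0) (hy : y ≠ 0)
    (hsign : 0 < x ↔ 0 < y) (hfl : ⌊Real.log |x| / θ⌋ = ⌊Real.log |y| / θ⌋) :
    |x - y| ≤ 2 * θ * |y| := by
  have h1 := Int.abs_sub_lt_one_of_floor_eq_floor hfl
  set r := Real.log |x| - Real.log |y| with hr
  have h2 : |r| < θ := by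
    have e : Real.log |x| / θ - Real.log |y| / θ = r / θ := by rw [hr]; ring
    rw [e, abs_div, abs_of_pos hθ, div_lt_one hθ] at h1
    exact h1
  have hxa : 0 < |x| := abs_pos.mpr hx
  have hya : 0 < |y| := abs_pos.mpr hy
  have h3 : |x| = |y| * Real.exp r := by
    rw [hr, Real.exp_sub, Real.exp_log hxa, Real.exp_log hya]; field_simp
  have h4 : x = y * Real.exp r := by
    rcases lt_or_gt_of_ne hy with hneg | hpos
    · have hxneg : x < 0 := lt_of_le_of_ne (not_lt.mp (fun h => absurd (hsign.mp h) (not_lt.mpr hneg.le))) hx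
      rw [abs_of_neg hxneg, abs_of_neg hneg] at h3
      linarith
    · have hxpos : 0 < x := hsign.mpr hpos
      rw [abs_of_pos hxpos, abs_of_pos hpos] at h3
      exact h3
  have h5 : x - y = y * (Real.exp r - 1) := by rw [h4]; ring
  rw [h5, abs_mul]
  have h6 := Real.abs_exp_sub_one_le (x := r) (by linarith)
  calc |y| * |Real.exp r - 1| ≤ |y| * (2 * |r|) := by gcongr
    _ ≤ |y| * (2 * θ) := by gcongr
    _ = _ := by ring

lemma class_card_le {n l : ℤ} (hk : n - l ≠ 0) (hl : l ≠ 0) (Tc : Finset (ℤ × ℤ × ℤ))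
    (hon : ∀ v ∈ Tc, OnConic n l v)
    (hdet : ∀ v₁ ∈ Tc, ∀ v₂ ∈ Tc, ∀ v₃ ∈ Tc, det3 v₁ v₂ v₃ = 0) :
    Tc.card ≤ (4 * (l * (n - l))).natAbs.divisors.card * 2 := by
  classical
  let f : ℤ × ℤ × ℤ → ℚ × ℚ := fun v => ((v.1 : ℚ) / v.2.2, (v.2.1 : ℚ) / v.2.2)
  have hprop : ∀ v w : ℤ × ℤ × ℤ, OnConic n l v → OnConic n l w →
      (v.1 * w.2.2 = w.1 * v.2.2 ∧ v.2.1 * w.2.2 = w.2.1 * v.2.2) → f v = f w := by
    intro v w hv hw h
    have hv0 : (v.2.2 : ℚ) ≠ 0 := by exact_mod_cast hv.spos.ne'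
    have hw0 : (w.2.2 : ℚ) ≠ 0 := by exact_mod_cast hw.spos.ne'
    simp only [f, Prod.mk.injEq]
    constructor
    · rw [div_eq_div_iff hv0 hw0]; exact_mod_cast h.1
    · rw [div_eq_div_iff hv0 hw0]; exact_mod_cast h.2
  have himg : (Tc.image f).card ≤ 2 := by
    by_contra hcon
    push Not at hcon
    obtain ⟨a, ha, b, hb, c, hc, hab, hac, hbc⟩ := two_lt_card.mp hcon
    obtain ⟨v₁, h1, rfl⟩ := mem_image.mp ha
    obtain ⟨v₂, h2, rfl⟩ := mem_image.mp hb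
    obtain ⟨v₃, h3, rfl⟩ := mem_image.mp hc
    rcases proportional_of_det_zero hk hl (hon v₁ h1).eq (hon v₂ h2).eq (hon v₃ h3).eq
      (hdet v₁ h1 v₂ h2 v₃ h3) with h | h | h
    · exact hab (hprop _ _ (hon v₁ h1) (hon v₂ h2) h)
    · exact hac (hprop _ _ (hon v₁ h1) (hon v₃ h3) h)
    · exact hbc (hprop _ _ (hon v₂ h2) (hon v₃ h3) h)
  have hfib : ∀ c ∈ Tc.image f, #{v ∈ Tc | f v = c} ≤
      (4 * (l * (n - l))).natAbs.divisors.card := by
    intro c _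
    refine card_le_card_of_injOn (fun v => Int.gcd v.2.1 v.2.2) ?_ ?_
    · intro v hv
      have hv' := (mem_filter.mp (mem_coe.mp hv)).1
      rw [mem_coe, Nat.mem_divisors]
      refine ⟨?_, ?_⟩
      · have := (hon v hv').gcd
        exact Int.natCast_dvd.mp this
      · rw [Int.natAbs_ne_zero]
        exact mul_ne_zero (by norm_num) (mul_ne_zero hl hk)
    · intro v hv w hw hg
      obtain ⟨hv1, hv2⟩ := mem_filter.mp (mem_coe.mp hv)
      obtain ⟨hw1, hw2⟩ := mem_filter.mp (mem_coe.mp hw)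
      have hg' : Int.gcd v.2.1 v.2.2 = Int.gcd w.2.1 w.2.2 := hg
      have hsv := (hon v hv1).spos
      have hsw := (hon w hw1).spos
      have hv0 : (v.2.2 : ℚ) ≠ 0 := by exact_mod_cast hsv.ne'
      have hw0 : (w.2.2 : ℚ) ≠ 0 := by exact_mod_cast hsw.ne'
      have hff : f v = f w := by rw [hv2, hw2]
      simp only [f, Prod.mk.injEq] at hff
      rw [div_eq_div_iff hv0 hw0, div_eq_div_iff hv0 hw0] at hff
      have hU : v.1 * w.2.2 = w.1 * v.2.2 := by exact_mod_cast hff.1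
      have hV : v.2.1 * w.2.2 = w.2.1 * v.2.2 := by exact_mod_cast hff.2
      set g : ℕ := Int.gcd v.2.1 v.2.2 with hgdef
      have hg0 : 0 < g := by
        rw [hgdef]
        exact Int.gcd_pos_of_ne_zero_right _ hsv.ne'
      have hgZ : (0 : ℤ) < g := by exact_mod_cast hg0
      obtain ⟨V₁, hV₁⟩ : (g : ℤ) ∣ v.2.1 := Int.gcd_dvd_left _ _
      obtain ⟨S₁, hS₁⟩ : (g : ℤ) ∣ v.2.2 := Int.gcd_dvd_right _ _
      obtain ⟨V₂, hV₂⟩ : (g : ℤ) ∣ w.2.1 := by rw [hg']; exact Int.gcd_dvd_left _ _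
      obtain ⟨S₂, hS₂⟩ : (g : ℤ) ∣ w.2.2 := by rw [hg']; exact Int.gcd_dvd_right _ _
      have hc1 : IsCoprime V₁ S₁ := by
        rw [Int.isCoprime_iff_gcd_eq_one]
        have : g = g * Int.gcd V₁ S₁ := by
          conv_lhs => rw [hgdef, hV₁, hS₁, Int.gcd_mul_left, Int.natAbs_natCast]
        exact (Nat.eq_of_mul_eq_mul_left hg0 (by rw [mul_one]; exact this)).symm
      have hc2 : IsCoprime V₂ S₂ := by
        rw [Int.isCoprime_iff_gcd_eq_one]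
        have : g = g * Int.gcd V₂ S₂ := by
          conv_lhs => rw [hg', hV₂, hS₂, Int.gcd_mul_left, Int.natAbs_natCast]
        exact (Nat.eq_of_mul_eq_mul_left hg0 (by rw [mul_one]; exact this)).symm
      have hS₁pos : 0 < S₁ := by
        rw [hS₁] at hsv; exact pos_of_mul_pos_right hsv hgZ.le
      have hS₂pos : 0 < S₂ := by
        rw [hS₂] at hsw; exact pos_of_mul_pos_right hsw hgZ.le
      have hcr : V₁ * S₂ = V₂ * S₁ := by
        rw [hV₁, hS₂, hV₂, hS₁] at hV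
        have : (g : ℤ) ^ 2 * (V₁ * S₂) = (g : ℤ) ^ 2 * (V₂ * S₁) := by linarith
        exact mul_left_cancel₀ (pow_ne_zero 2 hgZ.ne') this
      have hd1 : S₁ ∣ S₂ := by
        have : S₁ ∣ V₁ * S₂ := ⟨V₂, by rw [hcr]; ring⟩
        exact hc1.symm.dvd_of_dvd_mul_left this
      have hd2 : S₂ ∣ S₁ := by
        have : S₂ ∣ V₂ * S₁ := ⟨V₁, by rw [← hcr]; ring⟩
        exact hc2.symm.dvd_of_dvd_mul_left this
      have hSS : S₁ = S₂ := le_antisymm (Int.le_of_dvd hS₂pos hd1) (Int.le_of_dvd hS₁pos hd2)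
      have e3 : v.2.2 = w.2.2 := by rw [hS₁, hS₂, hSS]
      have e2 : v.2.1 = w.2.1 := by
        rw [e3] at hV
        exact mul_right_cancel₀ hsw.ne' hV
      have e1 : v.1 = w.1 := by
        rw [e3] at hU
        exact mul_right_cancel₀ hsw.ne' hU
      exact Prod.ext e1 (Prod.ext e2 e3)
  calc Tc.card ≤ (4 * (l * (n - l))).natAbs.divisors.card * (Tc.image f).card :=
        card_le_mul_card_image _ _ hfib
    _ ≤ _ := Nat.mul_le_mul_left _ himg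

/-- `A = U + sV`, `B = U - sV` are nonzero, with bounds -/
lemma AB_bounds {n : ℕ} {l : ℤ} (hn4 : 4 ≤ n) (hl : l ≠ 0) (hln : l ^ 2 ≤ n)
    {v : ℤ × ℤ × ℤ} (hv : OnConic n l v) :
    ((v.1 + √(n : ℝ) * v.2.1) * (v.1 - √(n : ℝ) * v.2.1) = l * ((v.2.2 : ℝ) ^ 2 - (v.2.1 : ℝ) ^ 2)) ∧
    1 ≤ |(v.1 + √(n : ℝ) * v.2.1) * (v.1 - √(n : ℝ) * v.2.1)| ∧
    |(v.1 + √(n : ℝ) * v.2.1)| ≤ 3 * n ∧ |(v.1 - √(n : ℝ) * v.2.1)| ≤ 3 * n := by
  have hnR : (4 : ℝ) ≤ n := by exact_mod_cast hn4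
  have hs2 : √(n : ℝ) * √(n : ℝ) = n := Real.mul_self_sqrt (by linarith)
  have hs0 : 0 ≤ √(n : ℝ) := Real.sqrt_nonneg _
  have heq : (v.1 : ℝ) ^ 2 = (n - l) * (v.2.1 : ℝ) ^ 2 + l * (v.2.2 : ℝ) ^ 2 := by
    exact_mod_cast hv.eq
  have hprod : (v.1 + √(n : ℝ) * v.2.1) * (v.1 - √(n : ℝ) * v.2.1) =
      l * ((v.2.2 : ℝ) ^ 2 - (v.2.1 : ℝ) ^ 2) := by
    have : (v.1 + √(n : ℝ) * v.2.1) * (v.1 - √(n : ℝ) * v.2.1) =
        (v.1 : ℝ) ^ 2 - (√(n : ℝ) * √(n : ℝ)) * (v.2.1 : ℝ) ^ 2 := by ring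
    rw [this, hs2, heq]; ring
  have hge : 1 ≤ |(v.1 + √(n : ℝ) * v.2.1) * (v.1 - √(n : ℝ) * v.2.1)| := by
    rw [hprod]
    have h1 : (1 : ℤ) ≤ |l * (v.2.2 ^ 2 - v.2.1 ^ 2)| := by
      apply Int.one_le_abs
      exact mul_ne_zero hl (by have := hv.vlt; omega)
    exact_mod_cast h1
  have hSn : (v.2.2 : ℝ) ^ 2 ≤ n := by exact_mod_cast hv.sle
  have hVn : (v.2.1 : ℝ) ^ 2 ≤ n := by
    have : (v.2.1 : ℝ) ^ 2 < (v.2.2 : ℝ) ^ 2 := by exact_mod_cast hv.vlt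
    linarith
  have hlR : (l : ℝ) ^ 2 ≤ n := by exact_mod_cast hln
  have hlabs : |(l : ℝ)| ≤ n := by
    have : |(l : ℝ)| ≤ √(n : ℝ) := Real.abs_le_sqrt hlR
    have h2 : √(n : ℝ) ≤ n := by
      rw [Real.sqrt_le_left (by linarith)]; nlinarith
    linarith
  have hl1 := abs_le.mp hlabs
  have hU : |(v.1 : ℝ)| ≤ 2 * n := by
    apply abs_le_of_sq_le_sq _ (by linarith)
    rw [heq]
    have h3 : ((n : ℝ) - (l : ℝ)) * (v.2.1 : ℝ) ^ 2 ≤ 2 * n * n := by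
      calc ((n : ℝ) - (l : ℝ)) * (v.2.1 : ℝ) ^ 2 ≤ (2 * (n : ℝ)) * (v.2.1 : ℝ) ^ 2 := by
            refine mul_le_mul_of_nonneg_right (by linarith) (by positivity)
        _ ≤ (2 * (n : ℝ)) * n := by
            refine mul_le_mul_of_nonneg_left hVn (by linarith)
        _ = _ := by ring
    have h4 : (l : ℝ) * (v.2.2 : ℝ) ^ 2 ≤ n * n := by
      calc (l : ℝ) * (v.2.2 : ℝ) ^ 2 ≤ (n : ℝ) * (v.2.2 : ℝ) ^ 2 := by
            refine mul_le_mul_of_nonneg_right (by linarith) (by positivity)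
        _ ≤ (n : ℝ) * n := by
            refine mul_le_mul_of_nonneg_left hSn (by linarith)
    nlinarith
  have hV : |√(n : ℝ) * (v.2.1 : ℝ)| ≤ n := by
    apply abs_le_of_sq_le_sq _ (by linarith)
    rw [mul_pow, pow_two (√(n : ℝ)), hs2]
    nlinarith
  have hU' := abs_le.mp hU
  have hV' := abs_le.mp hV
  refine ⟨hprod, hge, ?_, ?_⟩
  · rw [abs_le]; constructor <;> linarith
  · rw [abs_le]; constructor <;> linarith

lemma log_bound {n : ℕ} (hn4 : 4 ≤ n) {A B S : ℝ} (h1 : 1 ≤ |A * B|) (hA : |A| ≤ 3 * n)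
    (hB : |B| ≤ 3 * n) (hS : 1 ≤ S) (hSn : S ≤ n) : |Real.log (|A / S|)| ≤ 3 * Real.log n := by
  have hnR : (4 : ℝ) ≤ n := by exact_mod_cast hn4
  have hn0 : (0 : ℝ) < n := by linarith
  rw [abs_mul] at h1
  have hA0 : 0 < |A| := by
    by_contra h
    have : |A| = 0 := le_antisymm (not_lt.mp h) (abs_nonneg _)
    rw [this, zero_mul] at h1
    linarith
  have hA1 : 1 / (3 * n : ℝ) ≤ |A| := by
    rw [div_le_iff₀ (by positivity)]
    calc 1 ≤ |A| * |B| := h1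
      _ ≤ |A| * (3 * n) := by gcongr
  have hx : |A / S| = |A| / S := by rw [abs_div, abs_of_pos (by linarith : (0 : ℝ) < S)]
  rw [hx]
  have hup : |A| / S ≤ (n : ℝ) ^ 3 := by
    calc |A| / S ≤ |A| := div_le_self (abs_nonneg _) hS
      _ ≤ 3 * n := hA
      _ ≤ (n : ℝ) ^ 3 := by
          have h16 : (16 : ℝ) ≤ (n : ℝ) ^ 2 := by nlinarith
          have e3 : (n : ℝ) ^ 3 = n * (n : ℝ) ^ 2 := by ring
          rw [e3]
          nlinarith
  have hlo : ((n : ℝ) ^ 3)⁻¹ ≤ |A| / S := by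
    rw [le_div_iff₀ (by linarith)]
    calc ((n : ℝ) ^ 3)⁻¹ * S ≤ ((n : ℝ) ^ 3)⁻¹ * n := by gcongr
      _ = 1 / ((n : ℝ) ^ 2) := by field_simp
      _ ≤ 1 / (3 * n) := by
          apply one_div_le_one_div_of_le (by positivity)
          nlinarith
      _ ≤ |A| := hA1
  have hpos : 0 < |A| / S := by positivity
  have e : 3 * Real.log n = Real.log ((n : ℝ) ^ 3) := by rw [Real.log_pow]; push_cast; ring
  rw [e, abs_le]
  constructor
  · rw [← Real.log_inv]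
    exact Real.log_le_log (by positivity) hlo
  · exact Real.log_le_log hpos hup

end Pool.Agent.Lib.P5632c9
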