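import Mathlib

/-!
# The real characters `d ↦ (m/d)`
-/

namespace Pool.Agent.Lib.P5632c9

open scoped NumberTheorySymbols

/-- the value of the character `(m/·)` at a natural number -/
def jval (m n : ℕ) : ℤ := if n % 2 = 1 then J(m | n) else 0

lemma jval_odd {m n : ℕ} (h : n % 2 = 1) : jval m n = J(m | n) := by simp [jval, h]
lemma jval_even {m n : ℕ} (h : n % 2 = 0) : jval m n = 0 := by simp [jval, h]

lemma jval_mod (m n : ℕ) : jval m (n % (4 * m)) = jval m n := by
  have h2 : (n % (4 * m)) % 2 = n % 2 := Nat.mod_mod_of_dvd n (Dvd.intro (2 * m) (by ring))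
  unfold jval
  rw [h2]
  split_ifs with h
  · have := jacobiSym.mod_right (m : ℤ) (Nat.odd_iff.mpr h)
    rw [this]
    simp
  · rfl

lemma jval_mul (m a b : ℕ) : jval m (a * b) = jval m a * jval m b := by
  unfold jval
  rcases Nat.mod_two_eq_zero_or_one a with ha | ha
  · have : (a * b) % 2 = 0 := by rw [Nat.mul_mod, ha]; simp
    simp [ha, this]
  rcases Nat.mod_two_eq_zero_or_one b with hb | hb
  · have : (a * b) % 2 = 0 := by rw [Nat.mul_mod, hb]; simp
    simp [hb, this]
  have : (a * b) % 2 = 1 := by rw [Nat.mul_mod, ha, hb]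
  rw [if_pos this, if_pos ha, if_pos hb]
  exact jacobiSym.mul_right' _ (by omega) (by omega)

lemma jval_mul_left (m₁ m₂ a : ℕ) : jval (m₁ * m₂) a = jval m₁ a * jval m₂ a := by
  unfold jval
  split_ifs
  · push_cast
    exact jacobiSym.mul_left _ _ _
  · simp

lemma jval_one (m : ℕ) : jval m 1 = 1 := by simp [jval]

lemma jval_trichotomy (m n : ℕ) : jval m n = 0 ∨ jval m n = 1 ∨ jval m n = -1 := by
  unfold jval
  split_ifs
  · exact jacobiSym.trichotomy _ _
  · left; rfl

lemma jval_eq_zero_of_not_coprime {m n : ℕ} (h : ¬ n.Coprime (4 * m)) : jval m n = 0 := by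
  unfold jval
  split_ifs with h2
  · rw [jacobiSym.eq_zero_iff]
    refine ⟨by omega, ?_⟩
    intro h3
    apply h
    have h4 : Nat.Coprime m n := by simpa [Int.gcd] using h3
    have h5 : Nat.Coprime n 2 := by
      rw [Nat.coprime_comm]
      exact (Nat.prime_two.coprime_iff_not_dvd).mpr (by omega)
    have h6 : Nat.Coprime n 4 := by
      have : (4 : ℕ) = 2 ^ 2 := by norm_num
      rw [this]; exact h5.pow_right 2
    exact h6.mul_right h4.symm
  · rfl

lemma jval_ne_zero_of_coprime {m n : ℕ} (h : n.Coprime (4 * m)) : jval m n ≠ 0 := by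
  have h2 : n % 2 = 1 := by
    by_contra h3
    have : 2 ∣ Nat.gcd n (4 * m) := Nat.dvd_gcd (by omega) ⟨2 * m, by ring⟩
    rw [h] at this
    omega
  rw [jval_odd h2]
  refine jacobiSym.ne_zero ?_
  have : Nat.Coprime n m := Nat.Coprime.coprime_mul_left_right h
  simpa [Int.gcd] using this.symm

/-- the real character `(m/·)` mod `4m` -/
noncomputable def chi (m : ℕ) [NeZero m] : DirichletCharacter ℂ (4 * m) where
  toFun a := (jval m a.val : ℂ)
  map_one' := by
    have h : 1 < 4 * m := by have := NeZero.pos m; omega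
    have : Fact (1 < 4 * m) := ⟨h⟩
    rw [ZMod.val_one]
    simp [jval_one]
  map_mul' a b := by
    rw [ZMod.val_mul, jval_mod, jval_mul]
    push_cast
    rfl
  map_nonunit' a ha := by
    have : ¬ (a.val).Coprime (4 * m) := by
      intro h
      apply ha
      rw [← ZMod.natCast_zmod_val a]
      exact (ZMod.isUnit_iff_coprime _ _).mpr h
    show (jval m a.val : ℂ) = 0
    rw [jval_eq_zero_of_not_coprime this]
    simp

lemma chi_apply (m : ℕ) [NeZero m] (n : ℕ) : chi m (n : ZMod (4 * m)) = (jval m n : ℂ) := by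
  show (jval m ((n : ZMod (4 * m)).val) : ℂ) = _
  rw [ZMod.val_natCast, jval_mod]

lemma chi_sq (m : ℕ) [NeZero m] : chi m ^ 2 = 1 := by
  rw [← MulChar.isQuadratic_iff_sq_eq_one]
  intro a
  have := chi_apply m a.val
  rw [ZMod.natCast_zmod_val] at this
  rw [this]
  rcases jval_trichotomy m a.val with h | h | h <;> simp [h]

lemma exists_nonresidue (p : ℕ) [Fact p.Prime] (hp : p ≠ 2) : ∃ r : ℕ, J(r | p) = -1 := by
  have : ringChar (ZMod p) ≠ 2 := by rwa [ZMod.ringChar_zmod_n]
  obtain ⟨a, ha⟩ := quadraticChar_exists_neg_one this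
  refine ⟨a.val, ?_⟩
  rw [← jacobiSym.legendreSym.to_jacobiSym, legendreSym]
  simpa using ha

lemma exists_jacobi_neg_one (m : ℕ) (hm : ¬ IsSquare m) : ∃ d : ℕ, d % 2 = 1 ∧ J(m | d) = -1 := by
  obtain ⟨m0, f, h1, h2⟩ := Nat.sq_mul_squarefree m
  have hm0 : m ≠ 0 := by rintro rfl; exact hm ⟨0, rfl⟩
  have hf : f ≠ 0 := by rintro rfl; simp at h1; omega
  have hm0' : m0 ≠ 0 := h2.ne_zero
  have hm01 : m0 ≠ 1 := by
    rintro rfl
    apply hm
    exact ⟨f, by rw [← h1]; ring⟩
  -- it suffices to find a large prime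
  suffices h : ∃ d : ℕ, d.Prime ∧ max f 2 < d ∧ J(m0 | d) = -1 by
    obtain ⟨d, hd, hfd, hJ⟩ := h
    have hd2 : 2 < d := lt_of_le_of_lt (le_max_right _ _) hfd
    refine ⟨d, ?_, ?_⟩
    · exact (hd.eq_two_or_odd).resolve_left (by omega)
    · rw [← h1]
      push_cast
      rw [jacobiSym.mul_left, jacobiSym.pow_left, hJ]
      have hc : Nat.Coprime f d := by
        rw [Nat.coprime_comm, hd.coprime_iff_not_dvd]
        intro h
        have := Nat.le_of_dvd (Nat.pos_of_ne_zero hf) h
        have := le_max_left f 2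
        omega
      rw [jacobiSym.sq_one (by simpa [Int.gcd] using hc)]
      norm_num
  by_cases hodd : ∃ p : ℕ, p.Prime ∧ p ≠ 2 ∧ p ∣ m0
  · obtain ⟨p, hp, hp2, hpm⟩ := hodd
    obtain ⟨m1, hm1⟩ := hpm
    have : Fact p.Prime := ⟨hp⟩
    have hm1' : m1 ≠ 0 := by rintro rfl; simp at hm1; omega
    have hpm1 : ¬ p ∣ m1 := by
      rintro ⟨t, rfl⟩
      have : p * p ∣ m0 := ⟨t, by rw [hm1]; ring⟩
      have := h2 p this
      exact hp.one_lt.ne' (Nat.isUnit_iff.mp this)
    obtain ⟨r, hr⟩ := exists_nonresidue p hp2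
    have hpr : ¬ p ∣ r := by
      intro h
      have : J(r | p) = 0 := by
        rw [jacobiSym.eq_zero_iff]
        refine ⟨hp.ne_zero, ?_⟩
        have hg : p ∣ Nat.gcd r p := Nat.dvd_gcd h dvd_rfl
        intro h1
        have h1' : Nat.gcd r p = 1 := by simpa [Int.gcd] using h1
        rw [h1'] at hg
        exact hp.one_lt.ne' (Nat.dvd_one.mp hg)
      omega
    have hcop : Nat.Coprime (8 * m1) p := by
      rw [Nat.coprime_comm, hp.coprime_iff_not_dvd]
      intro h
      rcases hp.dvd_mul.mp h with h | h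
      · have : p ∣ 2 ^ 3 := by simpa using h
        have := hp.dvd_of_dvd_pow this
        exact hp2 ((Nat.prime_dvd_prime_iff_eq hp Nat.prime_two).mp this)
      · exact hpm1 h
    obtain ⟨c, hc1, hc2⟩ := Nat.chineseRemainder hcop 1 r
    have hcc : c.Coprime (8 * m1 * p) := by
      refine Nat.Coprime.mul_right ?_ ?_
      · have : Nat.gcd c (8 * m1) = Nat.gcd 1 (8 * m1) := hc1.gcd_eq
        rw [Nat.coprime_iff_gcd_eq_one, this]
        simp
      · rw [Nat.coprime_comm, hp.coprime_iff_not_dvd]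
        intro h
        exact hpr ((hc2.dvd_iff dvd_rfl).mp h)
    obtain ⟨d, hd1, hd2, hd3⟩ := Nat.forall_exists_prime_gt_and_modEq (max f 2)
      (q := 8 * m1 * p) (a := c) (Nat.mul_ne_zero (Nat.mul_ne_zero (by norm_num) hm1') hp.ne_zero) hcc
    refine ⟨d, hd2, hd1, ?_⟩
    have hdo : d % 2 = 1 := hd2.eq_two_or_odd.resolve_left (by
      have := le_max_right f 2; omega)
    have hd8 : d ≡ 1 [MOD 8 * m1] := (hd3.of_dvd ⟨p, rfl⟩).trans hc1
    have hdp : d ≡ r [MOD p] := (hd3.of_dvd ⟨8 * m1, by ring⟩).trans hc2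
    rw [hm1]
    push_cast
    rw [jacobiSym.mul_left]
    have e1 : J(p | d) = -1 := by
      have hd4 : d % 4 = 1 := by
        have : d ≡ 1 [MOD 4] := hd8.of_dvd ⟨2 * m1, by ring⟩
        simpa [Nat.ModEq] using this
      rw [jacobiSym.quadratic_reciprocity_one_mod_four' (hp.odd_of_ne_two hp2) hd4, ← hr]
      exact jacobiSym.mod_left' (by exact_mod_cast hdp)
    have e2 : J(m1 | d) = 1 := by
      rw [jacobiSym.mod_right _ (Nat.odd_iff.mpr hdo)]
      have : d % (4 * ((m1 : ℤ).natAbs)) = 1 % (4 * m1) := by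
        have h4 : d % (4 * m1) = 1 % (4 * m1) := hd8.of_dvd ⟨2, by ring⟩
        rw [Int.natAbs_natCast]
        exact h4
      rw [this, Nat.mod_eq_of_lt (by omega)]
      exact jacobiSym.one_right _
    rw [e1, e2]
    norm_num
  · push Not at hodd
    have h22 : m0 = 2 := by
      have h3 : m0.primeFactors = {2} := by
        apply Finset.eq_singleton_iff_nonempty_unique_mem.mpr
        refine ⟨Nat.nonempty_primeFactors.mpr (by omega), ?_⟩
        intro q hq
        by_contra hq2
        exact hodd q (Nat.prime_of_mem_primeFactors hq) hq2 (Nat.dvd_of_mem_primeFactors hq)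
      have := Nat.prod_primeFactors_of_squarefree h2
      rw [h3] at this
      simpa using this.symm
    obtain ⟨d, hd1, hd2, hd3⟩ := Nat.forall_exists_prime_gt_and_modEq (max f 2)
      (q := 8) (a := 5) (by norm_num) (by norm_num)
    refine ⟨d, hd2, hd1, ?_⟩
    have hdo : d % 2 = 1 := hd2.eq_two_or_odd.resolve_left (by
      have := le_max_right f 2; omega)
    rw [h22]
    rw [jacobiSym.mod_right _ (Nat.odd_iff.mpr hdo)]
    have : d % (4 * ((2 : ℕ) : ℤ).natAbs) = 5 := by
      have : d % 8 = 5 % 8 := hd3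
      simpa using this
    rw [this]
    norm_num

lemma chi_ne_one (m : ℕ) [NeZero m] (hm : ¬ IsSquare m) : chi m ≠ 1 := by
  obtain ⟨d, hd, hJ⟩ := exists_jacobi_neg_one m hm
  intro h
  have h1 := chi_apply m d
  rw [h, jval_odd hd, hJ] at h1
  by_cases hu : IsUnit ((d : ℕ) : ZMod (4 * m))
  · rw [MulChar.one_apply hu] at h1
    norm_num at h1
  · rw [MulChar.map_nonunit _ hu] at h1
    norm_num at h1

end Pool.Agent.Lib.P5632c9
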