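import Mathlib

/-!
# Cone counting: reduction of a pair `(Q,P)` to a small pair `(W,B)`
-/

namespace Pool.Agent.Lib.P5632c9

open Finset

/-- a finset of integers in one residue class mod `W` of diameter `≤ L` has `≤ L/W+1` elements -/
lemma card_class (S : Finset ℤ) (W : ℤ) (hW : 0 < W) (L : ℝ) (hL : 0 ≤ L)
    (hmod : ∀ s ∈ S, ∀ s' ∈ S, W ∣ s - s') (hdiff : ∀ s ∈ S, ∀ s' ∈ S, ((s : ℝ) - s') ≤ L) :
    (S.card : ℝ) ≤ L / W + 1 := by
  have hWR : (0 : ℝ) < W := by exact_mod_cast hW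
  rcases S.eq_empty_or_nonempty with rfl | hne
  · simp; positivity
  set s0 := S.min' hne with hs0
  have hs0S : s0 ∈ S := S.min'_mem hne
  have h1 : S.card ≤ (range (⌊L / W⌋₊ + 1)).card := by
    refine card_le_card_of_injOn (fun s => ((s - s0) / W).toNat) ?_ ?_
    · intro s hs
      have hs' : s ∈ S := hs
      have h2 : s0 ≤ s := S.min'_le s hs'
      rw [mem_coe, mem_range, Nat.lt_succ_iff]
      refine Nat.le_floor ?_
      have h3 : 0 ≤ (s - s0) / W := Int.ediv_nonneg (by omega) hW.le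
      have h4 : (((s - s0) / W).toNat : ℝ) = (((s - s0) / W : ℤ) : ℝ) := by
        exact_mod_cast congrArg (fun z : ℤ => (z : ℝ)) (Int.toNat_of_nonneg h3)
      rw [h4, le_div_iff₀ hWR]
      have h5 : (s - s0) / W * W ≤ s - s0 := Int.ediv_mul_le _ hW.ne'
      have h6 : (((s - s0) / W : ℤ) : ℝ) * W ≤ (s : ℝ) - s0 := by exact_mod_cast h5
      exact h6.trans (hdiff s hs' s0 hs0S)
    · intro s hs s' hs' h
      have hsS : s ∈ S := hs
      have hsS' : s' ∈ S := hs'
      have h3 : 0 ≤ (s - s0) / W := Int.ediv_nonneg (by have := S.min'_le s hsS; omega) hW.le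
      have h3' : 0 ≤ (s' - s0) / W := Int.ediv_nonneg (by have := S.min'_le s' hsS'; omega) hW.le
      have h4 : (s - s0) / W = (s' - s0) / W := by
        have : (((s - s0) / W).toNat : ℤ) = (((s' - s0) / W).toNat : ℤ) := by
          exact_mod_cast h
        rwa [Int.toNat_of_nonneg h3, Int.toNat_of_nonneg h3'] at this
      have h5 := Int.ediv_mul_cancel (hmod s hsS s0 hs0S)
      have h6 := Int.ediv_mul_cancel (hmod s' hsS' s0 hs0S)
      rw [h4] at h5
      have := h5.symm.trans h6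
      omega
  rw [card_range] at h1
  calc (S.card : ℝ) ≤ ((⌊L / W⌋₊ + 1 : ℕ) : ℝ) := by exact_mod_cast h1
    _ = (⌊L / W⌋₊ : ℝ) + 1 := by push_cast; ring
    _ ≤ L / W + 1 := by
        have := Nat.floor_le (a := L / W) (by positivity)
        linarith

/-- the data attached to a pair of type B -/
structure ConeData (n Q P W B y t : ℤ) : Prop where
  ex : ∃ x A c w : ℤ, B ^ 2 + W * A = n ∧ t = -(W * x + B * y) ∧ t = Q * w + P * y ∧
    x * B - y * A = Q * c + P * x ∧ w * x - c * y = 1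
  hW : 0 < W
  hW2 : W ^ 2 < 4 * n
  hB0 : 0 ≤ B
  hB : B < W
  hy : 1 ≤ y
  hyQ : 4 * n * (y - 1) ^ 2 ≤ Q ^ 2
  hQ : Q * W = n * y ^ 2 - t ^ 2

lemma ConeData.inj {n Q Q' P P' W B y t : ℤ} (h : ConeData n Q P W B y t)
    (h' : ConeData n Q' P' W B y t) (hQ0 : 0 < Q) (hP0 : 0 ≤ P) (hP : P < Q) (hP0' : 0 ≤ P')
    (hP' : P' < Q') : Q = Q' ∧ P = P' := by
  obtain ⟨x, A, c, w, h1, h2, h3, h4, h5⟩ := h.ex
  obtain ⟨x', A', c', w', h1', h2', h3', h4', h5'⟩ := h'.ex
  have hW := h.hW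
  have hQQ : Q = Q' := by
    have : Q * W = Q' * W := by rw [h.hQ, h'.hQ]
    exact mul_right_cancel₀ hW.ne' this
  subst hQQ
  have hx : x = x' := by
    have : W * x = W * x' := by linarith
    exact mul_left_cancel₀ hW.ne' this
  subst hx
  have hA : A = A' := by
    have : W * A = W * A' := by linarith
    exact mul_left_cancel₀ hW.ne' this
  subst hA
  refine ⟨rfl, ?_⟩
  have e1 : Q * (w - w') = (P' - P) * y := by linarith
  have e2 : Q * (c - c') = (P' - P) * x := by linarith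
  have e3 : Q ∣ P' - P := by
    refine ⟨w * (c - c') - c * (w - w'), ?_⟩
    have : P' - P = (P' - P) * (w * x - c * y) := by rw [h5]; ring
    calc P' - P = (P' - P) * (w * x - c * y) := this
      _ = w * ((P' - P) * x) - c * ((P' - P) * y) := by ring
      _ = w * (Q * (c - c')) - c * (Q * (w - w')) := by rw [e1, e2]
      _ = _ := by ring
  obtain ⟨k, hk⟩ := e3
  have : k = 0 := by
    have h6 : -Q < Q * k := by linarith
    have h7 : Q * k < Q := by linarith
    have h8 : -1 < k := by nlinarith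
    have h9 : k < 1 := by nlinarith
    omega
  subst this
  linarith

lemma exists_near (Q z : ℤ) (hQ : 0 < Q) : ∃ w : ℤ, 4 * (Q * w + z) ^ 2 ≤ Q ^ 2 := by
  have h1 := Int.emod_nonneg z hQ.ne'
  have h2 := Int.emod_lt_of_pos z hQ
  have h3 := Int.mul_ediv_add_emod z Q
  by_cases h : 2 * (z % Q) ≤ Q
  · refine ⟨-(z / Q), ?_⟩
    have e : Q * -(z / Q) + z = z % Q := by linarith
    rw [e]
    nlinarith
  · push Not at h
    refine ⟨-(z / Q) - 1, ?_⟩
    have e : Q * (-(z / Q) - 1) + z = z % Q - Q := by linarith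
    rw [e]
    nlinarith

lemma sq_ne (n : ℤ) (hn : ¬ IsSquare n) (a b : ℤ) (hb : b ≠ 0) : a ^ 2 ≠ n * b ^ 2 := by
  intro h
  have hd : b ∣ a := by
    have : b ^ 2 ∣ a ^ 2 := ⟨n, by rw [h]; ring⟩
    exact (Int.pow_dvd_pow_iff (by norm_num)).mp this
  obtain ⟨k, rfl⟩ := hd
  apply hn
  refine ⟨k, ?_⟩
  have hb2 : b ^ 2 ≠ 0 := pow_ne_zero 2 hb
  have : b ^ 2 * (k * k) = b ^ 2 * n := by linarith
  exact (mul_left_cancel₀ hb2 this).symm

/-- The dichotomy: type A or type B. -/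
lemma cone_dichotomy (n Q P : ℤ) (hn0 : 0 < n) (hn : ¬ IsSquare n) (hQ : 0 < Q)
    (hd : Q ∣ P ^ 2 - n) :
    (∃ t : ℤ, t ^ 2 < n ∧ Q ∣ t - P) ∨ ∃ W B y t : ℤ, ConeData n Q P W B y t := by
  classical
  have hex : ∃ y : ℕ, 1 ≤ y ∧ ∃ w : ℤ, (Q * w + P * y) ^ 2 < n * (y : ℤ) ^ 2 := by
    refine ⟨Q.toNat, by omega, -P, ?_⟩
    have : (Q.toNat : ℤ) = Q := Int.toNat_of_nonneg hQ.le
    rw [this]
    have e : Q * -P + P * Q = 0 := by ring
    rw [e]
    positivity
  obtain ⟨hy1, w, hw⟩ := Nat.find_spec hex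
  set y0 := Nat.find hex with hy0
  have hmin : ∀ y' : ℕ, 1 ≤ y' → y' < y0 → ∀ w' : ℤ, n * (y' : ℤ) ^ 2 ≤ (Q * w' + P * y') ^ 2 := by
    intro y' h1 h2 w'
    have := Nat.find_min hex h2
    push Not at this
    exact this h1 w'
  rcases Nat.lt_or_ge 1 y0 with hy2 | hy2
  swap
  · left
    have hy : y0 = 1 := by omega
    rw [hy] at hw
    refine ⟨Q * w + P, by simpa using hw, ⟨w, by ring⟩⟩
  right
  set y : ℤ := (y0 : ℤ) with hy
  have hy2' : 2 ≤ y := by rw [hy]; exact_mod_cast hy2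
  have hminZ : ∀ y' : ℤ, 1 ≤ y' → y' < y → ∀ w' : ℤ, n * y' ^ 2 ≤ (Q * w' + P * y') ^ 2 := by
    intro y' h1 h2 w'
    have := hmin y'.toNat (by omega) (by omega) w'
    rwa [Int.toNat_of_nonneg (by omega)] at this
  obtain ⟨R, hR⟩ := hd
  -- coprimality
  have hcop : IsCoprime w y := by
    rw [Int.isCoprime_iff_gcd_eq_one]
    by_contra hg
    have hg0 : Int.gcd w y ≠ 0 := by
      intro h0
      have := Int.gcd_eq_zero_iff.mp h0
      omega
    have hg2 : 2 ≤ Int.gcd w y := by omega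
    obtain ⟨w', hw'⟩ := Int.gcd_dvd_left w y
    obtain ⟨y', hy'⟩ := Int.gcd_dvd_right w y
    set g : ℤ := (Int.gcd w y : ℤ) with hgdef
    have hg2' : 2 ≤ g := by rw [hgdef]; exact_mod_cast hg2
    have hy'pos : 1 ≤ y' := by
      by_contra h
      push Not at h
      have : g * y' ≤ 0 := by nlinarith
      omega
    have hy'lt : y' < y := by nlinarith
    have h1 := hminZ y' hy'pos hy'lt w'
    rw [hy', hw'] at hw
    have e : (Q * (g * w') + P * (g * y')) ^ 2 = g ^ 2 * (Q * w' + P * y') ^ 2 := by ring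
    have e2 : n * (g * y') ^ 2 = g ^ 2 * (n * y' ^ 2) := by ring
    rw [e, e2] at hw
    have hg2pos : 0 < g ^ 2 := by positivity
    nlinarith [mul_le_mul_of_nonneg_left h1 hg2pos.le]
  obtain ⟨a, b, hab⟩ := hcop
  -- x0, c0
  set x0 : ℤ := a % y with hx0
  have hx0nn : 0 ≤ x0 := Int.emod_nonneg _ (by omega)
  have hx0lt : x0 < y := Int.emod_lt_of_pos _ (by omega)
  have hdx : y ∣ w * x0 - 1 := by
    have h1 : a = y * (a / y) + x0 := (Int.mul_ediv_add_emod a y).symm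
    refine ⟨-b - w * (a / y), ?_⟩
    linear_combination hab - w * h1
  obtain ⟨c0, hc0⟩ := hdx
  have hx0pos : 1 ≤ x0 := by
    by_contra h
    have : x0 = 0 := by omega
    rw [this] at hc0
    have h1 : y ∣ 1 := ⟨-c0, by linarith⟩
    have := Int.le_of_dvd (by norm_num) h1
    omega
  -- values
  set A1 : ℤ := Q * c0 ^ 2 + 2 * P * c0 * x0 + R * x0 ^ 2 with hA1
  set A2 : ℤ := Q * (w - c0) ^ 2 + 2 * P * (w - c0) * (y - x0) + R * (y - x0) ^ 2 with hA2
  set W : ℤ := -(Q * w ^ 2 + 2 * P * w * y + R * y ^ 2) with hWdef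
  set B0 : ℤ := Q * w * c0 + P * (w * x0 + c0 * y) + R * y * x0 with hB0def
  have hdet : w * x0 - c0 * y = 1 := by linarith
  have key : ∀ z x : ℤ, Q * (Q * z ^ 2 + 2 * P * z * x + R * x ^ 2) = (Q * z + P * x) ^ 2 - n * x ^ 2 := by
    intro z x
    have : Q * R = P ^ 2 - n := by linarith
    linear_combination x ^ 2 * this
  have hWpos : 0 < W := by
    have h1 := key w y
    have h2 : Q * W = n * y ^ 2 - (Q * w + P * y) ^ 2 := by rw [hWdef]; linarith
    have h3 : 0 < Q * W := by rw [h2]; linarith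
    exact pos_of_mul_pos_right h3 hQ.le
  have hA1pos : 0 < A1 := by
    have h1 := key c0 x0
    rw [← hA1] at h1
    have h2 := hminZ x0 hx0pos hx0lt c0
    have h3 := sq_ne n hn (Q * c0 + P * x0) x0 (by omega)
    have h4 : 0 < Q * A1 := by
      rw [h1]
      have : n * x0 ^ 2 < (Q * c0 + P * x0) ^ 2 := lt_of_le_of_ne h2 (Ne.symm h3)
      linarith
    exact pos_of_mul_pos_right h4 hQ.le
  have hA2pos : 0 < A2 := by
    have h1 := key (w - c0) (y - x0)
    rw [← hA2] at h1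
    have h2 := hminZ (y - x0) (by omega) (by omega) (w - c0)
    have h3 := sq_ne n hn (Q * (w - c0) + P * (y - x0)) (y - x0) (by omega)
    have h4 : 0 < Q * A2 := by
      rw [h1]
      have : n * (y - x0) ^ 2 < (Q * (w - c0) + P * (y - x0)) ^ 2 := lt_of_le_of_ne h2 (Ne.symm h3)
      linarith
    exact pos_of_mul_pos_right h4 hQ.le
  have hdisc : B0 ^ 2 + W * A1 = n := by
    have h1 : B0 ^ 2 + W * A1 = (P ^ 2 - Q * R) * (w * x0 - c0 * y) ^ 2 := by
      rw [hB0def, hWdef, hA1]; ring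
    rw [h1, hdet]
    linarith
  have hA2eq : A2 = A1 - 2 * B0 - W := by
    rw [hA2, hA1, hB0def, hWdef]; ring
  have hW2 : W ^ 2 < 4 * n := by
    have h1 : 4 * n = W ^ 2 + 2 * W * (A1 + A2) + (A1 - A2) ^ 2 := by
      have h2 : 2 * B0 = A1 - A2 - W := by linarith
      have h3 : 4 * n = (2 * B0) ^ 2 + 4 * (W * A1) := by linarith
      rw [h3, h2]; ring
    have h4 : 0 < W * (A1 + A2) := mul_pos hWpos (by linarith)
    have h5 := sq_nonneg (A1 - A2)
    linarith
  -- normalisation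
  set k : ℤ := -(B0 / W) with hk
  have hBnn := Int.emod_nonneg B0 hWpos.ne'
  have hBlt := Int.emod_lt_of_pos B0 hWpos
  have hBeq : B0 % W = B0 + k * W := by
    have := Int.mul_ediv_add_emod B0 W
    rw [hk]; linarith
  refine ⟨W, B0 % W, y, Q * w + P * y, ⟨⟨x0 - k * y, A1 - 2 * k * B0 - k ^ 2 * W,
    c0 - k * w, w, ?_, ?_, rfl, ?_, ?_⟩, hWpos, hW2, hBnn, hBlt, by omega, ?_, ?_⟩⟩
  · rw [hBeq]; linear_combination hdisc
  · rw [hBeq, hWdef, hB0def]
    linear_combination (-(Q * w + P * y)) * hdet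
  · rw [hBeq, hWdef, hB0def, hA1]
    linear_combination (Q * (c0 - k * w) + P * (x0 - k * y)) * hdet
  · linear_combination hdet
  · obtain ⟨w', hw'⟩ := exists_near Q (P * (y - 1)) hQ
    have h1 := hminZ (y - 1) (by omega) (by omega) w'
    linarith
  · have h1 := key w y
    rw [hWdef]; linarith

end Pool.Agent.Lib.P5632c9
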