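import Pool.Agent.Lib.P5632c9.Label
import Pool.Agent.Lib.P5632c9.DivBound
import Pool.Agent.Lib.P5632c9.Cone

/-!
# Points on the conic `U² = kV² + lS²`
-/

namespace Pool.Agent.Lib.P5632c9

open Finset

/-- no prime `q` with `q² ∣ n` and `q⁴ ≤ n` -/
def Star (n : ℕ) : Prop := ∀ q : ℕ, q.Prime → q ^ 2 ∣ n → n < q ^ 4

lemma star_no {n : ℕ} (hst : Star n) {q : ℕ} (hq : q.Prime) (hqn : q ^ 2 ∣ n) {l : ℤ}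
    (hl0 : l ≠ 0) (hl : l ^ 2 ≤ n) : ¬ (q : ℤ) ^ 2 ∣ l := by
  intro h
  have h1 := hst q hq hqn
  have h2 : (q : ℤ) ^ 2 ≤ |l| := by
    have := Int.le_of_dvd (abs_pos.mpr hl0) ((dvd_abs _ _).mpr h)
    exact this
  have h3 : ((q : ℤ) ^ 2) ^ 2 ≤ |l| ^ 2 := pow_le_pow_left₀ (by positivity) h2 2
  rw [sq_abs] at h3
  have h4 : (n : ℤ) < (q : ℤ) ^ 4 := by exact_mod_cast h1
  have h5 : ((q : ℤ) ^ 2) ^ 2 = (q : ℤ) ^ 4 := by ring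
  linarith

/-- vectors on the conic -/
structure OnConic (n l : ℤ) (v : ℤ × ℤ × ℤ) : Prop where
  eq : v.1 ^ 2 = (n - l) * v.2.1 ^ 2 + l * v.2.2 ^ 2
  spos : 0 < v.2.2
  sle : v.2.2 ^ 2 ≤ n
  vlt : v.2.1 ^ 2 < v.2.2 ^ 2
  gcd : (Int.gcd v.2.1 v.2.2 : ℤ) ∣ 4 * (l * (n - l))

/-- 3×3 determinant -/
def det3 (v₁ v₂ v₃ : ℤ × ℤ × ℤ) : ℤ :=
  v₁.1 * (v₂.2.1 * v₃.2.2 - v₃.2.1 * v₂.2.2) - v₁.2.1 * (v₂.1 * v₃.2.2 - v₃.1 * v₂.2.2) +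
    v₁.2.2 * (v₂.1 * v₃.2.1 - v₃.1 * v₂.2.1)

lemma isotropic_parallel {k l U₁ V₁ S₁ U₂ V₂ S₂ : ℤ} (hk : k ≠ 0) (hl : l ≠ 0)
    (h1 : U₁ ^ 2 = k * V₁ ^ 2 + l * S₁ ^ 2) (h2 : U₂ ^ 2 = k * V₂ ^ 2 + l * S₂ ^ 2)
    (h12 : U₁ * U₂ = k * (V₁ * V₂) + l * (S₁ * S₂)) :
    U₁ * S₂ = U₂ * S₁ ∧ V₁ * S₂ = V₂ * S₁ := by
  constructor
  · have h : l * (U₁ * S₂ - U₂ * S₁) ^ 2 = 0 := by
      have e : l * (U₁ * S₂ - U₂ * S₁) ^ 2 =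
          (U₁ * U₂ - l * (S₁ * S₂)) ^ 2 - (U₁ ^ 2 - l * S₁ ^ 2) * (U₂ ^ 2 - l * S₂ ^ 2) := by ring
      rw [e, h12, h1, h2]; ring
    rcases mul_eq_zero.mp h with h | h
    · exact absurd h hl
    · have := pow_eq_zero_iff (two_ne_zero) |>.mp h
      linarith
  · have h : (k * l) * (V₁ * S₂ - V₂ * S₁) ^ 2 = 0 := by
      have e : (k * l) * (V₁ * S₂ - V₂ * S₁) ^ 2 =
          (k * V₁ ^ 2 + l * S₁ ^ 2) * (k * V₂ ^ 2 + l * S₂ ^ 2) -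
            (k * (V₁ * V₂) + l * (S₁ * S₂)) ^ 2 := by ring
      rw [e, ← h12, ← h1, ← h2]; ring
    rcases mul_eq_zero.mp h with h | h
    · exact absurd h (mul_ne_zero hk hl)
    · have := pow_eq_zero_iff (two_ne_zero) |>.mp h
      linarith

lemma gram_identity {k l : ℤ} {v₁ v₂ v₃ : ℤ × ℤ × ℤ}
    (h1 : v₁.1 ^ 2 = k * v₁.2.1 ^ 2 + l * v₁.2.2 ^ 2)
    (h2 : v₂.1 ^ 2 = k * v₂.2.1 ^ 2 + l * v₂.2.2 ^ 2)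
    (h3 : v₃.1 ^ 2 = k * v₃.2.1 ^ 2 + l * v₃.2.2 ^ 2) :
    2 * (v₁.1 * v₂.1 - k * (v₁.2.1 * v₂.2.1) - l * (v₁.2.2 * v₂.2.2)) *
      (v₁.1 * v₃.1 - k * (v₁.2.1 * v₃.2.1) - l * (v₁.2.2 * v₃.2.2)) *
      (v₂.1 * v₃.1 - k * (v₂.2.1 * v₃.2.1) - l * (v₂.2.2 * v₃.2.2)) =
      k * l * det3 v₁ v₂ v₃ ^ 2 := by
  obtain ⟨a, b, c⟩ := v₁
  obtain ⟨d, e, f⟩ := v₂
  obtain ⟨g, h, i⟩ := v₃
  simp only [det3] at *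
  -- det of the Gram matrix
  have key : ∀ G11 G22 G33 G12 G13 G23 : ℤ,
      G11 = a ^ 2 - k * b ^ 2 - l * c ^ 2 → G22 = d ^ 2 - k * e ^ 2 - l * f ^ 2 →
      G33 = g ^ 2 - k * h ^ 2 - l * i ^ 2 → G12 = a * d - k * (b * e) - l * (c * f) →
      G13 = a * g - k * (b * h) - l * (c * i) → G23 = d * g - k * (e * h) - l * (f * i) →
      G11 * G22 * G33 + 2 * G12 * G13 * G23 - G11 * G23 ^ 2 - G22 * G13 ^ 2 - G33 * G12 ^ 2 =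
        k * l * (a * (e * i - h * f) - b * (d * i - g * f) + c * (d * h - g * e)) ^ 2 := by
    rintro G11 G22 G33 G12 G13 G23 rfl rfl rfl rfl rfl rfl
    ring
  have := key 0 0 0 _ _ _ (by linarith) (by linarith) (by linarith) rfl rfl rfl
  linarith

/-- three points with vanishing determinant: two of them are proportional -/
lemma proportional_of_det_zero {k l : ℤ} (hk : k ≠ 0) (hl : l ≠ 0) {v₁ v₂ v₃ : ℤ × ℤ × ℤ}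
    (h1 : v₁.1 ^ 2 = k * v₁.2.1 ^ 2 + l * v₁.2.2 ^ 2)
    (h2 : v₂.1 ^ 2 = k * v₂.2.1 ^ 2 + l * v₂.2.2 ^ 2)
    (h3 : v₃.1 ^ 2 = k * v₃.2.1 ^ 2 + l * v₃.2.2 ^ 2) (hdet : det3 v₁ v₂ v₃ = 0) :
    (v₁.1 * v₂.2.2 = v₂.1 * v₁.2.2 ∧ v₁.2.1 * v₂.2.2 = v₂.2.1 * v₁.2.2) ∨
    (v₁.1 * v₃.2.2 = v₃.1 * v₁.2.2 ∧ v₁.2.1 * v₃.2.2 = v₃.2.1 * v₁.2.2) ∨
    (v₂.1 * v₃.2.2 = v₃.1 * v₂.2.2 ∧ v₂.2.1 * v₃.2.2 = v₃.2.1 * v₂.2.2) := by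
  have h := gram_identity h1 h2 h3
  rw [hdet] at h
  have h' : (v₁.1 * v₂.1 - k * (v₁.2.1 * v₂.2.1) - l * (v₁.2.2 * v₂.2.2)) *
      (v₁.1 * v₃.1 - k * (v₁.2.1 * v₃.2.1) - l * (v₁.2.2 * v₃.2.2)) *
      (v₂.1 * v₃.1 - k * (v₂.2.1 * v₃.2.1) - l * (v₂.2.2 * v₃.2.2)) = 0 := by linarith
  rcases mul_eq_zero.mp h' with h' | h'
  · rcases mul_eq_zero.mp h' with h' | h'
    · exact Or.inl (isotropic_parallel hk hl h1 h2 (by linarith))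
    · exact Or.inr (Or.inl (isotropic_parallel hk hl h1 h3 (by linarith)))
  · exact Or.inr (Or.inr (isotropic_parallel hk hl h2 h3 (by linarith)))

/-- `k ∣ 2 det` from the labels -/
lemma dvd_two_det_US {k : ℤ} {v₁ v₂ v₃ : ℤ × ℤ × ℤ}
    (h12 : k ∣ 2 * (v₁.1 * v₂.2.2 - v₂.1 * v₁.2.2)) (h13 : k ∣ 2 * (v₁.1 * v₃.2.2 - v₃.1 * v₁.2.2))
    (h23 : k ∣ 2 * (v₂.1 * v₃.2.2 - v₃.1 * v₂.2.2)) : k ∣ 2 * det3 v₁ v₂ v₃ := by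
  have e : 2 * det3 v₁ v₂ v₃ = -(v₁.2.1 * (2 * (v₂.1 * v₃.2.2 - v₃.1 * v₂.2.2))) +
      v₂.2.1 * (2 * (v₁.1 * v₃.2.2 - v₃.1 * v₁.2.2)) -
      v₃.2.1 * (2 * (v₁.1 * v₂.2.2 - v₂.1 * v₁.2.2)) := by
    unfold det3; ring
  rw [e]
  exact dvd_sub (dvd_add (dvd_neg.mpr (h23.mul_left _)) (h13.mul_left _)) (h12.mul_left _)

lemma dvd_two_det_UV {k : ℤ} {v₁ v₂ v₃ : ℤ × ℤ × ℤ}
    (h12 : k ∣ 2 * (v₁.1 * v₂.2.1 - v₂.1 * v₁.2.1)) (h13 : k ∣ 2 * (v₁.1 * v₃.2.1 - v₃.1 * v₁.2.1))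
    (h23 : k ∣ 2 * (v₂.1 * v₃.2.1 - v₃.1 * v₂.2.1)) : k ∣ 2 * det3 v₁ v₂ v₃ := by
  have e : 2 * det3 v₁ v₂ v₃ = v₁.2.2 * (2 * (v₂.1 * v₃.2.1 - v₃.1 * v₂.2.1)) -
      v₂.2.2 * (2 * (v₁.1 * v₃.2.1 - v₃.1 * v₁.2.1)) +
      v₃.2.2 * (2 * (v₁.1 * v₂.2.1 - v₂.1 * v₁.2.1)) := by
    unfold det3; ring
  rw [e]
  exact dvd_add (dvd_sub (h23.mul_left _) (h13.mul_left _)) (h12.mul_left _)

/-- real estimate of the determinant -/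
lemma det_bound {s θ L : ℝ} {v₁ v₂ v₃ : ℤ × ℤ × ℤ} (hs : 0 < s) (hθ : 0 ≤ θ)
    (hS1 : 0 < (v₁.2.2 : ℝ)) (hS2 : 0 < (v₂.2.2 : ℝ)) (hS3 : 0 < (v₃.2.2 : ℝ))
    (hS1' : (v₁.2.2 : ℝ) ≤ s) (hS2' : (v₂.2.2 : ℝ) ≤ s) (hS3' : (v₃.2.2 : ℝ) ≤ s)
    (hab : |((v₁.1 + s * v₁.2.1) / v₁.2.2) * ((v₁.1 - s * v₁.2.1) / v₁.2.2)| ≤ L)
    (ha2 : |(v₂.1 + s * v₂.2.1) / v₂.2.2 - (v₁.1 + s * v₁.2.1) / v₁.2.2| ≤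
      2 * θ * |(v₁.1 + s * v₁.2.1) / v₁.2.2|)
    (ha3 : |(v₃.1 + s * v₃.2.1) / v₃.2.2 - (v₁.1 + s * v₁.2.1) / v₁.2.2| ≤
      2 * θ * |(v₁.1 + s * v₁.2.1) / v₁.2.2|)
    (hb2 : |(v₂.1 - s * v₂.2.1) / v₂.2.2 - (v₁.1 - s * v₁.2.1) / v₁.2.2| ≤
      2 * θ * |(v₁.1 - s * v₁.2.1) / v₁.2.2|)
    (hb3 : |(v₃.1 - s * v₃.2.1) / v₃.2.2 - (v₁.1 - s * v₁.2.1) / v₁.2.2| ≤
      2 * θ * |(v₁.1 - s * v₁.2.1) / v₁.2.2|) :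
    |(2 * det3 v₁ v₂ v₃ : ℝ)| ≤ 8 * θ ^ 2 * L * s ^ 2 := by
  set a₁ := (v₁.1 + s * v₁.2.1) / (v₁.2.2 : ℝ) with ha1
  set a₂ := (v₂.1 + s * v₂.2.1) / (v₂.2.2 : ℝ) with ha2'
  set a₃ := (v₃.1 + s * v₃.2.1) / (v₃.2.2 : ℝ) with ha3'
  set b₁ := (v₁.1 - s * v₁.2.1) / (v₁.2.2 : ℝ) with hb1
  set b₂ := (v₂.1 - s * v₂.2.1) / (v₂.2.2 : ℝ) with hb2'
  set b₃ := (v₃.1 - s * v₃.2.1) / (v₃.2.2 : ℝ) with hb3'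
  have e : (2 * det3 v₁ v₂ v₃ : ℝ) * s = -((v₁.2.2 : ℝ) * v₂.2.2 * v₃.2.2 *
      ((a₂ - a₁) * (b₃ - b₁) - (a₃ - a₁) * (b₂ - b₁))) := by
    rw [ha1, ha2', ha3', hb1, hb2', hb3']
    unfold det3
    push_cast
    field_simp
    ring
  have h1 : |(a₂ - a₁) * (b₃ - b₁) - (a₃ - a₁) * (b₂ - b₁)| ≤ 8 * θ ^ 2 * L := by
    have h2 : |(a₂ - a₁) * (b₃ - b₁)| ≤ (2 * θ * |a₁|) * (2 * θ * |b₁|) := by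
      rw [abs_mul]; exact mul_le_mul ha2 hb3 (abs_nonneg _) (by positivity)
    have h3 : |(a₃ - a₁) * (b₂ - b₁)| ≤ (2 * θ * |a₁|) * (2 * θ * |b₁|) := by
      rw [abs_mul]; exact mul_le_mul ha3 hb2 (abs_nonneg _) (by positivity)
    rw [abs_mul] at hab
    calc _ ≤ |(a₂ - a₁) * (b₃ - b₁)| + |(a₃ - a₁) * (b₂ - b₁)| := abs_sub _ _
      _ ≤ 8 * θ ^ 2 * (|a₁| * |b₁|) := by nlinarith
      _ ≤ 8 * θ ^ 2 * L := by gcongr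
  have hL0 : 0 ≤ L := le_trans (abs_nonneg _) hab
  have h4 : |(2 * det3 v₁ v₂ v₃ : ℝ)| * s ≤ (s * s * s) * (8 * θ ^ 2 * L) := by
    calc |(2 * det3 v₁ v₂ v₃ : ℝ)| * s = |(2 * det3 v₁ v₂ v₃ : ℝ) * s| := by
          rw [abs_mul (2 * (det3 v₁ v₂ v₃ : ℝ)) s, abs_of_pos hs]
      _ = ((v₁.2.2 : ℝ) * v₂.2.2 * v₃.2.2) *
          |(a₂ - a₁) * (b₃ - b₁) - (a₃ - a₁) * (b₂ - b₁)| := by
          rw [e, abs_neg, abs_mul, abs_of_pos (by positivity)]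
      _ ≤ (s * s * s) * (8 * θ ^ 2 * L) := by gcongr
  have h5 : |(2 * det3 v₁ v₂ v₃ : ℝ)| * s ≤ (8 * θ ^ 2 * L * s ^ 2) * s := by
    calc _ ≤ _ := h4
      _ = _ := by ring
  exact le_of_mul_le_mul_right h5 hs

end Pool.Agent.Lib.P5632c9
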