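import Pool.Agent.Lib.P5632c9.Cells

/-!
# The number of points on the conic
-/

namespace Pool.Agent.Lib.P5632c9

open Finset

/-- the normalised coordinates -/
noncomputable def aco (s : ℝ) (v : ℤ × ℤ × ℤ) : ℝ := (v.1 + s * v.2.1) / v.2.2
noncomputable def bco (s : ℝ) (v : ℤ × ℤ × ℤ) : ℝ := (v.1 - s * v.2.1) / v.2.2

lemma aco_bco {n : ℕ} {l : ℤ} (hn4 : 4 ≤ n) (hl : l ≠ 0) (hln : l ^ 2 ≤ n)
    {v : ℤ × ℤ × ℤ} (hv : OnConic n l v) :
    aco √(n : ℝ) v ≠ 0 ∧ bco √(n : ℝ) v ≠ 0 ∧ |aco √(n : ℝ) v * bco √(n : ℝ) v| ≤ |(l : ℝ)| ∧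
    |Real.log (|aco √(n : ℝ) v|)| ≤ 3 * Real.log n ∧
    |Real.log (|bco √(n : ℝ) v|)| ≤ 3 * Real.log n ∧
    0 < (v.2.2 : ℝ) ∧ (v.2.2 : ℝ) ≤ √(n : ℝ) := by
  obtain ⟨h1, h2, h3, h4⟩ := AB_bounds hn4 hl hln hv
  have hnR : (4 : ℝ) ≤ n := by exact_mod_cast hn4
  have hS0 : (0 : ℝ) < v.2.2 := by exact_mod_cast hv.spos
  have hS1 : (1 : ℝ) ≤ v.2.2 := by exact_mod_cast hv.spos
  have hSn : (v.2.2 : ℝ) ^ 2 ≤ n := by exact_mod_cast hv.sle
  have hSs : (v.2.2 : ℝ) ≤ √(n : ℝ) := Real.le_sqrt_of_sq_le hSn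
  have hsn : √(n : ℝ) ≤ n := by
    rw [Real.sqrt_le_left (by linarith)]; nlinarith
  have hAB : (v.1 + √(n : ℝ) * v.2.1) * (v.1 - √(n : ℝ) * v.2.1) ≠ 0 := by
    intro h; rw [h] at h2; norm_num at h2
  have hA : (v.1 + √(n : ℝ) * v.2.1) ≠ 0 := left_ne_zero_of_mul hAB
  have hB : (v.1 - √(n : ℝ) * v.2.1) ≠ 0 := right_ne_zero_of_mul hAB
  refine ⟨div_ne_zero hA hS0.ne', div_ne_zero hB hS0.ne', ?_, ?_, ?_, hS0, hSs⟩
  · unfold aco bco
    have e : (v.1 + √(n : ℝ) * v.2.1) / v.2.2 * ((v.1 - √(n : ℝ) * v.2.1) / v.2.2) =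
        l * (((v.2.2 : ℝ) ^ 2 - (v.2.1 : ℝ) ^ 2) / (v.2.2 : ℝ) ^ 2) := by
      rw [div_mul_div_comm, h1]; ring
    rw [e, abs_mul]
    have h5 : |((v.2.2 : ℝ) ^ 2 - (v.2.1 : ℝ) ^ 2) / (v.2.2 : ℝ) ^ 2| ≤ 1 := by
      have hv2 : (v.2.1 : ℝ) ^ 2 < (v.2.2 : ℝ) ^ 2 := by exact_mod_cast hv.vlt
      rw [abs_of_nonneg (by apply div_nonneg <;> nlinarith [sq_nonneg (v.2.1 : ℝ)]),
        div_le_one (by positivity)]
      nlinarith [sq_nonneg (v.2.1 : ℝ)]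
    calc _ ≤ |(l : ℝ)| * 1 := mul_le_mul_of_nonneg_left h5 (abs_nonneg _)
      _ = _ := mul_one _
  · exact log_bound hn4 h2 h3 h4 hS1 (hSs.trans hsn)
  · rw [mul_comm] at h2
    exact log_bound hn4 h2 h4 h3 hS1 (hSs.trans hsn)

lemma floor_mem {x θ R : ℝ} {M : ℕ} (hθ : 0 < θ) (hx : |x| ≤ R) (hM : R / θ + 1 ≤ M) :
    ⌊x / θ⌋ ∈ Icc (-(M : ℤ)) M := by
  have h1 := abs_le.mp hx
  have h2 : x / θ ≤ R / θ := div_le_div_of_nonneg_right h1.2 hθ.le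
  have h3 : -(R / θ) ≤ x / θ := by
    rw [← neg_div]; exact div_le_div_of_nonneg_right h1.1 hθ.le
  rw [mem_Icc]
  constructor
  · apply Int.le_floor.mpr
    push_cast
    linarith
  · have h4 : (⌊x / θ⌋ : ℝ) ≤ M := (Int.floor_le _).trans (by linarith)
    exact_mod_cast h4

/-- two divisors with a common multiple -/
lemma mul_dvd_gcd_mul {k l D : ℤ} (hk : k ∣ D) (hl : l ∣ D) : k * l ∣ (Int.gcd k l : ℤ) * D := by
  obtain ⟨a, ha⟩ := hk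
  obtain ⟨b, hb⟩ := hl
  rw [Int.gcd_eq_gcd_ab]
  have e : (k * Int.gcdA k l + l * Int.gcdB k l) * D =
      k * l * (Int.gcdA k l * b + Int.gcdB k l * a) := by
    have e1 : k * Int.gcdA k l * D = k * l * (Int.gcdA k l * b) := by rw [hb]; ring
    have e2 : l * Int.gcdB k l * D = k * l * (Int.gcdB k l * a) := by rw [ha]; ring
    calc _ = k * Int.gcdA k l * D + l * Int.gcdB k l * D := by ring
      _ = _ := by rw [e1, e2]; ring
  rw [e]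
  exact Dvd.intro _ rfl

theorem conic_card_raw (n : ℕ) (hn4 : 4 ≤ n) (hst : Star n) (l : ℤ) (hl : l ≠ 0)
    (hln : l ^ 2 ≤ n) (Tc : Finset (ℤ × ℤ × ℤ)) (hon : ∀ v ∈ Tc, OnConic n l v) (M : ℕ)
    (hM : 3 * Real.log n * (5 * √((Int.gcd n l : ℕ) : ℝ)) + 1 ≤ M) :
    Tc.card ≤ ((4 * (l * ((n : ℤ) - l))).natAbs.divisors.card * 2) *
      (((n : ℤ) - l).natAbs.divisors.card ^ 2 * (l.natAbs.divisors.card ^ 2 *
        ((2 * M + 1) * ((2 * M + 1) * 4)))) := by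
  classical
  have hnR : (4 : ℝ) ≤ n := by exact_mod_cast hn4
  have hs2 : √(n : ℝ) ^ 2 = n := Real.sq_sqrt (by linarith)
  have hs0 : 0 < √(n : ℝ) := Real.sqrt_pos.mpr (by linarith)
  have hshalf : √(n : ℝ) ≤ n / 2 := by
    rw [Real.sqrt_le_left (by linarith)]; nlinarith
  have hlR : |(l : ℝ)| ≤ √(n : ℝ) := Real.abs_le_sqrt (by exact_mod_cast hln)
  have hkR : (n : ℝ) / 2 ≤ n - l := by
    have := (abs_le.mp hlR).2; linarith
  have hkpos : (0 : ℤ) < (n : ℤ) - l := by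
    have : (0 : ℝ) < (((n : ℤ) - l : ℤ) : ℝ) := by push_cast; linarith
    exact_mod_cast this
  set k : ℤ := (n : ℤ) - l with hk
  have hknat : ((k.natAbs : ℕ) : ℤ) = k := Int.natAbs_of_nonneg hkpos.le
  set d : ℕ := Int.gcd n l with hd
  have hd1 : 1 ≤ d := Int.gcd_pos_of_ne_zero_right _ hl
  have hdR : (1 : ℝ) ≤ d := by exact_mod_cast hd1
  have hsd : 1 ≤ √(d : ℝ) := by
    rw [show (1 : ℝ) = √1 by simp]; exact Real.sqrt_le_sqrt hdR
  have hsd2 : √(d : ℝ) ^ 2 = d := Real.sq_sqrt (by linarith)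
  set θ : ℝ := 1 / (5 * √(d : ℝ)) with hθ
  have hθ0 : 0 < θ := by positivity
  have hθ1 : θ ≤ 1 := by
    rw [hθ, div_le_one (by positivity)]; linarith
  -- labels
  obtain ⟨labk, hk1, hk2⟩ := exists_label k.natAbs (by omega) l (by
    intro q hq hqk hql
    rw [hknat] at hqk
    have hqn : (q : ℤ) ^ 2 ∣ (n : ℤ) := by
      have := dvd_add hqk hql
      rwa [hk, sub_add_cancel] at this
    exact star_no hst hq (by exact_mod_cast hqn) hl hln hql)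
  obtain ⟨labl, hl1, hl2⟩ := exists_label l.natAbs (by omega) n (by
    intro q hq hql hqn
    have hql' : (q : ℤ) ^ 2 ∣ l := Int.dvd_natAbs.mp hql
    exact star_no hst hq (by exact_mod_cast hqn) hl hln hql')
  let κ : ℤ × ℤ × ℤ → (ℕ × ℕ) × ((ℕ × ℕ) × (ℤ × (ℤ × (Bool × Bool)))) := fun v =>
    (labk (v.1, v.2.2), (labl (v.1, v.2.1), (⌊Real.log (|aco √(n : ℝ) v|) / θ⌋,
      (⌊Real.log (|bco √(n : ℝ) v|) / θ⌋,
        (decide (0 < aco √(n : ℝ) v), decide (0 < bco √(n : ℝ) v))))))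
  have himg : (Tc.image κ).card ≤ k.natAbs.divisors.card ^ 2 * (l.natAbs.divisors.card ^ 2 *
      ((2 * M + 1) * ((2 * M + 1) * 4))) := by
    have hsub : Tc.image κ ⊆ (k.natAbs.divisors ×ˢ k.natAbs.divisors) ×ˢ
        ((l.natAbs.divisors ×ˢ l.natAbs.divisors) ×ˢ (Icc (-(M : ℤ)) M ×ˢ
          (Icc (-(M : ℤ)) M ×ˢ ((univ : Finset Bool) ×ˢ (univ : Finset Bool))))) := by
      intro x hx
      obtain ⟨v, hv, rfl⟩ := mem_image.mp hx
      obtain ⟨_, _, _, g4, g5, _, _⟩ := aco_bco hn4 hl hln (hon v hv)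
      have hMM : (3 * Real.log n) / θ + 1 ≤ M := by
        have : (3 * Real.log n) / θ = 3 * Real.log n * (5 * √(d : ℝ)) := by
          rw [hθ]; field_simp
        rw [this]; exact hM
      simp only [κ, mem_product, mem_univ, and_true]
      exact ⟨mem_product.mp (hk1 _), mem_product.mp (hl1 _), floor_mem hθ0 g4 hMM,
        floor_mem hθ0 g5 hMM⟩
    refine (card_le_card hsub).trans (le_of_eq ?_)
    simp only [card_product, Int.card_Icc, card_univ, Fintype.card_bool]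
    have : (↑M + 1 - -(M : ℤ)).toNat = 2 * M + 1 := by omega
    rw [this]
    ring
  have hfib : ∀ c ∈ Tc.image κ, #{v ∈ Tc | κ v = c} ≤
      (4 * (l * ((n : ℤ) - l))).natAbs.divisors.card * 2 := by
    intro c _
    refine class_card_le (hk ▸ hkpos.ne') hl _ (fun v hv => hon v (mem_filter.mp hv).1) ?_
    intro v₁ h1 v₂ h2 v₃ h3
    obtain ⟨m1, c1⟩ := mem_filter.mp h1
    obtain ⟨m2, c2⟩ := mem_filter.mp h2
    obtain ⟨m3, c3⟩ := mem_filter.mp h3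
    have c12 : κ v₂ = κ v₁ := c2.trans c1.symm
    have c13 : κ v₃ = κ v₁ := c3.trans c1.symm
    have c23 : κ v₃ = κ v₂ := c3.trans c2.symm
    simp only [κ, Prod.mk.injEq, decide_eq_decide] at c12 c13 c23
    obtain ⟨e1, e2, e3, e4, e5, e6⟩ := c12
    obtain ⟨f1, f2, f3, f4, f5, f6⟩ := c13
    obtain ⟨g1, g2, _⟩ := c23
    -- congruences
    have hcongk : ∀ v ∈ Tc, ((k.natAbs : ℕ) : ℤ) ∣ (v.1, v.2.2).1 ^ 2 - l * (v.1, v.2.2).2 ^ 2 := by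
      intro v hv
      rw [hknat]
      refine ⟨v.2.1 ^ 2, ?_⟩
      have := (hon v hv).eq
      simp only
      linarith
    have hcongl : ∀ v ∈ Tc, ((l.natAbs : ℕ) : ℤ) ∣ (v.1, v.2.1).1 ^ 2 - n * (v.1, v.2.1).2 ^ 2 := by
      intro v hv
      rw [Int.natAbs_dvd]
      refine ⟨v.2.2 ^ 2 - v.2.1 ^ 2, ?_⟩
      have := (hon v hv).eq
      simp only
      linarith
    have dk : k ∣ 2 * det3 v₁ v₂ v₃ := by
      rw [← hknat]
      exact dvd_two_det_US (hk2 _ _ (hcongk v₁ m1) (hcongk v₂ m2) e1.symm)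
        (hk2 _ _ (hcongk v₁ m1) (hcongk v₃ m3) f1.symm)
        (hk2 _ _ (hcongk v₂ m2) (hcongk v₃ m3) g1.symm)
    have dl : l ∣ 2 * det3 v₁ v₂ v₃ := by
      rw [← Int.natAbs_dvd]
      exact dvd_two_det_UV (hl2 _ _ (hcongl v₁ m1) (hcongl v₂ m2) e2.symm)
        (hl2 _ _ (hcongl v₁ m1) (hcongl v₃ m3) f2.symm)
        (hl2 _ _ (hcongl v₂ m2) (hcongl v₃ m3) g2.symm)
    by_contra hne
    have hdvd := mul_dvd_gcd_mul dk dl
    have hgcd : Int.gcd k l = d := by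
      rw [hk, hd]
      exact Int.gcd_sub_right_left_of_dvd _ dvd_rfl
    rw [hgcd] at hdvd
    have hne' : (d : ℤ) * (2 * det3 v₁ v₂ v₃) ≠ 0 := by
      apply mul_ne_zero
      · exact_mod_cast (by omega : d ≠ 0)
      · exact mul_ne_zero two_ne_zero hne
    have hle := Int.le_of_dvd (abs_pos.mpr hne') ((dvd_abs _ _).mpr ((abs_dvd _ _).mpr hdvd))
    obtain ⟨a1, a2, a3, _, _, a6, a7⟩ := aco_bco hn4 hl hln (hon v₁ m1)
    obtain ⟨b1, b2, b3, _, _, b6, b7⟩ := aco_bco hn4 hl hln (hon v₂ m2)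
    obtain ⟨x1, x2, x3, _, _, x6, x7⟩ := aco_bco hn4 hl hln (hon v₃ m3)
    have hdet := det_bound (θ := θ) (L := |(l : ℝ)|) hs0 hθ0.le a6 b6 x6 a7 b7 x7 a3
      (cell_close hθ0 hθ1 b1 a1 e5 e3) (cell_close hθ0 hθ1 x1 a1 f5 f3)
      (cell_close hθ0 hθ1 b2 a2 e6 e4) (cell_close hθ0 hθ1 x2 a2 f6 f4)
    rw [hs2] at hdet
    have hle' : |(k : ℝ) * l| ≤ |(d : ℝ) * (2 * det3 v₁ v₂ v₃)| := by
      have : ((|k * l| : ℤ) : ℝ) ≤ ((|(d : ℤ) * (2 * det3 v₁ v₂ v₃)| : ℤ) : ℝ) := by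
        exact_mod_cast hle
      push_cast at this
      exact this
    rw [abs_mul, abs_mul] at hle'
    have hdd : |(d : ℝ)| = d := abs_of_nonneg (by linarith)
    rw [hdd] at hle'
    have hkk : |(k : ℝ)| = n - l := by
      have : (k : ℝ) = n - l := by rw [hk]; push_cast; ring
      rw [this, abs_of_pos (by linarith)]
    rw [hkk] at hle'
    have hθ2 : (d : ℝ) * (8 * θ ^ 2 * |(l : ℝ)| * n) = (8 / 25) * |(l : ℝ)| * n := by
      have : θ ^ 2 = 1 / (25 * d) := by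
        rw [hθ, div_pow, mul_pow, hsd2]; norm_num
      rw [this]
      field_simp
    have hfin : (n / 2 : ℝ) * |(l : ℝ)| ≤ (8 / 25) * |(l : ℝ)| * n := by
      calc (n / 2 : ℝ) * |(l : ℝ)| ≤ (n - l) * |(l : ℝ)| := by gcongr
        _ ≤ d * |(2 * det3 v₁ v₂ v₃ : ℝ)| := by exact_mod_cast hle'
        _ ≤ d * (8 * θ ^ 2 * |(l : ℝ)| * n) := by gcongr
        _ = _ := hθ2
    have hlpos : 0 < |(l : ℝ)| := abs_pos.mpr (by exact_mod_cast hl)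
    nlinarith [mul_pos hlpos (by linarith : (0 : ℝ) < n)]
  calc Tc.card ≤ ((4 * (l * ((n : ℤ) - l))).natAbs.divisors.card * 2) * (Tc.image κ).card :=
        card_le_mul_card_image _ _ hfib
    _ ≤ _ := Nat.mul_le_mul_left _ himg

end Pool.Agent.Lib.P5632c9
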