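import Pool.Agent.Lib.P5632c9.Cone

/-!
# Counting with the cone dichotomy
-/

namespace Pool.Agent.Lib.P5632c9

open Finset

/-- all pairs `(Q,P)`, `1 ≤ Q ≤ Z`, `0 ≤ P < Q`, `Q ∣ P² - n` -/
noncomputable def pairs (n Z : ℤ) : Finset (ℤ × ℤ) :=
  ((Icc 1 Z) ×ˢ (Ico 0 Z)).filter (fun p => p.2 < p.1 ∧ p.1 ∣ p.2 ^ 2 - n)

/-- the pairs with `Q² ≤ n` -/
noncomputable def small (n : ℤ) : Finset (ℤ × ℤ) :=
  ((Icc 1 n) ×ˢ (Ico 0 n)).filter (fun p => p.2 < p.1 ∧ p.1 ^ 2 ≤ n ∧ p.1 ∣ p.2 ^ 2 - n)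

/-- the pairs with `Q² < 4n` -/
noncomputable def wset (n : ℤ) : Finset (ℤ × ℤ) :=
  ((Icc 1 (2 * n)) ×ˢ (Ico 0 (2 * n))).filter
    (fun p => p.2 < p.1 ∧ p.1 ^ 2 < 4 * n ∧ p.1 ∣ p.2 ^ 2 - n)

lemma mem_pairs {n Z : ℤ} {p : ℤ × ℤ} : p ∈ pairs n Z ↔
    1 ≤ p.1 ∧ p.1 ≤ Z ∧ 0 ≤ p.2 ∧ p.2 < p.1 ∧ p.1 ∣ p.2 ^ 2 - n := by
  unfold pairs
  simp only [mem_filter, mem_product, mem_Icc, mem_Ico]
  constructor
  · rintro ⟨⟨⟨h1, h2⟩, h3, h4⟩, h5, h6⟩; exact ⟨h1, h2, h3, h5, h6⟩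
  · rintro ⟨h1, h2, h3, h5, h6⟩; exact ⟨⟨⟨h1, h2⟩, h3, by omega⟩, h5, h6⟩

lemma mem_small {n : ℤ} {p : ℤ × ℤ} : p ∈ small n ↔
    1 ≤ p.1 ∧ 0 ≤ p.2 ∧ p.2 < p.1 ∧ p.1 ^ 2 ≤ n ∧ p.1 ∣ p.2 ^ 2 - n := by
  unfold small
  simp only [mem_filter, mem_product, mem_Icc, mem_Ico]
  constructor
  · rintro ⟨⟨⟨h1, h2⟩, h3, h4⟩, h5, h6, h7⟩; exact ⟨h1, h3, h5, h6, h7⟩
  · rintro ⟨h1, h3, h5, h6, h7⟩
    have : p.1 ≤ n := by nlinarith
    exact ⟨⟨⟨h1, this⟩, h3, by omega⟩, h5, h6, h7⟩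

lemma mem_wset {n : ℤ} {p : ℤ × ℤ} : p ∈ wset n ↔
    1 ≤ p.1 ∧ 0 ≤ p.2 ∧ p.2 < p.1 ∧ p.1 ^ 2 < 4 * n ∧ p.1 ∣ p.2 ^ 2 - n := by
  unfold wset
  simp only [mem_filter, mem_product, mem_Icc, mem_Ico]
  constructor
  · rintro ⟨⟨⟨h1, h2⟩, h3, h4⟩, h5, h6, h7⟩; exact ⟨h1, h3, h5, h6, h7⟩
  · rintro ⟨h1, h3, h5, h6, h7⟩
    have : p.1 ≤ 2 * n := by
      by_contra h
      push Not at h
      have hn : 1 ≤ n := by nlinarith
      nlinarith
    exact ⟨⟨⟨h1, this⟩, h3, by omega⟩, h5, h6, h7⟩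

/-- splitting into nonnegative and negative parts -/
lemma card_le_split (S : Finset ℤ) (K : ℝ) (h1 : ((S.filter (0 ≤ ·)).card : ℝ) ≤ K)
    (h2 : ((S.filter (¬ 0 ≤ ·)).card : ℝ) ≤ K) : (S.card : ℝ) ≤ 2 * K := by
  have := card_filter_add_card_filter_not (s := S) (0 ≤ ·)
  have h3 : ((S.filter (0 ≤ ·)).card : ℝ) + ((S.filter (¬ 0 ≤ ·)).card : ℝ) = S.card := by
    exact_mod_cast this
  linarith

section

variable (n : ℤ)

lemma card_tset_le (hn : 0 < n) : ((((Icc (-n) n).filter (fun t => t ^ 2 < n)).card : ℕ) : ℝ) ≤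
    2 * √(n : ℝ) + 1 := by
  have hs := Real.sqrt_nonneg (n : ℝ)
  have hs2 : √(n : ℝ) ^ 2 = n := Real.sq_sqrt (by exact_mod_cast hn.le)
  have := card_class ((Icc (-n) n).filter (fun t => t ^ 2 < n)) 1 (by norm_num) (2 * √(n : ℝ))
    (by positivity) (fun s _ s' _ => one_dvd _) ?_
  · simpa using this
  · have habs : ∀ t ∈ (Icc (-n) n).filter (fun t => t ^ 2 < n), |(t : ℝ)| ≤ √(n : ℝ) := by
      intro t ht
      have ht2 := (mem_filter.mp ht).2
      apply Real.abs_le_sqrt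
      exact_mod_cast ht2.le
    intro t ht t' ht'
    have h1 := abs_le.mp (habs t ht)
    have h2 := abs_le.mp (habs t' ht')
    linarith [h1.2, h2.1]

open scoped Classical in
lemma typeA_le (Z : ℤ) (hn : 0 < n) (T : ℝ)
    (hT : ∀ t : ℤ, t ^ 2 < n → ((n - t ^ 2).toNat.divisors.card : ℝ) ≤ T) :
    (((pairs n Z).filter (fun p => ∃ t : ℤ, t ^ 2 < n ∧ p.1 ∣ t - p.2)).card : ℝ) ≤
      (2 * √(n : ℝ) + 1) * T := by
  set ts := (Icc (-n) n).filter (fun t => t ^ 2 < n) with hts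
  have hT0 : 0 ≤ T := le_trans (by positivity) (hT 0 (by simpa using hn))
  have h1 : ((pairs n Z).filter (fun p => ∃ t : ℤ, t ^ 2 < n ∧ p.1 ∣ t - p.2)).card ≤
      (ts.sigma (fun t => (n - t ^ 2).toNat.divisors)).card := by
    refine card_le_card_of_forall_subsingleton
      (fun p q => (q.2 : ℤ) = p.1 ∧ p.1 ∣ q.1 - p.2) ?_ ?_
    · intro p hp
      obtain ⟨hp1, t, ht1, ht2⟩ := mem_filter.mp hp
      rw [mem_pairs] at hp1
      obtain ⟨h1, h2, h3, h4, h5⟩ := hp1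
      have hdvd : p.1 ∣ n - t ^ 2 := by
        have e : n - t ^ 2 = -(p.2 ^ 2 - n) - (t - p.2) * (t + p.2) := by ring
        rw [e]
        exact dvd_sub (dvd_neg.mpr h5) (ht2.mul_right _)
      refine ⟨⟨t, p.1.toNat⟩, ?_, ?_, ht2⟩
      · rw [mem_sigma]
        refine ⟨?_, ?_⟩
        · rw [hts, mem_filter, mem_Icc]
          refine ⟨⟨?_, ?_⟩, ht1⟩ <;> nlinarith
        · rw [Nat.mem_divisors]
          refine ⟨?_, by simp; omega⟩
          zify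
          rw [Int.toNat_of_nonneg (by omega), Int.toNat_of_nonneg (by omega)]
          exact hdvd
      · simp; omega
    · intro q hq p hp p' hp'
      simp only [Set.mem_ofPred_eq] at hp hp'
      obtain ⟨hp1, hp2, hp3⟩ := hp
      obtain ⟨hp1', hp2', hp3'⟩ := hp'
      have hpp := (mem_pairs.mp (mem_filter.mp hp1).1)
      have hpp' := (mem_pairs.mp (mem_filter.mp hp1').1)
      have e1 : p.1 = p'.1 := by rw [← hp2, ← hp2']
      have e2 : p.2 = p'.2 := by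
        rw [← e1] at hp3' hpp'
        have h6 : p.1 ∣ p.2 - p'.2 := by
          have : p.2 - p'.2 = (q.1 - p'.2) - (q.1 - p.2) := by ring
          rw [this]; exact dvd_sub hp3' hp3
        have h7 := Int.eq_zero_of_abs_lt_dvd h6 (by
          rw [abs_lt]; constructor <;> linarith [hpp.2.2.1, hpp.2.2.2.1, hpp'.2.2.1, hpp'.2.2.2.1])
        linarith
      exact Prod.ext e1 e2
  have h2 : ((ts.sigma (fun t => (n - t ^ 2).toNat.divisors)).card : ℝ) ≤ ts.card * T := by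
    rw [card_sigma]
    push_cast
    calc ∑ t ∈ ts, ((n - t ^ 2).toNat.divisors.card : ℝ) ≤ ∑ t ∈ ts, T :=
          sum_le_sum fun t ht => hT t (mem_filter.mp ht).2
      _ = ts.card * T := by simp
  calc _ ≤ ((ts.sigma (fun t => (n - t ^ 2).toNat.divisors)).card : ℝ) := by exact_mod_cast h1
    _ ≤ ts.card * T := h2
    _ ≤ _ := mul_le_mul_of_nonneg_right (card_tset_le n hn) hT0

/-- the set of `t` for given `W, B, y` -/
noncomputable def Tset (Z W B : ℤ) (y : ℕ) : Finset ℤ :=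
  (Icc (-(n * (y : ℤ) ^ 2)) (n * (y : ℤ) ^ 2)).filter
    (fun t => W ∣ t + B * y ∧ t ^ 2 < n * (y : ℤ) ^ 2 ∧ n * (y : ℤ) ^ 2 - t ^ 2 ≤ Z * W)

lemma card_Tset_le (Z W B : ℤ) (y : ℕ) (hn : 0 < n) (hZ : 0 ≤ Z) (hW : 0 < W) (hy : 1 ≤ y) :
    ((Tset n Z W B y).card : ℝ) ≤ 2 * (Z / (√(n : ℝ) * y) + 1) := by
  have hnR : (0 : ℝ) < n := by exact_mod_cast hn
  have hs : 0 < √(n : ℝ) := Real.sqrt_pos.mpr hnR
  have hs2 : √(n : ℝ) ^ 2 = n := Real.sq_sqrt hnR.le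
  have hyR : (1 : ℝ) ≤ y := by exact_mod_cast hy
  have hWR : (0 : ℝ) < W := by exact_mod_cast hW
  have hZR : (0 : ℝ) ≤ Z := by exact_mod_cast hZ
  set M : ℝ := √(n : ℝ) * y with hM
  have hM0 : 0 < M := by positivity
  have hM2 : M ^ 2 = n * (y : ℝ) ^ 2 := by rw [hM, mul_pow, hs2]
  have hmem : ∀ t ∈ Tset n Z W B y, |(t : ℝ)| < M ∧ M ^ 2 - (t : ℝ) ^ 2 ≤ Z * W := by
    intro t ht
    obtain ⟨_, _, h2, h3⟩ := mem_filter.mp ht
    have h2R : (t : ℝ) ^ 2 < n * (y : ℝ) ^ 2 := by exact_mod_cast h2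
    have h3R : (n : ℝ) * (y : ℝ) ^ 2 - (t : ℝ) ^ 2 ≤ Z * W := by exact_mod_cast h3
    rw [← hM2] at h2R h3R
    exact ⟨abs_lt_of_sq_lt_sq h2R hM0.le, h3R⟩
  have hdvd : ∀ t ∈ Tset n Z W B y, W ∣ t + B * y := fun t ht => (mem_filter.mp ht).2.1
  have hmod : ∀ s ∈ Tset n Z W B y, ∀ s' ∈ Tset n Z W B y, W ∣ s - s' := by
    intro s hs s' hs'
    have : s - s' = (s + B * y) - (s' + B * y) := by ring
    rw [this]; exact dvd_sub (hdvd s hs) (hdvd s' hs')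
  have hkey : ∀ a b : ℝ, 0 ≤ b → a < M → M ^ 2 - b ^ 2 ≤ Z * W → a - b ≤ Z * W / M := by
    intro a b hb ha hab
    rw [le_div_iff₀ hM0]
    by_cases hbM : b ≤ M
    · nlinarith
    · push Not at hbM
      nlinarith [mul_nonneg hZR hWR.le]
  have e : Z / M = (Z * W / M) / W := by field_simp
  rw [e]
  refine card_le_split _ _ ?_ ?_
  · refine card_class _ W hW _ (by positivity) ?_ ?_
    · intro s hs s' hs'
      exact hmod s (mem_filter.mp hs).1 s' (mem_filter.mp hs').1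
    · intro s hs s' hs'
      obtain ⟨hs1, hs2⟩ := mem_filter.mp hs
      obtain ⟨hs1', hs2'⟩ := mem_filter.mp hs'
      have h1 := hmem s hs1
      have h2 := hmem s' hs1'
      exact hkey s s' (by exact_mod_cast hs2') (abs_lt.mp h1.1).2 h2.2
  · refine card_class _ W hW _ (by positivity) ?_ ?_
    · intro s hs s' hs'
      exact hmod s (mem_filter.mp hs).1 s' (mem_filter.mp hs').1
    · intro s hs s' hs'
      obtain ⟨hs1, hs2⟩ := mem_filter.mp hs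
      obtain ⟨hs1', hs2'⟩ := mem_filter.mp hs'
      have h1 := hmem s hs1
      have h2 := hmem s' hs1'
      have h3 : (0 : ℝ) ≤ -s := by
        have : s ≤ 0 := by omega
        have : (s : ℝ) ≤ 0 := by exact_mod_cast this
        linarith
      have := hkey (-s') (-s) h3 (by linarith [(abs_lt.mp h2.1).1]) (by
        have := h1.2; nlinarith)
      linarith

open scoped Classical in
lemma typeB_le (Z : ℤ) (hn : 0 < n) (hZ : 0 ≤ Z) :
    (((pairs n Z).filter (fun p => ∃ W B y t : ℤ, ConeData n p.1 p.2 W B y t)).card : ℝ) ≤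
      (wset n).card * ∑ y ∈ Icc 1 (⌊(Z : ℝ) / (2 * √(n : ℝ))⌋₊ + 1),
        2 * ((Z : ℝ) / (√(n : ℝ) * y) + 1) := by
  have hnR : (0 : ℝ) < n := by exact_mod_cast hn
  have hs : 0 < √(n : ℝ) := Real.sqrt_pos.mpr hnR
  have hs2 : √(n : ℝ) ^ 2 = n := Real.sq_sqrt hnR.le
  set Ym := ⌊(Z : ℝ) / (2 * √(n : ℝ))⌋₊ + 1 with hYm
  have h1 : ((pairs n Z).filter (fun p => ∃ W B y t : ℤ, ConeData n p.1 p.2 W B y t)).card ≤
      ((wset n).sigma (fun wb => (Icc 1 Ym).sigma (fun y => Tset n Z wb.1 wb.2 y))).card := by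
    refine card_le_card_of_forall_subsingleton
      (fun p q => ConeData n p.1 p.2 q.1.1 q.1.2 (q.2.1 : ℤ) q.2.2) ?_ ?_
    · intro p hp
      obtain ⟨hp1, W, B, y, t, hc⟩ := mem_filter.mp hp
      rw [mem_pairs] at hp1
      obtain ⟨g1, g2, g3, g4, g5⟩ := hp1
      have hy := hc.hy
      have hyn : ((y.toNat : ℕ) : ℤ) = y := Int.toNat_of_nonneg (by omega)
      refine ⟨⟨(W, B), ⟨y.toNat, t⟩⟩, ?_, ?_⟩
      · rw [mem_sigma]
        refine ⟨?_, ?_⟩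
        · rw [mem_wset]
          obtain ⟨x, A, c, w, e1, _⟩ := hc.ex
          refine ⟨hc.hW, hc.hB0, hc.hB, hc.hW2, ⟨-A, ?_⟩⟩
          show B ^ 2 - n = W * -A
          linarith
        · rw [mem_sigma]
          refine ⟨?_, ?_⟩
          · rw [mem_Icc]
            refine ⟨by show 1 ≤ y.toNat; omega, ?_⟩
            show y.toNat ≤ Ym
            have h2 := hc.hyQ
            have h3 : 4 * n * (y - 1) ^ 2 ≤ Z ^ 2 := h2.trans (by nlinarith)
            have h4 : (4 : ℝ) * n * ((y : ℝ) - 1) ^ 2 ≤ (Z : ℝ) ^ 2 := by exact_mod_cast h3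
            have h5 : (y : ℝ) - 1 ≤ (Z : ℝ) / (2 * √(n : ℝ)) := by
              rw [le_div_iff₀ (by positivity)]
              refine abs_le_of_sq_le_sq' ?_ (by exact_mod_cast hZ) |>.2
              calc (((y : ℝ) - 1) * (2 * √(n : ℝ))) ^ 2 = 4 * √(n : ℝ) ^ 2 * ((y : ℝ) - 1) ^ 2 := by
                    ring
                _ = 4 * n * ((y : ℝ) - 1) ^ 2 := by rw [hs2]
                _ ≤ _ := h4
            have h6 : (y - 1).toNat ≤ ⌊(Z : ℝ) / (2 * √(n : ℝ))⌋₊ := by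
              refine Nat.le_floor ?_
              have : (((y - 1).toNat : ℕ) : ℝ) = (y : ℝ) - 1 := by
                have h7 : (((y - 1).toNat : ℕ) : ℤ) = y - 1 := Int.toNat_of_nonneg (by omega)
                exact_mod_cast congrArg (fun z : ℤ => (z : ℝ)) h7
              rw [this]; exact h5
            omega
          · show t ∈ Tset n Z W B y.toNat
            unfold Tset
            rw [mem_filter, mem_Icc, hyn]
            obtain ⟨x, A, c, w, e1, e2, _⟩ := hc.ex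
            have hq := hc.hQ
            have hW := hc.hW
            have hQW : 0 < p.1 * W := mul_pos (by omega) hW
            refine ⟨⟨?_, ?_⟩, ⟨-x, by rw [e2]; ring⟩, by linarith, ?_⟩
            · nlinarith
            · nlinarith
            · rw [← hq]; exact mul_le_mul_of_nonneg_right g2 hW.le
      · show ConeData n p.1 p.2 W B ((y.toNat : ℕ) : ℤ) t
        rw [hyn]; exact hc
    · intro q hq p hp p' hp'
      simp only [Set.mem_ofPred_eq] at hp hp'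
      obtain ⟨hp1, hp2⟩ := hp
      obtain ⟨hp1', hp2'⟩ := hp'
      have hpp := (mem_pairs.mp (mem_filter.mp hp1).1)
      have hpp' := (mem_pairs.mp (mem_filter.mp hp1').1)
      have := hp2.inj hp2' (by omega) hpp.2.2.1 hpp.2.2.2.1 hpp'.2.2.1 hpp'.2.2.2.1
      exact Prod.ext this.1 this.2
  have h2 : (((wset n).sigma (fun wb => (Icc 1 Ym).sigma
      (fun y => Tset n Z wb.1 wb.2 y))).card : ℝ) ≤
      (wset n).card * ∑ y ∈ Icc 1 Ym, 2 * ((Z : ℝ) / (√(n : ℝ) * y) + 1) := by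
    rw [card_sigma]
    push_cast
    calc _ ≤ ∑ wb ∈ wset n, ∑ y ∈ Icc 1 Ym, 2 * ((Z : ℝ) / (√(n : ℝ) * y) + 1) := by
          refine sum_le_sum fun wb hwb => ?_
          rw [card_sigma]
          push_cast
          refine sum_le_sum fun y hy => ?_
          exact card_Tset_le n Z wb.1 wb.2 y hn hZ (by
            have := (mem_wset.mp hwb).1; omega) (mem_Icc.mp hy).1
      _ = _ := by simp
  exact le_trans (by exact_mod_cast h1) h2

open scoped Classical in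
theorem card_pairs_le (Z : ℤ) (hn : 0 < n) (hns : ¬ IsSquare n) (hZ : 0 ≤ Z) (T : ℝ)
    (hT : ∀ t : ℤ, t ^ 2 < n → ((n - t ^ 2).toNat.divisors.card : ℝ) ≤ T) :
    ((pairs n Z).card : ℝ) ≤ (2 * √(n : ℝ) + 1) * T +
      (wset n).card * ∑ y ∈ Icc 1 (⌊(Z : ℝ) / (2 * √(n : ℝ))⌋₊ + 1),
        2 * ((Z : ℝ) / (√(n : ℝ) * y) + 1) := by
  have h1 : pairs n Z ⊆ (pairs n Z).filter (fun p => ∃ t : ℤ, t ^ 2 < n ∧ p.1 ∣ t - p.2) ∪
      (pairs n Z).filter (fun p => ∃ W B y t : ℤ, ConeData n p.1 p.2 W B y t) := by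
    intro p hp
    have hpp := mem_pairs.mp hp
    rw [mem_union, mem_filter, mem_filter]
    rcases cone_dichotomy n p.1 p.2 hn hns (by omega) hpp.2.2.2.2 with h | h
    · exact Or.inl ⟨hp, h⟩
    · exact Or.inr ⟨hp, h⟩
  have h2 := (card_le_card h1).trans (card_union_le _ _)
  have h3 : ((pairs n Z).card : ℝ) ≤
      (((pairs n Z).filter (fun p => ∃ t : ℤ, t ^ 2 < n ∧ p.1 ∣ t - p.2)).card : ℝ) +
      (((pairs n Z).filter (fun p => ∃ W B y t : ℤ, ConeData n p.1 p.2 W B y t)).card : ℝ) := by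
    exact_mod_cast h2
  exact h3.trans (add_le_add (typeA_le n Z hn T hT) (typeB_le n Z hn hZ))

end

end Pool.Agent.Lib.P5632c9
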