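import Mathlib

/-!
# Covering numbers of a set of continued fractions with every second digit even
-/

set_option autoImplicit false

open Finset

namespace Pool.Agent.Lib.P5632c9

lemma two_rpow_le : (2:ℝ) ^ (-(1.9:ℝ)) ≤ 0.268 := by
  have h1 : ((2:ℝ) ^ (-(1.9:ℝ))) ^ (10:ℕ) ≤ (0.268:ℝ) ^ (10:ℕ) := by
    rw [← Real.rpow_natCast, ← Real.rpow_mul (by norm_num)]
    have e : -(1.9:ℝ) * ((10:ℕ):ℝ) = -((19:ℕ):ℝ) := by norm_num
    rw [e, Real.rpow_neg (by norm_num), Real.rpow_natCast]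
    norm_num
  exact le_of_pow_le_pow_left₀ (by norm_num) (by norm_num) h1

lemma sum_rpow_le (N : ℕ) : ∑ d ∈ Icc 1 N, (d:ℝ) ^ (-(1.9:ℝ)) ≤ 1.864 := by
  have h2 := two_rpow_le
  have h0 : ∀ d : ℕ, 0 ≤ (d:ℝ) ^ (-(1.9:ℝ)) := fun d => Real.rpow_nonneg (Nat.cast_nonneg _) _
  -- reduce to N ≥ 2
  have hmono : ∑ d ∈ Icc 1 N, (d:ℝ) ^ (-(1.9:ℝ)) ≤ ∑ d ∈ Icc 1 (N + 2), (d:ℝ) ^ (-(1.9:ℝ)) := by
    apply Finset.sum_le_sum_of_subset_of_nonneg
    · intro d hd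
      rw [mem_Icc] at hd ⊢
      omega
    · intro d _ _
      exact h0 d
  refine hmono.trans ?_
  have hsplit : ∑ d ∈ Icc 1 (N + 2), (d:ℝ) ^ (-(1.9:ℝ))
      = 1 + (2:ℝ) ^ (-(1.9:ℝ)) + ∑ i ∈ range N, ((2:ℝ) + ((i + 1 : ℕ):ℝ)) ^ (-(1.9:ℝ)) := by
    have e1 : Icc 1 (N + 2) = range (N + 3) \ {0} := by
      ext d
      simp only [mem_Icc, mem_sdiff, mem_range, mem_singleton]
      omega
    have e2 : ∑ d ∈ Icc 1 (N + 2), (d:ℝ) ^ (-(1.9:ℝ))
        = ∑ i ∈ range (N + 2), ((i + 1 : ℕ):ℝ) ^ (-(1.9:ℝ)) := by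
      rw [Finset.range_eq_Ico, Finset.sum_Ico_add' (fun i : ℕ => (i:ℝ) ^ (-(1.9:ℝ))) 0 (N + 2) 1]
      apply Finset.sum_congr _ (fun _ _ => rfl)
      ext d
      simp only [mem_Icc, mem_Ico]
      omega
    rw [e2, Finset.sum_range_succ', Finset.sum_range_succ']
    have e3 : ∀ i : ℕ, ((i + 1 + 1 + 1 : ℕ):ℝ) = 2 + ((i + 1 : ℕ):ℝ) := by
      intro i
      push_cast
      ring
    simp_rw [e3]
    have e4 : ((0 + 1 : ℕ):ℝ) ^ (-(1.9:ℝ)) = 1 := by norm_num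
    have e5 : ((0 + 1 + 1 : ℕ):ℝ) ^ (-(1.9:ℝ)) = (2:ℝ) ^ (-(1.9:ℝ)) := by norm_num
    rw [e4, e5]
    ring
  rw [hsplit]
  have hanti : AntitoneOn (fun x : ℝ => x ^ (-(1.9:ℝ))) (Set.Icc (2:ℝ) (2 + (N:ℝ))) := by
    intro x hx y hy hxy
    exact Real.rpow_le_rpow_of_nonpos (by linarith [hx.1]) hxy (by norm_num)
  have hint := hanti.sum_le_integral
  have hval : ∫ x in (2:ℝ)..(2 + (N:ℝ)), x ^ (-(1.9:ℝ))
      = ((2 + (N:ℝ)) ^ (-(1.9:ℝ) + 1) - (2:ℝ) ^ (-(1.9:ℝ) + 1)) / (-(1.9:ℝ) + 1) := by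
    apply integral_rpow
    right
    refine ⟨by norm_num, ?_⟩
    intro h
    rw [Set.mem_uIcc] at h
    have hN : (0:ℝ) ≤ N := Nat.cast_nonneg N
    rcases h with h | h <;> linarith [h.1, h.2]
  rw [hval] at hint
  have h3 : 0 ≤ (2 + (N:ℝ)) ^ (-(1.9:ℝ) + 1) := Real.rpow_nonneg (by positivity) _
  have h4 : (2:ℝ) ^ (-(1.9:ℝ) + 1) = 2 * (2:ℝ) ^ (-(1.9:ℝ)) := by
    rw [Real.rpow_add (by norm_num), Real.rpow_one]
    ring
  rw [h4] at hint
  have h5 : ((2 + (N:ℝ)) ^ (-(1.9:ℝ) + 1) - 2 * (2:ℝ) ^ (-(1.9:ℝ))) / (-(1.9:ℝ) + 1)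
      ≤ 2 * 0.268 / 0.9 := by
    rw [div_le_iff_of_neg (by norm_num)]
    linarith
  have h6 : ∑ i ∈ range N, ((2:ℝ) + ((i + 1 : ℕ):ℝ)) ^ (-(1.9:ℝ)) ≤ 2 * 0.268 / 0.9 :=
    hint.trans h5
  have h7 : (2:ℝ) * 0.268 / 0.9 ≤ 0.596 := by norm_num
  linarith

/-- The covering property with nonnegative left endpoints. -/
def Cov (E : Set ℝ) (Z k : ℝ) : Prop :=
  ∃ C : Finset ℝ, (∀ c ∈ C, 0 ≤ c) ∧ (C.card : ℝ) ≤ k ∧ ∀ b ∈ E, ∃ c ∈ C, c ≤ b ∧ b ≤ c + 1 / Z ^ 2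

/-- Covering of an interval. -/
lemma cover_interval (p q Z : ℝ) (hp : 0 ≤ p) (hpq : p ≤ q) (hZ : 1 ≤ Z) :
    Cov (Set.Icc p q) Z ((q - p) * Z ^ 2 + 1) := by
  classical
  have hZ2 : 0 < Z ^ 2 := by positivity
  refine ⟨(range (⌊(q - p) * Z ^ 2⌋₊ + 1)).image (fun i : ℕ => p + (i:ℝ) / Z ^ 2), ?_, ?_, ?_⟩
  · intro c hc
    obtain ⟨i, _, rfl⟩ := mem_image.mp hc
    positivity
  · have h1 : (((range (⌊(q - p) * Z ^ 2⌋₊ + 1)).image (fun i : ℕ => p + (i:ℝ) / Z ^ 2)).card : ℝ)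
        ≤ ((⌊(q - p) * Z ^ 2⌋₊ + 1 : ℕ) : ℝ) := by
      have := Finset.card_image_le (s := range (⌊(q - p) * Z ^ 2⌋₊ + 1))
        (f := fun i : ℕ => p + (i:ℝ) / Z ^ 2)
      rw [card_range] at this
      exact_mod_cast this
    refine h1.trans ?_
    push_cast
    have := Nat.floor_le (show 0 ≤ (q - p) * Z ^ 2 by
      apply mul_nonneg (by linarith) hZ2.le)
    linarith
  · intro b hb
    have hb0 : 0 ≤ (b - p) * Z ^ 2 := mul_nonneg (by linarith [hb.1]) hZ2.le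
    refine ⟨p + (⌊(b - p) * Z ^ 2⌋₊ : ℝ) / Z ^ 2, ?_, ?_, ?_⟩
    · rw [mem_image]
      refine ⟨⌊(b - p) * Z ^ 2⌋₊, ?_, rfl⟩
      rw [mem_range]
      apply Nat.lt_succ_of_le
      apply Nat.floor_le_floor
      have := hb.2
      gcongr
    · have h1 := Nat.floor_le hb0
      have h2 : (⌊(b - p) * Z ^ 2⌋₊ : ℝ) / Z ^ 2 ≤ b - p := by
        rw [div_le_iff₀ hZ2]
        exact h1
      linarith
    · have h1 := (Nat.lt_floor_add_one ((b - p) * Z ^ 2)).le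
      have h2 : b - p ≤ ((⌊(b - p) * Z ^ 2⌋₊ : ℝ) + 1) / Z ^ 2 := by
        rw [le_div_iff₀ hZ2]
        exact h1
      rw [add_div] at h2
      linarith

lemma Cov.mono {E F : Set ℝ} {Z k l : ℝ} (h : Cov E Z k) (hFE : F ⊆ E) (hkl : k ≤ l) : Cov F Z l := by
  obtain ⟨C, h1, h2, h3⟩ := h
  exact ⟨C, h1, h2.trans hkl, fun b hb => h3 b (hFE hb)⟩

lemma Cov.union {E F : Set ℝ} {Z k l : ℝ} (h : Cov E Z k) (h' : Cov F Z l) : Cov (E ∪ F) Z (k + l) := by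
  classical
  obtain ⟨C, h1, h2, h3⟩ := h
  obtain ⟨C', h1', h2', h3'⟩ := h'
  refine ⟨C ∪ C', ?_, ?_, ?_⟩
  · intro c hc
    rcases mem_union.mp hc with hc | hc
    · exact h1 c hc
    · exact h1' c hc
  · have : ((C ∪ C').card : ℝ) ≤ C.card + C'.card := by exact_mod_cast Finset.card_union_le C C'
    linarith
  · intro b hb
    rcases hb with hb | hb
    · obtain ⟨c, hc, hcb⟩ := h3 b hb
      exact ⟨c, mem_union_left _ hc, hcb⟩
    · obtain ⟨c, hc, hcb⟩ := h3' b hb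
      exact ⟨c, mem_union_right _ hc, hcb⟩

lemma Cov.iUnion {ι : Type*} (s : Finset ι) (E : ι → Set ℝ) (Z : ℝ) (k : ι → ℝ)
    (h : ∀ i ∈ s, Cov (E i) Z (k i)) : Cov (⋃ i ∈ s, E i) Z (∑ i ∈ s, k i) := by
  classical
  induction s using Finset.induction_on with
  | empty =>
    refine ⟨∅, by simp, by simp, ?_⟩
    intro b hb
    simp at hb
  | insert i s hi ih =>
    rw [Finset.sum_insert hi]
    have h1 := ih (fun j hj => h j (mem_insert_of_mem hj))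
    have h2 := h i (mem_insert_self _ _)
    refine (h2.union h1).mono ?_ le_rfl
    intro b hb
    simp only [Set.mem_iUnion, mem_insert, exists_prop] at hb
    obtain ⟨j, hj, hbj⟩ := hb
    rcases hj with rfl | hj
    · exact Or.inl hbj
    · right
      simp only [Set.mem_iUnion, exists_prop]
      exact ⟨j, hj, hbj⟩

/-- The contraction property. -/
lemma Cov.cylinder {E : Set ℝ} {Z k : ℝ} (a d : ℕ) (ha : 1 ≤ a) (hd : 1 ≤ d) (hZ : 0 < Z)
    (hE : ∀ t ∈ E, 0 < t) (h : Cov E (Z / ((a:ℝ) * d)) k) :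
    Cov {b | ∃ t ∈ E, b = 1 / ((a:ℝ) + 1 / ((d:ℝ) + t))} Z k := by
  classical
  obtain ⟨C, h1, h2, h3⟩ := h
  have ha0 : (0:ℝ) < a := by exact_mod_cast ha
  have hd0 : (0:ℝ) < d := by exact_mod_cast hd
  refine ⟨C.image (fun c => 1 / ((a:ℝ) + 1 / ((d:ℝ) + c))), ?_, ?_, ?_⟩
  · intro c hc
    obtain ⟨c', hc', rfl⟩ := mem_image.mp hc
    have := h1 c' hc'
    positivity
  · refine le_trans ?_ h2
    exact_mod_cast Finset.card_image_le
  · intro b hb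
    obtain ⟨t, ht, rfl⟩ := hb
    obtain ⟨c, hc, hct, htc⟩ := h3 t ht
    have hc0 := h1 c hc
    have ht0 := hE t ht
    have e1 : ∀ x : ℝ, 0 ≤ x → 1 / ((a:ℝ) + 1 / ((d:ℝ) + x)) = (d + x) / (a * (d + x) + 1) := by
      intro x hx
      have : (0:ℝ) < d + x := by positivity
      field_simp
    refine ⟨_, mem_image_of_mem _ hc, ?_, ?_⟩
    · rw [e1 c hc0, e1 t ht0.le, div_le_div_iff₀ (by positivity) (by positivity)]
      nlinarith
    · rw [e1 c hc0, e1 t ht0.le]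
      have h4 : (d + t) / (a * (d + t) + 1) - (d + c) / (a * (d + c) + 1)
          = (t - c) / ((a * (d + t) + 1) * (a * (d + c) + 1)) := by
        have e2 : (a * (d + t) + 1 : ℝ) ≠ 0 := by positivity
        have e3 : (a * (d + c) + 1 : ℝ) ≠ 0 := by positivity
        field_simp
        ring
      have h5 : (t - c) / ((a * (d + t) + 1) * (a * (d + c) + 1)) ≤ (t - c) / ((a * d) * (a * d)) := by
        have h6 : 0 ≤ t - c := by linarith
        have h7 : (a * d : ℝ) ≤ a * (d + t) + 1 := by nlinarith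
        have h8 : (a * d : ℝ) ≤ a * (d + c) + 1 := by nlinarith
        have h9 : (0:ℝ) < a * d := by positivity
        apply div_le_div_of_nonneg_left h6 (by positivity)
        exact mul_le_mul h7 h8 h9.le (by positivity)
      have h6 : (t - c) / ((a * d) * (a * d)) ≤ 1 / Z ^ 2 := by
        have h7 : t - c ≤ 1 / (Z / ((a:ℝ) * d)) ^ 2 := by linarith
        have h8 : 1 / (Z / ((a:ℝ) * d)) ^ 2 = (1 / Z ^ 2) * ((a * d) * (a * d)) := by
          field_simp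
        rw [h8] at h7
        rw [div_le_iff₀ (by positivity)]
        exact h7
      linarith

/-- The bulk part: `a > Z`, or `a ≤ Z` and `d > Z / a`. -/
lemma bulk_cover (Z : ℝ) (hZ : 1 ≤ Z) :
    Cov {b : ℝ | ∃ a d : ℕ, 1 ≤ a ∧ 1 ≤ d ∧ Z < (a:ℝ) * d ∧ ∃ t : ℝ, 0 < t ∧ t < 1 ∧
      b = 1 / ((a:ℝ) + 1 / ((d:ℝ) + t))} Z (5 * Z ^ (1.9:ℝ)) := by
  classical
  have hZ0 : 0 < Z := by linarith
  set N := ⌊Z⌋₊ with hN
  have hNZ : (N:ℝ) ≤ Z := Nat.floor_le hZ0.le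
  have h1 : Cov (Set.Icc 0 (1 / Z)) Z ((1 / Z - 0) * Z ^ 2 + 1) :=
    cover_interval 0 (1 / Z) Z le_rfl (by positivity) hZ
  have h2 : ∀ a ∈ Icc 1 N, Cov (Set.Icc (1 / (a:ℝ) - 1 / (a * Z)) (1 / a)) Z (Z / a + 1) := by
    intro a ha
    rw [mem_Icc] at ha
    have ha0 : (0:ℝ) < a := by
      have : 0 < a := by omega
      exact_mod_cast this
    have e : (1 / (a:ℝ) - (1 / (a:ℝ) - 1 / (a * Z))) * Z ^ 2 + 1 = Z / a + 1 := by
      field_simp
      ring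
    rw [← e]
    apply cover_interval _ _ _ _ _ hZ
    · have : 1 / (a * Z) ≤ 1 / (a:ℝ) := by
        apply one_div_le_one_div_of_le ha0
        nlinarith
      linarith
    · have : 0 ≤ 1 / ((a:ℝ) * Z) := by positivity
      linarith
  have h3 := Cov.iUnion (Icc 1 N) _ Z _ h2
  have h4 := h1.union h3
  refine h4.mono ?_ ?_
  · rintro b ⟨a, d, ha, hd, had, t, ht0, ht1, rfl⟩
    have ha0 : (0:ℝ) < a := by exact_mod_cast ha
    have hd0 : (0:ℝ) < d := by exact_mod_cast hd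
    by_cases haZ : (a:ℝ) ≤ Z
    · right
      simp only [Set.mem_iUnion, exists_prop]
      refine ⟨a, ?_, ?_, ?_⟩
      · rw [mem_Icc]
        exact ⟨ha, Nat.le_floor haZ⟩
      · -- lower bound
        have h5 : 1 / ((d:ℝ) + t) ≤ a / Z := by
          rw [div_le_div_iff₀ (by positivity) hZ0]
          nlinarith
        have h6 : (a:ℝ) + 1 / ((d:ℝ) + t) ≤ a * (1 + 1 / Z) := by
          have : (a:ℝ) / Z = a * (1 / Z) := by ring
          linarith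
        have h7 : 1 / (a * (1 + 1 / Z)) ≤ 1 / ((a:ℝ) + 1 / ((d:ℝ) + t)) :=
          one_div_le_one_div_of_le (by positivity) h6
        refine le_trans ?_ h7
        have h8 : 1 / (a * (1 + 1 / Z)) - (1 / (a:ℝ) - 1 / (a * Z)) = 1 / (a * Z * (Z + 1)) := by
          field_simp
          ring
        have h9 : 0 ≤ 1 / (a * Z * (Z + 1)) := by positivity
        linarith
      · apply one_div_le_one_div_of_le ha0
        have : 0 ≤ 1 / ((d:ℝ) + t) := by positivity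
        linarith
    · left
      push Not at haZ
      constructor
      · positivity
      · apply one_div_le_one_div_of_le hZ0
        have : 0 ≤ 1 / ((d:ℝ) + t) := by positivity
        linarith
  · -- the count
    have e1 : (1 / Z - 0) * Z ^ 2 + 1 = Z + 1 := by
      rw [sub_zero]
      field_simp
    rw [e1, Finset.sum_add_distrib, Finset.sum_const, Nat.card_Icc, nsmul_eq_mul, mul_one,
      Nat.add_sub_cancel]
    have h5 : ∑ a ∈ Icc 1 N, Z / (a:ℝ) ≤ 1.864 * Z ^ (1.9:ℝ) := by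
      have h6 : ∀ a ∈ Icc 1 N, Z / (a:ℝ) ≤ Z ^ (1.9:ℝ) * (a:ℝ) ^ (-(1.9:ℝ)) := by
        intro a ha
        rw [mem_Icc] at ha
        have ha0 : (0:ℝ) < a := by
          have : 0 < a := by omega
          exact_mod_cast this
        have haZ : (a:ℝ) ≤ Z := le_trans (by exact_mod_cast ha.2) hNZ
        have h7 : 1 ≤ Z / a := by rw [le_div_iff₀ ha0]; linarith
        have h8 : Z ^ (1.9:ℝ) * (a:ℝ) ^ (-(1.9:ℝ)) = (Z / a) ^ (1.9:ℝ) := by
          rw [Real.div_rpow hZ0.le ha0.le, Real.rpow_neg ha0.le]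
          rfl
        rw [h8]
        calc Z / a = (Z / a) ^ (1:ℝ) := (Real.rpow_one _).symm
          _ ≤ (Z / a) ^ (1.9:ℝ) := Real.rpow_le_rpow_of_exponent_le h7 (by norm_num)
      refine (Finset.sum_le_sum h6).trans ?_
      rw [← Finset.mul_sum, mul_comm]
      exact mul_le_mul_of_nonneg_right (sum_rpow_le N) (Real.rpow_nonneg hZ0.le _)
    have h6 : Z ≤ Z ^ (1.9:ℝ) := by
      calc Z = Z ^ (1:ℝ) := (Real.rpow_one _).symm
        _ ≤ Z ^ (1.9:ℝ) := Real.rpow_le_rpow_of_exponent_le hZ (by norm_num)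
    linarith

/-- The covering theorem. -/
theorem cover : ∃ A : ℝ, 0 < A ∧ ∀ E : Set ℝ,
    (∀ b ∈ E, 0 < b ∧ b < 1 ∧ ∃ a d : ℕ, Even a ∧ 2 ≤ a ∧ 1 ≤ d ∧
      ∃ t ∈ E, b = 1 / ((a:ℝ) + 1 / ((d:ℝ) + t))) →
    ∀ Z : ℝ, 1 ≤ Z → ∃ C : Finset ℝ, (C.card : ℝ) ≤ A * Z ^ (1.9:ℝ) ∧
      ∀ b ∈ E, ∃ c ∈ C, c ≤ b ∧ b ≤ c + 1 / Z ^ 2 := by
  classical
  refine ⟨100, by norm_num, fun E hE => ?_⟩
  have key : ∀ n : ℕ, ∀ Z : ℝ, 1 ≤ Z → Z < 2 ^ n → Cov E Z (100 * Z ^ (1.9:ℝ)) := by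
    intro n
    induction n with
    | zero =>
      intro Z hZ hZn
      rw [pow_zero] at hZn
      linarith
    | succ n ih =>
      intro Z hZ hZn
      have hZ0 : 0 < Z := by linarith
      set N := ⌊Z⌋₊ with hN
      -- the pairs of digits
      set P : Finset (ℕ × ℕ) := ((Icc 1 N) ×ˢ (Icc 1 N)).filter
        (fun w => ((2 * w.1 : ℕ) : ℝ) * w.2 ≤ Z) with hP
      have hcyl : ∀ w ∈ P, Cov {b | ∃ t ∈ E, b = 1 / (((2 * w.1 : ℕ):ℝ) + 1 / ((w.2:ℝ) + t))} Z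
          (100 * (Z ^ (1.9:ℝ) * ((2:ℝ) ^ (-(1.9:ℝ)) * ((w.1:ℝ) ^ (-(1.9:ℝ)) * (w.2:ℝ) ^ (-(1.9:ℝ)))))) := by
        intro w hw
        rw [hP, mem_filter, mem_product, mem_Icc, mem_Icc] at hw
        obtain ⟨⟨⟨h1, _⟩, h2, _⟩, h3⟩ := hw
        have hw1 : (1:ℝ) ≤ w.1 := by exact_mod_cast h1
        have hw2 : (1:ℝ) ≤ w.2 := by exact_mod_cast h2
        have hprod : (2:ℝ) ≤ ((2 * w.1 : ℕ) : ℝ) * w.2 := by
          push_cast
          nlinarith
        have hZ' : 1 ≤ Z / (((2 * w.1 : ℕ) : ℝ) * w.2) := by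
          rw [le_div_iff₀ (by linarith)]
          linarith
        have hZ'n : Z / (((2 * w.1 : ℕ) : ℝ) * w.2) < 2 ^ n := by
          rw [div_lt_iff₀ (by linarith)]
          have h4 : (0:ℝ) < 2 ^ n := by positivity
          rw [pow_succ] at hZn
          nlinarith
        have h5 := ih _ hZ' hZ'n
        have h6 := Cov.cylinder (2 * w.1) w.2 (by omega) h2 hZ0 (fun t ht => (hE t ht).1) h5
        refine h6.mono (fun b hb => hb) (le_of_eq ?_)
        congr 1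
        have hw10 : (0:ℝ) ≤ w.1 := by linarith
        have hw20 : (0:ℝ) ≤ w.2 := by linarith
        have e1 : (((2 * w.1 : ℕ) : ℝ)) = 2 * w.1 := by push_cast; ring
        rw [e1, Real.div_rpow hZ0.le (by positivity), Real.mul_rpow (by positivity) hw20,
          Real.mul_rpow (by norm_num) hw10, Real.rpow_neg (by norm_num), Real.rpow_neg hw10,
          Real.rpow_neg hw20]
        rw [div_eq_mul_inv, mul_inv, mul_inv]
        ring
      have hU := Cov.iUnion P _ Z _ hcyl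
      have hB := bulk_cover Z hZ
      have hall := hU.union hB
      refine hall.mono ?_ ?_
      · intro b hb
        obtain ⟨hb0, hb1, a, d, ha, ha2, hd, t, ht, hbt⟩ := hE b hb
        obtain ⟨m, hm⟩ := ha
        have ham : a = 2 * m := by omega
        by_cases hsmall : (a:ℝ) * d ≤ Z
        · left
          simp only [Set.mem_iUnion, exists_prop]
          have ha1 : (1:ℝ) ≤ a := by
            have : 1 ≤ a := by omega
            exact_mod_cast this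
          have hd1 : (1:ℝ) ≤ d := by exact_mod_cast hd
          have haN : (a:ℝ) ≤ Z := by nlinarith
          have hdN : (d:ℝ) ≤ Z := by nlinarith
          have haN' : a ≤ N := Nat.le_floor haN
          have hdN' : d ≤ N := Nat.le_floor hdN
          refine ⟨(m, d), ?_, ?_⟩
          · rw [hP, mem_filter, mem_product, mem_Icc, mem_Icc]
            refine ⟨⟨⟨by simp only; omega, by simp only; omega⟩, hd, hdN'⟩, ?_⟩
            simp only
            rw [← ham]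
            exact hsmall
          · refine ⟨t, ht, ?_⟩
            simp only
            rw [← ham]
            exact hbt
        · right
          push Not at hsmall
          obtain ⟨ht0, ht1, _⟩ := hE t ht
          exact ⟨a, d, by omega, hd, hsmall, t, ht0, ht1, hbt⟩
      · -- the count
        rw [← Finset.mul_sum, ← Finset.mul_sum, ← Finset.mul_sum]
        have hZp : 0 ≤ Z ^ (1.9:ℝ) := Real.rpow_nonneg hZ0.le _
        have h0 : ∀ d : ℕ, 0 ≤ (d:ℝ) ^ (-(1.9:ℝ)) := fun d => Real.rpow_nonneg (Nat.cast_nonneg _) _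
        have hsum : ∑ w ∈ P, ((w.1:ℝ) ^ (-(1.9:ℝ)) * (w.2:ℝ) ^ (-(1.9:ℝ))) ≤ 1.864 * 1.864 := by
          calc ∑ w ∈ P, ((w.1:ℝ) ^ (-(1.9:ℝ)) * (w.2:ℝ) ^ (-(1.9:ℝ)))
              ≤ ∑ w ∈ (Icc 1 N) ×ˢ (Icc 1 N), ((w.1:ℝ) ^ (-(1.9:ℝ)) * (w.2:ℝ) ^ (-(1.9:ℝ))) :=
                Finset.sum_le_sum_of_subset_of_nonneg (filter_subset _ _)
                  (fun w _ _ => mul_nonneg (h0 _) (h0 _))
            _ = (∑ a ∈ Icc 1 N, (a:ℝ) ^ (-(1.9:ℝ))) * ∑ d ∈ Icc 1 N, (d:ℝ) ^ (-(1.9:ℝ)) := by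
                rw [Finset.sum_product, Finset.sum_mul_sum]
            _ ≤ 1.864 * 1.864 := by
                apply mul_le_mul (sum_rpow_le N) (sum_rpow_le N)
                  (Finset.sum_nonneg fun d _ => h0 d) (by norm_num)
        have h2p : 0 ≤ (2:ℝ) ^ (-(1.9:ℝ)) := Real.rpow_nonneg (by norm_num) _
        have h5 : (2:ℝ) ^ (-(1.9:ℝ)) * ∑ w ∈ P, ((w.1:ℝ) ^ (-(1.9:ℝ)) * (w.2:ℝ) ^ (-(1.9:ℝ)))
            ≤ 0.268 * (1.864 * 1.864) :=
          mul_le_mul two_rpow_le hsum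
            (Finset.sum_nonneg fun w _ => mul_nonneg (h0 _) (h0 _)) (by norm_num)
        have h6 : Z ^ (1.9:ℝ) * ((2:ℝ) ^ (-(1.9:ℝ)) *
            ∑ w ∈ P, ((w.1:ℝ) ^ (-(1.9:ℝ)) * (w.2:ℝ) ^ (-(1.9:ℝ))))
            ≤ Z ^ (1.9:ℝ) * (0.268 * (1.864 * 1.864)) := by gcongr
        have h7 : (0.268:ℝ) * (1.864 * 1.864) ≤ 0.94 := by norm_num
        nlinarith
  intro Z hZ
  obtain ⟨n, hn⟩ := pow_unbounded_of_one_lt Z (show (1:ℝ) < 2 by norm_num)
  obtain ⟨C, _, h2, h3⟩ := key n Z hZ hn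
  exact ⟨C, h2, h3⟩

end Pool.Agent.Lib.P5632c9
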