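import Pool.Agent.Lib.P5632c9.Pairs

/-!
# The pair bound
-/

namespace Pool.Agent.Lib.P5632c9

open Finset

lemma sum_gcd_le (n s : ℕ) (hn : n ≠ 0) :
    ∑ j ∈ Ioc 0 s, Nat.gcd n j ≤ n.divisors.card * s := by
  calc ∑ j ∈ Ioc 0 s, Nat.gcd n j ≤ ∑ j ∈ Ioc 0 s, ∑ g ∈ n.divisors, (if g ∣ j then g else 0) := by
        refine sum_le_sum fun j hj => ?_
        have h1 : Nat.gcd n j ∈ n.divisors := Nat.mem_divisors.mpr ⟨Nat.gcd_dvd_left _ _, hn⟩
        have h2 := single_le_sum (f := fun g => if g ∣ j then g else 0)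
          (fun g _ => Nat.zero_le _) h1
        simpa [Nat.gcd_dvd_right] using h2
    _ = ∑ g ∈ n.divisors, ∑ j ∈ Ioc 0 s, (if g ∣ j then g else 0) := sum_comm
    _ = ∑ g ∈ n.divisors, g * (s / g) := by
        refine sum_congr rfl fun g _ => ?_
        rw [← sum_filter, sum_const, Nat.Ioc_filter_dvd_card_eq_div, smul_eq_mul, mul_comm]
    _ ≤ ∑ g ∈ n.divisors, s := sum_le_sum fun g _ => Nat.mul_div_le s g
    _ = n.divisors.card * s := by simp

/-- nonzero integers of absolute value at most `s` -/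
noncomputable def lset (s : ℕ) : Finset ℤ := (Icc (-(s : ℤ)) s).erase 0

lemma sum_lset_gcd_le (n s : ℕ) (hn : n ≠ 0) :
    ∑ l ∈ lset s, Int.gcd n l ≤ 2 * (n.divisors.card * s) := by
  have hmaps : ∀ l ∈ lset s, l.natAbs ∈ Ioc 0 s := by
    intro l hl
    obtain ⟨h1, h2⟩ := mem_erase.mp hl
    rw [mem_Icc] at h2
    rw [mem_Ioc]
    omega
  rw [← sum_fiberwise_of_maps_to hmaps]
  calc ∑ j ∈ Ioc 0 s, ∑ l ∈ lset s with l.natAbs = j, Int.gcd n l ≤
      ∑ j ∈ Ioc 0 s, 2 * Nat.gcd n j := by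
        refine sum_le_sum fun j _ => ?_
        have h1 : ∑ l ∈ lset s with l.natAbs = j, Int.gcd n l =
            ∑ l ∈ lset s with l.natAbs = j, Nat.gcd n j := by
          refine sum_congr rfl fun l hl => ?_
          have := (mem_filter.mp hl).2
          rw [← this]; rfl
        rw [h1, sum_const, smul_eq_mul]
        refine Nat.mul_le_mul_right _ ?_
        calc #{l ∈ lset s | l.natAbs = j} ≤ #({(j : ℤ), -(j : ℤ)} : Finset ℤ) := by
              refine card_le_card fun l hl => ?_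
              have := (mem_filter.mp hl).2
              rw [mem_insert, mem_singleton]
              omega
          _ ≤ 2 := card_le_two
    _ = 2 * ∑ j ∈ Ioc 0 s, Nat.gcd n j := by rw [mul_sum]
    _ ≤ _ := Nat.mul_le_mul_left 2 (sum_gcd_le n s hn)

/-- close pairs -/
noncomputable def closePairs (n : ℕ) : Finset ((ℤ × ℤ) × (ℤ × ℤ)) :=
  ((redSet n) ×ˢ (redSet n)).filter (fun p => |beta n p.1 - beta n p.2| ≤ 1 / √(n : ℝ))

lemma card_redSet_le {n : ℕ} (hst : Star n) (T0 : ℕ)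
    (hT0 : ∀ k : ℕ, 0 < k → k ≤ n → k.divisors.card ≤ T0) :
    (redSet n).card ≤ T0 ^ 2 * Nat.sqrt n := by
  classical
  have h1 : (redSet n).card ≤ T0 ^ 2 * ((redSet n).image Prod.fst).card := by
    refine card_le_mul_card_image _ _ ?_
    intro Q _
    exact card_roots_le hst Q T0 hT0
  refine h1.trans (Nat.mul_le_mul_left _ ?_)
  calc ((redSet n).image Prod.fst).card ≤ (Icc (1 : ℤ) (Nat.sqrt n)).card := by
        refine card_le_card fun Q hQ => ?_
        obtain ⟨x, hx, rfl⟩ := mem_image.mp hQ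
        have r := mem_redSet.mp hx
        rw [mem_Icc]
        refine ⟨r.qpos, ?_⟩
        have h2 := r.qle
        have h3 := r.qpos
        obtain ⟨q, hq⟩ : ∃ q : ℕ, x.1 = q := ⟨x.1.toNat, by omega⟩
        rw [hq] at h2 ⊢
        have : q ≤ Nat.sqrt n := by
          rw [Nat.le_sqrt']; exact_mod_cast h2
        exact_mod_cast this
    _ = Nat.sqrt n := by simp

lemma card_fixed_l_le {n : ℕ} (hn4 : 4 ≤ n) (hst : Star n) (l : ℤ) (hl : l ≠ 0)
    (hln : l ^ 2 ≤ n) (T0 : ℕ)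
    (hT0 : ∀ k : ℕ, 0 < k → k ≤ 8 * n ^ 2 → k.divisors.card ≤ T0) :
    (((closePairs n).filter (fun p => lof n p.1 p.2 = l)).card : ℝ) ≤
      8 * (T0 : ℝ) ^ 7 * (30 * Real.log n + 5) ^ 2 * (Int.gcd n l : ℕ) := by
  classical
  set Pl := (closePairs n).filter (fun p => lof n p.1 p.2 = l) with hPl
  have hnn : n ≤ 8 * n ^ 2 := by nlinarith
  have hmem : ∀ p ∈ Pl, Red n p.1 ∧ Red n p.2 ∧ lof n p.1 p.2 = l := by
    intro p hp
    obtain ⟨h1, h2⟩ := mem_filter.mp hp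
    obtain ⟨h3, _⟩ := mem_filter.mp h1
    obtain ⟨h5, h6⟩ := mem_product.mp h3
    exact ⟨mem_redSet.mp h5, mem_redSet.mp h6, h2⟩
  have h1 : Pl.card ≤ T0 ^ 2 * (Pl.image (fun p => vec p.1 p.2)).card := by
    refine card_le_mul_card_image _ _ ?_
    intro c _
    refine le_trans ?_ (card_roots_le hst (c.2.2 - c.2.1) T0 (fun k h1 h2 => hT0 k h1 (h2.trans hnn)))
    refine card_le_card_of_injOn (fun p => p.1) ?_ ?_
    · intro p hp
      obtain ⟨hp1, hp2⟩ := mem_filter.mp (mem_coe.mp hp)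
      obtain ⟨r1, r2, _⟩ := hmem p hp1
      obtain ⟨e1, e2, e3⟩ := two_mul_vec r1 r2
      rw [hp2] at e1 e2 e3
      rw [mem_coe, mem_filter]
      refine ⟨mem_redSet.mpr r1, ?_⟩
      show p.1.1 = c.2.2 - c.2.1
      omega
    · intro p hp q hq hpq
      obtain ⟨hp1, hp2⟩ := mem_filter.mp (mem_coe.mp hp)
      obtain ⟨hq1, hq2⟩ := mem_filter.mp (mem_coe.mp hq)
      obtain ⟨r1, r2, _⟩ := hmem p hp1
      obtain ⟨t1, t2, _⟩ := hmem q hq1
      obtain ⟨e1, e2, e3⟩ := two_mul_vec r1 r2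
      obtain ⟨f1, f2, f3⟩ := two_mul_vec t1 t2
      rw [hp2] at e1 e2 e3
      rw [hq2] at f1 f2 f3
      have hpq' : p.1 = q.1 := hpq
      rw [← hpq'] at f1 f2 f3
      have g1 : p.2.1 = q.2.1 := by omega
      have g2 : p.2.2 = q.2.2 := by
        rw [g1] at e1
        have hq0 := r1.qpos
        have : (p.2.2 - q.2.2) * p.1.1 = 0 := by linarith
        rcases mul_eq_zero.mp this with h | h
        · linarith
        · omega
      exact Prod.ext hpq' (Prod.ext g1 g2)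
  -- the cells
  set d : ℕ := Int.gcd n l with hd
  have hd1 : 1 ≤ d := Int.gcd_pos_of_ne_zero_right _ hl
  have hnR : (4 : ℝ) ≤ n := by exact_mod_cast hn4
  have hlog : 0 ≤ Real.log n := Real.log_nonneg (by linarith)
  have hdR : (1 : ℝ) ≤ d := by exact_mod_cast hd1
  have hsd : 1 ≤ √(d : ℝ) := by
    rw [show (1 : ℝ) = √1 by simp]; exact Real.sqrt_le_sqrt hdR
  have hsd2 : √(d : ℝ) ^ 2 = d := Real.sq_sqrt (by linarith)
  set M : ℕ := ⌈3 * Real.log n * (5 * √(d : ℝ)) + 1⌉₊ with hM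
  have hM1 : 3 * Real.log n * (5 * √(d : ℝ)) + 1 ≤ M := Nat.le_ceil _
  have hM2 : (M : ℝ) ≤ 3 * Real.log n * (5 * √(d : ℝ)) + 2 := by
    have := (Nat.ceil_lt_add_one (a := 3 * Real.log n * (5 * √(d : ℝ)) + 1) (by positivity)).le
    linarith
  have hcard := conic_card_raw n hn4 hst l hl hln (Pl.image (fun p => vec p.1 p.2)) (by
    intro v hv
    obtain ⟨p, hp, rfl⟩ := mem_image.mp hv
    obtain ⟨r1, r2, r3⟩ := hmem p hp
    have := onConic_of_red r1 r2
    rwa [r3] at this) M hM1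
  -- bounds for the divisor functions
  have hl1 : |l| ≤ n := by
    have : |l| ^ 2 ≤ n := by rw [sq_abs]; exact hln
    nlinarith [abs_nonneg l]
  have hl1' := abs_le.mp hl1
  have hlpos : 0 < |l| := abs_pos.mpr hl
  have hlnat : l.natAbs ≤ n := by omega
  have hlt : |l| < n := by
    have h2 : |l| ^ 2 ≤ n := by rw [sq_abs]; exact hln
    have h4 : (4 : ℤ) ≤ n := by exact_mod_cast hn4
    by_contra hcon
    push Not at hcon
    nlinarith
  have hlt' := abs_lt.mp hlt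
  have t1 : ((n : ℤ) - l).natAbs.divisors.card ≤ T0 := by
    refine hT0 _ (by omega) ?_
    have : ((n : ℤ) - l).natAbs ≤ 2 * n := by omega
    nlinarith
  have t2 : l.natAbs.divisors.card ≤ T0 := hT0 _ (by omega) (hlnat.trans hnn)
  have t3 : (4 * (l * ((n : ℤ) - l))).natAbs.divisors.card ≤ T0 := by
    have hne : l * ((n : ℤ) - l) ≠ 0 := mul_ne_zero hl (by omega)
    refine hT0 _ (by omega) ?_
    rw [Int.natAbs_mul, Int.natAbs_mul]
    have a1 : ((n : ℤ) - l).natAbs ≤ 2 * n := by omega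
    have a2 : l.natAbs * ((n : ℤ) - l).natAbs ≤ n * (2 * n) := Nat.mul_le_mul hlnat a1
    have a3 : (4 : ℤ).natAbs = 4 := rfl
    rw [a3]
    nlinarith
  have hnat : Pl.card ≤ T0 ^ 2 * ((T0 * 2) * (T0 ^ 2 * (T0 ^ 2 * ((2 * M + 1) * ((2 * M + 1) * 4))))) := by
    refine h1.trans (Nat.mul_le_mul_left _ (hcard.trans ?_))
    gcongr
  have hreal : (Pl.card : ℝ) ≤ 8 * (T0 : ℝ) ^ 7 * (2 * M + 1) ^ 2 := by
    have : (Pl.card : ℝ) ≤ ((T0 ^ 2 * ((T0 * 2) * (T0 ^ 2 * (T0 ^ 2 *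
        ((2 * M + 1) * ((2 * M + 1) * 4))))) : ℕ) : ℝ) := by exact_mod_cast hnat
    refine this.trans (le_of_eq ?_)
    push_cast
    ring
  refine hreal.trans ?_
  have h5 : (2 * (M : ℝ) + 1) ^ 2 ≤ (30 * Real.log n + 5) ^ 2 * d := by
    rw [← hsd2, ← mul_pow]
    refine pow_le_pow_left₀ (by positivity) ?_ 2
    nlinarith
  calc 8 * (T0 : ℝ) ^ 7 * (2 * M + 1) ^ 2 ≤ 8 * (T0 : ℝ) ^ 7 * ((30 * Real.log n + 5) ^ 2 * d) := by
        gcongr
    _ = _ := by ring

theorem pair_bound (ε : ℝ) (hε : 0 < ε) : ∃ C : ℝ, 0 < C ∧ ∀ n : ℕ, 4 ≤ n →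
    ¬ IsSquare (n : ℤ) → Star n → ((closePairs n).card : ℝ) ≤ C * (n : ℝ) ^ (1 / 2 + ε) := by
  classical
  set ε' : ℝ := min 1 (ε / 18) with hε'
  have hε'0 : 0 < ε' := lt_min one_pos (by positivity)
  have hε'1 : ε' ≤ 1 := min_le_left _ _
  have hε'2 : 18 * ε' ≤ ε := by have := min_le_right (1 : ℝ) (ε / 18); rw [← hε'] at this; linarith
  obtain ⟨C₁, hC₁, hdiv⟩ := card_divisors_le ε' hε'0
  refine ⟨(8 * C₁) ^ 2 + 16 * (8 * C₁) ^ 8 * (30 / ε' + 5) ^ 2, by positivity, ?_⟩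
  intro n hn4 hns hst
  have hnR : (4 : ℝ) ≤ n := by exact_mod_cast hn4
  have hn0 : (0 : ℝ) < n := by linarith
  have hn1 : (1 : ℝ) ≤ n := by linarith
  set T0 : ℕ := (range (8 * n ^ 2 + 1)).sup (fun k => k.divisors.card) with hT0def
  have hT0 : ∀ k : ℕ, 0 < k → k ≤ 8 * n ^ 2 → k.divisors.card ≤ T0 := by
    intro k _ hk
    exact le_sup (f := fun k : ℕ => k.divisors.card) (mem_range.mpr (by omega))
  have hnn : n ≤ 8 * n ^ 2 := by nlinarith
  set N₁ : ℝ := (n : ℝ) ^ ε' with hN₁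
  have hN₁1 : 1 ≤ N₁ := Real.one_le_rpow hn1 hε'0.le
  have hT0R : (T0 : ℝ) ≤ 8 * C₁ * N₁ ^ 2 := by
    have hb : 0 ≤ 8 * C₁ * N₁ ^ 2 := by positivity
    have : T0 ≤ ⌊8 * C₁ * N₁ ^ 2⌋₊ := by
      refine Finset.sup_le fun k hk => ?_
      refine Nat.le_floor ?_
      rcases Nat.eq_zero_or_pos k with rfl | hk0
      · simpa using hb
      · have hk' : (k : ℝ) ≤ 8 * (n : ℝ) ^ 2 := by
          have : k ≤ 8 * n ^ 2 := by have := mem_range.mp hk; omega
          exact_mod_cast this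
        calc (k.divisors.card : ℝ) ≤ C₁ * (k : ℝ) ^ ε' := hdiv k (by omega)
          _ ≤ C₁ * (8 * (n : ℝ) ^ 2) ^ ε' := by gcongr
          _ = C₁ * (8 ^ ε' * N₁ ^ 2) := by
              rw [Real.mul_rpow (by norm_num) (by positivity), hN₁, ← Real.rpow_natCast,
                ← Real.rpow_natCast, ← Real.rpow_mul hn0.le, ← Real.rpow_mul hn0.le]
              congr 3
              push_cast; ring
          _ ≤ C₁ * (8 * N₁ ^ 2) := by
              have : (8 : ℝ) ^ ε' ≤ 8 ^ (1 : ℝ) :=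
                Real.rpow_le_rpow_of_exponent_le (by norm_num) hε'1
              rw [Real.rpow_one] at this
              gcongr
          _ = _ := by ring
    calc (T0 : ℝ) ≤ (⌊8 * C₁ * N₁ ^ 2⌋₊ : ℝ) := by exact_mod_cast this
      _ ≤ _ := Nat.floor_le hb
  set s : ℕ := Nat.sqrt n with hs
  have hsR : (s : ℝ) ≤ √(n : ℝ) := by
    apply Real.le_sqrt_of_sq_le
    have := Nat.sqrt_le' n
    exact_mod_cast this
  -- decomposition
  have hsub : closePairs n ⊆ (closePairs n).filter (fun p => lof n p.1 p.2 = 0) ∪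
      (closePairs n).filter (fun p => lof n p.1 p.2 ∈ lset s) := by
    intro p hp
    rw [mem_union, mem_filter, mem_filter]
    by_cases h0 : lof n p.1 p.2 = 0
    · exact Or.inl ⟨hp, h0⟩
    · right
      refine ⟨hp, ?_⟩
      obtain ⟨h1, h2⟩ := mem_filter.mp hp
      obtain ⟨h3, h4⟩ := mem_product.mp h1
      have h5 := lof_sq_le (by omega) (mem_redSet.mp h3) (mem_redSet.mp h4) h2
      rw [lset, mem_erase, mem_Icc]
      refine ⟨h0, ?_⟩
      have h6 : (lof n p.1 p.2).natAbs ≤ s := by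
        rw [hs, Nat.le_sqrt']
        have : (((lof n p.1 p.2).natAbs ^ 2 : ℕ) : ℤ) ≤ n := by
          push_cast
          rw [sq_abs]; exact h5
        exact_mod_cast this
      omega
  have hc1 : ((closePairs n).filter (fun p => lof n p.1 p.2 = 0)).card ≤ (redSet n).card := by
    refine card_le_card_of_injOn (fun p => p.1) ?_ ?_
    · intro p hp
      obtain ⟨h1, _⟩ := mem_filter.mp (mem_coe.mp hp)
      exact (mem_product.mp (mem_filter.mp h1).1).1
    · intro p hp q hq hpq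
      obtain ⟨h1, h2⟩ := mem_filter.mp (mem_coe.mp hp)
      obtain ⟨h3, h4⟩ := mem_filter.mp (mem_coe.mp hq)
      have a1 := mem_product.mp (mem_filter.mp h1).1
      have a2 := mem_product.mp (mem_filter.mp h3).1
      have b1 := eq_of_lof_zero hns (mem_redSet.mp a1.1) (mem_redSet.mp a1.2) h2
      have b2 := eq_of_lof_zero hns (mem_redSet.mp a2.1) (mem_redSet.mp a2.2) h4
      have hpq' : p.1 = q.1 := hpq
      exact Prod.ext hpq' (by rw [← b1, ← b2]; exact hpq')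
  have hc2 : (((closePairs n).filter (fun p => lof n p.1 p.2 ∈ lset s)).card : ℝ) ≤
      8 * (T0 : ℝ) ^ 7 * (30 * Real.log n + 5) ^ 2 * (2 * (T0 * s)) := by
    have h1 : ((closePairs n).filter (fun p => lof n p.1 p.2 ∈ lset s)).card =
        ∑ l ∈ lset s, ((closePairs n).filter (fun p => lof n p.1 p.2 = l)).card := by
      rw [card_eq_sum_card_fiberwise (f := fun p => lof n p.1 p.2) (t := lset s)]
      · refine sum_congr rfl fun l hl => ?_
        congr 1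
        ext p
        simp only [mem_filter]
        constructor
        · rintro ⟨⟨a, b⟩, c⟩; exact ⟨a, c⟩
        · rintro ⟨a, c⟩; exact ⟨⟨a, by rw [c]; exact hl⟩, c⟩
      · intro p hp
        exact (mem_filter.mp (mem_coe.mp hp)).2
    rw [h1]
    push_cast
    calc ∑ l ∈ lset s, (((closePairs n).filter (fun p => lof n p.1 p.2 = l)).card : ℝ) ≤
        ∑ l ∈ lset s, 8 * (T0 : ℝ) ^ 7 * (30 * Real.log n + 5) ^ 2 * (Int.gcd n l : ℕ) := by
          refine sum_le_sum fun l hl => ?_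
          obtain ⟨a1, a2⟩ := mem_erase.mp hl
          rw [mem_Icc] at a2
          refine card_fixed_l_le hn4 hst l a1 ?_ T0 hT0
          have h5 : (s : ℤ) ^ 2 ≤ n := by exact_mod_cast Nat.sqrt_le' n
          nlinarith
      _ = 8 * (T0 : ℝ) ^ 7 * (30 * Real.log n + 5) ^ 2 * ((∑ l ∈ lset s, Int.gcd n l : ℕ) : ℝ) := by
          rw [← mul_sum]; push_cast; rfl
      _ ≤ 8 * (T0 : ℝ) ^ 7 * (30 * Real.log n + 5) ^ 2 * (2 * (T0 * s)) := by
          refine mul_le_mul_of_nonneg_left ?_ (by positivity)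
          have h6 := sum_lset_gcd_le n s (by omega)
          have h7 : n.divisors.card ≤ T0 := hT0 n (by omega) hnn
          have h8 : ∑ l ∈ lset s, Int.gcd n l ≤ 2 * (T0 * s) :=
            h6.trans (by gcongr)
          exact_mod_cast h8
  have hred := card_redSet_le hst T0 (fun k h1 h2 => hT0 k h1 (h2.trans hnn))
  have htot : ((closePairs n).card : ℝ) ≤ (T0 : ℝ) ^ 2 * s +
      8 * (T0 : ℝ) ^ 7 * (30 * Real.log n + 5) ^ 2 * (2 * (T0 * s)) := by
    have h1 := (card_le_card hsub).trans (card_union_le _ _)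
    have h2 : ((closePairs n).card : ℝ) ≤
        (((closePairs n).filter (fun p => lof n p.1 p.2 = 0)).card : ℝ) +
        (((closePairs n).filter (fun p => lof n p.1 p.2 ∈ lset s)).card : ℝ) := by
      exact_mod_cast h1
    have h3 : (((closePairs n).filter (fun p => lof n p.1 p.2 = 0)).card : ℝ) ≤
        (T0 : ℝ) ^ 2 * s := by
      have : ((closePairs n).filter (fun p => lof n p.1 p.2 = 0)).card ≤ T0 ^ 2 * s :=
        hc1.trans hred
      exact_mod_cast this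
    linarith
  -- final estimate
  have hlog : 30 * Real.log n + 5 ≤ (30 / ε' + 5) * N₁ := by
    have h1 := Real.log_le_rpow_div hn0.le hε'0
    calc 30 * Real.log n + 5 ≤ 30 * (N₁ / ε') + 5 * N₁ := by linarith
      _ = _ := by ring
  have hlog0 : 0 ≤ Real.log n := Real.log_nonneg hn1
  have hN18 : N₁ ^ 18 ≤ (n : ℝ) ^ ε := by
    rw [hN₁, ← Real.rpow_natCast, ← Real.rpow_mul hn0.le]
    exact Real.rpow_le_rpow_of_exponent_le hn1 (by push_cast; linarith)
  have hE : (n : ℝ) ^ (1 / 2 + ε) = √(n : ℝ) * (n : ℝ) ^ ε := by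
    rw [Real.rpow_add hn0, Real.sqrt_eq_rpow]
  have hT0nn : (0 : ℝ) ≤ T0 := by positivity
  have p1 : (T0 : ℝ) ^ 2 * s ≤ (8 * C₁) ^ 2 * (√(n : ℝ) * (n : ℝ) ^ ε) := by
    calc (T0 : ℝ) ^ 2 * s ≤ (8 * C₁ * N₁ ^ 2) ^ 2 * √(n : ℝ) := by gcongr
      _ = (8 * C₁) ^ 2 * (√(n : ℝ) * N₁ ^ 4) := by ring
      _ ≤ (8 * C₁) ^ 2 * (√(n : ℝ) * (n : ℝ) ^ ε) := by
          have : N₁ ^ 4 ≤ (n : ℝ) ^ ε := (pow_le_pow_right₀ hN₁1 (by norm_num)).trans hN18
          gcongr
  have p2 : 8 * (T0 : ℝ) ^ 7 * (30 * Real.log n + 5) ^ 2 * (2 * (T0 * s)) ≤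
      16 * (8 * C₁) ^ 8 * (30 / ε' + 5) ^ 2 * (√(n : ℝ) * (n : ℝ) ^ ε) := by
    calc 8 * (T0 : ℝ) ^ 7 * (30 * Real.log n + 5) ^ 2 * (2 * (T0 * s)) =
        16 * (T0 : ℝ) ^ 8 * (30 * Real.log n + 5) ^ 2 * s := by ring
      _ ≤ 16 * (8 * C₁ * N₁ ^ 2) ^ 8 * ((30 / ε' + 5) * N₁) ^ 2 * √(n : ℝ) := by gcongr
      _ = 16 * (8 * C₁) ^ 8 * (30 / ε' + 5) ^ 2 * (√(n : ℝ) * N₁ ^ 18) := by ring
      _ ≤ _ := by gcongr
  rw [hE]
  calc ((closePairs n).card : ℝ) ≤ _ := htot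
    _ ≤ (8 * C₁) ^ 2 * (√(n : ℝ) * (n : ℝ) ^ ε) +
        16 * (8 * C₁) ^ 8 * (30 / ε' + 5) ^ 2 * (√(n : ℝ) * (n : ℝ) ^ ε) := add_le_add p1 p2
    _ = _ := by ring

end Pool.Agent.Lib.P5632c9
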