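import Pool.Agent.Lib.P5632c9.Pairs

/-!
# Structure of the reduced forms of a non-representable integer
-/

set_option autoImplicit false

namespace Pool.Agent.Lib.P5632c9

/-- Representable integers. -/
def Rep (n : ℕ) : Prop := ∃ x y z : ℤ, (n:ℤ) = x^2 + y^2 - z^2 ∧ x^2 ≤ n ∧ y^2 ≤ n ∧ z^2 ≤ n

/-- Reduced pairs with odd first coordinate. -/
structure CFred (n : ℕ) (x : ℤ × ℤ) : Prop where
  qpos : 1 ≤ x.1
  ppos : 1 ≤ x.2
  odd : x.1 % 2 = 1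
  plt : x.2 ^ 2 < n
  win : (n : ℤ) < (x.1 + x.2) ^ 2
  upp : (x.1 - x.2) ^ 2 < n
  dvd : x.1 ∣ (n:ℤ) - x.2 ^ 2

/-- Reduced pairs. -/
structure GRed (n : ℕ) (Q P : ℤ) : Prop where
  qpos : 1 ≤ Q
  ppos : 1 ≤ P
  plt : P ^ 2 < n
  win : (n : ℤ) < (Q + P) ^ 2
  upp : (Q - P) ^ 2 < n
  dvd : Q ∣ (n:ℤ) - P ^ 2

lemma CFred.toG {n : ℕ} {x : ℤ × ℤ} (h : CFred n x) : GRed n x.1 x.2 :=
  ⟨h.qpos, h.ppos, h.plt, h.win, h.upp, h.dvd⟩

section reals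

variable {n : ℕ} {Q P : ℤ}

lemma s_sq (n : ℕ) : √(n:ℝ) ^ 2 = n := Real.sq_sqrt (Nat.cast_nonneg n)

lemma s_nonneg (n : ℕ) : 0 ≤ √(n:ℝ) := Real.sqrt_nonneg _

lemma lt_s_of {a : ℤ} (h : a ^ 2 < n) : (a:ℝ) < √(n:ℝ) := by
  have h1 : (a:ℝ) ^ 2 < n := by exact_mod_cast h
  exact lt_of_pow_lt_pow_left₀ 2 (s_nonneg n) (by rw [s_sq]; exact h1)

lemma s_lt_of {a : ℤ} (ha : 0 ≤ a) (h : (n:ℤ) < a ^ 2) : √(n:ℝ) < a := by
  have h1 : (n:ℝ) < (a:ℝ) ^ 2 := by exact_mod_cast h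
  have ha' : (0:ℝ) ≤ a := by exact_mod_cast ha
  exact lt_of_pow_lt_pow_left₀ 2 ha' (by rw [s_sq]; exact h1)

lemma sq_lt_of_lt_s {a : ℤ} (h1 : -√(n:ℝ) < a) (h2 : (a:ℝ) < √(n:ℝ)) : a ^ 2 < n := by
  have h3 : (a:ℝ) ^ 2 < n := by
    have := s_sq n
    nlinarith
  exact_mod_cast h3

lemma lt_sq_of_s_lt {a : ℤ} (h : √(n:ℝ) < a) : (n:ℤ) < a ^ 2 := by
  have h3 : (n:ℝ) < (a:ℝ) ^ 2 := by
    have := s_sq n
    have := s_nonneg n
    nlinarith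
  exact_mod_cast h3

lemma GRed.ltS (h : GRed n Q P) : (P:ℝ) < √(n:ℝ) := lt_s_of h.plt

lemma GRed.winS (h : GRed n Q P) : √(n:ℝ) < Q + P := by
  have h1 := h.qpos
  have h2 := h.ppos
  have := s_lt_of (n := n) (a := Q + P) (by omega) h.win
  push_cast at this
  exact this

lemma GRed.uppS (h : GRed n Q P) : (Q:ℝ) < P + √(n:ℝ) := by
  have := lt_s_of (a := Q - P) h.upp
  push_cast at this
  linarith

lemma GRed.mkS (hns : ¬ IsSquare (n:ℤ)) (h1 : 1 ≤ Q) (h2 : 1 ≤ P) (h3 : (P:ℝ) ≤ √(n:ℝ))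
    (h4 : √(n:ℝ) < Q + P) (h5 : (Q:ℝ) < P + √(n:ℝ)) (h6 : Q ∣ (n:ℤ) - P ^ 2) : GRed n Q P := by
  have hPn : P ^ 2 ≠ n := fun h => hns ⟨P, by rw [← h]; ring⟩
  have hPle : P ^ 2 ≤ n := by
    have h7 : (P:ℝ) ^ 2 ≤ n := by
      have h8 : (1:ℝ) ≤ P := by exact_mod_cast h2
      have := s_sq n
      nlinarith
    exact_mod_cast h7
  have hP : P ^ 2 < n := lt_of_le_of_ne hPle hPn
  refine ⟨h1, h2, hP, ?_, ?_, h6⟩
  · apply lt_sq_of_s_lt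
    push_cast
    exact h4
  · have h7 := lt_s_of hP
    have h8 : (1:ℝ) ≤ Q := by exact_mod_cast h1
    apply sq_lt_of_lt_s
    · push_cast
      linarith
    · push_cast
      linarith

/-- Reflection step. -/
lemma GRed.reflect (hns : ¬ IsSquare (n:ℤ)) (h : GRed n Q P) :
    ∃ a : ℕ, 1 ≤ a ∧ GRed n Q (a * Q - P) ∧
      ((P:ℝ) + √(n:ℝ)) / Q = a + (√(n:ℝ) - ((a * Q - P : ℤ):ℝ)) / Q := by
  have hQ1 := h.qpos
  have hP1 := h.ppos
  have hQ0 : (0:ℝ) < Q := by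
    have : (1:ℝ) ≤ Q := by exact_mod_cast hQ1
    linarith
  have hP0 : (1:ℝ) ≤ P := by exact_mod_cast hP1
  have hs0 := s_nonneg n
  have hltS := h.ltS
  have hwinS := h.winS
  have huppS := h.uppS
  set s := √(n:ℝ) with hs
  set a := ⌊((P:ℝ) + s) / Q⌋₊ with ha
  have hle : (a:ℝ) ≤ ((P:ℝ) + s) / Q := Nat.floor_le (by positivity)
  have hlt : ((P:ℝ) + s) / Q < a + 1 := Nat.lt_floor_add_one _
  rw [le_div_iff₀ hQ0] at hle
  rw [div_lt_iff₀ hQ0] at hlt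
  have ha1 : 1 ≤ a := by
    rw [ha, Nat.one_le_floor_iff, le_div_iff₀ hQ0]
    linarith
  have ha1R : (1:ℝ) ≤ a := by exact_mod_cast ha1
  refine ⟨a, ha1, ?_, ?_⟩
  · have hP'1 : 1 ≤ (a:ℤ) * Q - P := by
      by_cases hQs : (Q:ℝ) < s
      · have : (0:ℝ) < ((a * Q - P : ℤ):ℝ) := by
          push_cast
          linarith
        have h2 : (0:ℤ) < a * Q - P := by exact_mod_cast this
        omega
      · push Not at hQs
        have hQP : (P:ℝ) < Q := by linarith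
        have hQP' : P < Q := by exact_mod_cast hQP
        have : Q ≤ a * Q := by nlinarith [show (1:ℤ) ≤ a by exact_mod_cast ha1]
        omega
    refine GRed.mkS hns hQ1 hP'1 ?_ ?_ ?_ ?_
    · push_cast
      linarith
    · push_cast
      linarith
    · -- Q < P' + s
      have h2 : (1:ℝ) ≤ ((a * Q - P : ℤ):ℝ) := by exact_mod_cast hP'1
      by_cases hQs : (Q:ℝ) < s
      · linarith
      · push Not at hQs
        push_cast
        nlinarith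
    · have e : (n:ℤ) - (a * Q - P) ^ 2 = (n - P ^ 2) - Q * (a * (a * Q - 2 * P)) := by ring
      rw [e]
      exact dvd_sub h.dvd (dvd_mul_right _ _)
  · push_cast
    field_simp
    ring

/-- Swap step. -/
lemma GRed.swap (h : GRed n Q P) (hns : ¬ IsSquare (n:ℤ)) :
    GRed n (((n:ℤ) - P ^ 2) / Q) P ∧ Q * (((n:ℤ) - P ^ 2) / Q) = n - P ^ 2 := by
  have hQ1 := h.qpos
  have hQ0 : (0:ℝ) < Q := by
    have : (1:ℝ) ≤ Q := by exact_mod_cast hQ1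
    linarith
  have hmul : Q * (((n:ℤ) - P ^ 2) / Q) = n - P ^ 2 := Int.mul_ediv_cancel' h.dvd
  set R := ((n:ℤ) - P ^ 2) / Q with hR
  have hPlt := h.plt
  have hR0 : 0 < R := by
    by_contra hcon
    push Not at hcon
    nlinarith
  refine ⟨?_, hmul⟩
  have hltS := h.ltS
  have hwinS := h.winS
  have huppS := h.uppS
  have hP0 : (1:ℝ) ≤ P := by exact_mod_cast h.ppos
  have hmulR : (Q:ℝ) * R = (√(n:ℝ) - P) * (√(n:ℝ) + P) := by
    have h1 : (Q:ℝ) * R = n - (P:ℝ) ^ 2 := by exact_mod_cast hmul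
    rw [h1]
    linear_combination -(s_sq n)
  have hR0' : (0:ℝ) < R := by exact_mod_cast hR0
  refine GRed.mkS hns (by omega) h.ppos hltS.le ?_ ?_ ⟨Q, by rw [← hmul]; ring⟩
  · -- √n < R + P
    by_contra hcon
    push Not at hcon
    have h2 : (R:ℝ) ≤ √(n:ℝ) - P := by linarith
    have h3 : (Q:ℝ) * R < (√(n:ℝ) + P) * (√(n:ℝ) - P) := by
      calc (Q:ℝ) * R < (√(n:ℝ) + P) * R := by
            apply mul_lt_mul_of_pos_right _ hR0'
            linarith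
        _ ≤ (√(n:ℝ) + P) * (√(n:ℝ) - P) := by
            apply mul_le_mul_of_nonneg_left h2
            linarith [s_nonneg n]
    linarith
  · by_contra hcon
    push Not at hcon
    have h3 : (√(n:ℝ) - P) * (P + √(n:ℝ)) < Q * R := by
      calc (√(n:ℝ) - P) * (P + √(n:ℝ)) < Q * (P + √(n:ℝ)) := by
            apply mul_lt_mul_of_pos_right
            · linarith
            · linarith [s_nonneg n]
        _ ≤ Q * R := by
            apply mul_le_mul_of_nonneg_left hcon hQ0.le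
    linarith

end reals

lemma not_isSquare_of_mod {n : ℕ} (h4 : n % 4 = 2 ∨ n % 4 = 3) : ¬ IsSquare (n:ℤ) := by
  rintro ⟨a, ha⟩
  have h1 : (n:ℤ) % 4 = 2 ∨ (n:ℤ) % 4 = 3 := by omega
  have h2 : (a * a) % 4 = 0 ∨ (a * a) % 4 = 1 := by
    have h3 : a % 2 = 0 ∨ a % 2 = 1 := by omega
    rcases h3 with h3 | h3
    · left
      obtain ⟨b, hb⟩ : ∃ b, a = 2 * b := ⟨a / 2, by omega⟩
      rw [hb]
      have : 2 * b * (2 * b) = 4 * (b * b) := by ring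
      omega
    · right
      obtain ⟨b, hb⟩ : ∃ b, a = 2 * b + 1 := ⟨a / 2, by omega⟩
      rw [hb]
      have : (2 * b + 1) * (2 * b + 1) = 4 * (b * b + b) + 1 := by ring
      omega
  omega

/-- Parity of `n - P ^ 2`. -/
lemma mod_four_aux {n : ℕ} (h4 : n % 4 = 2 ∨ n % 4 = 3) {P : ℤ} (h : ((n:ℤ) - P ^ 2) % 2 = 0) :
    ((n:ℤ) - P ^ 2) % 4 = 2 ∧ (P - n) % 2 = 0 := by
  have h1 : (n:ℤ) % 4 = 2 ∨ (n:ℤ) % 4 = 3 := by omega
  have h3 : P % 2 = 0 ∨ P % 2 = 1 := by omega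
  rcases h3 with h3 | h3
  · obtain ⟨b, hb⟩ : ∃ b, P = 2 * b := ⟨P / 2, by omega⟩
    have e : P ^ 2 = 4 * (b * b) := by rw [hb]; ring
    rw [e] at h ⊢
    omega
  · obtain ⟨b, hb⟩ : ∃ b, P = 2 * b + 1 := ⟨P / 2, by omega⟩
    have e : P ^ 2 = 4 * (b * b + b) + 1 := by rw [hb]; ring
    rw [e] at h ⊢
    omega

theorem struct_par {n : ℕ} (h4 : n % 4 = 2 ∨ n % 4 = 3) (hnr : ¬ Rep n) {x : ℤ × ℤ}
    (hx : CFred n x) : ((n:ℤ) - x.2 ^ 2) / x.1 % 4 = 2 ∧ (x.2 - n) % 2 = 0 := by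
  obtain ⟨Q, P⟩ := x
  simp only at hx ⊢
  have hG := hx.toG
  simp only at hG
  obtain ⟨hG2, hmul⟩ := hG.swap (not_isSquare_of_mod h4)
  set R := ((n:ℤ) - P ^ 2) / Q with hR
  have hodd : Q % 2 = 1 := hx.odd
  have hQ1 := hG.qpos
  have hReven : R % 2 = 0 := by
    by_contra hcon
    have hRodd : R % 2 = 1 := by omega
    apply hnr
    obtain ⟨y, hy⟩ : ∃ y, Q + R = 2 * y := ⟨(Q + R) / 2, by omega⟩
    obtain ⟨z, hz⟩ : ∃ z, Q - R = 2 * z := ⟨(Q - R) / 2, by omega⟩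
    have hyz : y ^ 2 - z ^ 2 = Q * R := by
      have e1 : Q = y + z := by omega
      have e2 : R = y - z := by omega
      rw [e1, e2]
      ring
    have hid : 4 * n * Q ^ 2 - (Q * (Q + R)) ^ 2 = ((Q + P) ^ 2 - n) * (n - (Q - P) ^ 2) := by
      have e : Q * (Q + R) = Q ^ 2 + (n - P ^ 2) := by rw [← hmul]; ring
      rw [e]
      ring
    have h1 : 0 < ((Q + P) ^ 2 - n) * (n - (Q - P) ^ 2) :=
      mul_pos (by linarith [hG.win]) (by linarith [hG.upp])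
    have h2 : Q ^ 2 * (Q + R) ^ 2 < Q ^ 2 * (4 * n) := by nlinarith
    have h3 : (Q + R) ^ 2 < 4 * n := lt_of_mul_lt_mul_left h2 (by positivity)
    have h5 : y ^ 2 ≤ n := by
      rw [hy] at h3
      nlinarith
    have hR1 := hG2.qpos
    refine ⟨P, y, z, ?_, hG.plt.le, h5, ?_⟩
    · linarith
    · nlinarith
  have heven : ((n:ℤ) - P ^ 2) % 2 = 0 := by
    rw [← hmul, Int.mul_emod, hReven]
    simp
  obtain ⟨h1, h2⟩ := mod_four_aux h4 heven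
  refine ⟨?_, h2⟩
  obtain ⟨q, hq⟩ : ∃ q, Q = 2 * q + 1 := ⟨Q / 2, by omega⟩
  obtain ⟨r, hr⟩ : ∃ r, R = 2 * r := ⟨R / 2, by omega⟩
  have e : Q * R = 4 * (q * r) + 2 * r := by rw [hq, hr]; ring
  rw [← hmul, e] at h1
  omega

theorem beta_mem {n : ℕ} {x : ℤ × ℤ} (hx : CFred n x) : 0 < beta n x ∧ beta n x < 1 := by
  have hG := hx.toG
  have h1 := hG.uppS
  have h2 : (1:ℝ) ≤ x.1 := by exact_mod_cast hG.qpos
  have h3 : (1:ℝ) ≤ x.2 := by exact_mod_cast hG.ppos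
  have h4 := s_nonneg n
  unfold beta
  constructor
  · positivity
  · rw [div_lt_one (by linarith)]
    exact h1

/-- One continued fraction step. -/
lemma beta_step {n : ℕ} (hns : ¬ IsSquare (n:ℤ)) {Q P : ℤ} (h : GRed n Q P) :
    ∃ a : ℕ, 1 ≤ a ∧ GRed n Q (a * Q - P) ∧
      GRed n (((n:ℤ) - (a * Q - P) ^ 2) / Q) (a * Q - P) ∧
      beta n (Q, P) = 1 / ((a:ℝ) + beta n ((((n:ℤ) - (a * Q - P) ^ 2) / Q), (a * Q - P))) := by
  obtain ⟨a, ha, hG, hval⟩ := h.reflect hns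
  obtain ⟨hG2, hmul⟩ := hG.swap hns
  refine ⟨a, ha, hG, hG2, ?_⟩
  set P' := (a:ℤ) * Q - P with hP'
  set R := ((n:ℤ) - P' ^ 2) / Q with hR
  have hQ0 : (0:ℝ) < Q := by
    have : (1:ℝ) ≤ Q := by exact_mod_cast h.qpos
    linarith
  have hP0 : (1:ℝ) ≤ P := by exact_mod_cast h.ppos
  have hP'0 : (1:ℝ) ≤ P' := by exact_mod_cast hG.ppos
  have hs := s_nonneg n
  have hmulR : (Q:ℝ) * R = (√(n:ℝ) - P') * (√(n:ℝ) + P') := by
    have h1 : (Q:ℝ) * R = n - (P':ℝ) ^ 2 := by exact_mod_cast hmul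
    rw [h1]
    linear_combination -(s_sq n)
  unfold beta
  have e1 : (R:ℝ) / (P' + √(n:ℝ)) = (√(n:ℝ) - P') / Q := by
    rw [div_eq_div_iff (by positivity) hQ0.ne']
    linarith
  simp only
  rw [e1, ← hval, one_div_div]

theorem struct_step {n : ℕ} (h4 : n % 4 = 2 ∨ n % 4 = 3) (hnr : ¬ Rep n) {x : ℤ × ℤ}
    (hx : CFred n x) : ∃ a d : ℕ, Even a ∧ 2 ≤ a ∧ 1 ≤ d ∧
      ∃ y, CFred n y ∧ beta n x = 1 / ((a:ℝ) + 1 / ((d:ℝ) + beta n y)) := by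
  have hns := not_isSquare_of_mod h4
  obtain ⟨Q, P⟩ := x
  have hG := hx.toG
  simp only at hG
  have hodd : Q % 2 = 1 := hx.odd
  obtain ⟨a, ha, hG1, hG2, hb1⟩ := beta_step hns hG
  have hx' : CFred n (Q, (a:ℤ) * Q - P) :=
    ⟨hG1.qpos, hG1.ppos, hodd, hG1.plt, hG1.win, hG1.upp, hG1.dvd⟩
  have hp1 := struct_par h4 hnr hx
  have hp2 := struct_par h4 hnr hx'
  simp only at hp1 hp2
  -- a is even
  have haeven : Even a := by
    obtain ⟨q, hq⟩ : ∃ q, Q = 2 * q + 1 := ⟨Q / 2, by omega⟩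
    have h5 : ((a:ℤ) * Q) % 2 = 0 := by omega
    have h6 : (a:ℤ) * Q = 2 * (a * q) + a := by rw [hq]; ring
    have h7 : (a:ℤ) % 2 = 0 := by omega
    rw [Nat.even_iff]
    omega
  set P1 := (a:ℤ) * Q - P with hP1
  set Q1 := ((n:ℤ) - P1 ^ 2) / Q with hQ1
  obtain ⟨d, hd, hG3, hG4, hb2⟩ := beta_step hns hG2
  set P2 := (d:ℤ) * Q1 - P1 with hP2
  set Q2 := ((n:ℤ) - P2 ^ 2) / Q1 with hQ2
  refine ⟨a, d, haeven, ?_, hd, (Q2, P2), ?_, ?_⟩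
  · obtain ⟨m, hm⟩ := haeven
    omega
  · have hmul2 : Q1 * Q2 = n - P2 ^ 2 := (hG3.swap hns).2
    have hQ1even : Q1 % 4 = 2 := hp2.1
    obtain ⟨t, ht⟩ : ∃ t, Q1 = 4 * t + 2 := ⟨Q1 / 4, by omega⟩
    have heven : ((n:ℤ) - P2 ^ 2) % 2 = 0 := by
      rw [← hmul2]
      have : Q1 * Q2 = 2 * ((2 * t + 1) * Q2) := by rw [ht]; ring
      omega
    obtain ⟨h5, _⟩ := mod_four_aux h4 heven
    have hodd2 : Q2 % 2 = 1 := by
      rw [← hmul2] at h5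
      have e : Q1 * Q2 = 4 * (t * Q2) + 2 * Q2 := by rw [ht]; ring
      omega
    exact ⟨hG4.qpos, hG4.ppos, hodd2, hG4.plt, hG4.win, hG4.upp, hG4.dvd⟩
  · rw [hb1, hb2]

end Pool.Agent.Lib.P5632c9
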