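import Pool.Agent.Lib.P5632c9.ManyForms
import Pool.Agent.Lib.P5632c9.PairBound
import Pool.Agent.Lib.P5632c9.Cover
import Pool.Agent.Lib.P5632c9.Struct

/-!
# Final assembly
-/

namespace Pool.Agent.Lib.P5632c9

open Finset

lemma rep_of_factor {n : ℕ} {x u v : ℤ} (h : (n : ℤ) = x ^ 2 + u * v) (huv : 0 ≤ u * v)
    (hpar : (u - v) % 2 = 0) (hd : (u - v) ^ 2 ≤ 4 * x ^ 2) : Rep n := by
  obtain ⟨z, hz⟩ : ∃ z, u - v = 2 * z := ⟨(u - v) / 2, by omega⟩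
  refine ⟨x, v + z, z, ?_, ?_, ?_, ?_⟩
  · rw [h]
    have : u = v + 2 * z := by omega
    rw [this]; ring
  · linarith
  · have hz2 : z ^ 2 ≤ x ^ 2 := by
      rw [hz] at hd; nlinarith
    have : u = v + 2 * z := by omega
    rw [h, this]
    nlinarith
  · have hz2 : z ^ 2 ≤ x ^ 2 := by
      rw [hz] at hd; nlinarith
    linarith

lemma rep_of_zero_one {n : ℕ} (hn : 1 ≤ n) (h4 : n % 4 = 0 ∨ n % 4 = 1) : Rep n := by
  set s := Nat.sqrt n with hs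
  have h1 : s * s ≤ n := Nat.sqrt_le n
  have h2 : n < (s + 1) * (s + 1) := Nat.lt_succ_sqrt n
  have hs1 : 1 ≤ s := by
    by_contra h
    have : s = 0 := by omega
    rw [this] at h2; omega
  -- x
  obtain ⟨x, hx1, hx2, hx3, hx4⟩ : ∃ x : ℕ, x * x ≤ n ∧ n < (x + 2) * (x + 2) ∧ x % 2 = n % 2 ∧
      1 ≤ x := by
    by_cases hp : s % 2 = n % 2
    · exact ⟨s, h1, by nlinarith, hp, hs1⟩
    · refine ⟨s - 1, ?_, ?_, by omega, ?_⟩
      · have : (s - 1) * (s - 1) ≤ s * s := Nat.mul_le_mul (by omega) (by omega)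
        omega
      · have : s - 1 + 2 = s + 1 := by omega
        rw [this]; exact h2
      · by_contra h
        have hs1' : s = 1 := by omega
        rw [hs1'] at h1 h2 hp
        omega
  obtain ⟨v, hv⟩ : ∃ v : ℤ, (n : ℤ) - x ^ 2 = 4 * v := by
    have : ((n : ℤ) - x ^ 2) % 4 = 0 := by
      have hxx : (x : ℤ) % 4 = 0 ∨ (x : ℤ) % 4 = 1 ∨ (x : ℤ) % 4 = 2 ∨ (x : ℤ) % 4 = 3 := by omega
      have hx3' : (x : ℤ) % 2 = (n : ℤ) % 2 := by omega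
      have h4' : (n : ℤ) % 4 = 0 ∨ (n : ℤ) % 4 = 1 := by omega
      obtain ⟨k, hk⟩ | ⟨k, hk⟩ := Int.even_or_odd' (x : ℤ) |> fun ⟨k, hk⟩ => hk.elim
        (fun h => Or.inl (⟨k, h⟩ : ∃ k, (x : ℤ) = 2 * k)) (fun h => Or.inr (⟨k, h⟩ : ∃ k, (x : ℤ) = 2 * k + 1))
      · have e : (x : ℤ) ^ 2 = 4 * (k * k) := by rw [hk]; ring
        rw [e]; omega
      · have e : (x : ℤ) ^ 2 = 4 * (k * k + k) + 1 := by rw [hk]; ring
        rw [e]; omega
    exact ⟨((n : ℤ) - x ^ 2) / 4, by omega⟩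
  have hx1' : (x : ℤ) ^ 2 ≤ n := by
    have : ((x * x : ℕ) : ℤ) ≤ n := by exact_mod_cast hx1
    push_cast at this
    nlinarith
  have hx2' : (n : ℤ) < (x + 2) ^ 2 := by
    have : (n : ℤ) < (((x + 2) * (x + 2) : ℕ) : ℤ) := by exact_mod_cast hx2
    push_cast at this
    nlinarith
  have hx4' : (1 : ℤ) ≤ x := by exact_mod_cast hx4
  refine rep_of_factor (x := x) (u := 2) (v := 2 * v) (by linarith) (by nlinarith) (by omega) ?_
  have hv0 : 0 ≤ v := by linarith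
  have hv1 : v ≤ x := by nlinarith
  nlinarith

lemma rep_of_not_star {n : ℕ} (h4 : n % 4 = 2 ∨ n % 4 = 3) (hst : ¬ Star n) : Rep n := by
  unfold Star at hst
  push Not at hst
  obtain ⟨q, hq, hqn, hq4⟩ := hst
  obtain ⟨m, hm⟩ := hqn
  have hq2 : q ≠ 2 := by
    rintro rfl
    omega
  have hq3 : 3 ≤ q := by have := hq.two_le; omega
  have hqm : q ^ 2 ≤ m := by
    have : q ^ 2 * q ^ 2 ≤ q ^ 2 * m := by
      calc q ^ 2 * q ^ 2 = q ^ 4 := by ring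
        _ ≤ n := hq4
        _ = _ := hm
    exact Nat.le_of_mul_le_mul_left this (by positivity)
  set s := Nat.sqrt m with hs
  have h1 : s * s ≤ m := Nat.sqrt_le m
  have h2 : m < (s + 1) * (s + 1) := Nat.lt_succ_sqrt m
  have hne : s * s ≠ m := by
    intro h
    have : IsSquare n := ⟨q * s, by rw [hm, ← h]; ring⟩
    exact not_isSquare_of_mod_four h4 this
  have hqs : q ≤ s := by
    rw [hs, Nat.le_sqrt']; exact hqm
  obtain ⟨t, ht1, ht2, ht3, ht4⟩ : ∃ t : ℕ, t * t < m ∧ m < (t + 2) * (t + 2) ∧ t % 2 ≠ m % 2 ∧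
      s ≤ t + 1 := by
    by_cases hp : s % 2 = m % 2
    · refine ⟨s - 1, ?_, ?_, by omega, by omega⟩
      · have : (s - 1) * (s - 1) ≤ s * s := Nat.mul_le_mul (by omega) (by omega)
        omega
      · have : s - 1 + 2 = s + 1 := by omega
        rw [this]; exact h2
    · exact ⟨s, by omega, by nlinarith, hp, by omega⟩
  have hqodd : q % 2 = 1 := hq.eq_two_or_odd.resolve_left hq2
  have hqZ : (3 : ℤ) ≤ q := by exact_mod_cast hq3
  have htq : (q : ℤ) ≤ t + 1 := by omega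
  have ht1' : (t : ℤ) ^ 2 < m := by
    have : ((t * t : ℕ) : ℤ) < m := by exact_mod_cast ht1
    push_cast at this
    nlinarith
  have ht2' : (m : ℤ) < (t + 2) ^ 2 := by
    have : (m : ℤ) < (((t + 2) * (t + 2) : ℕ) : ℤ) := by exact_mod_cast ht2
    push_cast at this
    nlinarith
  have hmn : (n : ℤ) = q ^ 2 * m := by exact_mod_cast hm
  refine rep_of_factor (x := q * t) (u := q ^ 2) (v := m - t ^ 2) (by rw [hmn]; ring)
    (mul_nonneg (by positivity) (by linarith)) ?_ ?_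
  · have e1 : (q : ℤ) ^ 2 % 2 = 1 := by
      obtain ⟨k, hk⟩ : ∃ k : ℤ, (q : ℤ) = 2 * k + 1 := ⟨(q : ℤ) / 2, by omega⟩
      rw [hk]; ring_nf; omega
    have e2 : ((m : ℤ) - t ^ 2) % 2 = 1 := by
      have ht3' : (t : ℤ) % 2 ≠ (m : ℤ) % 2 := by omega
      rcases Int.even_or_odd' (t : ℤ) with ⟨k, hk | hk⟩
      · rw [hk] at ht3' ⊢; ring_nf; omega
      · rw [hk] at ht3' ⊢; ring_nf; omega
    omega
  · have a1 : (q : ℤ) ^ 2 - (m - t ^ 2) ≤ 2 * (q * t) := by nlinarith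
    have a2 : -(2 * ((q : ℤ) * t)) ≤ (q : ℤ) ^ 2 - (m - t ^ 2) := by nlinarith
    have : ((q : ℤ) ^ 2 - (m - t ^ 2)) ^ 2 ≤ (2 * (q * t)) ^ 2 := sq_le_sq' a2 a1
    calc _ ≤ _ := this
      _ = _ := by ring

/-- Cauchy–Schwarz for fibres -/
lemma sq_card_le_fiber {α β : Type*} [DecidableEq α] [DecidableEq β] (s : Finset α) (t : Finset β)
    (f : α → β) (hf : ∀ x ∈ s, f x ∈ t) :
    s.card ^ 2 ≤ t.card * ((s ×ˢ s).filter (fun p => f p.1 = f p.2)).card := by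
  have h1 : s.card = ∑ c ∈ t, (s.filter (fun x => f x = c)).card :=
    card_eq_sum_card_fiberwise hf
  have h2 : ((s ×ˢ s).filter (fun p => f p.1 = f p.2)).card =
      ∑ c ∈ t, (s.filter (fun x => f x = c)).card ^ 2 := by
    rw [card_eq_sum_card_fiberwise (f := fun p => f p.1) (t := t)]
    · refine sum_congr rfl fun c _ => ?_
      rw [pow_two, ← card_product]
      congr 1
      ext p
      simp only [mem_filter, mem_product]
      constructor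
      · rintro ⟨⟨⟨a, b⟩, c1⟩, d⟩; exact ⟨⟨a, d⟩, ⟨b, by rw [← c1]; exact d⟩⟩
      · rintro ⟨⟨a, d⟩, ⟨b, e⟩⟩; exact ⟨⟨⟨a, b⟩, by rw [d, e]⟩, d⟩
    · intro p hp
      exact hf _ (mem_product.mp (mem_filter.mp (mem_coe.mp hp)).1).1
  rw [h2]
  conv_lhs => rw [h1]
  exact sq_sum_le_card_mul_sum_sq

lemma cfred_of_window {n : ℕ} (hns : ¬ IsSquare n) {Q P : ℤ} (hQ : 1 ≤ Q) (hodd : Q % 2 = 1)
    (hQ2 : Q ^ 2 ≤ n) (hd : Q ∣ P ^ 2 - n) :
    CFred n (Q, (Nat.sqrt n : ℤ) - ((Nat.sqrt n : ℤ) - P) % Q) := by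
  have h1 : (Nat.sqrt n : ℤ) * (Nat.sqrt n : ℤ) ≤ n := by exact_mod_cast Nat.sqrt_le n
  have h2 : (n : ℤ) < ((Nat.sqrt n : ℤ) + 1) * ((Nat.sqrt n : ℤ) + 1) := by
    exact_mod_cast Nat.lt_succ_sqrt n
  have hne : (Nat.sqrt n : ℤ) * (Nat.sqrt n : ℤ) ≠ n := by
    intro h
    apply hns
    exact ⟨Nat.sqrt n, by exact_mod_cast h.symm⟩
  have hs0 : 0 ≤ (Nat.sqrt n : ℤ) := by positivity
  set s : ℤ := (Nat.sqrt n : ℤ) with hs
  have hlt : s * s < n := lt_of_le_of_ne h1 hne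
  have r1 := Int.emod_nonneg (s - P) (by omega : Q ≠ 0)
  have r2 := Int.emod_lt_of_pos (s - P) (by omega : 0 < Q)
  have hQs : Q ≤ s := by nlinarith
  set r := (s - P) % Q with hr
  refine ⟨hQ, ?_, hodd, ?_, ?_, ?_, ?_⟩
  · show 1 ≤ s - r
    omega
  · show (s - r) ^ 2 < n
    nlinarith
  · show (n : ℤ) < (Q + (s - r)) ^ 2
    nlinarith
  · show (Q - (s - r)) ^ 2 < n
    nlinarith
  · show Q ∣ n - (s - r) ^ 2
    have e1 : Q ∣ (s - P) - r := Int.dvd_self_sub_emod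
    have e : (n : ℤ) - (s - r) ^ 2 = -(P ^ 2 - n) - ((s - P) - r) * (P + (s - r)) := by ring
    rw [e]
    exact dvd_sub (dvd_neg.mpr hd) (e1.mul_right _)

lemma card_le_redSet {n : ℕ} (h4 : n % 4 = 2 ∨ n % 4 = 3) (hnr : ¬ Rep n) :
    ((range (n + 1) ×ˢ range (n + 1)).filter (fun p : ℕ × ℕ =>
      p.1 % 2 = 1 ∧ p.1 ^ 2 ≤ n ∧ p.2 < p.1 ∧ (p.1 : ℤ) ∣ (p.2 : ℤ) ^ 2 - n)).card ≤
      (redSet n).card := by
  have hns := not_isSquare_of_mod_four h4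
  refine card_le_card_of_injOn
    (fun p => ((p.1 : ℤ), (Nat.sqrt n : ℤ) - ((Nat.sqrt n : ℤ) - (p.2 : ℤ)) % (p.1 : ℤ))) ?_ ?_
  · intro p hp
    obtain ⟨_, a1, a2, a3, a4⟩ := mem_filter.mp (mem_coe.mp hp)
    have hq : (1 : ℤ) ≤ p.1 := by omega
    have hcf := cfred_of_window hns hq (by omega) (by exact_mod_cast a2) a4
    obtain ⟨b1, b2⟩ := struct_par h4 hnr hcf
    rw [mem_coe, mem_redSet]
    exact ⟨hcf.qpos, hcf.ppos, hcf.odd, by
      show (p.1 : ℤ) ^ 2 ≤ n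
      exact_mod_cast a2, hcf.plt, hcf.win, hcf.dvd, b1, b2⟩
  · intro p hp q hq hpq
    obtain ⟨_, a1, a2, a3, a4⟩ := mem_filter.mp (mem_coe.mp hp)
    obtain ⟨_, b1, b2, b3, b4⟩ := mem_filter.mp (mem_coe.mp hq)
    simp only [Prod.mk.injEq] at hpq
    obtain ⟨c1, c2⟩ := hpq
    have c1' : p.1 = q.1 := by exact_mod_cast c1
    rw [← c1] at c2
    have hd : (p.1 : ℤ) ∣ (p.2 : ℤ) - q.2 := by
      set s : ℤ := (Nat.sqrt n : ℤ)
      have e1 : (p.1 : ℤ) ∣ (s - p.2) - (s - p.2) % p.1 := Int.dvd_self_sub_emod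
      have e2 : (p.1 : ℤ) ∣ (s - q.2) - (s - q.2) % p.1 := Int.dvd_self_sub_emod
      have e : (p.2 : ℤ) - q.2 = ((s - q.2) - (s - q.2) % p.1) - ((s - p.2) - (s - p.2) % p.1) := by
        linarith
      rw [e]; exact dvd_sub e2 e1
    have h0 : (p.2 : ℤ) - q.2 = 0 := by
      apply Int.eq_zero_of_abs_lt_dvd hd
      rw [abs_lt]
      constructor <;> omega
    exact Prod.ext c1' (by omega)

theorem final : ∃ N0 : ℕ, ∀ n : ℕ, N0 ≤ n → Rep n := by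
  classical
  obtain ⟨N1, hmany⟩ := many_forms (1 / 1000) (by norm_num)
  obtain ⟨C, hC, hpair⟩ := pair_bound (1 / 1000) (by norm_num)
  obtain ⟨A, hA, hcov⟩ := cover
  set M : ℝ := (2 * (A * C)) ^ (1000 : ℝ) with hM
  refine ⟨max 4 (max N1 ⌈M⌉₊), ?_⟩
  intro n hn
  have hn4 : 4 ≤ n := (le_max_left _ _).trans hn
  have hnN1 : N1 ≤ n := ((le_max_left _ _).trans (le_max_right _ _)).trans hn
  have hnM : M ≤ n := (Nat.le_ceil M).trans (by
    exact_mod_cast ((le_max_right _ _).trans (le_max_right _ _)).trans hn)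
  by_contra hnr
  have h4 : n % 4 = 2 ∨ n % 4 = 3 := by
    by_contra h
    exact hnr (rep_of_zero_one (by omega) (by omega))
  have hst : Star n := by
    by_contra h
    exact hnr (rep_of_not_star h4 h)
  have hns := not_isSquare_of_mod_four h4
  have hnsZ : ¬ IsSquare (n : ℤ) := by
    rintro ⟨r, hr⟩
    apply hns
    refine ⟨r.natAbs, ?_⟩
    zify
    rw [← abs_mul, abs_of_nonneg (mul_self_nonneg r)]
    exact hr
  have hnR : (4 : ℝ) ≤ n := by exact_mod_cast hn4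
  have hn0 : (0 : ℝ) < n := by linarith
  have hn1 : (1 : ℝ) ≤ n := by linarith
  have hs0 : 0 < √(n : ℝ) := Real.sqrt_pos.mpr hn0
  -- covering
  set E : Set ℝ := {b | ∃ x, CFred n x ∧ b = beta n x} with hE
  set Z : ℝ := (n : ℝ) ^ (1 / 4 : ℝ) with hZ
  have hZ1 : 1 ≤ Z := Real.one_le_rpow hn1 (by norm_num)
  have hZ2 : 1 / Z ^ 2 = 1 / √(n : ℝ) := by
    rw [hZ, ← Real.rpow_natCast, ← Real.rpow_mul hn0.le, Real.sqrt_eq_rpow]
    norm_num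
  obtain ⟨Cf, hCf1, hCf2⟩ := hcov E (by
    rintro b ⟨x, hx, rfl⟩
    obtain ⟨b1, b2⟩ := beta_mem hx
    obtain ⟨a, d, ha, ha2, hd, y, hy, he⟩ := struct_step h4 hnr hx
    exact ⟨b1, b2, a, d, ha, ha2, hd, beta n y, ⟨y, hy, rfl⟩, he⟩) Z hZ1
  rw [hZ2] at hCf2
  have hcf : ∀ x ∈ redSet n, CFred n x := by
    intro x hx
    have r := mem_redSet.mp hx
    refine ⟨r.qpos, r.ppos, r.odd, r.plt, r.win, ?_, r.dvd⟩
    have h1 := r.qle
    have h2 := r.plt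
    have h3 := r.qpos
    have h5 := r.ppos
    nlinarith
  have hex : ∀ x ∈ redSet n, ∃ c ∈ Cf, c ≤ beta n x ∧ beta n x ≤ c + 1 / √(n : ℝ) :=
    fun x hx => hCf2 _ ⟨x, hcf x hx, rfl⟩
  let f : ℤ × ℤ → ℝ := fun x => if hx : x ∈ redSet n then (hex x hx).choose else 0
  have hf : ∀ x ∈ redSet n, f x ∈ Cf ∧ f x ≤ beta n x ∧ beta n x ≤ f x + 1 / √(n : ℝ) := by
    intro x hx
    simp only [f, dif_pos hx]
    exact (hex x hx).choose_spec
  have hCS := sq_card_le_fiber (redSet n) Cf f (fun x hx => (hf x hx).1)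
  have hsub : ((redSet n ×ˢ redSet n).filter (fun p => f p.1 = f p.2)).card ≤
      (closePairs n).card := by
    refine card_le_card fun p hp => ?_
    obtain ⟨h1, h2⟩ := mem_filter.mp hp
    obtain ⟨h3, h5⟩ := mem_product.mp h1
    refine mem_filter.mpr ⟨h1, ?_⟩
    obtain ⟨_, a2, a3⟩ := hf _ h3
    obtain ⟨_, b2, b3⟩ := hf _ h5
    rw [h2] at a2 a3
    rw [abs_le]
    constructor <;> linarith
  -- numbers
  have hN := (hmany n hnN1 h4).trans (by exact_mod_cast card_le_redSet h4 hnr :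
    (((range (n + 1) ×ˢ range (n + 1)).filter (fun p : ℕ × ℕ =>
      p.1 % 2 = 1 ∧ p.1 ^ 2 ≤ n ∧ p.2 < p.1 ∧ (p.1 : ℤ) ∣ (p.2 : ℤ) ^ 2 - n)).card : ℝ) ≤
      ((redSet n).card : ℝ))
  have hP := hpair n hn4 hnsZ hst
  have h1 : ((redSet n).card : ℝ) ^ 2 ≤ (Cf.card : ℝ) * ((closePairs n).card : ℝ) := by
    have : (redSet n).card ^ 2 ≤ Cf.card * (closePairs n).card :=
      hCS.trans (Nat.mul_le_mul_left _ hsub)
    exact_mod_cast this
  have h2 : ((n : ℝ) ^ (1 / 2 - 1 / 1000 : ℝ)) ^ 2 ≤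
      (A * Z ^ (1.9 : ℝ)) * (C * (n : ℝ) ^ (1 / 2 + 1 / 1000 : ℝ)) := by
    calc ((n : ℝ) ^ (1 / 2 - 1 / 1000 : ℝ)) ^ 2 ≤ ((redSet n).card : ℝ) ^ 2 :=
          pow_le_pow_left₀ (by positivity) hN 2
      _ ≤ (Cf.card : ℝ) * ((closePairs n).card : ℝ) := h1
      _ ≤ _ := by gcongr
  have e1 : ((n : ℝ) ^ (1 / 2 - 1 / 1000 : ℝ)) ^ 2 = (n : ℝ) ^ (998 / 1000 : ℝ) := by
    rw [← Real.rpow_natCast, ← Real.rpow_mul hn0.le]; norm_num
  have e2 : Z ^ (1.9 : ℝ) = (n : ℝ) ^ (475 / 1000 : ℝ) := by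
    rw [hZ, ← Real.rpow_mul hn0.le]; norm_num
  rw [e1, e2] at h2
  have e3 : (A * (n : ℝ) ^ (475 / 1000 : ℝ)) * (C * (n : ℝ) ^ (1 / 2 + 1 / 1000 : ℝ)) =
      (A * C) * (n : ℝ) ^ (976 / 1000 : ℝ) := by
    have : (n : ℝ) ^ (976 / 1000 : ℝ) =
        (n : ℝ) ^ (475 / 1000 : ℝ) * (n : ℝ) ^ (1 / 2 + 1 / 1000 : ℝ) := by
      rw [← Real.rpow_add hn0]; norm_num
    rw [this]; ring
  rw [e3] at h2
  have e4 : (n : ℝ) ^ (998 / 1000 : ℝ) = (n : ℝ) ^ (22 / 1000 : ℝ) * (n : ℝ) ^ (976 / 1000 : ℝ) := by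
    rw [← Real.rpow_add hn0]; norm_num
  rw [e4] at h2
  have h3 : (n : ℝ) ^ (22 / 1000 : ℝ) ≤ A * C :=
    le_of_mul_le_mul_right h2 (by positivity)
  have h5 : 2 * (A * C) ≤ (n : ℝ) ^ (22 / 1000 : ℝ) := by
    calc 2 * (A * C) = ((2 * (A * C)) ^ (1000 : ℝ)) ^ (1 / 1000 : ℝ) := by
          rw [← Real.rpow_mul (by positivity)]; norm_num
      _ ≤ (n : ℝ) ^ (1 / 1000 : ℝ) := Real.rpow_le_rpow (by positivity) hnM (by norm_num)
      _ ≤ (n : ℝ) ^ (22 / 1000 : ℝ) := Real.rpow_le_rpow_of_exponent_le hn1 (by norm_num)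
  have hAC : 0 < A * C := by positivity
  linarith

end Pool.Agent.Lib.P5632c9
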