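import Mathlib

/-!
# Estermann's lemma (abstract form)
-/

namespace Pool.Agent.Lib.P5632c9

open Finset Complex Filter Topology
open scoped ComplexOrder Nat

lemma iteratedDeriv_sub_one_mul {F : ℂ → ℂ} {U : Set ℂ} (hU : IsOpen U)
    (hF : DifferentiableOn ℂ F U) (j : ℕ) :
    ∀ s ∈ U, iteratedDeriv j (fun s => (s - 1) * F s) s =
      (s - 1) * iteratedDeriv j F s + j * iteratedDeriv (j - 1) F s := by
  have hdiff : ∀ n, ∀ s ∈ U, DifferentiableAt ℂ (iteratedDeriv n F) s := by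
    intro n s hs
    have h1 : AnalyticOnNhd ℂ F U := hF.analyticOnNhd hU
    have h2 : AnalyticAt ℂ (iteratedDeriv n F) s := by
      have := (h1 s hs).iterated_deriv n
      rwa [← iteratedDeriv_eq_iterate] at this
    exact h2.differentiableAt
  induction j with
  | zero => intro s hs; simp
  | succ j ih =>
    intro s hs
    rw [iteratedDeriv_succ]
    have hev : iteratedDeriv j (fun s => (s - 1) * F s) =ᶠ[𝓝 s]
        fun s => (s - 1) * iteratedDeriv j F s + j * iteratedDeriv (j - 1) F s := by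
      filter_upwards [hU.mem_nhds hs] with z hz
      exact ih z hz
    rw [hev.deriv_eq]
    have d1 : HasDerivAt (fun s : ℂ => s - 1) 1 s := (hasDerivAt_id s).sub_const 1
    have d2 : HasDerivAt (iteratedDeriv j F) (iteratedDeriv (j + 1) F s) s := by
      rw [iteratedDeriv_succ]
      exact (hdiff j s hs).hasDerivAt
    have d3 : HasDerivAt (fun s => (j : ℂ) * iteratedDeriv (j - 1) F s)
        (j * iteratedDeriv j F s) s := by
      rcases j with _ | j
      · simp only [Nat.cast_zero, zero_mul]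
        exact hasDerivAt_const s 0
      · have : HasDerivAt (iteratedDeriv j F) (iteratedDeriv (j + 1) F s) s := by
          rw [iteratedDeriv_succ]
          exact (hdiff j s hs).hasDerivAt
        exact this.const_mul _
    have := (d1.mul d2).add d3
    rw [HasDerivAt.deriv (f := fun s => (s - 1) * iteratedDeriv j F s +
      (j : ℂ) * iteratedDeriv (j - 1) F s) this]
    push_cast
    try simp only [Nat.add_sub_cancel]
    ring

/-- **Estermann's lemma**, abstract version. -/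
theorem estermann (a : ℕ → ℂ) (ha : 0 ≤ a) (ha1 : 1 ≤ a 1)
    (hsum : ∀ s : ℂ, 1 < s.re → LSeriesSummable a s) (H : ℂ → ℂ) (hH : Differentiable ℂ H)
    (hHa : ∀ s : ℂ, 1 < s.re → H s = (s - 1) * LSeries a s) (M : ℝ)
    (hM : ∀ s ∈ Metric.sphere (2 : ℂ) (3 / 2), ‖H s‖ ≤ M) (σ : ℝ) (hσ : 7 / 8 ≤ σ) (hσ1 : σ ≤ 1)
    (K : ℕ) (hK : 1 ≤ K) :
    (H σ).re ≤ (H 1).re * (2 - σ) ^ K - (1 - σ) + 5 * M * (3 / 4) ^ K := by
  have hM0 : 0 ≤ M := by
    have : (7 / 2 : ℂ) ∈ Metric.sphere (2 : ℂ) (3 / 2) := by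
      rw [mem_sphere_iff_norm]; norm_num
    exact (norm_nonneg _).trans (hM _ this)
  have habs : LSeries.abscissaOfAbsConv a ≤ 1 := by
    refine LSeries.abscissaOfAbsConv_le_of_forall_lt_LSeriesSummable' ?_
    intro y hy
    exact hsum y (by simpa using (by exact_mod_cast hy : (1 : ℝ) < y))
  have habs2 : LSeries.abscissaOfAbsConv a < ((2 : ℝ) : EReal) := by
    refine lt_of_le_of_lt habs ?_
    exact_mod_cast (by norm_num : (1 : ℝ) < 2)
  set u : ℝ := 2 - σ with hu
  have hu1 : 1 ≤ u := by rw [hu]; linarith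
  have hu2 : u ≤ 9 / 8 := by rw [hu]; linarith
  -- coefficients
  let c : ℕ → ℂ := fun j => (j ! : ℂ)⁻¹ * (-1) ^ j * iteratedDeriv j H 2
  let b : ℕ → ℂ := fun j => (j ! : ℂ)⁻¹ * ((-1) ^ j * iteratedDeriv j (LSeries a) 2)
  have hb0 : ∀ j, 0 ≤ b j := by
    intro j
    have h1 := LSeries.iteratedDeriv_alternating ha habs2 j
    refine mul_nonneg ?_ (by simpa using h1)
    have : (0 : ℂ) ≤ ((j ! : ℝ)⁻¹ : ℝ) := by
      exact_mod_cast (by positivity : (0 : ℝ) ≤ (j ! : ℝ)⁻¹)
    simpa using this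
  have hbre : ∀ j, 0 ≤ (b j).re := fun j => (Complex.nonneg_iff.mp (hb0 j)).1
  have hbzero : 1 ≤ (b 0).re := by
    have e : b 0 = LSeries a 2 := by simp [b]
    rw [e]
    have hs2 : LSeriesSummable a 2 := hsum 2 (by simp)
    have h2 : HasSum (fun n => (LSeries.term a 2 n).re) (LSeries a 2).re :=
      Complex.hasSum_re hs2.hasSum
    have h3 := h2.summable.le_tsum 1 (fun n _ => ?_)
    · rw [h2.tsum_eq] at h3
      refine le_trans ?_ h3
      rw [LSeries.term_of_ne_zero one_ne_zero]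
      simp only [Nat.cast_one, Complex.one_cpow, div_one]
      have := (Complex.le_def.mp ha1).1
      simpa using this
    · have : 0 ≤ LSeries.term a (2 : ℝ) n := LSeries.term_nonneg (ha n) 2
      have := (Complex.nonneg_iff.mp this).1
      simpa using this
  -- relation
  have hU : IsOpen {s : ℂ | 1 < s.re} := isOpen_lt continuous_const Complex.continuous_re
  have hFdiff : DifferentiableOn ℂ (LSeries a) {s : ℂ | 1 < s.re} := by
    refine (LSeries_differentiableOn a).mono ?_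
    intro s hs
    exact lt_of_le_of_lt habs (by exact_mod_cast (hs : 1 < s.re))
  have h2U : (2 : ℂ) ∈ {s : ℂ | 1 < s.re} := by simp
  have hrel : ∀ j, iteratedDeriv j H 2 =
      iteratedDeriv j (LSeries a) 2 + j * iteratedDeriv (j - 1) (LSeries a) 2 := by
    intro j
    have heq : Set.EqOn H (fun s => (s - 1) * LSeries a s) {s : ℂ | 1 < s.re} :=
      fun s hs => hHa s hs
    rw [heq.iteratedDeriv_of_isOpen hU j h2U, iteratedDeriv_sub_one_mul hU hFdiff j 2 h2U]
    norm_num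
  have hc0 : c 0 = b 0 := by
    simp only [c, b]
    rw [hrel 0]
    simp
  have hcs : ∀ j, c (j + 1) = b (j + 1) - b j := by
    intro j
    simp only [c, b]
    rw [hrel (j + 1)]
    have hf : ((j + 1)! : ℂ) = (j + 1) * (j ! : ℂ) := by
      rw [Nat.factorial_succ]; push_cast; ring
    have hj : (j ! : ℂ) ≠ 0 := by exact_mod_cast Nat.factorial_ne_zero j
    have hj1 : ((j : ℂ) + 1) ≠ 0 := by exact_mod_cast Nat.succ_ne_zero j
    rw [hf]
    push_cast
    try simp only [Nat.add_sub_cancel]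
    field_simp
    ring
  have hcnorm : ∀ j, ‖c j‖ ≤ M * (2 / 3) ^ j := by
    intro j
    have h1 := norm_iteratedDeriv_le_of_forall_mem_sphere_norm_le (c := 2) (R := 3 / 2) (C := M)
      (f := H) j (by norm_num) hH.diffContOnCl hM
    simp only [c]
    rw [norm_mul, norm_mul, norm_inv, norm_pow, norm_neg, norm_one, one_pow, mul_one,
      Complex.norm_natCast]
    have hj : (0 : ℝ) < (j ! : ℝ) := by exact_mod_cast Nat.factorial_pos j
    calc (j ! : ℝ)⁻¹ * ‖iteratedDeriv j H 2‖ ≤ (j ! : ℝ)⁻¹ * ((j ! : ℝ) * M / (3 / 2) ^ j) :=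
          mul_le_mul_of_nonneg_left h1 (by positivity)
      _ = M * (2 / 3) ^ j := by
          rw [show (2 / 3 : ℝ) = (3 / 2)⁻¹ by norm_num, inv_pow]
          field_simp
  have hHsum : ∀ v : ℝ, HasSum (fun j => c j * (v : ℂ) ^ j) (H ((2 - v : ℝ) : ℂ)) := by
    intro v
    have h1 := Complex.hasSum_taylorSeries_of_entire hH 2 ((2 - v : ℝ) : ℂ)
    refine h1.congr_fun ?_ |> id
    intro j
    simp only [c, smul_eq_mul]
    have : (((2 - v : ℝ) : ℂ) - 2) = (-1) * (v : ℂ) := by push_cast; ring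
    rw [this, mul_pow]
    ring
  -- partial sums
  have hpart1 : ∀ J, ∑ j ∈ range (J + 1), c j = b J := by
    intro J
    induction J with
    | zero => simp [hc0]
    | succ J ih => rw [sum_range_succ, ih, hcs]; ring
  have hpart : ∀ J, ∑ j ∈ range (J + 1), c j * (u : ℂ) ^ j =
      b J * (u : ℂ) ^ J - (u - 1) * ∑ j ∈ range J, b j * (u : ℂ) ^ j := by
    intro J
    induction J with
    | zero => simp [hc0]
    | succ J ih =>
      rw [sum_range_succ, ih, hcs, sum_range_succ _ J]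
      ring
  -- tail at u = 1
  have hgeo : ∀ (r : ℝ), 0 ≤ r → r < 1 → ∀ (J : ℕ) (f : ℕ → ℂ), (∀ j, ‖f j‖ ≤ M * r ^ j) →
      Summable f → ‖∑' j, f (j + J)‖ ≤ M * r ^ J * (1 - r)⁻¹ := by
    intro r hr0 hr1 J f hf _
    have hs : HasSum (fun j : ℕ => M * r ^ J * r ^ j) (M * r ^ J * (1 - r)⁻¹) :=
      (hasSum_geometric_of_lt_one hr0 hr1).mul_left _
    refine tsum_of_norm_bounded hs fun j => ?_
    refine (hf (j + J)).trans (le_of_eq ?_)
    rw [pow_add]; ring
  have hb_le : ∀ J, (b J).re ≤ (H 1).re + 2 * M * (2 / 3) ^ J := by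
    intro J
    have h1 := hHsum 1
    have e1 : ((2 - 1 : ℝ) : ℂ) = 1 := by norm_num
    rw [e1] at h1
    simp only [Complex.ofReal_one, one_pow, mul_one] at h1
    have h2 := (h1.summable.sum_add_tsum_nat_add (J + 1))
    rw [hpart1, h1.tsum_eq] at h2
    have h3 := hgeo (2 / 3) (by norm_num) (by norm_num) (J + 1) c hcnorm h1.summable
    have h4 : |(∑' j, c (j + (J + 1))).re| ≤ M * (2 / 3) ^ (J + 1) * (1 - 2 / 3)⁻¹ :=
      (Complex.abs_re_le_norm _).trans h3
    have h5 := congrArg Complex.re h2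
    rw [Complex.add_re] at h5
    have h6 : M * (2 / 3 : ℝ) ^ (J + 1) * (1 - 2 / 3)⁻¹ = 2 * M * (2 / 3) ^ J := by
      rw [pow_succ]; norm_num; ring
    rw [h6, abs_le] at h4
    linarith [h4.1]
  -- main
  have h1 := hHsum u
  have e1 : ((2 - u : ℝ) : ℂ) = (σ : ℂ) := by rw [hu]; push_cast; ring
  rw [e1] at h1
  have h2 := (h1.summable.sum_add_tsum_nat_add (K + 1))
  rw [hpart, h1.tsum_eq] at h2
  have hcu : ∀ j, ‖c j * (u : ℂ) ^ j‖ ≤ M * (3 / 4) ^ j := by
    intro j
    rw [norm_mul, norm_pow, Complex.norm_real, Real.norm_of_nonneg (by linarith)]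
    calc ‖c j‖ * u ^ j ≤ (M * (2 / 3) ^ j) * (9 / 8) ^ j := by
          refine mul_le_mul (hcnorm j) ?_ (by positivity) (by positivity)
          exact pow_le_pow_left₀ (by linarith) hu2 j
      _ = M * ((2 / 3) * (9 / 8)) ^ j := by rw [mul_pow]; ring
      _ = M * (3 / 4) ^ j := by norm_num
  have h3 := hgeo (3 / 4) (by norm_num) (by norm_num) (K + 1) _ hcu h1.summable
  have h4 : |(∑' j, c (j + (K + 1)) * (u : ℂ) ^ (j + (K + 1))).re| ≤
      M * (3 / 4) ^ (K + 1) * (1 - 3 / 4)⁻¹ := (Complex.abs_re_le_norm _).trans h3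
  have h5 := congrArg Complex.re h2
  rw [Complex.add_re, Complex.sub_re] at h5
  have e2 : (b K * (u : ℂ) ^ K).re = (b K).re * u ^ K := by
    rw [← Complex.ofReal_pow, Complex.re_mul_ofReal]
  have e3 : (((u : ℂ) - 1) * ∑ j ∈ range K, b j * (u : ℂ) ^ j).re =
      (u - 1) * ∑ j ∈ range K, (b j).re * u ^ j := by
    have : ((u : ℂ) - 1) = ((u - 1 : ℝ) : ℂ) := by push_cast; ring
    rw [this, Complex.re_ofReal_mul, Complex.re_sum]
    congr 1
    refine sum_congr rfl fun j _ => ?_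
    rw [← Complex.ofReal_pow, Complex.re_mul_ofReal]
  rw [e2, e3] at h5
  have h6 : 1 ≤ ∑ j ∈ range K, (b j).re * u ^ j := by
    have : (b 0).re * u ^ 0 ≤ ∑ j ∈ range K, (b j).re * u ^ j :=
      single_le_sum (f := fun j => (b j).re * u ^ j)
        (fun j _ => mul_nonneg (hbre j) (by positivity)) (mem_range.mpr (by omega))
    simp only [pow_zero, mul_one] at this
    linarith
  have h7 : (b K).re * u ^ K ≤ (H 1).re * u ^ K + 2 * M * (3 / 4) ^ K := by
    calc (b K).re * u ^ K ≤ ((H 1).re + 2 * M * (2 / 3) ^ K) * u ^ K :=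
          mul_le_mul_of_nonneg_right (hb_le K) (by positivity)
      _ = (H 1).re * u ^ K + 2 * M * ((2 / 3) ^ K * u ^ K) := by ring
      _ ≤ (H 1).re * u ^ K + 2 * M * (3 / 4) ^ K := by
          have : (2 / 3 : ℝ) ^ K * u ^ K ≤ (3 / 4) ^ K := by
            rw [← mul_pow]
            exact pow_le_pow_left₀ (by positivity) (by linarith) K
          nlinarith
  have h8 : M * (3 / 4 : ℝ) ^ (K + 1) * (1 - 3 / 4)⁻¹ = 3 * M * (3 / 4) ^ K := by
    rw [pow_succ]; norm_num; ring
  rw [h8, abs_le] at h4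
  have h9 : (u - 1) * 1 ≤ (u - 1) * ∑ j ∈ range K, (b j).re * u ^ j :=
    mul_le_mul_of_nonneg_left h6 (by linarith)
  have h10 : u - 1 = 1 - σ := by rw [hu]; ring
  have h11 : (2 - σ) = u := hu.symm
  rw [h10] at h9 h5
  linarith [h4.2]

end Pool.Agent.Lib.P5632c9
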