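import Pool.Agent.Lib.P5632c9.AbelL
import Pool.Agent.Lib.P5632c9.Taylor

/-!
# The products `ζ L(χ)` and `ζ L(χ₁) L(χ₂) L(χ₁χ₂)`
-/

namespace Pool.Agent.Lib.P5632c9

open Finset Complex Filter Topology
open scoped ComplexOrder

/-- the entire function `(s-1)ζ(s)` -/
noncomputable def zeta1 : ℂ → ℂ := Function.update (fun s : ℂ => (s - 1) * riemannZeta s) 1 1

lemma zeta1_one : zeta1 1 = 1 := by simp [zeta1]

lemma zeta1_of_ne {s : ℂ} (hs : s ≠ 1) : zeta1 s = (s - 1) * riemannZeta s := by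
  simp [zeta1, hs]

lemma differentiable_zeta1 : Differentiable ℂ zeta1 := by
  intro s
  by_cases hs : s = 1
  · subst hs
    refine (analyticAt_of_differentiable_on_punctured_nhds_of_continuousAt ?_ ?_).differentiableAt
    · filter_upwards [self_mem_nhdsWithin] with t ht
      have ht' : t ≠ 1 := ht
      apply DifferentiableAt.congr_of_eventuallyEq
      · exact (differentiableAt_id.sub_const 1).mul (differentiableAt_riemannZeta ht')
      · filter_upwards [eventually_ne_nhds ht'] with z hz using zeta1_of_ne hz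
    · have := riemannZeta_residue_one
      simpa only [zeta1, continuousAt_update_same] using this
  · apply DifferentiableAt.congr_of_eventuallyEq
    · exact (differentiableAt_id.sub_const 1).mul (differentiableAt_riemannZeta hs)
    · filter_upwards [eventually_ne_nhds hs] with z hz using zeta1_of_ne hz

lemma zeta1_bound : ∃ C : ℝ, 0 < C ∧ ∀ s ∈ Metric.sphere (2 : ℂ) (3 / 2), ‖zeta1 s‖ ≤ C := by
  obtain ⟨C, hC⟩ := (isCompact_sphere (2 : ℂ) (3 / 2)).exists_bound_of_continuousOn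
    differentiable_zeta1.continuous.continuousOn
  exact ⟨max C 1, lt_max_of_lt_right one_pos, fun s hs => (hC s hs).trans (le_max_left _ _)⟩

section coeff

variable {N N₁ N₂ N₃ : ℕ}

/-- arithmetic function of a character -/
noncomputable def cf (χ : DirichletCharacter ℂ N) : ArithmeticFunction ℂ :=
  toArithmeticFunction (χ ·)

lemma cf_apply (χ : DirichletCharacter ℂ N) {n : ℕ} (hn : n ≠ 0) : cf χ n = χ (n : ZMod N) := by
  simp [cf, toArithmeticFunction, hn]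

lemma LSeriesSummable_cf (χ : DirichletCharacter ℂ N) {s : ℂ} (hs : 1 < s.re) :
    LSeriesSummable (cf χ ·) s := by
  refine LSeriesSummable_of_bounded_of_one_lt_re (m := 1) (fun n hn ↦ ?_) hs
  rw [cf_apply χ hn]
  exact DirichletCharacter.norm_le_one χ _

lemma LSeries_cf [NeZero N] (χ : DirichletCharacter ℂ N) {s : ℂ} (hs : 1 < s.re) :
    LSeries (cf χ ·) s = DirichletCharacter.LFunction χ s := by
  rw [DirichletCharacter.LFunction_eq_LSeries χ hs]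
  refine LSeries_congr (fun {n} hn => ?_) s
  exact cf_apply χ hn

lemma LSeries_zetaMul [NeZero N] (χ : DirichletCharacter ℂ N) {s : ℂ} (hs : 1 < s.re) :
    LSeries (χ.zetaMul ·) s = riemannZeta s * DirichletCharacter.LFunction χ s := by
  rw [← LSeries_cf χ hs, ← ArithmeticFunction.LSeries_zeta_eq_riemannZeta hs]
  exact ArithmeticFunction.LSeries_mul' (f := (ArithmeticFunction.zeta : ArithmeticFunction ℂ))
    (ArithmeticFunction.LSeriesSummable_zeta_iff.mpr hs) (LSeriesSummable_cf χ hs)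

/-- the four-fold convolution -/
noncomputable def quad (χ₁ : DirichletCharacter ℂ N₁) (χ₂ : DirichletCharacter ℂ N₂)
    (χ₃ : DirichletCharacter ℂ N₃) : ArithmeticFunction ℂ :=
  χ₁.zetaMul * (cf χ₂ * cf χ₃)

lemma cf_mul_cf_apply (χ₁ : DirichletCharacter ℂ N₁) (χ₂ : DirichletCharacter ℂ N₂)
    (χ₃ : DirichletCharacter ℂ N₃) (h : ∀ n : ℕ, χ₃ n = χ₁ n * χ₂ n) (n : ℕ) :
    (cf χ₂ * cf χ₃) n = χ₂ n * χ₁.zetaMul n := by
  rcases eq_or_ne n 0 with rfl | hn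
  · simp
  rw [ArithmeticFunction.mul_apply, DirichletCharacter.zetaMul, ArithmeticFunction.mul_apply,
    mul_sum]
  refine sum_congr rfl fun x hx => ?_
  have hx1 := Nat.ne_zero_of_mem_divisorsAntidiagonal hx
  have hx2 := (Nat.mem_divisorsAntidiagonal.mp hx).1
  rw [cf_apply _ hx1.1, cf_apply _ hx1.2, h, ← hx2]
  have : toArithmeticFunction (fun n : ℕ => χ₁ (n : ZMod N₁)) x.2 = χ₁ (x.2 : ZMod N₁) := by
    simp [toArithmeticFunction, hx1.2]
  rw [this]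
  rw [ArithmeticFunction.natCoe_apply, ArithmeticFunction.zeta_apply_ne hx1.1]
  push_cast
  rw [map_mul]
  ring

lemma quad_comm (χ₁ : DirichletCharacter ℂ N₁) (χ₂ : DirichletCharacter ℂ N₂)
    (χ₃ : DirichletCharacter ℂ N₃) : quad χ₁ χ₂ χ₃ = quad χ₂ χ₁ χ₃ := by
  have h1 : χ₁.zetaMul = (ArithmeticFunction.zeta : ArithmeticFunction ℂ) * cf χ₁ := rfl
  have h2 : χ₂.zetaMul = (ArithmeticFunction.zeta : ArithmeticFunction ℂ) * cf χ₂ := rfl
  rw [quad, quad, h1, h2]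
  ring

lemma isMultiplicative_cf (χ : DirichletCharacter ℂ N) : (cf χ).IsMultiplicative :=
  DirichletCharacter.isMultiplicative_toArithmeticFunction χ

lemma isMultiplicative_quad (χ₁ : DirichletCharacter ℂ N₁) (χ₂ : DirichletCharacter ℂ N₂)
    (χ₃ : DirichletCharacter ℂ N₃) : (quad χ₁ χ₂ χ₃).IsMultiplicative :=
  (DirichletCharacter.isMultiplicative_zetaMul χ₁).mul
    ((isMultiplicative_cf χ₂).mul (isMultiplicative_cf χ₃))

lemma quad_prime_pow_nonneg_aux {χ₁ : DirichletCharacter ℂ N₁} {χ₂ : DirichletCharacter ℂ N₂}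
    {χ₃ : DirichletCharacter ℂ N₃} (h1 : χ₁ ^ 2 = 1)
    (h : ∀ n : ℕ, χ₃ n = χ₁ n * χ₂ n) {p : ℕ} (hp : p.Prime) (k : ℕ)
    (hb : ∀ j, 0 ≤ χ₂ ((p ^ j : ℕ) : ZMod N₂) * χ₁.zetaMul (p ^ j)) :
    0 ≤ quad χ₁ χ₂ χ₃ (p ^ k) := by
  rw [quad, ArithmeticFunction.mul_apply]
  refine sum_nonneg fun x hx => ?_
  refine mul_nonneg (DirichletCharacter.zetaMul_nonneg h1 _) ?_
  rw [cf_mul_cf_apply χ₁ χ₂ χ₃ h]
  have hx2 : x.2 ∣ p ^ k := by
    rw [← (Nat.mem_divisorsAntidiagonal.mp hx).1]; exact Dvd.intro_left _ rfl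
  obtain ⟨j, _, hj⟩ := (Nat.dvd_prime_pow hp).mp hx2
  rw [hj]
  exact hb j

lemma quad_prime_pow_nonneg {χ₁ : DirichletCharacter ℂ N₁} {χ₂ : DirichletCharacter ℂ N₂}
    {χ₃ : DirichletCharacter ℂ N₃} (h1 : χ₁ ^ 2 = 1) (h2 : χ₂ ^ 2 = 1)
    (h : ∀ n : ℕ, χ₃ n = χ₁ n * χ₂ n) {p : ℕ} (hp : p.Prime) (k : ℕ) :
    0 ≤ quad χ₁ χ₂ χ₃ (p ^ k) := by
  have q1 := MulChar.isQuadratic_iff_sq_eq_one.mpr h1 (p : ZMod N₁)
  have q2 := MulChar.isQuadratic_iff_sq_eq_one.mpr h2 (p : ZMod N₂)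
  by_cases hb : 0 ≤ χ₂ (p : ZMod N₂)
  · refine quad_prime_pow_nonneg_aux h1 h hp k fun j => ?_
    refine mul_nonneg ?_ (DirichletCharacter.zetaMul_nonneg h1 _)
    push_cast
    rw [map_pow]
    exact pow_nonneg hb j
  by_cases ha : 0 ≤ χ₁ (p : ZMod N₁)
  · rw [quad_comm]
    refine quad_prime_pow_nonneg_aux h2 (fun n => by rw [h n, mul_comm]) hp k fun j => ?_
    refine mul_nonneg ?_ (DirichletCharacter.zetaMul_nonneg h2 _)
    push_cast
    rw [map_pow]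
    exact pow_nonneg ha j
  have hb' : χ₂ (p : ZMod N₂) = -1 := by
    rcases q2 with h | h | h
    · exact absurd h.ge hb
    · exact absurd (by rw [h]; exact zero_le_one) hb
    · exact h
  have ha' : χ₁ (p : ZMod N₁) = -1 := by
    rcases q1 with h | h | h
    · exact absurd h.ge ha
    · exact absurd (by rw [h]; exact zero_le_one) ha
    · exact h
  refine quad_prime_pow_nonneg_aux h1 h hp k fun j => ?_
  push_cast
  rw [map_pow, hb']
  rcases Nat.even_or_odd j with hj | hj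
  · rw [hj.neg_one_pow, one_mul]
    exact DirichletCharacter.zetaMul_nonneg h1 _
  · have : χ₁.zetaMul (p ^ j) = 0 := by
      have e : χ₁.zetaMul = (ArithmeticFunction.zeta : ArithmeticFunction ℂ) * cf χ₁ := rfl
      rw [e, ArithmeticFunction.coe_zeta_mul_apply, Nat.sum_divisors_prime_pow hp]
      have e2 : ∀ i ∈ range (j + 1), cf χ₁ (p ^ i) = (-1) ^ i := by
        intro i _
        rw [cf_apply _ (pow_ne_zero _ hp.ne_zero)]
        push_cast
        rw [map_pow, ha']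
      rw [sum_congr rfl e2, neg_one_geom_sum, if_pos hj.add_one]
    rw [this, mul_zero]

lemma quad_nonneg {χ₁ : DirichletCharacter ℂ N₁} {χ₂ : DirichletCharacter ℂ N₂}
    {χ₃ : DirichletCharacter ℂ N₃} (h1 : χ₁ ^ 2 = 1) (h2 : χ₂ ^ 2 = 1)
    (h : ∀ n : ℕ, χ₃ n = χ₁ n * χ₂ n) (n : ℕ) : 0 ≤ quad χ₁ χ₂ χ₃ n := by
  rcases eq_or_ne n 0 with rfl | hn
  · simp only [ArithmeticFunction.map_zero, le_refl]
  · rw [(isMultiplicative_quad χ₁ χ₂ χ₃).multiplicative_factorization _ hn]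
    exact Finset.prod_nonneg
        fun p hp ↦ quad_prime_pow_nonneg h1 h2 h (Nat.prime_of_mem_primeFactors hp) _

lemma LSeriesSummable_quad (χ₁ : DirichletCharacter ℂ N₁) (χ₂ : DirichletCharacter ℂ N₂)
    (χ₃ : DirichletCharacter ℂ N₃) {s : ℂ} (hs : 1 < s.re) :
    LSeriesSummable (quad χ₁ χ₂ χ₃ ·) s :=
  ArithmeticFunction.LSeriesSummable_mul (χ₁.LSeriesSummable_zetaMul hs)
    (ArithmeticFunction.LSeriesSummable_mul (LSeriesSummable_cf χ₂ hs) (LSeriesSummable_cf χ₃ hs))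

lemma LSeries_quad [NeZero N₁] [NeZero N₂] [NeZero N₃] (χ₁ : DirichletCharacter ℂ N₁)
    (χ₂ : DirichletCharacter ℂ N₂) (χ₃ : DirichletCharacter ℂ N₃) {s : ℂ} (hs : 1 < s.re) :
    LSeries (quad χ₁ χ₂ χ₃ ·) s = riemannZeta s * DirichletCharacter.LFunction χ₁ s *
      (DirichletCharacter.LFunction χ₂ s * DirichletCharacter.LFunction χ₃ s) := by
  rw [← LSeries_zetaMul χ₁ hs, ← LSeries_cf χ₂ hs, ← LSeries_cf χ₃ hs]
  rw [← ArithmeticFunction.LSeries_mul' (LSeriesSummable_cf χ₂ hs) (LSeriesSummable_cf χ₃ hs)]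
  exact ArithmeticFunction.LSeries_mul' (χ₁.LSeriesSummable_zetaMul hs)
    (ArithmeticFunction.LSeriesSummable_mul (LSeriesSummable_cf χ₂ hs) (LSeriesSummable_cf χ₃ hs))

end coeff

theorem single_ineq : ∃ C : ℝ, 0 < C ∧ ∀ (N : ℕ) [NeZero N] (χ : DirichletCharacter ℂ N),
    χ ≠ 1 → χ ^ 2 = 1 → ∀ σ : ℝ, 7 / 8 ≤ σ → σ ≤ 1 → ∀ K : ℕ, 1 ≤ K →
    (zeta1 σ * DirichletCharacter.LFunction χ σ).re ≤
      (DirichletCharacter.LFunction χ 1).re * (2 - σ) ^ K - (1 - σ) + C * N * (3 / 4) ^ K := by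
  obtain ⟨C₁, hC₁, hz⟩ := zeta1_bound
  obtain ⟨C₂, hC₂, hL⟩ := norm_LFunction_le
  refine ⟨5 * (C₁ * C₂), by positivity, ?_⟩
  intro N _ χ hχ h2 σ h78 h1 K hK
  have := estermann (χ.zetaMul ·) (fun n => DirichletCharacter.zetaMul_nonneg h2 n)
    (by rw [(DirichletCharacter.isMultiplicative_zetaMul χ).map_one])
    (fun s hs => χ.LSeriesSummable_zetaMul hs)
    (fun s => zeta1 s * DirichletCharacter.LFunction χ s)
    (differentiable_zeta1.mul (DirichletCharacter.differentiable_LFunction hχ)) ?_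
    (C₁ * (C₂ * N)) ?_ σ h78 h1 K hK
  · simp only [zeta1_one, one_mul] at this
    refine this.trans (le_of_eq ?_)
    ring
  · intro s hs
    have hs1 : s ≠ 1 := by rintro rfl; simp at hs
    rw [LSeries_zetaMul χ hs, zeta1_of_ne hs1]
    ring
  · intro s hs
    rw [norm_mul]
    exact mul_le_mul (hz s hs) (hL N χ hχ s hs) (norm_nonneg _) hC₁.le

theorem double_ineq : ∃ C : ℝ, 0 < C ∧ ∀ (N₁ N₂ N₃ : ℕ) [NeZero N₁] [NeZero N₂] [NeZero N₃]
    (χ₁ : DirichletCharacter ℂ N₁) (χ₂ : DirichletCharacter ℂ N₂) (χ₃ : DirichletCharacter ℂ N₃),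
    χ₁ ≠ 1 → χ₂ ≠ 1 → χ₃ ≠ 1 → χ₁ ^ 2 = 1 → χ₂ ^ 2 = 1 → (∀ n : ℕ, χ₃ n = χ₁ n * χ₂ n) →
    ∀ σ : ℝ, 7 / 8 ≤ σ → σ ≤ 1 → ∀ K : ℕ, 1 ≤ K →
    (zeta1 σ * DirichletCharacter.LFunction χ₁ σ * DirichletCharacter.LFunction χ₂ σ *
      DirichletCharacter.LFunction χ₃ σ).re ≤
      (DirichletCharacter.LFunction χ₁ 1 * DirichletCharacter.LFunction χ₂ 1 *
      DirichletCharacter.LFunction χ₃ 1).re * (2 - σ) ^ K - (1 - σ) +
      C * (N₁ * N₂ * N₃) * (3 / 4) ^ K := by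
  obtain ⟨C₁, hC₁, hz⟩ := zeta1_bound
  obtain ⟨C₂, hC₂, hL⟩ := norm_LFunction_le
  refine ⟨5 * (C₁ * C₂ * C₂ * C₂), by positivity, ?_⟩
  intro N₁ N₂ N₃ _ _ _ χ₁ χ₂ χ₃ hχ₁ hχ₂ hχ₃ hq1 hq2 h σ h78 h1 K hK
  have := estermann (quad χ₁ χ₂ χ₃ ·) (fun n => quad_nonneg hq1 hq2 h n)
    (by rw [(isMultiplicative_quad χ₁ χ₂ χ₃).map_one])
    (fun s hs => LSeriesSummable_quad χ₁ χ₂ χ₃ hs)
    (fun s => zeta1 s * DirichletCharacter.LFunction χ₁ s * DirichletCharacter.LFunction χ₂ s *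
      DirichletCharacter.LFunction χ₃ s)
    (((differentiable_zeta1.mul (DirichletCharacter.differentiable_LFunction hχ₁)).mul
      (DirichletCharacter.differentiable_LFunction hχ₂)).mul
      (DirichletCharacter.differentiable_LFunction hχ₃)) ?_
    (C₁ * (C₂ * N₁) * (C₂ * N₂) * (C₂ * N₃)) ?_ σ h78 h1 K hK
  · simp only [zeta1_one, one_mul] at this
    refine this.trans (le_of_eq ?_)
    ring
  · intro s hs
    have hs1 : s ≠ 1 := by rintro rfl; simp at hs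
    rw [LSeries_quad χ₁ χ₂ χ₃ hs, zeta1_of_ne hs1]
    ring
  · intro s hs
    rw [norm_mul, norm_mul, norm_mul]
    have b1 := hz s hs
    have b2 := hL N₁ χ₁ hχ₁ s hs
    have b3 := hL N₂ χ₂ hχ₂ s hs
    have b4 := hL N₃ χ₃ hχ₃ s hs
    gcongr

end Pool.Agent.Lib.P5632c9
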