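import Pool.Agent.Lib.P5632c9.SiegelAll

/-!
# Lower bound for `∑_{k ≤ Y²} (χ * χ₀)(k)`
-/

namespace Pool.Agent.Lib.P5632c9

open Finset Complex

/-- `(m/·)` as a real arithmetic function -/
def Fm (m : ℕ) : ArithmeticFunction ℝ := ⟨fun n => (jval m n : ℝ), by simp [jval]⟩

/-- the indicator function of being coprime to `4m` -/
def Gm (m : ℕ) : ArithmeticFunction ℝ :=
  ⟨fun n => if n ≠ 0 ∧ n.Coprime (4 * m) then 1 else 0, by simp⟩

lemma Fm_apply (m n : ℕ) : Fm m n = (jval m n : ℝ) := rfl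
lemma Gm_apply (m n : ℕ) : Gm m n = if n ≠ 0 ∧ n.Coprime (4 * m) then 1 else 0 := rfl

lemma abs_Fm_le (m n : ℕ) : |Fm m n| ≤ 1 := by
  rw [Fm_apply]
  rcases jval_trichotomy m n with h | h | h <;> rw [h] <;> norm_num

lemma Gm_nonneg (m n : ℕ) : 0 ≤ Gm m n := by
  rw [Gm_apply]; split_ifs <;> norm_num

lemma Gm_le_one (m n : ℕ) : Gm m n ≤ 1 := by
  rw [Gm_apply]; split_ifs <;> norm_num

lemma sum_Ioc_Fm (m : ℕ) [NeZero m] (K : ℕ) :
    ∑ d ∈ Ioc 0 K, Fm m d = (psum (chi m) K).re := by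
  unfold psum
  rw [Complex.re_sum]
  have : Ioc 0 K = (range K).image (· + 1) := by
    ext x; simp only [mem_Ioc, mem_image, mem_range]
    constructor
    · intro h; exact ⟨x - 1, by omega, by omega⟩
    · rintro ⟨a, ha, rfl⟩; omega
  rw [this, sum_image (by intro a _ b _ h; simpa using h)]
  refine sum_congr rfl fun j _ => ?_
  rw [chi_apply, Fm_apply]
  simp

lemma abs_sum_Ioc_Fm_le (m : ℕ) [NeZero m] (hm : ¬ IsSquare m) (a b : ℕ) (hab : a ≤ b) :
    |∑ d ∈ Ioc a b, Fm m d| ≤ 8 * m := by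
  have h1 : ∑ d ∈ Ioc 0 b, Fm m d = ∑ d ∈ Ioc 0 a, Fm m d + ∑ d ∈ Ioc a b, Fm m d :=
    (sum_Ioc_consecutive _ (Nat.zero_le a) hab).symm
  have h2 : ∀ K, |∑ d ∈ Ioc 0 K, Fm m d| ≤ 4 * m := by
    intro K
    rw [sum_Ioc_Fm]
    refine (Complex.abs_re_le_norm _).trans ?_
    have := norm_psum_le (chi_ne_one m hm) K
    push_cast at this
    exact this
  have h3 := abs_le.mp (h2 a)
  have h4 := abs_le.mp (h2 b)
  rw [abs_le]
  constructor <;> linarith

/-- `φ(4m)/(4m)` -/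
noncomputable def kap (m : ℕ) : ℝ := (Nat.totient (4 * m) : ℝ) / (4 * m)

lemma kap_nonneg (m : ℕ) : 0 ≤ kap m := by unfold kap; positivity

lemma kap_le_one (m : ℕ) : kap m ≤ 1 := by
  unfold kap
  rcases Nat.eq_zero_or_pos m with rfl | h
  · simp
  rw [div_le_one (by positivity)]
  exact_mod_cast Nat.totient_le (4 * m)

lemma sum_Gm_period (m : ℕ) (hm : 0 < m) (z : ℕ) :
    ∑ e ∈ Ioc 0 (z + 4 * m), Gm m e = ∑ e ∈ Ioc 0 z, Gm m e + (Nat.totient (4 * m) : ℝ) := by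
  rw [← sum_Ioc_consecutive _ (Nat.zero_le z) (Nat.le_add_right z (4 * m))]
  congr 1
  have h1 := Nat.filter_coprime_Ico_eq_totient (4 * m) (z + 1)
  rw [← h1]
  have h2 : Ico (z + 1) (z + 1 + 4 * m) = Ioc z (z + 4 * m) := by
    ext x; simp only [mem_Ico, mem_Ioc]; omega
  rw [h2, card_filter]
  push_cast
  refine sum_congr rfl fun e he => ?_
  rw [Gm_apply]
  have he0 : e ≠ 0 := by have := (mem_Ioc.mp he).1; omega
  by_cases h : e.Coprime (4 * m)
  · rw [if_pos ⟨he0, h⟩, if_pos h.symm]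
  · rw [if_neg (fun h' => h h'.2), if_neg (fun h' => h h'.symm)]

lemma abs_sum_Gm_sub_le (m : ℕ) (hm : 0 < m) (z : ℕ) :
    |∑ e ∈ Ioc 0 z, Gm m e - kap m * z| ≤ 4 * m := by
  induction z using Nat.strong_induction_on with
  | _ z ih =>
    by_cases h : z < 4 * m
    · have h1 : 0 ≤ ∑ e ∈ Ioc 0 z, Gm m e := sum_nonneg fun e _ => Gm_nonneg m e
      have h2 : ∑ e ∈ Ioc 0 z, Gm m e ≤ z := by
        calc ∑ e ∈ Ioc 0 z, Gm m e ≤ ∑ e ∈ Ioc 0 z, (1 : ℝ) := sum_le_sum fun e _ => Gm_le_one m e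
          _ = z := by simp
      have h3 : 0 ≤ kap m * z := mul_nonneg (kap_nonneg m) (by positivity)
      have h4 : kap m * z ≤ z := by
        have := mul_le_mul_of_nonneg_right (kap_le_one m) (by positivity : (0 : ℝ) ≤ z)
        linarith
      have h5 : (z : ℝ) ≤ 4 * m := by exact_mod_cast h.le
      rw [abs_le]
      constructor <;> linarith
    · have e : z = (z - 4 * m) + 4 * m := by omega
      have h1 := ih (z - 4 * m) (by omega)
      rw [e, sum_Gm_period m hm]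
      have h2 : kap m * (((z - 4 * m) + 4 * m : ℕ) : ℝ) =
          kap m * ((z - 4 * m : ℕ) : ℝ) + (Nat.totient (4 * m) : ℝ) := by
        push_cast [kap]
        have : (m : ℝ) ≠ 0 := by positivity
        field_simp
      rw [h2]
      have e2 : ∑ e ∈ Ioc 0 (z - 4 * m), Gm m e + (Nat.totient (4 * m) : ℝ) -
          (kap m * ((z - 4 * m : ℕ) : ℝ) + (Nat.totient (4 * m) : ℝ)) =
          ∑ e ∈ Ioc 0 (z - 4 * m), Gm m e - kap m * ((z - 4 * m : ℕ) : ℝ) := by ring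
      rw [e2]
      exact h1

lemma hyperbola_identity (F G : ArithmeticFunction ℝ) (Y : ℕ) :
    ∑ n ∈ Ioc 0 (Y * Y), (F * G) n =
      ∑ d ∈ Ioc 0 Y, F d * ∑ e ∈ Ioc 0 (Y * Y / d), G e +
      ∑ e ∈ Ioc 0 Y, G e * ∑ d ∈ Ioc Y (Y * Y / e), F d := by
  rw [ArithmeticFunction.sum_Ioc_mul_eq_sum_sum]
  have hY : Y ≤ Y * Y := by
    rcases Nat.eq_zero_or_pos Y with rfl | h
    · simp
    · exact Nat.le_mul_of_pos_left Y h
  rw [← sum_Ioc_consecutive _ (Nat.zero_le Y) hY]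
  congr 1
  simp_rw [mul_sum]
  rw [sum_comm' (s' := fun e => Ioc Y (Y * Y / e)) (t' := Ioc 0 Y)]
  · refine sum_congr rfl fun e _ => sum_congr rfl fun d _ => by ring
  · intro d e
    simp only [mem_Ioc]
    constructor
    · rintro ⟨⟨h1, h2⟩, h3, h4⟩
      have h5 : e * d ≤ Y * Y := (Nat.le_div_iff_mul_le (by omega)).mp h4
      refine ⟨⟨h1, ?_⟩, h3, ?_⟩
      · rw [Nat.le_div_iff_mul_le h3]; nlinarith
      · by_contra h6
        push Not at h6
        nlinarith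
    · rintro ⟨⟨h1, h2⟩, h3, h4⟩
      have h5 : d * e ≤ Y * Y := (Nat.le_div_iff_mul_le h3).mp h2
      refine ⟨⟨h1, ?_⟩, h3, ?_⟩
      · nlinarith
      · rw [Nat.le_div_iff_mul_le (by omega)]; nlinarith

theorem sum_lower_bound (m : ℕ) [NeZero m] (hm : ¬ IsSquare m) (Y : ℕ) (hY : 1 ≤ Y) :
    kap m * (Y : ℝ) ^ 2 * (DirichletCharacter.LFunction (chi m) 1).re - 21 * m * Y ≤
      ∑ n ∈ Ioc 0 (Y * Y), (Fm m * Gm m) n := by
  have hm0 : 0 < m := NeZero.pos m
  have hmR : (1 : ℝ) ≤ m := by exact_mod_cast hm0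
  have hYR : (1 : ℝ) ≤ Y := by exact_mod_cast hY
  set L : ℝ := (DirichletCharacter.LFunction (chi m) 1).re with hL
  rw [hyperbola_identity]
  -- second sum
  have h2 : |∑ e ∈ Ioc 0 Y, Gm m e * ∑ d ∈ Ioc Y (Y * Y / e), Fm m d| ≤ 8 * m * Y := by
    refine (abs_sum_le_sum_abs _ _).trans ?_
    calc _ ≤ ∑ e ∈ Ioc 0 Y, (8 * m : ℝ) := by
          refine sum_le_sum fun e he => ?_
          rw [abs_mul, abs_of_nonneg (Gm_nonneg m e)]
          have he' := mem_Ioc.mp he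
          have h3 : Y ≤ Y * Y / e := by
            rw [Nat.le_div_iff_mul_le he'.1]
            exact Nat.mul_le_mul_left Y he'.2
          have h4 := abs_sum_Ioc_Fm_le m hm Y (Y * Y / e) h3
          calc Gm m e * |∑ d ∈ Ioc Y (Y * Y / e), Fm m d| ≤ 1 * (8 * m) :=
                mul_le_mul (Gm_le_one m e) h4 (abs_nonneg _) (by norm_num)
            _ = 8 * m := one_mul _
      _ = 8 * m * Y := by simp; ring
  -- first sum
  have h1 : |∑ d ∈ Ioc 0 Y, Fm m d * ∑ e ∈ Ioc 0 (Y * Y / d), Gm m e -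
      kap m * (Y : ℝ) ^ 2 * ∑ d ∈ Ioc 0 Y, Fm m d / d| ≤ 5 * m * Y := by
    rw [mul_sum, ← sum_sub_distrib]
    refine (abs_sum_le_sum_abs _ _).trans ?_
    calc _ ≤ ∑ d ∈ Ioc 0 Y, (5 * m : ℝ) := by
          refine sum_le_sum fun d hd => ?_
          have hd' := mem_Ioc.mp hd
          have hd0 : (0 : ℝ) < d := by exact_mod_cast hd'.1
          have e1 : Fm m d * ∑ e ∈ Ioc 0 (Y * Y / d), Gm m e - kap m * (Y : ℝ) ^ 2 * (Fm m d / d) =
              Fm m d * (∑ e ∈ Ioc 0 (Y * Y / d), Gm m e - kap m * ((Y : ℝ) ^ 2 / d)) := by ring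
          rw [e1, abs_mul]
          have h3 := abs_le.mp (abs_sum_Gm_sub_le m hm0 (Y * Y / d))
          have h4 : (((Y * Y / d : ℕ)) : ℝ) ≤ (Y : ℝ) ^ 2 / d := by
            rw [le_div_iff₀ hd0]
            have := Nat.div_mul_le_self (Y * Y) d
            rw [pow_two]
            exact_mod_cast this
          have h5 : (Y : ℝ) ^ 2 / d ≤ ((Y * Y / d : ℕ) : ℝ) + 1 := by
            rw [div_le_iff₀ hd0]
            have h6 : Y * Y < d * (Y * Y / d + 1) := Nat.lt_mul_div_succ (Y * Y) hd'.1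
            have h7 : ((Y * Y : ℕ) : ℝ) ≤ ((d * (Y * Y / d + 1) : ℕ) : ℝ) := by
              exact_mod_cast h6.le
            push_cast at h7
            rw [pow_two]
            linarith
          have hk0 := kap_nonneg m
          have hk1 := kap_le_one m
          have h8 : |∑ e ∈ Ioc 0 (Y * Y / d), Gm m e - kap m * ((Y : ℝ) ^ 2 / d)| ≤ 5 * m := by
            have h9 : kap m * ((Y * Y / d : ℕ) : ℝ) ≤ kap m * ((Y : ℝ) ^ 2 / d) :=
              mul_le_mul_of_nonneg_left h4 hk0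
            have h10 : kap m * ((Y : ℝ) ^ 2 / d) ≤ kap m * ((Y * Y / d : ℕ) : ℝ) + 1 := by
              calc kap m * ((Y : ℝ) ^ 2 / d) ≤ kap m * (((Y * Y / d : ℕ) : ℝ) + 1) :=
                    mul_le_mul_of_nonneg_left h5 hk0
                _ ≤ _ := by linarith
            rw [abs_le]
            constructor <;> linarith [h3.1, h3.2]
          calc |Fm m d| * _ ≤ 1 * (5 * m) :=
                mul_le_mul (abs_Fm_le m d) h8 (abs_nonneg _) (by norm_num)
            _ = 5 * m := one_mul _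
      _ = 5 * m * Y := by simp; ring
  -- L-value
  have h3 : |L - ∑ d ∈ Ioc 0 Y, Fm m d / d| ≤ 8 * m / (Y + 1) := by
    have h4 := LFunction_one_sub_partial (chi_ne_one m hm) Y
    have h5 := (Complex.abs_re_le_norm _).trans h4
    rw [Complex.sub_re, Complex.re_sum] at h5
    have e : ∑ i ∈ range Y, ((chi m) ((i + 1 : ℕ) : ZMod (4 * m)) / ((i : ℂ) + 1)).re =
        ∑ d ∈ Ioc 0 Y, Fm m d / d := by
      have : Ioc 0 Y = (range Y).image (· + 1) := by
        ext x; simp only [mem_Ioc, mem_image, mem_range]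
        constructor
        · intro h; exact ⟨x - 1, by omega, by omega⟩
        · rintro ⟨a, ha, rfl⟩; omega
      rw [this, sum_image (by intro a _ b _ h; simpa using h)]
      refine sum_congr rfl fun j _ => ?_
      rw [chi_apply, Fm_apply]
      have : ((jval m (j + 1) : ℤ) : ℂ) / ((j : ℂ) + 1) =
          (((jval m (j + 1) : ℝ) / ((j + 1 : ℕ) : ℝ) : ℝ) : ℂ) := by push_cast; rfl
      rw [this, Complex.ofReal_re]
    rw [e] at h5
    refine h5.trans (le_of_eq ?_)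
    push_cast
    ring
  have h4 : |kap m * (Y : ℝ) ^ 2 * L - kap m * (Y : ℝ) ^ 2 * ∑ d ∈ Ioc 0 Y, Fm m d / d| ≤
      8 * m * Y := by
    rw [← mul_sub, abs_mul, abs_of_nonneg (mul_nonneg (kap_nonneg m) (by positivity))]
    calc kap m * (Y : ℝ) ^ 2 * |L - ∑ d ∈ Ioc 0 Y, Fm m d / d| ≤
        1 * (Y : ℝ) ^ 2 * (8 * m / (Y + 1)) :=
          mul_le_mul (mul_le_mul_of_nonneg_right (kap_le_one m) (by positivity)) h3
            (abs_nonneg _) (by positivity)
      _ ≤ 8 * m * Y := by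
          rw [one_mul, mul_div_assoc', div_le_iff₀ (by positivity)]
          nlinarith [mul_pos (by linarith : (0 : ℝ) < m) (by linarith : (0 : ℝ) < Y)]
  have h5 := (abs_le.mp h1)
  have h6 := (abs_le.mp h2)
  have h7 := (abs_le.mp h4)
  linarith [h5.1, h6.1, h7.2]

lemma kap_lower (δ : ℝ) (hδ : 0 < δ) : ∃ c : ℝ, 0 < c ∧ ∀ m : ℕ, 0 < m →
    c * (m : ℝ) ^ (-δ) ≤ kap m := by
  obtain ⟨C, hC, hdiv⟩ := card_divisors_le δ hδ
  refine ⟨1 / (C * 4 ^ δ), by positivity, ?_⟩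
  intro m hm
  have hm4 : 4 * m ≠ 0 := by omega
  have h1 : kap m = ∏ p ∈ (4 * m).primeFactors, (1 - (p : ℝ)⁻¹) := by
    have := Nat.totient_eq_mul_prod_factors (4 * m)
    have h2 : (Nat.totient (4 * m) : ℝ) =
        ((4 * m : ℕ) : ℝ) * ∏ p ∈ (4 * m).primeFactors, (1 - (p : ℝ)⁻¹) := by
      have h3 : (((Nat.totient (4 * m) : ℚ)) : ℝ) =
          ((((4 * m : ℕ) : ℚ) * ∏ p ∈ (4 * m).primeFactors, (1 - (p : ℚ)⁻¹) : ℚ) : ℝ) := by
        rw [this]
      push_cast at h3 ⊢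
      exact h3
    unfold kap
    rw [h2]
    push_cast
    field_simp
  have h2 : ((2 : ℝ) ^ (4 * m).primeFactors.card)⁻¹ ≤ kap m := by
    rw [h1, ← inv_pow, ← prod_const]
    refine prod_le_prod (fun _ _ => by norm_num) fun p hp => ?_
    have hp2 : (2 : ℝ) ≤ p := by exact_mod_cast (Nat.prime_of_mem_primeFactors hp).two_le
    have : (p : ℝ)⁻¹ ≤ 2⁻¹ := inv_anti₀ (by norm_num) hp2
    norm_num at this ⊢
    linarith
  have h5 : (2 : ℝ) ^ (4 * m).primeFactors.card ≤ C * (4 ^ δ * (m : ℝ) ^ δ) := by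
    have h6 : ((2 ^ (4 * m).primeFactors.card : ℕ) : ℝ) ≤ ((4 * m).divisors.card : ℝ) := by
      exact_mod_cast two_pow_card_primeFactors_le (4 * m) (by omega)
    have h7 := hdiv (4 * m) (by omega)
    push_cast at h6 h7
    rw [Real.mul_rpow (by norm_num) (by positivity)] at h7
    linarith
  have hmR : (0 : ℝ) < m := by exact_mod_cast hm
  calc 1 / (C * 4 ^ δ) * (m : ℝ) ^ (-δ) = (C * (4 ^ δ * (m : ℝ) ^ δ))⁻¹ := by
        rw [Real.rpow_neg hmR.le]; field_simp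
    _ ≤ ((2 : ℝ) ^ (4 * m).primeFactors.card)⁻¹ := inv_anti₀ (by positivity) h5
    _ ≤ kap m := h2

end Pool.Agent.Lib.P5632c9
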