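import Mathlib

/-!
# The label lemma
-/

namespace Pool.Agent.Lib.P5632c9

lemma label_core {M : ℕ} {c X Z Y W X0 Z0 : ℤ} (hM : M ≠ 0)
    (hsq : ∀ q : ℕ, q.Prime → (q : ℤ) ^ 2 ∣ (M : ℤ) → ¬ (q : ℤ) ^ 2 ∣ c)
    (hv : (M : ℤ) ∣ X ^ 2 - c * Z ^ 2) (hw : (M : ℤ) ∣ Y ^ 2 - c * W ^ 2)
    (h0 : (M : ℤ) ∣ X0 ^ 2 - c * Z0 ^ 2) (hcZ0 : IsCoprime Z0 (M : ℤ))
    (hg : Int.gcd M (X * Z0 - X0 * Z) = Int.gcd M (Y * Z0 - X0 * W)) :
    (M : ℤ) ∣ 2 * (X * W - Y * Z) := by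
  set Dv := X * Z0 - X0 * Z with hDv
  set Ev := X * Z0 + X0 * Z with hEv
  set Dw := Y * Z0 - X0 * W with hDw
  set Ew := Y * Z0 + X0 * W with hEw
  set g : ℕ := Int.gcd M Dv with hgdef
  have hMZ : (M : ℤ) ≠ 0 := by exact_mod_cast hM
  have hgpos : (g : ℤ) ≠ 0 := by
    have : Int.gcd (M : ℤ) Dv ≠ 0 := by
      intro h; exact hMZ (Int.gcd_eq_zero_iff.mp h).1
    exact_mod_cast this
  have hgM : (g : ℤ) ∣ M := Int.gcd_dvd_left _ _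
  obtain ⟨M', hM'⟩ := hgM
  have key : ∀ A B : ℤ, (M : ℤ) ∣ A * B → Int.gcd M A = g → ((g : ℤ) ∣ A ∧ M' ∣ B) := by
    intro A B hAB hgA
    have h1 : (g : ℤ) ∣ A := by rw [← hgA]; exact Int.gcd_dvd_right _ _
    refine ⟨h1, ?_⟩
    obtain ⟨A', hA'⟩ := h1
    have hc : IsCoprime M' A' := by
      rw [Int.isCoprime_iff_gcd_eq_one]
      have h2 : Int.gcd (M : ℤ) A = g * Int.gcd M' A' := by
        rw [hM', hA', Int.gcd_mul_left, Int.natAbs_natCast]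
      rw [hgA] at h2
      have hg0 : 0 < g := Nat.pos_of_ne_zero (by exact_mod_cast hgpos)
      have h3 : g * 1 = g * Int.gcd M' A' := by rw [mul_one]; exact h2
      exact (Nat.eq_of_mul_eq_mul_left hg0 h3).symm
    have h4 : M' ∣ A' * B := by
      have : (g : ℤ) * M' ∣ (g : ℤ) * (A' * B) := by
        rw [← hM', ← mul_assoc, ← hA']; exact hAB
      exact (mul_dvd_mul_iff_left hgpos).mp this
    exact hc.dvd_of_dvd_mul_left h4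
  have hDEv : (M : ℤ) ∣ Dv * Ev := by
    have : Dv * Ev = (X ^ 2 - c * Z ^ 2) * Z0 ^ 2 - (X0 ^ 2 - c * Z0 ^ 2) * Z ^ 2 := by
      rw [hDv, hEv]; ring
    rw [this]
    exact dvd_sub (hv.mul_right _) (h0.mul_right _)
  have hDEw : (M : ℤ) ∣ Dw * Ew := by
    have : Dw * Ew = (Y ^ 2 - c * W ^ 2) * Z0 ^ 2 - (X0 ^ 2 - c * Z0 ^ 2) * W ^ 2 := by
      rw [hDw, hEw]; ring
    rw [this]
    exact dvd_sub (hw.mul_right _) (h0.mul_right _)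
  obtain ⟨a1, a2⟩ := key Dv Ev hDEv rfl
  obtain ⟨b1, b2⟩ := key Dw Ew hDEw hg.symm
  have h1 : (M : ℤ) ∣ 2 * X0 * Z0 * (X * W - Y * Z) := by
    have e : 2 * X0 * Z0 * (X * W - Y * Z) = Dv * Ew - Dw * Ev := by
      rw [hDv, hEv, hDw, hEw]; ring
    rw [e, hM']
    exact dvd_sub (mul_dvd_mul a1 b2) (mul_dvd_mul b1 a2)
  have h2 : (M : ℤ) ∣ 2 * X0 * (X * W - Y * Z) := by
    have e : 2 * X0 * Z0 * (X * W - Y * Z) = Z0 * (2 * X0 * (X * W - Y * Z)) := by ring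
    rw [e] at h1
    exact hcZ0.symm.dvd_of_dvd_mul_left h1
  -- now a, b
  set a : ℕ := Int.gcd M X0 with ha
  have haM : (a : ℤ) ∣ M := Int.gcd_dvd_left _ _
  have haX0 : (a : ℤ) ∣ X0 := Int.gcd_dvd_right _ _
  have ha0 : a ≠ 0 := by
    intro h; exact hMZ (Int.gcd_eq_zero_iff.mp h).1
  obtain ⟨b, hb⟩ := haM
  -- no prime q with q² ∣ M and q ∣ X0
  have hno : ∀ q : ℕ, q.Prime → (q : ℤ) ^ 2 ∣ (M : ℤ) → ¬ (q : ℤ) ∣ X0 := by
    intro q hq hqM hqX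
    apply hsq q hq hqM
    have h3 : (q : ℤ) ^ 2 ∣ c * Z0 ^ 2 := by
      have h4 : (q : ℤ) ^ 2 ∣ X0 ^ 2 := pow_dvd_pow_of_dvd hqX 2
      have h5 : (q : ℤ) ^ 2 ∣ X0 ^ 2 - c * Z0 ^ 2 := hqM.trans h0
      have := dvd_sub h4 h5
      rwa [sub_sub_cancel] at this
    have hcop : IsCoprime ((q : ℤ) ^ 2) (Z0 ^ 2) := by
      apply IsCoprime.pow
      have hqM1 : (q : ℤ) ∣ M := (dvd_pow_self _ two_ne_zero).trans hqM
      exact (hcZ0.of_isCoprime_of_dvd_right hqM1).symm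
    exact hcop.dvd_of_dvd_mul_right h3
  have hcopab : ∀ q : ℕ, q.Prime → (q : ℤ) ∣ a → ¬ (q : ℤ) ∣ b := by
    intro q hq h3 h4
    refine hno q hq ?_ (h3.trans haX0)
    rw [hb, pow_two]
    exact mul_dvd_mul h3 h4
  have hcab : IsCoprime (a : ℤ) b := by
    rw [Int.isCoprime_iff_gcd_eq_one]
    by_contra hne
    obtain ⟨q, hq, hqd⟩ := Nat.exists_prime_and_dvd hne
    have : (q : ℤ) ∣ (Int.gcd (a : ℤ) b : ℤ) := by exact_mod_cast hqd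
    exact hcopab q hq (this.trans (Int.gcd_dvd_left _ _)) (this.trans (Int.gcd_dvd_right _ _))
  have hcbX : IsCoprime b X0 := by
    rw [Int.isCoprime_iff_gcd_eq_one]
    by_contra hne
    obtain ⟨q, hq, hqd⟩ := Nat.exists_prime_and_dvd hne
    have h3 : (q : ℤ) ∣ (Int.gcd b X0 : ℤ) := by exact_mod_cast hqd
    have h4 : (q : ℤ) ∣ b := h3.trans (Int.gcd_dvd_left _ _)
    have h5 : (q : ℤ) ∣ X0 := h3.trans (Int.gcd_dvd_right _ _)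
    refine hcopab q hq ?_ h4
    exact Int.dvd_coe_gcd (h4.trans ⟨a, by rw [hb]; ring⟩) h5
  have hasq : Squarefree a := by
    rw [Nat.squarefree_iff_prime_squarefree]
    intro q hq h3
    have h4 : (q : ℤ) ^ 2 ∣ a := by rw [pow_two]; exact_mod_cast h3
    exact hno q hq (h4.trans ⟨b, hb⟩) (((dvd_pow_self _ two_ne_zero).trans h4).trans haX0)
  have hac : (a : ℤ) ∣ c := by
    have h3 : (a : ℤ) ∣ c * Z0 ^ 2 := by
      have h4 : (a : ℤ) ∣ X0 ^ 2 := haX0.trans (dvd_pow_self _ two_ne_zero)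
      have h5 : (a : ℤ) ∣ X0 ^ 2 - c * Z0 ^ 2 := (Dvd.intro b hb.symm).trans h0
      have := dvd_sub h4 h5
      rwa [sub_sub_cancel] at this
    have hcop : IsCoprime (a : ℤ) (Z0 ^ 2) :=
      ((hcZ0.of_isCoprime_of_dvd_right (Dvd.intro b hb.symm)).symm).pow_right
    exact hcop.dvd_of_dvd_mul_right h3
  have hdvd : ∀ U V : ℤ, (M : ℤ) ∣ U ^ 2 - c * V ^ 2 → (a : ℤ) ∣ U := by
    intro U V hUV
    have h3 : (a : ℤ) ∣ U ^ 2 := by
      have h4 : (a : ℤ) ∣ U ^ 2 - c * V ^ 2 := (Dvd.intro b hb.symm).trans hUV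
      have := dvd_add h4 (hac.mul_right (V ^ 2))
      rwa [sub_add_cancel] at this
    have h5 : Squarefree (a : ℤ) := Int.squarefree_natCast.mpr hasq
    exact (h5.dvd_pow_iff_dvd two_ne_zero).mp h3
  have h6 : b ∣ 2 * (X * W - Y * Z) := by
    have e : 2 * X0 * (X * W - Y * Z) = X0 * (2 * (X * W - Y * Z)) := by ring
    rw [e] at h2
    exact hcbX.dvd_of_dvd_mul_left ((Dvd.intro_left (a : ℤ) hb.symm).trans h2)
  have h7 : (a : ℤ) ∣ 2 * (X * W - Y * Z) :=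
    (dvd_sub ((hdvd X Z hv).mul_right _) ((hdvd Y W hw).mul_right _)).mul_left 2
  rw [hb]
  exact hcab.mul_dvd h7 h6

/-- The label lemma. -/
theorem exists_label (m : ℕ) (hm : m ≠ 0) (c : ℤ)
    (hsq : ∀ q : ℕ, q.Prime → (q : ℤ) ^ 2 ∣ (m : ℤ) → ¬ (q : ℤ) ^ 2 ∣ c) :
    ∃ lab : ℤ × ℤ → ℕ × ℕ, (∀ v, lab v ∈ m.divisors ×ˢ m.divisors) ∧
      ∀ v w : ℤ × ℤ, (m : ℤ) ∣ v.1 ^ 2 - c * v.2 ^ 2 → (m : ℤ) ∣ w.1 ^ 2 - c * w.2 ^ 2 →
        lab v = lab w → (m : ℤ) ∣ 2 * (v.1 * w.2 - w.1 * v.2) := by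
  classical
  let hh : ℤ × ℤ → ℕ := fun v => Nat.gcd (Int.gcd v.1 v.2) m
  let ms : ℕ → ℕ := fun h => m / Nat.gcd m (h ^ 2)
  let good : ℕ → ℤ × ℤ → Prop := fun h v => (m : ℤ) ∣ v.1 ^ 2 - c * v.2 ^ 2 ∧ hh v = h
  let base : ℕ → ℤ × ℤ := fun h => if hex : ∃ v, good h v then hex.choose else (0, 0)
  have hbase : ∀ h v, good h v → good h (base h) := by
    intro h v hv
    have hex : ∃ v, good h v := ⟨v, hv⟩
    simp only [base, dif_pos hex]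
    exact hex.choose_spec
  let lab : ℤ × ℤ → ℕ × ℕ := fun v => (hh v,
    Int.gcd (ms (hh v) : ℤ) ((v.1 / hh v) * ((base (hh v)).2 / hh v) -
      ((base (hh v)).1 / hh v) * (v.2 / hh v)))
  have hhdvd : ∀ v, hh v ∣ m := fun v => Nat.gcd_dvd_right _ _
  have hhpos : ∀ v, hh v ≠ 0 := fun v h => hm (by
    have := hhdvd v; rw [h] at this; exact Nat.eq_zero_of_zero_dvd this)
  have hmsdvd : ∀ h, ms h ∣ m := fun h => Nat.div_dvd_of_dvd (Nat.gcd_dvd_left _ _)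
  have hmspos : ∀ h, ms h ≠ 0 := fun h h0 => hm (by
    have := hmsdvd h; rw [h0] at this; exact Nat.eq_zero_of_zero_dvd this)
  refine ⟨lab, ?_, ?_⟩
  · intro v
    rw [Finset.mem_product, Nat.mem_divisors, Nat.mem_divisors]
    refine ⟨⟨hhdvd v, hm⟩, ⟨?_, hm⟩⟩
    refine dvd_trans ?_ (hmsdvd (hh v))
    have : ((Int.gcd (ms (hh v) : ℤ) ((v.1 / hh v) * ((base (hh v)).2 / hh v) -
      ((base (hh v)).1 / hh v) * (v.2 / hh v)) : ℕ) : ℤ) ∣ (ms (hh v) : ℤ) := Int.gcd_dvd_left _ _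
    exact_mod_cast this
  -- reduction of a point
  have hred : ∀ v : ℤ × ℤ, (m : ℤ) ∣ v.1 ^ 2 - c * v.2 ^ 2 →
      v.1 = hh v * (v.1 / hh v) ∧ v.2 = hh v * (v.2 / hh v) ∧
      (ms (hh v) : ℤ) ∣ (v.1 / hh v) ^ 2 - c * (v.2 / hh v) ^ 2 ∧
      IsCoprime (v.2 / hh v) (ms (hh v) : ℤ) := by
    intro v hv
    set h := hh v with hhdef
    have hh0 : (h : ℤ) ≠ 0 := by exact_mod_cast hhpos v
    have hd0 : (h : ℤ) ∣ (Int.gcd v.1 v.2 : ℤ) := by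
      exact_mod_cast Nat.gcd_dvd_left (Int.gcd v.1 v.2) m
    have hd1 : (h : ℤ) ∣ v.1 := hd0.trans (Int.gcd_dvd_left _ _)
    have hd2 : (h : ℤ) ∣ v.2 := hd0.trans (Int.gcd_dvd_right _ _)
    have e1 : v.1 = h * (v.1 / h) := (Int.mul_ediv_cancel' hd1).symm
    have e2 : v.2 = h * (v.2 / h) := (Int.mul_ediv_cancel' hd2).symm
    set X' := v.1 / h with hX'
    set Z' := v.2 / h with hZ'
    have hG0 : 0 < Nat.gcd m (h ^ 2) := Nat.gcd_pos_of_pos_left _ (Nat.pos_of_ne_zero hm)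
    have hmeq : m = Nat.gcd m (h ^ 2) * ms h := (Nat.mul_div_cancel' (Nat.gcd_dvd_left _ _)).symm
    obtain ⟨h2, hh2⟩ := Nat.gcd_dvd_right m (h ^ 2)
    have hcop2 : Nat.Coprime (ms h) h2 := by
      have := Nat.coprime_div_gcd_div_gcd hG0
      have e3 : h ^ 2 / Nat.gcd m (h ^ 2) = h2 := Nat.div_eq_of_eq_mul_right hG0 hh2
      rw [e3] at this
      exact this
    have hG0Z : ((Nat.gcd m (h ^ 2) : ℕ) : ℤ) ≠ 0 := by exact_mod_cast hG0.ne'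
    have hmeqZ : (m : ℤ) = (Nat.gcd m (h ^ 2) : ℕ) * (ms h : ℕ) := by exact_mod_cast hmeq
    have hh2Z : (h : ℤ) ^ 2 = (Nat.gcd m (h ^ 2) : ℕ) * (h2 : ℕ) := by exact_mod_cast hh2
    have hcong : (ms h : ℤ) ∣ X' ^ 2 - c * Z' ^ 2 := by
      have e4 : v.1 ^ 2 - c * v.2 ^ 2 = (h : ℤ) ^ 2 * (X' ^ 2 - c * Z' ^ 2) := by
        conv_lhs => rw [e1, e2]
        ring
      rw [e4, hh2Z, hmeqZ, mul_assoc] at hv
      have h5 := (mul_dvd_mul_iff_left hG0Z).mp hv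
      exact (Nat.isCoprime_iff_coprime.mpr hcop2).dvd_of_dvd_mul_left h5
    refine ⟨e1, e2, hcong, ?_⟩
    rw [Int.isCoprime_iff_gcd_eq_one]
    by_contra hne
    obtain ⟨q, hq, hqd⟩ := Nat.exists_prime_and_dvd hne
    have h3 : (q : ℤ) ∣ (Int.gcd Z' (ms h : ℤ) : ℤ) := by exact_mod_cast hqd
    have hqZ : (q : ℤ) ∣ Z' := h3.trans (Int.gcd_dvd_left _ _)
    have hqms : (q : ℤ) ∣ (ms h : ℤ) := h3.trans (Int.gcd_dvd_right _ _)
    have hqX : (q : ℤ) ∣ X' := by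
      have h4 : (q : ℤ) ∣ X' ^ 2 := by
        have h5 := dvd_add (hqms.trans hcong) ((hqZ.mul_left (c * Z')))
        have e5 : X' ^ 2 - c * Z' ^ 2 + c * Z' * Z' = X' ^ 2 := by ring
        rwa [e5] at h5
      exact (Nat.prime_iff_prime_int.mp hq).dvd_of_dvd_pow h4
    have hhG : h ∣ Nat.gcd m (h ^ 2) := Nat.dvd_gcd (hhdvd v) (dvd_pow_self _ two_ne_zero)
    have hqm : h * q ∣ m := by
      rw [hmeq]
      exact mul_dvd_mul hhG (by exact_mod_cast hqms)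
    have hqg : h * q ∣ Int.gcd v.1 v.2 := by
      have h6 : ((h * q : ℕ) : ℤ) ∣ (Int.gcd v.1 v.2 : ℤ) := by
        push_cast
        refine Int.dvd_coe_gcd ?_ ?_
        · rw [e1]; exact mul_dvd_mul_left _ hqX
        · rw [e2]; exact mul_dvd_mul_left _ hqZ
      exact_mod_cast h6
    have h7 : h * q ∣ h := by
      have := Nat.dvd_gcd hqg hqm
      exact this
    have hh00 : 0 < h := Nat.pos_of_ne_zero (hhpos v)
    have h8 := Nat.le_of_dvd hh00 h7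
    have := hq.one_lt
    nlinarith
  intro v w hv hw hl
  have hl1 : hh v = hh w := congrArg Prod.fst hl
  have hl2 : (lab v).2 = (lab w).2 := congrArg Prod.snd hl
  simp only [lab] at hl2
  rw [← hl1] at hl2
  set h := hh v with hhdef
  have gv : good h v := ⟨hv, rfl⟩
  have gb := hbase h v gv
  obtain ⟨v1, v2, v3, v4⟩ := hred v hv
  obtain ⟨w1, w2, w3, w4⟩ := hred w hw
  obtain ⟨b1, b2, b3, b4⟩ := hred (base h) gb.1
  rw [gb.2] at b1 b2 b3 b4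
  rw [← hl1] at w1 w2 w3 w4
  rw [← hhdef] at v1 v2 v3 v4
  have hcore := label_core (hmspos h) (fun q hq hqm => hsq q hq (hqm.trans (by
    exact_mod_cast hmsdvd h))) v3 w3 b3 b4 hl2
  have hG0 : 0 < Nat.gcd m (h ^ 2) := Nat.gcd_pos_of_pos_left _ (Nat.pos_of_ne_zero hm)
  have hmeq : m = Nat.gcd m (h ^ 2) * ms h := (Nat.mul_div_cancel' (Nat.gcd_dvd_left _ _)).symm
  have hGh : ((Nat.gcd m (h ^ 2) : ℕ) : ℤ) ∣ (h : ℤ) ^ 2 := by
    exact_mod_cast Nat.gcd_dvd_right m (h ^ 2)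
  have hmeqZ : (m : ℤ) = (Nat.gcd m (h ^ 2) : ℕ) * (ms h : ℕ) := by exact_mod_cast hmeq
  have e : 2 * (v.1 * w.2 - w.1 * v.2) = (h : ℤ) ^ 2 * (2 * (v.1 / h * (w.2 / h) -
      w.1 / h * (v.2 / h))) := by
    conv_lhs => rw [v1, v2, w1, w2]
    ring
  rw [e, hmeqZ]
  exact mul_dvd_mul hGh hcore

end Pool.Agent.Lib.P5632c9
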