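import Pool.Agent.Lib.P5632c9.Upper

/-!
# Many reduced forms
-/

namespace Pool.Agent.Lib.P5632c9

open Finset

lemma sum_y_le (z s Λ : ℝ) (hz : 0 ≤ z) (hs : 0 < s)
    (hΛ : Real.log ((⌊z / (2 * s)⌋₊ + 1 : ℕ) : ℝ) ≤ Λ) :
    ∑ y ∈ Icc 1 (⌊z / (2 * s)⌋₊ + 1), 2 * (z / (s * (y : ℝ)) + 1) ≤
      (z / s) * (3 + 2 * Λ) + 2 := by
  set Ym := ⌊z / (2 * s)⌋₊ + 1 with hYm
  have h1 : (Ym : ℝ) ≤ z / (2 * s) + 1 := by
    rw [hYm]
    push_cast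
    have := Nat.floor_le (a := z / (2 * s)) (by positivity)
    linarith
  have h2 : ∑ y ∈ Icc 1 Ym, (1 / (y : ℝ)) ≤ 1 + Λ := by
    have h3 := harmonic_le_one_add_log Ym
    have h4 : ((harmonic Ym : ℚ) : ℝ) = ∑ y ∈ Icc 1 Ym, (1 / (y : ℝ)) := by
      rw [harmonic_eq_sum_Icc]
      push_cast
      refine sum_congr rfl fun y _ => by rw [one_div]
    rw [h4] at h3
    linarith
  have h5 : ∑ y ∈ Icc 1 Ym, 2 * (z / (s * (y : ℝ)) + 1) =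
      (2 * z / s) * ∑ y ∈ Icc 1 Ym, (1 / (y : ℝ)) + 2 * Ym := by
    rw [mul_sum]
    have : (2 * (Ym : ℝ)) = ∑ y ∈ Icc 1 Ym, (2 : ℝ) := by simp; ring
    rw [this, ← sum_add_distrib]
    refine sum_congr rfl fun y hy => ?_
    have hy0 : (y : ℝ) ≠ 0 := by
      have := (mem_Icc.mp hy).1
      positivity
    field_simp
  rw [h5]
  have h6 : (2 * z / s) * ∑ y ∈ Icc 1 Ym, (1 / (y : ℝ)) ≤ (2 * z / s) * (1 + Λ) :=
    mul_le_mul_of_nonneg_left h2 (by positivity)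
  have h7 : 2 * (z / (2 * s)) = z / s := by field_simp
  have h8 : (2 * z / s) = 2 * (z / s) := by ring
  rw [h8] at h6
  rw [h8]
  nlinarith

lemma sum_inv_sq_le (Y : ℕ) : ∑ t ∈ Ioc 0 Y, 1 / ((t : ℝ) ^ 2) ≤ 2 := by
  rcases Y with _ | Y
  · simp
  have key : ∀ Y : ℕ, ∑ t ∈ Ioc 0 (Y + 1), 1 / ((t : ℝ) ^ 2) ≤ 2 - 1 / ((Y : ℝ) + 1) := by
    intro Y
    induction Y with
    | zero => simp; norm_num
    | succ Y ih =>
      rw [← sum_Ioc_consecutive _ (Nat.zero_le (Y + 1)) (Nat.le_succ (Y + 1))]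
      have : Ioc (Y + 1) (Y + 1 + 1) = {Y + 2} := by
        ext x; simp only [mem_Ioc, mem_singleton]; omega
      rw [Nat.succ_eq_add_one, this, sum_singleton]
      push_cast
      have h1 : 1 / ((Y : ℝ) + 1) - 1 / ((Y : ℝ) + 1 + 1) = 1 / (((Y : ℝ) + 1) * ((Y : ℝ) + 2)) := by
        have e : (Y : ℝ) + 1 + 1 = Y + 2 := by ring
        rw [e]
        field_simp; ring
      have h2 : 1 / (((Y : ℝ) + 2) ^ 2) ≤ 1 / (((Y : ℝ) + 1) * ((Y : ℝ) + 2)) := by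
        apply one_div_le_one_div_of_le (by positivity)
        nlinarith [(by positivity : (0 : ℝ) ≤ Y)]
      linarith
  have := key Y
  have h0 : 0 ≤ 1 / ((Y : ℝ) + 1) := by positivity
  linarith

lemma not_isSquare_of_mod_four {n : ℕ} (h : n % 4 = 2 ∨ n % 4 = 3) : ¬ IsSquare n := by
  rintro ⟨r, rfl⟩
  have h1 : r % 4 = 0 ∨ r % 4 = 1 ∨ r % 4 = 2 ∨ r % 4 = 3 := by omega
  rw [Nat.mul_mod] at h
  rcases h1 with h1 | h1 | h1 | h1 <;> rw [h1] at h <;> omega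

/-- the main inequality -/
theorem main_ineq (n : ℕ) [NeZero n] (hns : ¬ IsSquare n) (Y : ℕ) (hYn : n ≤ Y) (T : ℝ)
    (hT : ∀ k : ℕ, 0 < k → k ≤ Y * Y → (k.divisors.card : ℝ) ≤ T) (hT1 : 1 ≤ T) :
    kap n * (Y : ℝ) ^ 2 * (DirichletCharacter.LFunction (chi n) 1).re - 21 * n * Y ≤
      T * (Y * ((2 * √(n : ℝ) + 1) * T) + 7 * ((small (n : ℤ)).card : ℝ) *
        ((Y : ℝ) ^ 2 / √(n : ℝ) * (3 + 2 * Real.log ((Y : ℝ) ^ 2 + 1)) * 2 + 2 * Y)) := by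
  have hn0 : 0 < n := NeZero.pos n
  have hn1R : (1 : ℝ) ≤ n := by exact_mod_cast hn0
  have hY1 : 1 ≤ Y := le_trans hn0 hYn
  have hYR : (1 : ℝ) ≤ Y := by exact_mod_cast hY1
  have hs1 : 1 ≤ √(n : ℝ) := by
    rw [show (1 : ℝ) = √1 by simp]
    exact Real.sqrt_le_sqrt hn1R
  have hs0 : 0 < √(n : ℝ) := by linarith
  have hnsZ : ¬ IsSquare (n : ℤ) := by
    rintro ⟨r, hr⟩
    apply hns
    refine ⟨r.natAbs, ?_⟩
    zify
    rw [← abs_mul, abs_of_nonneg (mul_self_nonneg r)]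
    exact hr
  have hnZ : (0 : ℤ) < n := by exact_mod_cast hn0
  refine (sum_lower_bound n hns Y hY1).trans ?_
  refine (sum_conv_le n Y T (fun k hk => hT k (mem_Ioc.mp hk).1 (mem_Ioc.mp hk).2)
    (by linarith)).trans ?_
  refine mul_le_mul_of_nonneg_left ?_ (by linarith)
  set Λ := Real.log ((Y : ℝ) ^ 2 + 1) with hΛ
  have hΛ0 : 0 ≤ Λ := Real.log_nonneg (by nlinarith)
  have hcard : ∀ t ∈ Ioc 0 Y, ((pairs (n : ℤ) ((Y * Y / t ^ 2 : ℕ) : ℤ)).card : ℝ) ≤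
      (2 * √(n : ℝ) + 1) * T + 7 * ((small (n : ℤ)).card : ℝ) *
        ((Y : ℝ) ^ 2 / √(n : ℝ) * (3 + 2 * Λ) * (1 / (t : ℝ) ^ 2) + 2) := by
    intro t ht
    have ht' := mem_Ioc.mp ht
    have htR : (1 : ℝ) ≤ t := by exact_mod_cast ht'.1
    have h1 := card_pairs_le (n : ℤ) ((Y * Y / t ^ 2 : ℕ) : ℤ) hnZ hnsZ (by positivity) T ?_
    · refine h1.trans ?_
      refine add_le_add le_rfl ?_
      have hz : (((Y * Y / t ^ 2 : ℕ) : ℤ) : ℝ) ≤ (Y : ℝ) ^ 2 / (t : ℝ) ^ 2 := by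
        rw [le_div_iff₀ (by positivity)]
        have := Nat.div_mul_le_self (Y * Y) (t ^ 2)
        have h2 : (((Y * Y / t ^ 2 * t ^ 2 : ℕ)) : ℝ) ≤ ((Y * Y : ℕ) : ℝ) := by exact_mod_cast this
        push_cast at h2 ⊢
        rw [pow_two (Y : ℝ)]
        exact_mod_cast h2
      have hz0 : (0 : ℝ) ≤ (((Y * Y / t ^ 2 : ℕ) : ℤ) : ℝ) := by positivity
      have hcast : (((n : ℕ) : ℤ) : ℝ) = (n : ℝ) := by push_cast; rfl
      have hsum := sum_y_le (((Y * Y / t ^ 2 : ℕ) : ℤ) : ℝ) (√(n : ℝ)) Λ hz0 hs0 ?_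
      · have hw := card_wset_le (n : ℤ) hnZ
        have hsum0 : ∑ y ∈ Icc 1 (⌊(((Y * Y / t ^ 2 : ℕ) : ℤ) : ℝ) / (2 * √(n : ℝ))⌋₊ + 1),
            2 * ((((Y * Y / t ^ 2 : ℕ) : ℤ) : ℝ) / (√(n : ℝ) * (y : ℝ)) + 1) ≤
            (Y : ℝ) ^ 2 / √(n : ℝ) * (3 + 2 * Λ) * (1 / (t : ℝ) ^ 2) + 2 := by
          refine hsum.trans ?_
          have h3 : (((Y * Y / t ^ 2 : ℕ) : ℤ) : ℝ) / √(n : ℝ) * (3 + 2 * Λ) ≤
              ((Y : ℝ) ^ 2 / (t : ℝ) ^ 2) / √(n : ℝ) * (3 + 2 * Λ) := by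
            refine mul_le_mul_of_nonneg_right ?_ (by linarith)
            exact div_le_div_of_nonneg_right hz hs0.le
          have h4 : ((Y : ℝ) ^ 2 / (t : ℝ) ^ 2) / √(n : ℝ) * (3 + 2 * Λ) =
              (Y : ℝ) ^ 2 / √(n : ℝ) * (3 + 2 * Λ) * (1 / (t : ℝ) ^ 2) := by
            field_simp
          linarith
        rw [hcast]
        refine mul_le_mul hw hsum0 ?_ (by positivity)
        refine sum_nonneg fun y _ => by positivity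
      · rw [hΛ]
        apply Real.log_le_log
        · positivity
        · push_cast
          have h5 : ((⌊(((Y * Y / t ^ 2 : ℕ) : ℤ) : ℝ) / (2 * √(n : ℝ))⌋₊ : ℕ) : ℝ) ≤
              (((Y * Y / t ^ 2 : ℕ) : ℤ) : ℝ) / (2 * √(n : ℝ)) := Nat.floor_le (by positivity)
          have h6 : (((Y * Y / t ^ 2 : ℕ) : ℤ) : ℝ) / (2 * √(n : ℝ)) ≤ (Y : ℝ) ^ 2 := by
            rw [div_le_iff₀ (by positivity)]
            calc (((Y * Y / t ^ 2 : ℕ) : ℤ) : ℝ) ≤ (Y : ℝ) ^ 2 / (t : ℝ) ^ 2 := hz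
              _ ≤ (Y : ℝ) ^ 2 := div_le_self (by positivity) (one_le_pow₀ htR)
              _ ≤ (Y : ℝ) ^ 2 * (2 * √(n : ℝ)) := le_mul_of_one_le_right (by positivity) (by linarith)
          have := h5.trans h6
          push_cast at this
          linarith
    · intro x hx
      refine hT _ ?_ ?_
      · omega
      · have h2 : ((n : ℤ) - x ^ 2).toNat ≤ n := by
          have := sq_nonneg x
          omega
        calc ((n : ℤ) - x ^ 2).toNat ≤ n := h2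
          _ ≤ Y := hYn
          _ ≤ Y * Y := Nat.le_mul_of_pos_left Y hY1
  calc ∑ t ∈ Ioc 0 Y, ((pairs (n : ℤ) ((Y * Y / t ^ 2 : ℕ) : ℤ)).card : ℝ) ≤
      ∑ t ∈ Ioc 0 Y, ((2 * √(n : ℝ) + 1) * T + 7 * ((small (n : ℤ)).card : ℝ) *
        ((Y : ℝ) ^ 2 / √(n : ℝ) * (3 + 2 * Λ) * (1 / (t : ℝ) ^ 2) + 2)) := sum_le_sum hcard
    _ = Y * ((2 * √(n : ℝ) + 1) * T) + 7 * ((small (n : ℤ)).card : ℝ) *
        ((Y : ℝ) ^ 2 / √(n : ℝ) * (3 + 2 * Λ) * (∑ t ∈ Ioc 0 Y, (1 / (t : ℝ) ^ 2)) + 2 * Y) := by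
        have a1 : ∑ t ∈ Ioc 0 Y, 7 * ((small (n : ℤ)).card : ℝ) *
            ((Y : ℝ) ^ 2 / √(n : ℝ) * (3 + 2 * Λ) * (1 / (t : ℝ) ^ 2) + 2) =
            7 * ((small (n : ℤ)).card : ℝ) *
            ((Y : ℝ) ^ 2 / √(n : ℝ) * (3 + 2 * Λ) * (∑ t ∈ Ioc 0 Y, (1 / (t : ℝ) ^ 2)) + 2 * Y) := by
          rw [← mul_sum, sum_add_distrib, ← mul_sum]
          simp only [sum_const, Nat.card_Ioc, tsub_zero, nsmul_eq_mul]
          ring
        rw [sum_add_distrib, a1]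
        simp only [sum_const, Nat.card_Ioc, tsub_zero, nsmul_eq_mul]
    _ ≤ _ := by
        have h3 := sum_inv_sq_le Y
        have h4 : (0 : ℝ) ≤ (Y : ℝ) ^ 2 / √(n : ℝ) * (3 + 2 * Λ) := by positivity
        have h5 := mul_le_mul_of_nonneg_left h3 h4
        have h6 : (0 : ℝ) ≤ 7 * ((small (n : ℤ)).card : ℝ) := by positivity
        nlinarith [mul_le_mul_of_nonneg_left h5 h6]

/-- Many reduced forms: the number of odd pairs `(Q,P)`, `Q² ≤ n`, is `≥ n^{1/2-e}`. -/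
theorem many_small (e : ℝ) (he : 0 < e) : ∃ N0 : ℕ, ∀ n : ℕ, N0 ≤ n →
    (n % 4 = 2 ∨ n % 4 = 3) →
    (n : ℝ) ^ (1 / 2 - e) ≤ (((small (n : ℤ)).filter (fun p => p.1 % 2 = 1)).card : ℝ) := by
  set ε : ℝ := min (1 / 8) (e / 5) with hε
  have hε0 : 0 < ε := lt_min (by norm_num) (by positivity)
  have hε8 : ε ≤ 1 / 8 := min_le_left _ _
  have hεe : 5 * ε ≤ e := by have := min_le_right (1 / 8 : ℝ) (e / 5); rw [← hε] at this; linarith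
  obtain ⟨c₁, hc₁, hL⟩ := siegel_all ε hε0
  obtain ⟨c₂, hc₂, hK⟩ := kap_lower ε hε0
  obtain ⟨C, hC, hD⟩ := card_divisors_le (ε / 4) (by positivity)
  set c₃ := c₂ * c₁ with hc₃
  have hc₃0 : 0 < c₃ := by positivity
  set C₄ := 12 + 16 / ε with hC₄
  have hC₄0 : 0 < C₄ := by positivity
  set c₅ := (c₃ / 2) / (7 * C * C₄) with hc₅
  have hc₅0 : 0 < c₅ := by positivity
  set M₁ : ℝ := (2 * (21 + 3 * C ^ 2) / c₃) ^ 2 with hM₁
  set M₂ : ℝ := (2 / c₅) ^ (1 / ε) with hM₂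
  refine ⟨max 4 (max ⌈M₁⌉₊ ⌈M₂⌉₊), ?_⟩
  intro n hn hn4
  have hn_4 : 4 ≤ n := (le_max_left _ _).trans hn
  have hn_1 : M₁ ≤ n := (Nat.le_ceil M₁).trans (by
    exact_mod_cast ((le_max_left _ _).trans (le_max_right _ _)).trans hn)
  have hn_2 : M₂ ≤ n := (Nat.le_ceil M₂).trans (by
    exact_mod_cast ((le_max_right _ _).trans (le_max_right _ _)).trans hn)
  have : NeZero n := ⟨by omega⟩
  have hns := not_isSquare_of_mod_four hn4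
  have hn0 : (0 : ℝ) < n := by exact_mod_cast (by omega : 0 < n)
  have hn1 : (1 : ℝ) ≤ n := by exact_mod_cast (by omega : 1 ≤ n)
  have hs0 : 0 < √(n : ℝ) := Real.sqrt_pos.mpr hn0
  have hs1 : 1 ≤ √(n : ℝ) := by
    rw [show (1 : ℝ) = √1 by simp]
    exact Real.sqrt_le_sqrt hn1
  have hsn : √(n : ℝ) ≤ n := by
    rw [Real.sqrt_le_left (by linarith)]; nlinarith
  have hss : √(n : ℝ) * √(n : ℝ) = n := Real.mul_self_sqrt hn0.le
  set T : ℝ := C * (n : ℝ) ^ ε with hT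
  have hnε1 : 1 ≤ (n : ℝ) ^ ε := Real.one_le_rpow hn1 hε0.le
  have hT1 : 1 ≤ T := one_le_mul_of_one_le_of_one_le hC hnε1
  have hTdiv : ∀ k : ℕ, 0 < k → k ≤ (n ^ 2) * (n ^ 2) → (k.divisors.card : ℝ) ≤ T := by
    intro k hk0 hk
    refine (hD k (by omega)).trans ?_
    rw [hT]
    refine mul_le_mul_of_nonneg_left ?_ (by linarith)
    have h1 : (k : ℝ) ≤ (n : ℝ) ^ 4 := by
      have : (k : ℝ) ≤ ((n ^ 2 * n ^ 2 : ℕ) : ℝ) := by exact_mod_cast hk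
      push_cast at this
      linarith [this, (by ring : (n : ℝ) ^ 2 * (n : ℝ) ^ 2 = (n : ℝ) ^ 4)]
    calc (k : ℝ) ^ (ε / 4) ≤ ((n : ℝ) ^ 4) ^ (ε / 4) :=
          Real.rpow_le_rpow (by positivity) h1 (by positivity)
      _ = (n : ℝ) ^ ε := by
          rw [← Real.rpow_natCast, ← Real.rpow_mul hn0.le]
          congr 1
          push_cast; ring
  have hnY : n ≤ n ^ 2 := by nlinarith
  have hmain := main_ineq n hns (n ^ 2) hnY T hTdiv hT1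
  set L := (DirichletCharacter.LFunction (chi n) 1).re with hLdef
  have hLn := hL n hns
  have hKn := hK n (by omega)
  rw [← hLdef] at hLn
  set R : ℝ := ((small (n : ℤ)).card : ℝ) with hR
  have hR0 : 0 ≤ R := by positivity
  push_cast at hmain
  set Λ := Real.log (((n : ℝ) ^ 2) ^ 2 + 1) with hΛ
  -- bound for Λ
  have hΛle : Λ ≤ (1 + 4 / ε) * (n : ℝ) ^ ε := by
    have h1 : Λ ≤ 1 + 4 * Real.log n := by
      have h2 : ((n : ℝ) ^ 2) ^ 2 + 1 ≤ Real.exp 1 * (n : ℝ) ^ 4 := by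
        have h3 := Real.add_one_le_exp (1 : ℝ)
        have h4 : (1 : ℝ) ≤ (n : ℝ) ^ 4 := one_le_pow₀ hn1
        nlinarith
      calc Λ ≤ Real.log (Real.exp 1 * (n : ℝ) ^ 4) := Real.log_le_log (by positivity) h2
        _ = 1 + 4 * Real.log n := by
            rw [Real.log_mul (Real.exp_ne_zero 1) (by positivity), Real.log_exp, Real.log_pow]
            push_cast; ring
    have h5 := Real.log_le_rpow_div hn0.le hε0
    calc Λ ≤ 1 + 4 * Real.log n := h1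
      _ ≤ (n : ℝ) ^ ε + 4 * ((n : ℝ) ^ ε / ε) := by linarith
      _ = _ := by ring
  have hΛ2 : 8 + 4 * Λ ≤ C₄ * (n : ℝ) ^ ε := by
    calc 8 + 4 * Λ ≤ 8 * (n : ℝ) ^ ε + 4 * ((1 + 4 / ε) * (n : ℝ) ^ ε) := by linarith
      _ = _ := by rw [hC₄]; ring
  have hΛ0 : 0 ≤ Λ := Real.log_nonneg (by nlinarith [sq_nonneg ((n : ℝ) ^ 2)])
  -- divide by n^4
  have hn4pos : (0 : ℝ) < (n : ℝ) ^ 4 := by positivity
  have h1 : kap n * L - 21 / n - T * T * 3 / (n * √(n : ℝ)) ≤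
      T * (7 * R * ((8 + 4 * Λ) / √(n : ℝ))) := by
    have e1 : (2 * √(n : ℝ) + 1) ≤ 3 * √(n : ℝ) := by linarith
    have e2 : T * ((n : ℝ) ^ 2 * ((2 * √(n : ℝ) + 1) * T)) ≤ T * ((n : ℝ) ^ 2 * (3 * √(n : ℝ) * T)) := by
      gcongr
    have e3 : ((n : ℝ) ^ 2) ^ 2 / √(n : ℝ) * (3 + 2 * Λ) * 2 + 2 * (n : ℝ) ^ 2 ≤
        ((n : ℝ) ^ 2) ^ 2 / √(n : ℝ) * (8 + 4 * Λ) := by
      have : (n : ℝ) ^ 2 ≤ ((n : ℝ) ^ 2) ^ 2 / √(n : ℝ) := by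
        rw [le_div_iff₀ hs0]
        calc (n : ℝ) ^ 2 * √(n : ℝ) ≤ (n : ℝ) ^ 2 * n := by gcongr
          _ ≤ (n : ℝ) ^ 2 * (n : ℝ) ^ 2 := by
              refine mul_le_mul_of_nonneg_left ?_ (by positivity)
              nlinarith
          _ = _ := by ring
      linarith
    have e4 : T * (7 * R * (((n : ℝ) ^ 2) ^ 2 / √(n : ℝ) * (3 + 2 * Λ) * 2 + 2 * (n : ℝ) ^ 2)) ≤
        T * (7 * R * (((n : ℝ) ^ 2) ^ 2 / √(n : ℝ) * (8 + 4 * Λ))) := by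
      gcongr
    have e5 : kap n * ((n : ℝ) ^ 2) ^ 2 * L - 21 * n * (n : ℝ) ^ 2 ≤
        T * ((n : ℝ) ^ 2 * (3 * √(n : ℝ) * T)) +
        T * (7 * R * (((n : ℝ) ^ 2) ^ 2 / √(n : ℝ) * (8 + 4 * Λ))) := by
      have := hmain
      rw [mul_add] at this
      linarith
    have e6 : (n : ℝ) ^ 4 * (kap n * L - 21 / n - T * T * 3 / (n * √(n : ℝ))) ≤
        (n : ℝ) ^ 4 * (T * (7 * R * ((8 + 4 * Λ) / √(n : ℝ)))) := by
      have f1 : (n : ℝ) ^ 4 * (21 / n) = 21 * n * (n : ℝ) ^ 2 := by field_simp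
      have f2 : (n : ℝ) ^ 4 * (T * T * 3 / (n * √(n : ℝ))) = T * ((n : ℝ) ^ 2 * (3 * √(n : ℝ) * T)) := by
        field_simp
        rw [pow_two (√(n : ℝ)), hss]
      have f3 : (n : ℝ) ^ 4 * (T * (7 * R * ((8 + 4 * Λ) / √(n : ℝ)))) =
          T * (7 * R * (((n : ℝ) ^ 2) ^ 2 / √(n : ℝ) * (8 + 4 * Λ))) := by
        field_simp
      rw [mul_sub, mul_sub, f1, f2, f3]
      have f4 : (n : ℝ) ^ 4 * (kap n * L) = kap n * ((n : ℝ) ^ 2) ^ 2 * L := by ring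
      rw [f4]
      linarith
    exact le_of_mul_le_mul_left e6 hn4pos
  -- lower bound for kap * L
  have h2 : c₃ * (n : ℝ) ^ (-(2 * ε)) ≤ kap n * L := by
    have e : (n : ℝ) ^ (-(2 * ε)) = (n : ℝ) ^ (-ε) * (n : ℝ) ^ (-ε) := by
      rw [← Real.rpow_add hn0]; congr 1; ring
    rw [e, hc₃]
    calc c₂ * c₁ * ((n : ℝ) ^ (-ε) * (n : ℝ) ^ (-ε)) =
        (c₂ * (n : ℝ) ^ (-ε)) * (c₁ * (n : ℝ) ^ (-ε)) := by ring
      _ ≤ kap n * L := mul_le_mul hKn hLn (by positivity) (kap_nonneg n)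
  -- error terms
  have h3 : 21 / (n : ℝ) + T * T * 3 / (n * √(n : ℝ)) ≤ (c₃ / 2) * (n : ℝ) ^ (-(2 * ε)) := by
    have g1 : T * T ≤ C ^ 2 * √(n : ℝ) := by
      have : (n : ℝ) ^ ε * (n : ℝ) ^ ε ≤ √(n : ℝ) := by
        rw [← Real.rpow_add hn0, Real.sqrt_eq_rpow]
        exact Real.rpow_le_rpow_of_exponent_le hn1 (by linarith)
      calc T * T = C ^ 2 * ((n : ℝ) ^ ε * (n : ℝ) ^ ε) := by rw [hT]; ring
        _ ≤ _ := mul_le_mul_of_nonneg_left this (by positivity)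
    have g2 : T * T * 3 / (n * √(n : ℝ)) ≤ 3 * C ^ 2 / n := by
      rw [div_le_div_iff₀ (by positivity) hn0]
      calc T * T * 3 * n ≤ (C ^ 2 * √(n : ℝ)) * 3 * n := by gcongr
        _ = _ := by ring
    have g3 : 21 / (n : ℝ) + T * T * 3 / (n * √(n : ℝ)) ≤ (21 + 3 * C ^ 2) / n := by
      calc _ ≤ 21 / (n : ℝ) + 3 * C ^ 2 / n := by linarith
        _ = _ := by ring
    refine g3.trans ?_
    have g4 : 2 * (21 + 3 * C ^ 2) / c₃ ≤ √(n : ℝ) := by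
      apply Real.le_sqrt_of_sq_le
      exact hn_1
    have g5 : (√(n : ℝ))⁻¹ ≤ (n : ℝ) ^ (-(2 * ε)) := by
      rw [Real.sqrt_eq_rpow, ← Real.rpow_neg hn0.le]
      exact Real.rpow_le_rpow_of_exponent_le hn1 (by linarith)
    have g6 : (21 + 3 * C ^ 2) ≤ (c₃ / 2) * √(n : ℝ) := by
      rw [div_le_iff₀ hc₃0] at g4
      linarith
    calc (21 + 3 * C ^ 2) / n ≤ ((c₃ / 2) * √(n : ℝ)) / n := by gcongr
      _ = (c₃ / 2) * (√(n : ℝ))⁻¹ := by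
          have : (n : ℝ) = √(n : ℝ) * √(n : ℝ) := hss.symm
          rw [mul_div_assoc]
          congr 1
          rw [div_eq_iff hn0.ne']
          nth_rewrite 3 [this]
          field_simp
      _ ≤ _ := by gcongr
  have h4 : (c₃ / 2) * (n : ℝ) ^ (-(2 * ε)) ≤ T * (7 * R * ((8 + 4 * Λ) / √(n : ℝ))) := by
    linarith
  have h5 : (c₃ / 2) * (n : ℝ) ^ (-(2 * ε)) ≤
      (C * (n : ℝ) ^ ε) * (7 * R * ((C₄ * (n : ℝ) ^ ε) / √(n : ℝ))) := by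
    refine h4.trans ?_
    rw [← hT]
    gcongr
  -- R lower bound
  have h6 : c₅ * (n : ℝ) ^ (1 / 2 - 4 * ε) ≤ R := by
    have e1 : (n : ℝ) ^ (1 / 2 - 4 * ε) =
        √(n : ℝ) * (n : ℝ) ^ (-(2 * ε)) / ((n : ℝ) ^ ε * (n : ℝ) ^ ε) := by
      rw [← Real.rpow_add hn0, Real.sqrt_eq_rpow, ← Real.rpow_add hn0, ← Real.rpow_sub hn0]
      congr 1; ring
    rw [e1, hc₅]
    have hpos : (0 : ℝ) < (n : ℝ) ^ ε := by positivity
    have e2 : (c₃ / 2) * (n : ℝ) ^ (-(2 * ε)) * √(n : ℝ) ≤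
        (7 * C * C₄) * ((n : ℝ) ^ ε * (n : ℝ) ^ ε) * R := by
      calc (c₃ / 2) * (n : ℝ) ^ (-(2 * ε)) * √(n : ℝ) ≤
          ((C * (n : ℝ) ^ ε) * (7 * R * ((C₄ * (n : ℝ) ^ ε) / √(n : ℝ)))) * √(n : ℝ) :=
            mul_le_mul_of_nonneg_right h5 hs0.le
        _ = _ := by field_simp
    have e3 : (c₃ / 2) / (7 * C * C₄) * (√(n : ℝ) * (n : ℝ) ^ (-(2 * ε)) /
        ((n : ℝ) ^ ε * (n : ℝ) ^ ε)) =
        ((c₃ / 2) * (n : ℝ) ^ (-(2 * ε)) * √(n : ℝ)) /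
          ((7 * C * C₄) * ((n : ℝ) ^ ε * (n : ℝ) ^ ε)) := by
      field_simp
    rw [e3, div_le_iff₀ (by positivity)]
    linarith
  have h7 : R ≤ 2 * (((small (n : ℤ)).filter (fun p => p.1 % 2 = 1)).card : ℝ) := by
    rw [hR]
    exact_mod_cast card_small_le (n : ℤ) (by omega)
  have h8 : 2 * (n : ℝ) ^ (1 / 2 - e) ≤ c₅ * (n : ℝ) ^ (1 / 2 - 4 * ε) := by
    have e1 : 2 / c₅ ≤ (n : ℝ) ^ ε := by
      calc 2 / c₅ = ((2 / c₅) ^ (1 / ε)) ^ ε := by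
            rw [← Real.rpow_mul (by positivity), one_div_mul_cancel hε0.ne', Real.rpow_one]
        _ ≤ _ := Real.rpow_le_rpow (by positivity) hn_2 hε0.le
    rw [div_le_iff₀ hc₅0] at e1
    have e2 : (n : ℝ) ^ (1 / 2 - e) ≤ (n : ℝ) ^ (1 / 2 - 5 * ε) :=
      Real.rpow_le_rpow_of_exponent_le hn1 (by linarith)
    have e3 : (n : ℝ) ^ (1 / 2 - 4 * ε) = (n : ℝ) ^ (1 / 2 - 5 * ε) * (n : ℝ) ^ ε := by
      rw [← Real.rpow_add hn0]; congr 1; ring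
    rw [e3]
    have e4 : (0 : ℝ) < (n : ℝ) ^ (1 / 2 - 5 * ε) := by positivity
    nlinarith
  linarith

/-- The interface lemma in terms of natural numbers. -/
theorem many_forms (e : ℝ) (he : 0 < e) : ∃ N0 : ℕ, ∀ n : ℕ, N0 ≤ n →
    (n % 4 = 2 ∨ n % 4 = 3) →
    (n : ℝ) ^ (1 / 2 - e) ≤ (((range (n + 1) ×ˢ range (n + 1)).filter (fun p : ℕ × ℕ =>
      p.1 % 2 = 1 ∧ p.1 ^ 2 ≤ n ∧ p.2 < p.1 ∧ (p.1 : ℤ) ∣ (p.2 : ℤ) ^ 2 - n)).card : ℝ) := by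
  obtain ⟨N0, h⟩ := many_small e he
  refine ⟨N0, fun n hn hn4 => (h n hn hn4).trans ?_⟩
  have hle : ((small (n : ℤ)).filter (fun p => p.1 % 2 = 1)).card ≤
      ((range (n + 1) ×ˢ range (n + 1)).filter (fun p : ℕ × ℕ =>
      p.1 % 2 = 1 ∧ p.1 ^ 2 ≤ n ∧ p.2 < p.1 ∧ (p.1 : ℤ) ∣ (p.2 : ℤ) ^ 2 - n)).card := by
    refine card_le_card_of_injOn (fun p => (p.1.toNat, p.2.toNat)) ?_ ?_
    · rintro ⟨Q, P⟩ hp
      obtain ⟨hp1, hp2⟩ := mem_filter.mp (mem_coe.mp hp)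
      obtain ⟨g1, g2, g3, g4, g5⟩ := mem_small.mp hp1
      simp only at g1 g2 g3 g4 g5 hp2
      obtain ⟨q, rfl⟩ : ∃ q : ℕ, Q = q := ⟨Q.toNat, by omega⟩
      obtain ⟨r, rfl⟩ : ∃ r : ℕ, P = r := ⟨P.toNat, by omega⟩
      simp only [mem_coe, mem_filter, mem_product, mem_range, Int.toNat_natCast]
      have g4' : q ^ 2 ≤ n := by exact_mod_cast g4
      have hqn : q ≤ n := by
        have : 1 ≤ q := by omega
        nlinarith
      refine ⟨⟨by omega, by omega⟩, by omega, g4', by omega, g5⟩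
    · rintro ⟨Q, P⟩ hp ⟨Q', P'⟩ hp' heq
      obtain ⟨hp1, hp2⟩ := mem_filter.mp (mem_coe.mp hp)
      obtain ⟨g1, g2, g3, g4, g5⟩ := mem_small.mp hp1
      obtain ⟨hp1', hp2'⟩ := mem_filter.mp (mem_coe.mp hp')
      obtain ⟨g1', g2', g3', g4', g5'⟩ := mem_small.mp hp1'
      simp only at g1 g2 g3 g4 g5 hp2 g1' g2' g3' g4' g5' hp2'
      simp only [Prod.mk.injEq] at heq ⊢
      omega
  exact_mod_cast hle

end Pool.Agent.Lib.P5632c9
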