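import Pool.Agent.Lib.P5632c9.ConicCard

/-!
# Pairs of reduced forms
-/

namespace Pool.Agent.Lib.P5632c9

open Finset

/-- reduced odd points with `Q² ≤ n` (in the window `(√n - Q, √n)`), `R ≡ 2 mod 4` -/
noncomputable def redSet (n : ℕ) : Finset (ℤ × ℤ) :=
  ((Icc 1 (n : ℤ)) ×ˢ (Icc 1 (n : ℤ))).filter (fun x => x.1 % 2 = 1 ∧ x.1 ^ 2 ≤ n ∧
    x.2 ^ 2 < n ∧ (n : ℤ) < (x.1 + x.2) ^ 2 ∧ x.1 ∣ n - x.2 ^ 2 ∧
    ((n : ℤ) - x.2 ^ 2) / x.1 % 4 = 2 ∧ (x.2 - n) % 2 = 0)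

structure Red (n : ℕ) (x : ℤ × ℤ) : Prop where
  qpos : 1 ≤ x.1
  ppos : 1 ≤ x.2
  odd : x.1 % 2 = 1
  qle : x.1 ^ 2 ≤ n
  plt : x.2 ^ 2 < n
  win : (n : ℤ) < (x.1 + x.2) ^ 2
  dvd : x.1 ∣ n - x.2 ^ 2
  rmod : ((n : ℤ) - x.2 ^ 2) / x.1 % 4 = 2
  par : (x.2 - n) % 2 = 0

lemma mem_redSet {n : ℕ} {x : ℤ × ℤ} : x ∈ redSet n ↔ Red n x := by
  unfold redSet
  simp only [mem_filter, mem_product, mem_Icc]
  constructor
  · rintro ⟨⟨⟨a1, a2⟩, a3, a4⟩, a5, a6, a7, a8, a9, a10, a11⟩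
    exact ⟨a1, a3, a5, a6, a7, a8, a9, a10, a11⟩
  · intro h
    obtain ⟨a1, a3, a5, a6, a7, a8, a9, a10, a11⟩ := h
    exact ⟨⟨⟨a1, by nlinarith⟩, a3, by nlinarith⟩, a5, a6, a7, a8, a9, a10, a11⟩

/-- the vector attached to a pair -/
def vec (x y : ℤ × ℤ) : ℤ × ℤ × ℤ :=
  ((x.2 * y.1 - y.2 * x.1) / 2, (y.1 - x.1) / 2, (x.1 + y.1) / 2)

/-- the number `l` attached to a pair -/
def lof (n : ℕ) (x y : ℤ × ℤ) : ℤ :=
  (2 * n - 2 * (x.2 * y.2) - ((n : ℤ) - x.2 ^ 2) / x.1 * y.1 - ((n : ℤ) - y.2 ^ 2) / y.1 * x.1) / 4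

lemma two_mul_vec {n : ℕ} {x y : ℤ × ℤ} (hx : Red n x) (hy : Red n y) :
    2 * (vec x y).1 = x.2 * y.1 - y.2 * x.1 ∧ 2 * (vec x y).2.1 = y.1 - x.1 ∧
    2 * (vec x y).2.2 = x.1 + y.1 := by
  unfold vec
  have h1 := hx.odd
  have h2 := hy.odd
  have h3 := hx.par
  have h4 := hy.par
  refine ⟨?_, by simp only; omega, by simp only; omega⟩
  simp only
  have : (x.2 * y.1 - y.2 * x.1) % 2 = 0 := by
    obtain ⟨a, ha⟩ : ∃ a, x.1 = 2 * a + 1 := ⟨x.1 / 2, by omega⟩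
    obtain ⟨b, hb⟩ : ∃ b, y.1 = 2 * b + 1 := ⟨y.1 / 2, by omega⟩
    obtain ⟨c, hc⟩ : ∃ c, x.2 = y.2 + 2 * c := ⟨(x.2 - y.2) / 2, by omega⟩
    rw [ha, hb, hc]
    have : (y.2 + 2 * c) * (2 * b + 1) - y.2 * (2 * a + 1) =
        2 * (y.2 * b + 2 * c * b + c - y.2 * a) := by ring
    rw [this]
    omega
  omega

lemma four_mul_lof {n : ℕ} {x y : ℤ × ℤ} (hx : Red n x) (hy : Red n y) :
    4 * lof n x y = 2 * n - 2 * (x.2 * y.2) - ((n : ℤ) - x.2 ^ 2) / x.1 * y.1 -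
      ((n : ℤ) - y.2 ^ 2) / y.1 * x.1 := by
  unfold lof
  have h1 := hx.odd
  have h2 := hy.odd
  have h3 := hx.par
  have h4 := hy.par
  have h5 := hx.rmod
  have h6 := hy.rmod
  set R1 := ((n : ℤ) - x.2 ^ 2) / x.1
  set R2 := ((n : ℤ) - y.2 ^ 2) / y.1
  obtain ⟨a, ha⟩ : ∃ a, x.1 = 2 * a + 1 := ⟨x.1 / 2, by omega⟩
  obtain ⟨b, hb⟩ : ∃ b, y.1 = 2 * b + 1 := ⟨y.1 / 2, by omega⟩
  obtain ⟨c, hc⟩ : ∃ c, x.2 = n + 2 * c := ⟨(x.2 - n) / 2, by omega⟩
  obtain ⟨d, hd⟩ : ∃ d, y.2 = n + 2 * d := ⟨(y.2 - n) / 2, by omega⟩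
  obtain ⟨e, he⟩ : ∃ e, R1 = 4 * e + 2 := ⟨R1 / 4, by omega⟩
  obtain ⟨f, hf⟩ : ∃ f, R2 = 4 * f + 2 := ⟨R2 / 4, by omega⟩
  have hn2 : ∃ g, (n : ℤ) * (n - 1) = 2 * g := by
    rcases Int.even_or_odd' (n : ℤ) with ⟨k, hk | hk⟩
    · exact ⟨k * (n - 1), by rw [hk]; ring⟩
    · exact ⟨n * k, by rw [hk]; ring⟩
  obtain ⟨g, hg⟩ := hn2
  have hdvd : (4 : ℤ) ∣ 2 * n - 2 * (x.2 * y.2) - R1 * y.1 - R2 * x.1 := by
    refine ⟨-(g + n * d + n * c + 2 * c * d) - (e * (2 * b + 1) + b) - (f * (2 * a + 1) + a) - 1, ?_⟩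
    rw [ha, hb, hc, hd, he, hf]
    linear_combination (-2) * hg
  obtain ⟨w, hw⟩ := hdvd
  rw [hw]
  omega

lemma onConic_of_red {n : ℕ} {x y : ℤ × ℤ} (hx : Red n x) (hy : Red n y) :
    OnConic n (lof n x y) (vec x y) := by
  obtain ⟨e1, e2, e3⟩ := two_mul_vec hx hy
  have e4 := four_mul_lof hx hy
  obtain ⟨R1, hR1⟩ := hx.dvd
  obtain ⟨R2, hR2⟩ := hy.dvd
  have hq1 := hx.qpos
  have hq2 := hy.qpos
  have d1 : ((n : ℤ) - x.2 ^ 2) / x.1 = R1 := by
    rw [hR1]; exact Int.mul_ediv_cancel_left _ (by omega)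
  have d2 : ((n : ℤ) - y.2 ^ 2) / y.1 = R2 := by
    rw [hR2]; exact Int.mul_ediv_cancel_left _ (by omega)
  rw [d1, d2] at e4
  set l := lof n x y
  set U := (vec x y).1
  set V := (vec x y).2.1
  set S := (vec x y).2.2
  have hSV : S ^ 2 - V ^ 2 = x.1 * y.1 := by
    have : 4 * (S ^ 2 - V ^ 2) = 4 * (x.1 * y.1) := by
      have : 4 * (S ^ 2 - V ^ 2) = (2 * S) ^ 2 - (2 * V) ^ 2 := by ring
      rw [this, e2, e3]; ring
    linarith
  have hprod : 0 < x.1 * y.1 := mul_pos (by omega) (by omega)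
  have heq : U ^ 2 = ((n : ℤ) - l) * V ^ 2 + l * S ^ 2 := by
    have h1 : 4 * (U ^ 2 - (((n : ℤ) - l) * V ^ 2 + l * S ^ 2)) =
        (2 * U) ^ 2 - n * (2 * V) ^ 2 - 4 * l * (S ^ 2 - V ^ 2) := by ring
    rw [e1, e2, e4, hSV] at h1
    have h2 : (x.2 * y.1 - y.2 * x.1) ^ 2 - (n : ℤ) * (y.1 - x.1) ^ 2 -
        (2 * n - 2 * (x.2 * y.2) - R1 * y.1 - R2 * x.1) * (x.1 * y.1) = 0 := by
      linear_combination (-(y.1 ^ 2)) * hR1 - (x.1 ^ 2) * hR2
    rw [h2] at h1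
    linarith
  refine ⟨heq, by omega, ?_, by linarith, ?_⟩
  · have h1 := hx.qle
    have h2 := hy.qle
    have h3 : 4 * S ^ 2 = (x.1 + y.1) ^ 2 := by rw [← e3]; ring
    nlinarith [sq_nonneg (x.1 - y.1)]
  · set g : ℤ := (Int.gcd V S : ℤ) with hg
    have hgV : g ∣ V := Int.gcd_dvd_left _ _
    have hgS : g ∣ S := Int.gcd_dvd_right _ _
    have g1 : g ∣ x.1 := by
      have : x.1 = S - V := by omega
      rw [this]; exact dvd_sub hgS hgV
    have g2 : g ∣ y.1 := by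
      have : y.1 = S + V := by omega
      rw [this]; exact dvd_add hgS hgV
    have h16 : g ∣ 16 * (l * ((n : ℤ) - l)) := by
      have k1 : g ∣ (n : ℤ) - x.2 ^ 2 := g1.trans hx.dvd
      have k2 : g ∣ (n : ℤ) - y.2 ^ 2 := g2.trans hy.dvd
      have k3 : g ∣ R1 * y.1 + R2 * x.1 := dvd_add (g2.mul_left _) (g1.mul_left _)
      have e : 16 * (l * ((n : ℤ) - l)) = (4 * l) * (4 * n - 4 * l) := by ring
      rw [e, e4]
      obtain ⟨u, hu⟩ := k1
      obtain ⟨v, hv⟩ := k2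
      obtain ⟨w, hw⟩ := k3
      refine ⟨4 * (n * u + x.2 ^ 2 * v) - w * (2 * n + 2 * (x.2 * y.2)) + w * (2 * n - 2 * (x.2 * y.2) - g * w), ?_⟩
      have e5 : (2 * (n : ℤ) - 2 * (x.2 * y.2) - R1 * y.1 - R2 * x.1) =
          2 * n - 2 * (x.2 * y.2) - g * w := by rw [← hw]; ring
      rw [e5]
      linear_combination (4 * (n : ℤ)) * hu + (4 * x.2 ^ 2) * hv
    have hodd : IsCoprime g (4 : ℤ) := by
      obtain ⟨a, ha⟩ := g1
      have hxo := hx.odd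
      have hgo : g % 2 = 1 := by
        rw [ha] at hxo
        rcases Int.emod_two_eq_zero_or_one g with h | h
        · rw [Int.mul_emod, h] at hxo; simp at hxo
        · exact h
      obtain ⟨b, hb⟩ : ∃ b, g = 2 * b + 1 := ⟨g / 2, by omega⟩
      refine ⟨g, -(b * (b + 1)), ?_⟩
      rw [hb]; ring
    have e : 16 * (l * ((n : ℤ) - l)) = 4 * (4 * (l * ((n : ℤ) - l))) := by ring
    rw [e] at h16
    exact hodd.dvd_of_dvd_mul_left h16

/-- the real number attached to a point -/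
noncomputable def beta (n : ℕ) (x : ℤ × ℤ) : ℝ := x.1 / (x.2 + √(n : ℝ))

lemma lof_sq_le {n : ℕ} {x y : ℤ × ℤ} (hn : 0 < n) (hx : Red n x) (hy : Red n y)
    (hclose : |beta n x - beta n y| ≤ 1 / √(n : ℝ)) : lof n x y ^ 2 ≤ n := by
  obtain ⟨e1, e2, e3⟩ := two_mul_vec hx hy
  have hc := onConic_of_red hx hy
  have hnR : (0 : ℝ) < n := by exact_mod_cast hn
  have hs : 0 < √(n : ℝ) := Real.sqrt_pos.mpr hnR
  have hs2 : √(n : ℝ) ^ 2 = n := Real.sq_sqrt hnR.le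
  set s := √(n : ℝ)
  have q1 : (0 : ℝ) < x.1 := by exact_mod_cast hx.qpos
  have q2 : (0 : ℝ) < y.1 := by exact_mod_cast hy.qpos
  have p1 : (0 : ℝ) < x.2 := by exact_mod_cast hx.ppos
  have p2 : (0 : ℝ) < y.2 := by exact_mod_cast hy.ppos
  have p1s : (x.2 : ℝ) < s := Real.lt_sqrt_of_sq_lt (by exact_mod_cast hx.plt)
  have p2s : (y.2 : ℝ) < s := Real.lt_sqrt_of_sq_lt (by exact_mod_cast hy.plt)
  have w1 : s < x.1 + x.2 := by
    rw [Real.sqrt_lt' (by positivity)]; exact_mod_cast hx.win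
  have w2 : s < y.1 + y.2 := by
    rw [Real.sqrt_lt' (by positivity)]; exact_mod_cast hy.win
  have e1R : 2 * ((vec x y).1 : ℝ) = x.2 * y.1 - y.2 * x.1 := by exact_mod_cast e1
  have e2R : 2 * ((vec x y).2.1 : ℝ) = y.1 - x.1 := by exact_mod_cast e2
  have e3R : 2 * ((vec x y).2.2 : ℝ) = x.1 + y.1 := by exact_mod_cast e3
  have hprodR : ((vec x y).1 : ℝ) ^ 2 = (n - lof n x y) * ((vec x y).2.1 : ℝ) ^ 2 +
      lof n x y * ((vec x y).2.2 : ℝ) ^ 2 := by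
    exact_mod_cast hc.eq
  set U : ℝ := ((vec x y).1 : ℝ)
  set V : ℝ := ((vec x y).2.1 : ℝ)
  set S : ℝ := ((vec x y).2.2 : ℝ)
  have hprod : (U + s * V) * (U - s * V) = (lof n x y : ℝ) * (x.1 * y.1) := by
    have h1 : (U : ℝ) ^ 2 = (n - lof n x y) * V ^ 2 + lof n x y * S ^ 2 := hprodR
    have h2 : (x.1 : ℝ) * y.1 = S ^ 2 - V ^ 2 := by
      have : 4 * (S ^ 2 - V ^ 2) = (2 * S) ^ 2 - (2 * V) ^ 2 := by ring
      rw [e2R, e3R] at this
      linarith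
    rw [h2]
    have : (U + s * V) * (U - s * V) = U ^ 2 - s ^ 2 * V ^ 2 := by ring
    rw [this, hs2, h1]; ring
  have hA : |U + s * V| ≤ 2 * s := by
    have h1 : beta n x - beta n y = -(2 * (U + s * V)) / ((x.2 + s) * (y.2 + s)) := by
      have h2 : 2 * (U + s * V) = x.2 * y.1 - y.2 * x.1 + s * (y.1 - x.1) := by
        rw [mul_add, e1R]; linear_combination s * e2R
      unfold beta
      rw [h2, div_sub_div _ _ (by positivity) (by positivity)]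
      congr 1
      ring
    rw [h1, abs_div, abs_neg, abs_mul, abs_of_pos (by positivity : 0 < ((x.2 : ℝ) + s) * (y.2 + s)),
      div_le_div_iff₀ (by positivity) hs] at hclose
    have h3 : ((x.2 : ℝ) + s) * (y.2 + s) ≤ (2 * s) * (2 * s) := by
      apply mul_le_mul <;> linarith
    have h4 : |(2 : ℝ)| = 2 := by norm_num
    rw [h4, one_mul] at hclose
    have h5 : 2 * |U + s * V| * s ≤ (4 * s) * s := by nlinarith
    have h6 : 2 * |U + s * V| ≤ 4 * s := le_of_mul_le_mul_right h5 hs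
    linarith
  have hB : |U - s * V| ≤ x.1 * y.1 / 2 := by
    have h1 : 2 * (U - s * V) = x.1 * (s - y.2) - y.1 * (s - x.2) := by
      have h2 : 2 * (U - s * V) = 2 * U - s * (2 * V) := by ring
      rw [h2, e1R, e2R]; ring
    have h3 : 0 ≤ (x.1 : ℝ) * (s - y.2) := mul_nonneg q1.le (by linarith)
    have h4 : (x.1 : ℝ) * (s - y.2) ≤ x.1 * y.1 := mul_le_mul_of_nonneg_left (by linarith) q1.le
    have h5 : 0 ≤ (y.1 : ℝ) * (s - x.2) := mul_nonneg q2.le (by linarith)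
    have h6 : (y.1 : ℝ) * (s - x.2) ≤ y.1 * x.1 := mul_le_mul_of_nonneg_left (by linarith) q2.le
    rw [abs_le]
    constructor <;> nlinarith
  have hl : |(lof n x y : ℝ)| ≤ s := by
    have h1 : |(lof n x y : ℝ)| * (x.1 * y.1) ≤ s * (x.1 * y.1) := by
      calc |(lof n x y : ℝ)| * (x.1 * y.1) = |(U + s * V) * (U - s * V)| := by
            rw [hprod, abs_mul (lof n x y : ℝ), abs_of_pos (mul_pos q1 q2)]
        _ ≤ (2 * s) * (x.1 * y.1 / 2) := by
            rw [abs_mul]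
            exact mul_le_mul hA hB (abs_nonneg _) (by positivity)
        _ = _ := by ring
    exact le_of_mul_le_mul_right h1 (mul_pos q1 q2)
  have h1 : (lof n x y : ℝ) ^ 2 ≤ n := by
    rw [← hs2, ← sq_abs]
    exact pow_le_pow_left₀ (abs_nonneg _) hl 2
  exact_mod_cast h1

lemma eq_of_lof_zero {n : ℕ} (hns : ¬ IsSquare (n : ℤ)) {x y : ℤ × ℤ} (hx : Red n x)
    (hy : Red n y) (h0 : lof n x y = 0) : x = y := by
  obtain ⟨e1, e2, e3⟩ := two_mul_vec hx hy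
  have hc := (onConic_of_red hx hy).eq
  rw [h0] at hc
  simp only [sub_zero, zero_mul, add_zero] at hc
  have hV : (vec x y).2.1 = 0 := by
    by_contra hne
    exact sq_ne n hns _ _ hne hc
  rw [hV] at hc e2
  have hU : (vec x y).1 = 0 := by
    have : (vec x y).1 ^ 2 = 0 := by rw [hc]; ring
    exact pow_eq_zero_iff two_ne_zero |>.mp this
  rw [hU] at e1
  have h1 : x.1 = y.1 := by omega
  have h2 : x.2 = y.2 := by
    have hq := hx.qpos
    rw [← h1] at e1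
    have : (x.2 - y.2) * x.1 = 0 := by linarith
    rcases mul_eq_zero.mp this with h | h
    · linarith
    · omega
  exact Prod.ext h1 h2

/-- roots in the window -/
lemma card_roots_le {n : ℕ} (hst : Star n) (Q : ℤ) (T0 : ℕ)
    (hT0 : ∀ k : ℕ, 0 < k → k ≤ n → k.divisors.card ≤ T0) :
    ((redSet n).filter (fun x => x.1 = Q)).card ≤ T0 ^ 2 := by
  classical
  rcases ((redSet n).filter (fun x => x.1 = Q)).eq_empty_or_nonempty with he | ⟨x0, hx0⟩
  · rw [he]; simp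
  obtain ⟨hx0m, hx0Q⟩ := mem_filter.mp hx0
  have hr0 := mem_redSet.mp hx0m
  have hQpos : 0 < Q := by have := hr0.qpos; omega
  have hQnat : ((Q.natAbs : ℕ) : ℤ) = Q := Int.natAbs_of_nonneg hQpos.le
  have hQ2 : Q ^ 2 ≤ n := by rw [← hx0Q]; exact hr0.qle
  obtain ⟨lab, h1, h2⟩ := exists_label Q.natAbs (by omega) n (by
    intro q hq hqQ hqn
    rw [hQnat] at hqQ
    exact star_no hst hq (by exact_mod_cast hqn) hQpos.ne' hQ2 hqQ)
  have hQn : Q.natAbs ≤ n := by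
    have : Q ≤ n := by nlinarith
    omega
  calc ((redSet n).filter (fun x => x.1 = Q)).card ≤
      (Q.natAbs.divisors ×ˢ Q.natAbs.divisors).card := by
        refine card_le_card_of_injOn (fun x => lab (x.2, 1)) ?_ ?_
        · intro x _; exact h1 _
        · intro x hx y hy hxy
          obtain ⟨hx1, hx2⟩ := mem_filter.mp (mem_coe.mp hx)
          obtain ⟨hy1, hy2⟩ := mem_filter.mp (mem_coe.mp hy)
          have rx := mem_redSet.mp hx1
          have ry := mem_redSet.mp hy1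
          have cx : ((Q.natAbs : ℕ) : ℤ) ∣ (x.2, (1 : ℤ)).1 ^ 2 - n * (x.2, (1 : ℤ)).2 ^ 2 := by
            rw [hQnat, ← hx2]
            have := dvd_neg.mpr rx.dvd
            simpa using this
          have cy : ((Q.natAbs : ℕ) : ℤ) ∣ (y.2, (1 : ℤ)).1 ^ 2 - n * (y.2, (1 : ℤ)).2 ^ 2 := by
            rw [hQnat, ← hy2]
            have := dvd_neg.mpr ry.dvd
            simpa using this
          have h3 := h2 _ _ cx cy hxy
          rw [hQnat] at h3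
          simp only [mul_one] at h3
          have hodd : IsCoprime Q 2 := by
            have := rx.odd
            rw [hx2] at this
            exact ⟨1, -(Q / 2), by omega⟩
          have h4 : Q ∣ x.2 - y.2 := hodd.dvd_of_dvd_mul_left h3
          have h5 : x.2 - y.2 = 0 := by
            apply Int.eq_zero_of_abs_lt_dvd h4
            have a1 := rx.plt
            have a2 := ry.plt
            have a3 := rx.win
            have a4 := ry.win
            rw [hx2] at a3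
            rw [hy2] at a4
            have b1 := rx.ppos
            have b2 := ry.ppos
            rw [abs_lt]
            constructor
            · nlinarith
            · nlinarith
          exact Prod.ext (hx2.trans hy2.symm) (by linarith)
    _ = Q.natAbs.divisors.card ^ 2 := by rw [card_product]; ring
    _ ≤ T0 ^ 2 := Nat.pow_le_pow_left (hT0 _ (by omega) hQn) 2

end Pool.Agent.Lib.P5632c9
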