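import Pool.Agent.Lib.P5632c9.AbelL

/-!
# Real quadratic L-functions on the real axis
-/

namespace Pool.Agent.Lib.P5632c9

open Finset Complex Filter Topology

section

variable {N : ℕ} {χ : DirichletCharacter ℂ N}

lemma im_zero_of_sq (h2 : χ ^ 2 = 1) (a : ZMod N) : (χ a).im = 0 := by
  rcases MulChar.isQuadratic_iff_sq_eq_one.mpr h2 a with h | h | h <;> simp [h]

lemma psum_im (h2 : χ ^ 2 = 1) (K : ℕ) : (psum χ K).im = 0 := by
  unfold psum
  rw [Complex.im_sum]
  exact sum_eq_zero fun j _ => im_zero_of_sq h2 _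

lemma abelTerm_im (h2 : χ ^ 2 = 1) (k : ℕ) (σ : ℝ) : (abelTerm χ k σ).im = 0 := by
  unfold abelTerm
  have e1 : ((k : ℂ) + 1) ^ (-(σ : ℂ)) = (((k + 1 : ℝ) ^ (-σ) : ℝ) : ℂ) := by
    rw [Complex.ofReal_cpow (by positivity)]; push_cast; rfl
  have e2 : ((k : ℂ) + 2) ^ (-(σ : ℂ)) = (((k + 2 : ℝ) ^ (-σ) : ℝ) : ℂ) := by
    rw [Complex.ofReal_cpow (by positivity)]; push_cast; rfl
  rw [e1, e2, ← Complex.ofReal_sub, Complex.im_mul_ofReal, psum_im h2, zero_mul]

variable [NeZero N]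

lemma LFunction_im_zero (hχ : χ ≠ 1) (h2 : χ ^ 2 = 1) {σ : ℝ} (hσ : 0 < σ) :
    (DirichletCharacter.LFunction χ σ).im = 0 := by
  rw [LFunction_eq_abel hχ (by simpa using hσ), Complex.im_tsum
    (summable_abelTerm hχ (by simpa using hσ))]
  simp [abelTerm_im h2]

lemma LFunction_two_re_pos (h2 : χ ^ 2 = 1) :
    0 < (DirichletCharacter.LFunction χ 2).re := by
  rw [DirichletCharacter.LFunction_eq_LSeries χ (by simp)]
  have hs := ZMod.LSeriesSummable_of_one_lt_re (N := N) χ (s := 2) (by simp)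
  have h1 : HasSum (fun n => (LSeries.term (fun n => χ (n : ZMod N)) 2 n).re)
      (LSeries (fun n => χ (n : ZMod N)) 2).re := Complex.hasSum_re hs.hasSum
  have h3 := h1.add hasSum_zeta_two
  have h4 : ∀ n, 0 ≤ (LSeries.term (fun n => χ (n : ZMod N)) 2 n).re + 1 / (n : ℝ) ^ 2 := by
    intro n
    rcases eq_or_ne n 0 with rfl | hn
    · simp
    have h5 : ‖LSeries.term (fun n => χ (n : ZMod N)) 2 n‖ ≤ 1 / (n : ℝ) ^ 2 := by
      rw [LSeries.term_of_ne_zero hn, norm_div]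
      have : ‖(n : ℂ) ^ (2 : ℂ)‖ = (n : ℝ) ^ 2 := by
        have e : (n : ℂ) ^ (2 : ℂ) = (n : ℂ) ^ 2 := by norm_cast
        rw [e, norm_pow, Complex.norm_natCast]
      rw [this]
      exact div_le_div_of_nonneg_right (DirichletCharacter.norm_le_one χ _) (by positivity)
    have h6 := (Complex.abs_re_le_norm _).trans h5
    have := (abs_le.mp h6).1
    linarith
  have h7 := le_hasSum h3 1 (fun n _ => h4 n)
  have h8 : (LSeries.term (fun n => χ (n : ZMod N)) 2 1).re = 1 := by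
    rw [LSeries.term_of_ne_zero one_ne_zero]
    simp
  rw [h8] at h7
  have h9 : Real.pi ^ 2 / 6 < 2 := by
    have := Real.pi_lt_d2
    have h0 := Real.pi_pos
    nlinarith
  norm_num at h7
  linarith

lemma continuous_re_LFunction (hχ : χ ≠ 1) :
    Continuous (fun σ : ℝ => (DirichletCharacter.LFunction χ σ).re) :=
  Complex.continuous_re.comp
    ((DirichletCharacter.differentiable_LFunction hχ).continuous.comp Complex.continuous_ofReal)

lemma LFunction_re_pos_of_no_zero (hχ : χ ≠ 1) (h2 : χ ^ 2 = 1) {σ : ℝ} (hσ : 0 < σ) (hσ2 : σ ≤ 2)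
    (h : ∀ x : ℝ, σ ≤ x → x < 1 → DirichletCharacter.LFunction χ x ≠ 0) :
    0 < (DirichletCharacter.LFunction χ σ).re := by
  by_contra hneg
  push Not at hneg
  have h4 := LFunction_two_re_pos h2
  have hcont := (continuous_re_LFunction hχ).continuousOn (s := Set.Icc σ 2)
  have := intermediate_value_Icc hσ2 hcont
  obtain ⟨x, hx, hx0⟩ := this ⟨hneg, by simpa using h4.le⟩
  have hx0' : (DirichletCharacter.LFunction χ x).re = 0 := hx0
  have him := LFunction_im_zero hχ h2 (lt_of_lt_of_le hσ hx.1)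
  have hz : DirichletCharacter.LFunction χ x = 0 := Complex.ext hx0' him
  by_cases hx1 : x < 1
  · exact h x hx.1 hx1 hz
  · exact DirichletCharacter.LFunction_ne_zero_of_one_le_re χ (Or.inl hχ)
      (by simpa using (not_lt.mp hx1)) hz

lemma LFunction_one_re_pos (hχ : χ ≠ 1) (h2 : χ ^ 2 = 1) :
    0 < (DirichletCharacter.LFunction χ 1).re := by
  have := LFunction_re_pos_of_no_zero hχ h2 (σ := 1) one_pos (by norm_num)
    (fun x h1 h2 => absurd h2 (not_lt.mpr h1))
  simpa using this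

lemma LFunction_one_eq_ofReal (hχ : χ ≠ 1) (h2 : χ ^ 2 = 1) :
    DirichletCharacter.LFunction χ 1 = ((DirichletCharacter.LFunction χ 1).re : ℂ) := by
  have := LFunction_im_zero hχ h2 (σ := 1) one_pos
  apply Complex.ext
  · simp
  · simpa using this

lemma hasSum_telescope (K : ℕ) :
    HasSum (fun k : ℕ => 1 / ((k : ℝ) + K + 1) - 1 / ((k : ℝ) + K + 2)) (1 / ((K : ℝ) + 1)) := by
  rw [hasSum_iff_tendsto_nat_of_nonneg]
  · have : ∀ n : ℕ, ∑ k ∈ range n, (1 / ((k : ℝ) + K + 1) - 1 / ((k : ℝ) + K + 2)) =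
        1 / ((K : ℝ) + 1) - 1 / ((n : ℝ) + K + 1) := by
      intro n
      induction n with
      | zero => simp
      | succ n ih =>
        rw [sum_range_succ, ih]
        push_cast
        have e : (n : ℝ) + 1 + K + 1 = n + K + 2 := by ring
        rw [e]
        ring
    simp_rw [this]
    have h1 : Tendsto (fun n : ℕ => 1 / ((n : ℝ) + K + 1)) atTop (𝓝 0) := by
      have : Tendsto (fun n : ℕ => 1 / (((n + K : ℕ) : ℝ) + 1)) atTop (𝓝 0) :=
        tendsto_one_div_add_atTop_nhds_zero_nat.comp (tendsto_add_atTop_nat K)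
      refine this.congr fun n => ?_
      push_cast; rfl
    have := h1.const_sub (1 / ((K : ℝ) + 1))
    simpa using this
  · intro k
    rw [sub_nonneg]
    apply one_div_le_one_div_of_le <;> [positivity; linarith]

lemma abelTerm_one (k : ℕ) : abelTerm χ k 1 =
    psum χ (k + 1) * ((1 / ((k : ℝ) + 1) - 1 / ((k : ℝ) + 2) : ℝ) : ℂ) := by
  unfold abelTerm
  rw [Complex.cpow_neg_one, Complex.cpow_neg_one]
  push_cast
  simp

theorem LFunction_one_sub_partial (hχ : χ ≠ 1) (K : ℕ) :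
    ‖DirichletCharacter.LFunction χ 1 -
      ∑ k ∈ range K, χ ((k + 1 : ℕ) : ZMod N) / (k + 1 : ℂ)‖ ≤ 2 * N / (K + 1) := by
  have h1 := LFunction_eq_abel hχ (s := 1) (by simp)
  have h2 := finite_abel χ 1 K
  have hs := summable_abelTerm hχ (s := 1) (by simp)
  have h3 := hs.sum_add_tsum_nat_add K
  have h4 : ∑ k ∈ range K, χ ((k + 1 : ℕ) : ZMod N) / (k + 1 : ℂ) =
      ∑ k ∈ range K, χ ((k + 1 : ℕ) : ZMod N) * (k + 1 : ℂ) ^ (-1 : ℂ) := by
    refine sum_congr rfl fun k _ => ?_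
    rw [Complex.cpow_neg_one]; rfl
  rw [h4, h2, h1, ← h3]
  have h5 : ‖∑' k, abelTerm χ (k + K) 1‖ ≤ N * (1 / ((K : ℝ) + 1)) := by
    refine tsum_of_norm_bounded ((hasSum_telescope K).mul_left (N : ℝ)) fun k => ?_
    rw [abelTerm_one, norm_mul, Complex.norm_real]
    push_cast
    rw [Real.norm_of_nonneg]
    · exact mul_le_mul_of_nonneg_right (norm_psum_le hχ _) (by
        rw [sub_nonneg]
        apply one_div_le_one_div_of_le <;> [positivity; linarith])
    · rw [sub_nonneg]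
      apply one_div_le_one_div_of_le <;> [positivity; linarith]
  have h6 : ‖psum χ K * (K + 1 : ℂ) ^ (-1 : ℂ)‖ ≤ N * (1 / ((K : ℝ) + 1)) := by
    rw [norm_mul, Complex.cpow_neg_one, norm_inv]
    have : ‖(K : ℂ) + 1‖ = (K : ℝ) + 1 := by
      have e : (K : ℂ) + 1 = ((K + 1 : ℕ) : ℂ) := by push_cast; ring
      rw [e, Complex.norm_natCast]; push_cast; ring
    rw [this, one_div]
    exact mul_le_mul_of_nonneg_right (norm_psum_le hχ K) (by positivity)
  have e : (∑ k ∈ range K, abelTerm χ k 1 + ∑' k, abelTerm χ (k + K) 1) -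
      (psum χ K * (K + 1 : ℂ) ^ (-1 : ℂ) + ∑ k ∈ range K, abelTerm χ k 1) =
      ∑' k, abelTerm χ (k + K) 1 - psum χ K * (K + 1 : ℂ) ^ (-1 : ℂ) := by ring
  rw [e]
  refine (norm_sub_le _ _).trans ?_
  calc _ ≤ N * (1 / ((K : ℝ) + 1)) + N * (1 / ((K : ℝ) + 1)) := add_le_add h5 h6
    _ = _ := by ring

theorem LFunction_one_le (hχ : χ ≠ 1) :
    ‖DirichletCharacter.LFunction χ 1‖ ≤ 3 + Real.log N := by
  have h1 := LFunction_one_sub_partial hχ N
  have hN : (0 : ℝ) < N := by exact_mod_cast NeZero.pos N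
  have h2 : ‖∑ k ∈ range N, χ ((k + 1 : ℕ) : ZMod N) / (k + 1 : ℂ)‖ ≤ 1 + Real.log N := by
    refine (norm_sum_le _ _).trans ?_
    have h3 := harmonic_le_one_add_log N
    refine le_trans ?_ h3
    rw [harmonic]
    push_cast
    refine sum_le_sum fun k _ => ?_
    rw [norm_div]
    have : ‖(k : ℂ) + 1‖ = (k : ℝ) + 1 := by
      have e : (k : ℂ) + 1 = ((k + 1 : ℕ) : ℂ) := by push_cast; ring
      rw [e, Complex.norm_natCast]; push_cast; ring
    rw [this, ← one_div]
    exact div_le_div_of_nonneg_right (DirichletCharacter.norm_le_one χ _) (by positivity)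
  have h4 : 2 * (N : ℝ) / (N + 1) ≤ 2 := by
    rw [div_le_iff₀ (by positivity)]; linarith
  calc ‖DirichletCharacter.LFunction χ 1‖ = ‖(DirichletCharacter.LFunction χ 1 -
      ∑ k ∈ range N, χ ((k + 1 : ℕ) : ZMod N) / (k + 1 : ℂ)) +
      ∑ k ∈ range N, χ ((k + 1 : ℕ) : ZMod N) / (k + 1 : ℂ)‖ := by ring_nf
    _ ≤ _ := norm_add_le _ _
    _ ≤ _ := by linarith

end

end Pool.Agent.Lib.P5632c9
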