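import Pool.Agent.Lib.P5632c9.Fprod
import Pool.Agent.Lib.P5632c9.Chi
import Pool.Agent.Lib.P5632c9.RealL

/-!
# Siegel's theorem for the characters `(m/·)`, `m` squarefree
-/

namespace Pool.Agent.Lib.P5632c9

open Finset Complex Filter Topology

lemma extract (ε A lam : ℝ) (hε : 0 < ε) (hε8 : ε ≤ 1 / 8) (hA : 1 ≤ A)
    (h : ∀ K : ℕ, 1 ≤ K → 0 ≤ lam * (1 + ε) ^ K - ε + A * (3 / 4) ^ K) :
    (ε / 6) * (2 * A / ε) ^ (-(4 * ε)) ≤ lam := by
  set B : ℝ := 2 * A / ε with hB
  have hB16 : 16 ≤ B := by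
    rw [hB, le_div_iff₀ hε]; nlinarith
  have hB0 : 0 < B := by linarith
  have hlog : 0 < Real.log B := Real.log_pos (by linarith)
  set K : ℕ := ⌈4 * Real.log B⌉₊ with hK
  have hK1 : 1 ≤ K := Nat.one_le_ceil_iff.mpr (by positivity)
  have hKl : 4 * Real.log B ≤ K := Nat.le_ceil _
  have hKu : (K : ℝ) ≤ 4 * Real.log B + 1 := (Nat.ceil_lt_add_one (by positivity)).le
  have h1 := h K hK1
  have h34 : (3 / 4 : ℝ) ^ K ≤ B⁻¹ := by
    have e1 : (3 / 4 : ℝ) ≤ Real.exp (-(1 / 4)) := by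
      have := Real.add_one_le_exp (-(1 / 4) : ℝ)
      linarith
    calc (3 / 4 : ℝ) ^ K ≤ (Real.exp (-(1 / 4))) ^ K := pow_le_pow_left₀ (by norm_num) e1 K
      _ = Real.exp (K * -(1 / 4)) := by rw [← Real.exp_nat_mul]
      _ ≤ Real.exp (-Real.log B) := Real.exp_le_exp.mpr (by linarith)
      _ = B⁻¹ := by rw [Real.exp_neg, Real.exp_log hB0]
  have h2 : A * (3 / 4 : ℝ) ^ K ≤ ε / 2 := by
    calc A * (3 / 4 : ℝ) ^ K ≤ A * B⁻¹ := mul_le_mul_of_nonneg_left h34 (by linarith)
      _ = ε / 2 := by rw [hB]; field_simp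
  have h3 : ε / 2 ≤ lam * (1 + ε) ^ K := by linarith
  have h4 : (1 + ε) ^ K ≤ 3 * B ^ (4 * ε) := by
    calc (1 + ε) ^ K ≤ (Real.exp ε) ^ K :=
          pow_le_pow_left₀ (by linarith) (by have := Real.add_one_le_exp ε; linarith) K
      _ = Real.exp (K * ε) := by rw [← Real.exp_nat_mul]
      _ ≤ Real.exp (ε + Real.log B * (4 * ε)) := Real.exp_le_exp.mpr (by nlinarith)
      _ = Real.exp ε * B ^ (4 * ε) := by rw [Real.exp_add, Real.rpow_def_of_pos hB0]
      _ ≤ 3 * B ^ (4 * ε) := by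
          refine mul_le_mul_of_nonneg_right ?_ (by positivity)
          have h5 : Real.exp ε ≤ Real.exp 1 := Real.exp_le_exp.mpr (by linarith)
          have := Real.exp_one_lt_d9
          linarith
  have hlam : 0 < lam := by
    by_contra hneg
    push Not at hneg
    have : lam * (1 + ε) ^ K ≤ 0 := mul_nonpos_of_nonpos_of_nonneg hneg (by positivity)
    linarith
  have h5 : ε / 2 ≤ lam * (3 * B ^ (4 * ε)) := h3.trans (mul_le_mul_of_nonneg_left h4 hlam.le)
  rw [Real.rpow_neg hB0.le]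
  have hBp : 0 < B ^ (4 * ε) := by positivity
  rw [← div_eq_mul_inv, div_le_iff₀ hBp]
  linarith

lemma not_isSquare_of_squarefree {m : ℕ} (h : Squarefree m) (h2 : 2 ≤ m) : ¬ IsSquare m := by
  rintro ⟨r, rfl⟩
  have := h r dvd_rfl
  rw [Nat.isUnit_iff] at this
  subst this
  omega

lemma not_isSquare_mul {m₁ m₂ : ℕ} (h1 : Squarefree m₁) (h2 : Squarefree m₂) (hne : m₁ ≠ m₂) :
    ¬ IsSquare (m₁ * m₂) := by
  rintro ⟨r, hr⟩
  apply hne
  have hr0 : r ≠ 0 := by
    rintro rfl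
    simp only [mul_zero, mul_eq_zero] at hr
    rcases hr with h | h
    · exact h1.ne_zero h
    · exact h2.ne_zero h
  refine Nat.eq_of_factorization_eq h1.ne_zero h2.ne_zero fun p => ?_
  have e := congrArg (fun n => n.factorization p) hr
  simp only [Nat.factorization_mul h1.ne_zero h2.ne_zero, Nat.factorization_mul hr0 hr0,
    Finsupp.add_apply] at e
  have a1 := h1.natFactorization_le_one p
  have a2 := h2.natFactorization_le_one p
  omega

lemma zeta1_pos : ∃ η : ℝ, 0 < η ∧ ∀ σ : ℝ, 1 - η ≤ σ → σ ≤ 1 → 0 < (zeta1 σ).re := by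
  have hc : Continuous (fun σ : ℝ => (zeta1 σ).re) :=
    Complex.continuous_re.comp (differentiable_zeta1.continuous.comp Complex.continuous_ofReal)
  have h1 : ∀ᶠ σ : ℝ in 𝓝 1, 0 < (zeta1 σ).re := by
    have : (0 : ℝ) < (zeta1 ((1 : ℝ) : ℂ)).re := by
      rw [Complex.ofReal_one, zeta1_one]; simp
    exact (hc.tendsto 1).eventually (lt_mem_nhds this)
  obtain ⟨η, hη, h2⟩ := Metric.eventually_nhds_iff.mp h1
  refine ⟨η / 2, by positivity, fun σ ha hb => h2 ?_⟩
  rw [Real.dist_eq, abs_lt]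
  constructor <;> linarith

theorem siegel (δ : ℝ) (hδ : 0 < δ) : ∃ c : ℝ, 0 < c ∧ ∀ (m : ℕ) [NeZero m], Squarefree m →
    2 ≤ m → c * (m : ℝ) ^ (-δ) ≤ (DirichletCharacter.LFunction (chi m) 1).re := by
  obtain ⟨C₁', hC₁', hsingle⟩ := single_ineq
  obtain ⟨C₂', hC₂', hdouble⟩ := double_ineq
  obtain ⟨η, hη, hzeta⟩ := zeta1_pos
  set C₁ : ℝ := max C₁' 1
  set C₂ : ℝ := max C₂' 1
  have hC₁ : 1 ≤ C₁ := le_max_right _ _
  have hC₂ : 1 ≤ C₂ := le_max_right _ _
  set δ' : ℝ := min (min (1 / 8) η) (δ / 9) with hδ'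
  have hd0 : 0 < δ' := by
    rw [hδ']; refine lt_min (lt_min (by norm_num) hη) (by positivity)
  have hd8 : δ' ≤ 1 / 8 := (min_le_left _ _).trans (min_le_left _ _)
  have hdη : δ' ≤ η := (min_le_left _ _).trans (min_le_right _ _)
  have hdδ : δ' ≤ δ / 9 := min_le_right _ _
  by_cases hcase : ∀ (m : ℕ) [NeZero m], Squarefree m → 2 ≤ m → ∀ x : ℝ, 1 - δ' ≤ x → x < 1 →
      DirichletCharacter.LFunction (chi m) x ≠ 0
  · -- no exceptional zero
    refine ⟨(δ' / 6) * (8 * C₁ / δ') ^ (-(4 * δ')), by positivity, ?_⟩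
    intro m _ hsq hm
    have hm1 : (1 : ℝ) ≤ m := by exact_mod_cast (by omega : 1 ≤ m)
    have hχ : chi m ≠ 1 := chi_ne_one m (not_isSquare_of_squarefree hsq hm)
    have hpos := LFunction_re_pos_of_no_zero hχ (chi_sq m) (σ := 1 - δ') (by linarith)
      (by linarith) (hcase m hsq hm)
    have hex := extract δ' (C₁ * (4 * m)) (DirichletCharacter.LFunction (chi m) 1).re hd0 hd8
      (by nlinarith) ?_
    · refine le_trans ?_ hex
      have e : 2 * (C₁ * (4 * (m : ℝ))) / δ' = (8 * C₁ / δ') * m := by ring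
      rw [e, Real.mul_rpow (by positivity) (by positivity), ← mul_assoc]
      refine mul_le_mul_of_nonneg_left ?_ (by positivity)
      exact Real.rpow_le_rpow_of_exponent_le hm1 (by linarith)
    · intro K hK
      have h1 := hsingle (4 * m) (chi m) hχ (chi_sq m) (1 - δ') (by linarith) (by linarith) K hK
      have him := LFunction_im_zero hχ (chi_sq m) (σ := 1 - δ') (by linarith)
      rw [Complex.mul_re, him, mul_zero, sub_zero] at h1
      have hz := hzeta (1 - δ') (by linarith) (by linarith)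
      have h2 : 0 ≤ (zeta1 ((1 - δ' : ℝ) : ℂ)).re *
          (DirichletCharacter.LFunction (chi m) ((1 - δ' : ℝ) : ℂ)).re := by positivity
      have h3 : C₁' * ((4 * m : ℕ) : ℝ) * (3 / 4) ^ K ≤ C₁ * (4 * m) * (3 / 4) ^ K := by
        push_cast
        refine mul_le_mul_of_nonneg_right ?_ (by positivity)
        exact mul_le_mul_of_nonneg_right (le_max_left _ _) (by positivity)
      have e1 : (2 - (1 - δ')) = 1 + δ' := by ring
      have e2 : 1 - (1 - δ') = δ' := by ring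
      rw [e1, e2] at h1
      linarith
  · push Not at hcase
    obtain ⟨m₁, inst, hsq1, hm1, β, hβ1, hβ2, hzero⟩ := hcase
    set ε : ℝ := 1 - β with hε
    have hε0 : 0 < ε := by rw [hε]; linarith
    have hεδ : ε ≤ δ' := by rw [hε]; linarith
    have hχ1 : chi m₁ ≠ 1 := chi_ne_one m₁ (not_isSquare_of_squarefree hsq1 hm1)
    have hL1 := LFunction_one_re_pos hχ1 (chi_sq m₁)
    set L1 : ℝ := (DirichletCharacter.LFunction (chi m₁) 1).re with hL1def
    have hm1R : (1 : ℝ) ≤ m₁ := by exact_mod_cast (by omega : 1 ≤ m₁)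
    set D : ℝ := (3 + 1 / δ') * (4 * m₁) ^ δ' with hD
    have hD0 : 0 < D := by positivity
    set c₀ : ℝ := (ε / 6) * (128 * C₂ * m₁ ^ 2 / ε) ^ (-(4 * ε)) / (L1 * D) with hc₀
    have hc₀0 : 0 < c₀ := by positivity
    refine ⟨min c₀ L1, lt_min hc₀0 hL1, ?_⟩
    intro m _ hsq hm
    have hmR : (1 : ℝ) ≤ m := by exact_mod_cast (by omega : 1 ≤ m)
    have hm0 : (0 : ℝ) < m := by linarith
    by_cases hmm : m = m₁
    · subst hmm
      calc min c₀ L1 * (m : ℝ) ^ (-δ) ≤ L1 * 1 := by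
            refine mul_le_mul (min_le_right _ _) ?_ (by positivity) hL1.le
            exact Real.rpow_le_one_of_one_le_of_nonpos hmR (by linarith)
        _ = L1 := mul_one _
    · have hχ : chi m ≠ 1 := chi_ne_one m (not_isSquare_of_squarefree hsq hm)
      have hχ3 : chi (m₁ * m) ≠ 1 :=
        chi_ne_one (m₁ * m) (not_isSquare_mul hsq1 hsq (fun h => hmm h.symm))
      have hL2 := LFunction_one_re_pos hχ (chi_sq m)
      have hL3 := LFunction_one_re_pos hχ3 (chi_sq (m₁ * m))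
      set L2 : ℝ := (DirichletCharacter.LFunction (chi m) 1).re with hL2def
      set L3 : ℝ := (DirichletCharacter.LFunction (chi (m₁ * m)) 1).re with hL3def
      have hlam : (DirichletCharacter.LFunction (chi m₁) 1 * DirichletCharacter.LFunction (chi m) 1
          * DirichletCharacter.LFunction (chi (m₁ * m)) 1).re = L1 * L2 * L3 := by
        rw [LFunction_one_eq_ofReal hχ1 (chi_sq m₁), LFunction_one_eq_ofReal hχ (chi_sq m),
          LFunction_one_eq_ofReal hχ3 (chi_sq (m₁ * m)), ← Complex.ofReal_mul,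
          ← Complex.ofReal_mul, Complex.ofReal_re]
      have hex := extract ε (C₂ * (4 * m₁ * (4 * m) * (4 * (m₁ * m)))) (L1 * L2 * L3) hε0
        (by linarith) ?_ ?_
      · -- conclude
        have e : 2 * (C₂ * (4 * (m₁ : ℝ) * (4 * m) * (4 * (m₁ * m)))) / ε =
            (128 * C₂ * m₁ ^ 2 / ε) * (m : ℝ) ^ 2 := by ring
        rw [e, Real.mul_rpow (by positivity) (by positivity), ← mul_assoc] at hex
        have h5 : L3 ≤ D * (m : ℝ) ^ δ' := by
          have h6 := LFunction_one_le hχ3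
          have h7 : L3 ≤ ‖DirichletCharacter.LFunction (chi (m₁ * m)) 1‖ := Complex.re_le_norm _
          have hx : (1 : ℝ) ≤ ((4 * (m₁ * m) : ℕ) : ℝ) := by push_cast; nlinarith
          have h8 := Real.log_le_rpow_div (x := ((4 * (m₁ * m) : ℕ) : ℝ)) (by positivity) hd0
          have h9 : (1 : ℝ) ≤ ((4 * (m₁ * m) : ℕ) : ℝ) ^ δ' := Real.one_le_rpow hx hd0.le
          have h10 : ((4 * (m₁ * m) : ℕ) : ℝ) ^ δ' = (4 * m₁) ^ δ' * (m : ℝ) ^ δ' := by
            rw [← Real.mul_rpow (by positivity) (by positivity)]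
            push_cast
            ring_nf
          calc L3 ≤ 3 + Real.log ((4 * (m₁ * m) : ℕ) : ℝ) := h7.trans h6
            _ ≤ 3 * ((4 * (m₁ * m) : ℕ) : ℝ) ^ δ' + ((4 * (m₁ * m) : ℕ) : ℝ) ^ δ' / δ' := by
                linarith
            _ = (3 + 1 / δ') * ((4 * (m₁ * m) : ℕ) : ℝ) ^ δ' := by ring
            _ = D * (m : ℝ) ^ δ' := by rw [h10, hD]; ring
        have h11 : ((m : ℝ) ^ 2) ^ (-(4 * ε)) = (m : ℝ) ^ (-(8 * ε)) := by
          rw [← Real.rpow_natCast, ← Real.rpow_mul hm0.le]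
          congr 1
          push_cast; ring
        rw [h11] at hex
        have h12 : L1 * L2 * L3 ≤ L1 * L2 * (D * (m : ℝ) ^ δ') :=
          mul_le_mul_of_nonneg_left h5 (by positivity)
        have h13 : c₀ * (m : ℝ) ^ (-(8 * ε)) ≤ L2 * (m : ℝ) ^ δ' := by
          rw [hc₀, div_mul_eq_mul_div, div_le_iff₀ (by positivity)]
          calc _ ≤ L1 * L2 * L3 := hex
            _ ≤ L1 * L2 * (D * (m : ℝ) ^ δ') := h12
            _ = _ := by ring
        have h14 : c₀ * (m : ℝ) ^ (-δ) ≤ L2 := by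
          have h15 : (m : ℝ) ^ (-δ) ≤ (m : ℝ) ^ (-(8 * ε)) / (m : ℝ) ^ δ' := by
            rw [← Real.rpow_sub hm0]
            exact Real.rpow_le_rpow_of_exponent_le hmR (by linarith)
          calc c₀ * (m : ℝ) ^ (-δ) ≤ c₀ * ((m : ℝ) ^ (-(8 * ε)) / (m : ℝ) ^ δ') :=
                mul_le_mul_of_nonneg_left h15 hc₀0.le
            _ = (c₀ * (m : ℝ) ^ (-(8 * ε))) / (m : ℝ) ^ δ' := by ring
            _ ≤ (L2 * (m : ℝ) ^ δ') / (m : ℝ) ^ δ' :=
                div_le_div_of_nonneg_right h13 (by positivity)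
            _ = L2 := by field_simp
        refine le_trans ?_ h14
        exact mul_le_mul_of_nonneg_right (min_le_left _ _) (by positivity)
      · -- 1 ≤ A
        have : (1 : ℝ) ≤ 4 * m₁ * (4 * m) * (4 * (m₁ * m)) := by
          have a1 : (1 : ℝ) ≤ 4 * m₁ := by linarith
          have a2 : (1 : ℝ) ≤ 4 * m := by linarith
          have a3 : (1 : ℝ) ≤ (m₁ : ℝ) * m := one_le_mul_of_one_le_of_one_le hm1R hmR
          have a4 : (1 : ℝ) ≤ 4 * ((m₁ : ℝ) * m) := by linarith
          exact one_le_mul_of_one_le_of_one_le (one_le_mul_of_one_le_of_one_le a1 a2) a4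
        exact one_le_mul_of_one_le_of_one_le hC₂ this
      · intro K hK
        have h1 := hdouble (4 * m₁) (4 * m) (4 * (m₁ * m)) (chi m₁) (chi m) (chi (m₁ * m))
          hχ1 hχ hχ3 (chi_sq m₁) (chi_sq m) ?_ β (by linarith) hβ2.le K hK
        · rw [hlam, hzero] at h1
          simp only [mul_zero, zero_mul, Complex.zero_re] at h1
          have e1 : 2 - β = 1 + ε := by rw [hε]; ring
          rw [e1] at h1
          have h3 : C₂' * (((4 * m₁ : ℕ) : ℝ) * ((4 * m : ℕ) : ℝ) * ((4 * (m₁ * m) : ℕ) : ℝ)) *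
              (3 / 4) ^ K ≤ C₂ * (4 * m₁ * (4 * m) * (4 * (m₁ * m))) * (3 / 4) ^ K := by
            push_cast
            refine mul_le_mul_of_nonneg_right ?_ (by positivity)
            exact mul_le_mul_of_nonneg_right (le_max_left _ _) (by positivity)
          linarith
        · intro n
          rw [chi_apply, chi_apply, chi_apply, jval_mul_left]
          push_cast
          rfl

end Pool.Agent.Lib.P5632c9
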