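import Pool.Agent.Lib.P5632c9.Siegel
import Pool.Agent.Lib.P5632c9.DivBound

/-!
# Siegel's theorem for the characters `(m/·)`, `m` not a square
-/

namespace Pool.Agent.Lib.P5632c9

open Finset Complex

lemma chi_eq_changeLevel {m f m0 : ℕ} [NeZero m] [NeZero m0] (hm : f ^ 2 * m0 = m)
    (hd : 4 * m0 ∣ 4 * m) : chi m = DirichletCharacter.changeLevel hd (chi m0) := by
  apply MulChar.ext
  intro a
  rw [DirichletCharacter.changeLevel_eq_cast_of_dvd]
  have h1 : (a : ZMod (4 * m)) = ((ZMod.val (a : ZMod (4 * m)) : ℕ) : ZMod (4 * m)) := by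
    rw [ZMod.natCast_zmod_val]
  have hcop : (ZMod.val (a : ZMod (4 * m))).Coprime (4 * m) := ZMod.val_coe_unit_coprime a
  set n := ZMod.val (a : ZMod (4 * m)) with hn
  rw [h1, chi_apply]
  have h2 : (ZMod.cast ((n : ℕ) : ZMod (4 * m)) : ZMod (4 * m0)) = (n : ZMod (4 * m0)) := by
    rw [ZMod.cast_natCast hd]
  rw [h2, chi_apply, ← hm, jval_mul_left, pow_two, jval_mul_left]
  have hcf : n.Coprime (4 * f) := by
    have h4 : n.Coprime 4 := Nat.Coprime.coprime_mul_right_right hcop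
    have hmm : n.Coprime m := Nat.Coprime.coprime_mul_left_right hcop
    rw [← hm] at hmm
    have hff : n.Coprime f := by
      have := Nat.Coprime.coprime_mul_right_right hmm
      exact Nat.Coprime.coprime_dvd_right (Dvd.intro_left (f) (by ring)) this
    exact h4.mul_right hff
  have hne := jval_ne_zero_of_coprime hcf
  have h3 : jval f n * jval f n = 1 := by
    rcases jval_trichotomy f n with h | h | h
    · exact absurd h hne
    · rw [h]; norm_num
    · rw [h]; norm_num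
  rw [h3, one_mul]

lemma two_pow_card_primeFactors_le (n : ℕ) (hn : n ≠ 0) :
    2 ^ n.primeFactors.card ≤ n.divisors.card := by
  rw [Nat.card_divisors hn, ← prod_const]
  refine prod_le_prod' fun p hp => ?_
  have := (Nat.prime_of_mem_primeFactors hp).factorization_pos_of_dvd hn
    (Nat.dvd_of_mem_primeFactors hp)
  omega

theorem siegel_all (δ : ℝ) (hδ : 0 < δ) : ∃ c : ℝ, 0 < c ∧ ∀ (m : ℕ) [NeZero m], ¬ IsSquare m →
    c * (m : ℝ) ^ (-δ) ≤ (DirichletCharacter.LFunction (chi m) 1).re := by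
  obtain ⟨c₀, hc₀, hsieg⟩ := siegel (δ / 2) (by positivity)
  obtain ⟨C, hC, hdiv⟩ := card_divisors_le (δ / 2) (by positivity)
  refine ⟨c₀ / (C * 4 ^ (δ / 2)), by positivity, ?_⟩
  intro m _ hns
  obtain ⟨m0, f, h1, h2⟩ := Nat.sq_mul_squarefree m
  have hm0 : m ≠ 0 := NeZero.ne m
  have : NeZero m0 := ⟨h2.ne_zero⟩
  have hf : f ≠ 0 := by rintro rfl; simp at h1; omega
  have hm01 : m0 ≠ 1 := by
    rintro rfl
    exact hns ⟨f, by rw [← h1]; ring⟩
  have hm02 : 2 ≤ m0 := by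
    have := h2.ne_zero
    omega
  have hd : 4 * m0 ∣ 4 * m := mul_dvd_mul_left 4 ⟨f ^ 2, by rw [← h1]; ring⟩
  have hm0m : m0 ≤ m := Nat.le_of_dvd (Nat.pos_of_ne_zero hm0) ⟨f ^ 2, by rw [← h1]; ring⟩
  have hχ0 : chi m0 ≠ 1 := chi_ne_one m0 (not_isSquare_of_squarefree h2 hm02)
  have e1 := chi_eq_changeLevel h1 hd
  have e2 := DirichletCharacter.LFunction_changeLevel hd (chi m0) (s := 1) (Or.inl hχ0)
  rw [e1, e2, LFunction_one_eq_ofReal hχ0 (chi_sq m0)]
  have e3 : ∏ p ∈ (4 * m).primeFactors, (1 - chi m0 (p : ZMod (4 * m0)) * (p : ℂ) ^ (-1 : ℂ)) =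
      ((∏ p ∈ (4 * m).primeFactors, (1 - (jval m0 p : ℝ) / p) : ℝ) : ℂ) := by
    rw [Complex.ofReal_prod]
    refine prod_congr rfl fun p _ => ?_
    rw [chi_apply, Complex.cpow_neg_one]
    push_cast
    ring
  rw [e3, ← Complex.ofReal_mul, Complex.ofReal_re]
  have hL := hsieg m0 h2 hm02
  have hmR : (1 : ℝ) ≤ m := by exact_mod_cast Nat.pos_of_ne_zero hm0
  have h3 : c₀ * (m : ℝ) ^ (-(δ / 2)) ≤ (DirichletCharacter.LFunction (chi m0) 1).re := by
    refine le_trans ?_ hL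
    refine mul_le_mul_of_nonneg_left ?_ hc₀.le
    refine Real.rpow_le_rpow_of_nonpos (by positivity) (by exact_mod_cast hm0m) (by linarith)
  have h4 : ((2 : ℝ) ^ (4 * m).primeFactors.card)⁻¹ ≤
      ∏ p ∈ (4 * m).primeFactors, (1 - (jval m0 p : ℝ) / p) := by
    rw [← inv_pow, ← prod_const]
    refine prod_le_prod (fun _ _ => by norm_num) fun p hp => ?_
    have hp2 : (2 : ℝ) ≤ p := by exact_mod_cast (Nat.prime_of_mem_primeFactors hp).two_le
    have h5 : (jval m0 p : ℝ) ≤ 1 := by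
      rcases jval_trichotomy m0 p with h | h | h <;> rw [h] <;> norm_num
    have h6 : (jval m0 p : ℝ) / p ≤ 1 / 2 := by
      rw [div_le_div_iff₀ (by positivity) (by norm_num)]
      linarith
    norm_num at h6 ⊢
    linarith
  have h5 : (2 : ℝ) ^ (4 * m).primeFactors.card ≤ C * (4 ^ (δ / 2) * (m : ℝ) ^ (δ / 2)) := by
    have h6 : ((2 ^ (4 * m).primeFactors.card : ℕ) : ℝ) ≤ ((4 * m).divisors.card : ℝ) := by
      exact_mod_cast two_pow_card_primeFactors_le (4 * m) (by omega)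
    have h7 := hdiv (4 * m) (by omega)
    push_cast at h6 h7
    rw [Real.mul_rpow (by norm_num) (by positivity)] at h7
    linarith
  have h6 : (C * (4 ^ (δ / 2) * (m : ℝ) ^ (δ / 2)))⁻¹ ≤
      ∏ p ∈ (4 * m).primeFactors, (1 - (jval m0 p : ℝ) / p) :=
    le_trans (inv_anti₀ (by positivity) h5) h4
  calc c₀ / (C * 4 ^ (δ / 2)) * (m : ℝ) ^ (-δ) =
      (c₀ * (m : ℝ) ^ (-(δ / 2))) * (C * (4 ^ (δ / 2) * (m : ℝ) ^ (δ / 2)))⁻¹ := by
        have e : (m : ℝ) ^ (-δ) = (m : ℝ) ^ (-(δ / 2)) * ((m : ℝ) ^ (δ / 2))⁻¹ := by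
          rw [← Real.rpow_neg (by positivity), ← Real.rpow_add (by positivity)]
          congr 1; ring
        rw [e]
        field_simp
    _ ≤ _ := mul_le_mul h3 h6 (by positivity)
        (LFunction_one_re_pos hχ0 (chi_sq m0)).le

end Pool.Agent.Lib.P5632c9
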