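import Pool.Agent.Lib.P5632c9.Count

/-!
# Comparison of `wset`, `small` and the odd pairs
-/

namespace Pool.Agent.Lib.P5632c9

open Finset

section

variable (n : ℤ)

open scoped Classical in
/-- auxiliary set of `t` -/
noncomputable def Bset (W' c : ℤ) : Finset ℤ :=
  (Icc (-n) n).filter (fun t => W' ∣ t - c ∧ t ^ 2 < n ∧
    ∃ W, 0 < W ∧ W * W' = n - t ^ 2 ∧ n < W ^ 2 ∧ W ^ 2 < 4 * n)

lemma key_diff {s W' W1 W2 t t' : ℝ} (hs : 0 < s) (hW' : 0 < W') (h1 : s < W1)
    (h2 : W1 < 2 * s) (_h3 : s < W2) (h4 : W2 < 2 * s) (e1 : W1 * W' = s ^ 2 - t ^ 2)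
    (e2 : W2 * W' = s ^ 2 - t' ^ 2) (ht : 0 ≤ t) (ht' : 0 ≤ t') : t - t' ≤ 2 * W' := by
  by_contra hneg
  push Not at hneg
  have h5 : (t - t') * (t + t') = W' * (W2 - W1) := by nlinarith
  have h6 : W2 - W1 < s := by linarith
  have htt : 0 < t + t' := by nlinarith
  have h7 : 2 * W' * (t + t') < W' * s := by
    calc 2 * W' * (t + t') < (t - t') * (t + t') := mul_lt_mul_of_pos_right hneg htt
      _ = W' * (W2 - W1) := h5
      _ < W' * s := mul_lt_mul_of_pos_left h6 hW'
  have h8 : 2 * (t + t') < s := by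
    have : W' * (2 * (t + t')) < W' * s := by linarith
    exact lt_of_mul_lt_mul_left this hW'.le
  have h9 : t < s / 2 := by linarith
  have h10 : s ^ 2 * (3 / 4) < W1 * W' := by rw [e1]; nlinarith
  have h11 : W1 * W' < 2 * s * W' := mul_lt_mul_of_pos_right h2 hW'
  have h12 : s * (3 / 8) < W' := by
    have : s * (s * (3 / 8)) < s * W' := by nlinarith
    exact lt_of_mul_lt_mul_left this hs.le
  linarith

lemma card_Bset_le (W' c : ℤ) (hn : 0 < n) (hW' : 0 < W') :
    ((Bset n W' c).card : ℝ) ≤ 6 := by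
  classical
  have hnR : (0 : ℝ) < n := by exact_mod_cast hn
  have hs : 0 < √(n : ℝ) := Real.sqrt_pos.mpr hnR
  have hs2 : √(n : ℝ) ^ 2 = n := Real.sq_sqrt hnR.le
  have hWR : (0 : ℝ) < W' := by exact_mod_cast hW'
  have hmem : ∀ t ∈ Bset n W' c, ∃ W : ℝ, √(n : ℝ) < W ∧ W < 2 * √(n : ℝ) ∧
      W * W' = √(n : ℝ) ^ 2 - (t : ℝ) ^ 2 := by
    intro t ht
    obtain ⟨_, _, _, W, hW0, h1, h2, h3⟩ := mem_filter.mp ht
    have hW0R : (0 : ℝ) < W := by exact_mod_cast hW0
    refine ⟨W, ?_, ?_, ?_⟩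
    · have : √(n : ℝ) ^ 2 < (W : ℝ) ^ 2 := by rw [hs2]; exact_mod_cast h2
      exact lt_of_pow_lt_pow_left₀ 2 hW0R.le this
    · have : (W : ℝ) ^ 2 < (2 * √(n : ℝ)) ^ 2 := by
        rw [mul_pow, hs2]
        have : ((W ^ 2 : ℤ) : ℝ) < ((4 * n : ℤ) : ℝ) := by exact_mod_cast h3
        push_cast at this
        linarith
      exact lt_of_pow_lt_pow_left₀ 2 (by positivity) this
    · rw [hs2]; exact_mod_cast h1
  have hmod : ∀ s ∈ Bset n W' c, ∀ s' ∈ Bset n W' c, W' ∣ s - s' := by
    intro s hs s' hs'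
    have h1 := (mem_filter.mp hs).2.1
    have h2 := (mem_filter.mp hs').2.1
    have : s - s' = (s - c) - (s' - c) := by ring
    rw [this]; exact dvd_sub h1 h2
  have e : (6 : ℝ) = 2 * (2 * W' / W' + 1) := by field_simp; norm_num
  rw [e]
  refine card_le_split _ _ ?_ ?_
  · refine card_class _ W' hW' _ (by positivity) ?_ ?_
    · intro s hs s' hs'
      exact hmod s (mem_filter.mp hs).1 s' (mem_filter.mp hs').1
    · intro t ht t' ht'
      obtain ⟨ht1, ht2⟩ := mem_filter.mp ht
      obtain ⟨ht1', ht2'⟩ := mem_filter.mp ht'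
      obtain ⟨W1, a1, a2, a3⟩ := hmem t ht1
      obtain ⟨W2, b1, b2, b3⟩ := hmem t' ht1'
      exact key_diff hs hWR a1 a2 b1 b2 a3 b3 (by exact_mod_cast ht2) (by exact_mod_cast ht2')
  · refine card_class _ W' hW' _ (by positivity) ?_ ?_
    · intro s hs s' hs'
      exact hmod s (mem_filter.mp hs).1 s' (mem_filter.mp hs').1
    · intro t ht t' ht'
      obtain ⟨ht1, ht2⟩ := mem_filter.mp ht
      obtain ⟨ht1', ht2'⟩ := mem_filter.mp ht'
      obtain ⟨W1, a1, a2, a3⟩ := hmem t ht1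
      obtain ⟨W2, b1, b2, b3⟩ := hmem t' ht1'
      have h3 : (0 : ℝ) ≤ -t := by
        have : t ≤ 0 := by omega
        have : (t : ℝ) ≤ 0 := by exact_mod_cast this
        linarith
      have h4 : (0 : ℝ) ≤ -t' := by
        have : t' ≤ 0 := by omega
        have : (t' : ℝ) ≤ 0 := by exact_mod_cast this
        linarith
      have := key_diff (t := -t') (t' := -t) hs hWR b1 b2 a1 a2 (by rw [b3]; ring)
        (by rw [a3]; ring) h4 h3
      linarith

theorem card_wset_le (hn : 0 < n) :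
    ((wset n).card : ℝ) ≤ 7 * (small n).card := by
  classical
  have h1 : wset n ⊆ small n ∪ (wset n).filter (fun p => n < p.1 ^ 2) := by
    intro p hp
    have hpp := mem_wset.mp hp
    rw [mem_union]
    by_cases h : n < p.1 ^ 2
    · exact Or.inr (mem_filter.mpr ⟨hp, h⟩)
    · exact Or.inl (mem_small.mpr ⟨hpp.1, hpp.2.1, hpp.2.2.1, not_lt.mp h, hpp.2.2.2.2⟩)
  have h2 := (card_le_card h1).trans (card_union_le _ _)
  have h3 : ((wset n).filter (fun p => n < p.1 ^ 2)).card ≤
      ((small n).sigma (fun p => Bset n p.1 p.2)).card := by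
    refine card_le_card_of_forall_subsingleton
      (fun p q => p.1 * q.1.1 = n - q.2 ^ 2 ∧ p.1 ∣ q.2 - p.2) ?_ ?_
    · rintro ⟨W, B⟩ hp
      obtain ⟨hp1, hp2⟩ := mem_filter.mp hp
      obtain ⟨g1, g2, g3, g4, g5⟩ := mem_wset.mp hp1
      simp only at g1 g2 g3 g4 g5 hp2
      -- representative
      obtain ⟨t, ht1, ht2⟩ : ∃ t : ℤ, W ∣ t - B ∧ 4 * t ^ 2 ≤ W ^ 2 := by
        by_cases h : 2 * B ≤ W
        · exact ⟨B, by simp, by nlinarith⟩
        · push Not at h
          exact ⟨B - W, ⟨-1, by ring⟩, by nlinarith⟩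
      have hdvd : W ∣ n - t ^ 2 := by
        have e : n - t ^ 2 = -(B ^ 2 - n) - (t - B) * (t + B) := by ring
        rw [e]
        exact dvd_sub (dvd_neg.mpr g5) (ht1.mul_right _)
      obtain ⟨W', hW'⟩ := hdvd
      have ht3 : t ^ 2 < n := by linarith
      have hW'pos : 0 < W' := by
        have : 0 < W * W' := by linarith
        exact pos_of_mul_pos_right this (by omega)
      have hW'2 : W' ^ 2 ≤ n := by
        have hle : W * W' ≤ n := by rw [← hW']; nlinarith [sq_nonneg t]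
        by_contra hcon
        push Not at hcon
        have h6 : n * n < W ^ 2 * W' ^ 2 := mul_lt_mul'' hp2 hcon hn.le hn.le
        have h7 : (W * W') ^ 2 ≤ n ^ 2 := pow_le_pow_left₀ (by positivity) hle 2
        nlinarith
      refine ⟨⟨(W', t % W'), t⟩, ?_, ?_, ?_⟩
      · rw [mem_sigma]
        refine ⟨?_, ?_⟩
        · rw [mem_small]
          refine ⟨hW'pos, Int.emod_nonneg _ hW'pos.ne', Int.emod_lt_of_pos _ hW'pos, hW'2, ?_⟩
          show W' ∣ (t % W') ^ 2 - n
          have e1 : W' ∣ t ^ 2 - n := ⟨-W, by linarith⟩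
          have e2 : W' ∣ t - t % W' := Int.dvd_self_sub_emod
          have e : (t % W') ^ 2 - n = (t ^ 2 - n) - (t - t % W') * (t + t % W') := by ring
          rw [e]
          exact dvd_sub e1 (e2.mul_right _)
        · show t ∈ Bset n W' (t % W')
          unfold Bset
          rw [mem_filter, mem_Icc]
          refine ⟨⟨by nlinarith, by nlinarith⟩, Int.dvd_self_sub_emod, ht3, W, by omega, ?_, hp2, g4⟩
          linarith
      · show W * W' = n - t ^ 2
        linarith
      · exact ht1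
    · rintro ⟨⟨W', c⟩, t⟩ hq p hp p' hp'
      simp only [Set.mem_ofPred_eq] at hp hp'
      obtain ⟨hp1, hp2, hp3⟩ := hp
      obtain ⟨hp1', hp2', hp3'⟩ := hp'
      have hpp := (mem_wset.mp (mem_filter.mp hp1).1)
      have hpp' := (mem_wset.mp (mem_filter.mp hp1').1)
      have hW' : 0 < W' := by
        rw [mem_sigma, mem_small] at hq
        exact hq.1.1
      have e1 : p.1 = p'.1 := by
        have : p.1 * W' = p'.1 * W' := by rw [hp2, hp2']
        exact mul_right_cancel₀ hW'.ne' this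
      have e2 : p.2 = p'.2 := by
        rw [← e1] at hp3' hpp'
        have h6 : p.1 ∣ p.2 - p'.2 := by
          have : p.2 - p'.2 = (t - p'.2) - (t - p.2) := by ring
          rw [this]; exact dvd_sub hp3' hp3
        have h7 := Int.eq_zero_of_abs_lt_dvd h6 (by
          rw [abs_lt]; constructor <;> linarith [hpp.2.1, hpp.2.2.1, hpp'.2.1, hpp'.2.2.1])
        linarith
      exact Prod.ext e1 e2
  have h4 : (((small n).sigma (fun p => Bset n p.1 p.2)).card : ℝ) ≤ 6 * (small n).card := by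
    rw [card_sigma]
    push_cast
    calc _ ≤ ∑ p ∈ small n, (6 : ℝ) := by
          refine sum_le_sum fun p hp => ?_
          exact card_Bset_le n p.1 p.2 hn (by have := (mem_small.mp hp).1; omega)
      _ = 6 * (small n).card := by simp; ring
  have h5 : ((wset n).card : ℝ) ≤ (small n).card +
      ((wset n).filter (fun p => n < p.1 ^ 2)).card := by exact_mod_cast h2
  have h6 : (((wset n).filter (fun p => n < p.1 ^ 2)).card : ℝ) ≤ 6 * (small n).card :=
    le_trans (by exact_mod_cast h3) h4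
  linarith

/-- the odd pairs -/
theorem card_small_le (hn4 : n % 4 = 2 ∨ n % 4 = 3) :
    (small n).card ≤ 2 * ((small n).filter (fun p => p.1 % 2 = 1)).card := by
  classical
  have h0 := card_filter_add_card_filter_not (s := small n) (fun p => p.1 % 2 = 1)
  have h1 : ((small n).filter (fun p => ¬ p.1 % 2 = 1)).card ≤
      ((small n).filter (fun p => p.1 % 2 = 1)).card := by
    refine card_le_card_of_injOn (fun p => (p.1 / 2, p.2 % (p.1 / 2))) ?_ ?_
    · rintro ⟨Q, P⟩ hp
      obtain ⟨hp1, hp2⟩ := mem_filter.mp (mem_coe.mp hp)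
      obtain ⟨g1, g2, g3, g4, g5⟩ := mem_small.mp hp1
      simp only at g1 g2 g3 g4 g5 hp2
      obtain ⟨q, hq⟩ : ∃ q, Q = 2 * q := ⟨Q / 2, by omega⟩
      have hqd : Q / 2 = q := by omega
      have hqodd : q % 2 = 1 := by
        by_contra h
        obtain ⟨r, hr⟩ : ∃ r, q = 2 * r := ⟨q / 2, by omega⟩
        have h4 : (4 : ℤ) ∣ P ^ 2 - n := dvd_trans ⟨r, by rw [hq, hr]; ring⟩ g5
        have hP : P ^ 2 % 4 = 0 ∨ P ^ 2 % 4 = 1 := by
          rcases Int.even_or_odd' P with ⟨k, rfl | rfl⟩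
          · left; ring_nf; omega
          · right; ring_nf; omega
        omega
      rw [mem_coe, mem_filter, mem_small]
      simp only
      rw [hqd]
      have hq0 : 0 < q := by omega
      refine ⟨⟨by omega, Int.emod_nonneg _ hq0.ne', Int.emod_lt_of_pos _ hq0, by nlinarith, ?_⟩,
        hqodd⟩
      have e1 : q ∣ P ^ 2 - n := dvd_trans ⟨2, by rw [hq]; ring⟩ g5
      have e2 : q ∣ P - P % q := Int.dvd_self_sub_emod
      have e : (P % q) ^ 2 - n = (P ^ 2 - n) - (P - P % q) * (P + P % q) := by ring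
      rw [e]
      exact dvd_sub e1 (e2.mul_right _)
    · rintro ⟨Q, P⟩ hp ⟨Q', P'⟩ hp' heq
      obtain ⟨hp1, hp2⟩ := mem_filter.mp (mem_coe.mp hp)
      obtain ⟨g1, g2, g3, g4, g5⟩ := mem_small.mp hp1
      simp only at g1 g2 g3 g4 g5 hp2
      obtain ⟨hp1', hp2'⟩ := mem_filter.mp (mem_coe.mp hp')
      obtain ⟨g1', g2', g3', g4', g5'⟩ := mem_small.mp hp1'
      simp only at g1' g2' g3' g4' g5' hp2'
      simp only [Prod.mk.injEq] at heq
      obtain ⟨e1, e2⟩ := heq
      have hQQ : Q = Q' := by omega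
      subst hQQ
      obtain ⟨q, hq⟩ : ∃ q, Q = 2 * q := ⟨Q / 2, by omega⟩
      have hqd : Q / 2 = q := by omega
      rw [hqd] at e2
      have hqodd : q % 2 = 1 := by
        by_contra h
        obtain ⟨r, hr⟩ : ∃ r, q = 2 * r := ⟨q / 2, by omega⟩
        have h4 : (4 : ℤ) ∣ P ^ 2 - n := dvd_trans ⟨r, by rw [hq, hr]; ring⟩ g5
        have hP : P ^ 2 % 4 = 0 ∨ P ^ 2 % 4 = 1 := by
          rcases Int.even_or_odd' P with ⟨k, rfl | rfl⟩
          · left; ring_nf; omega
          · right; ring_nf; omega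
        omega
      have h2 : (2 : ℤ) ∣ P ^ 2 - n := dvd_trans ⟨q, by rw [hq]⟩ g5
      have h2' : (2 : ℤ) ∣ P' ^ 2 - n := dvd_trans ⟨q, by rw [hq]⟩ g5'
      have hpar : P % 2 = P' % 2 := by
        have a1 : P ^ 2 % 2 = n % 2 := by omega
        have a2 : P' ^ 2 % 2 = n % 2 := by omega
        have b : ∀ x : ℤ, x ^ 2 % 2 = x % 2 := by
          intro x
          rcases Int.even_or_odd' x with ⟨k, rfl | rfl⟩
          · ring_nf; omega
          · ring_nf; omega
        rw [b] at a1 a2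
        omega
      have h3 : q ∣ P - P' := by
        have : P - P' = (P - P % q) - (P' - P' % q) := by rw [e2]; ring
        rw [this]; exact dvd_sub Int.dvd_self_sub_emod Int.dvd_self_sub_emod
      have h5 : (2 : ℤ) ∣ P - P' := by omega
      have h6 : (2 * q) ∣ P - P' := by
        refine IsCoprime.mul_dvd ?_ h5 h3
        exact ⟨-(q / 2), 1, by omega⟩
      have h7 := Int.eq_zero_of_abs_lt_dvd h6 (by
          rw [abs_lt]; constructor <;> linarith)
      have : P = P' := by linarith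
      rw [this]
  omega

end

end Pool.Agent.Lib.P5632c9
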