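import Pool.Agent.Lib.P5632c9.Hyperbola
import Pool.Agent.Lib.P5632c9.Small

/-!
# Upper bound for `∑_{k ≤ Y²} (χ * χ₀)(k)` by pairs `(Q,P)`
-/

namespace Pool.Agent.Lib.P5632c9

open Finset
open scoped NumberTheorySymbols

lemma isMultiplicative_Fm (m : ℕ) : (Fm m).IsMultiplicative := by
  refine ⟨?_, ?_⟩
  · rw [Fm_apply, jval_one]; norm_num
  · intro a b _
    rw [Fm_apply, Fm_apply, Fm_apply, jval_mul]
    push_cast
    rfl

lemma isMultiplicative_Gm (m : ℕ) : (Gm m).IsMultiplicative := by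
  refine ⟨?_, ?_⟩
  · rw [Gm_apply]; simp
  · intro a b _
    rw [Gm_apply, Gm_apply, Gm_apply]
    by_cases ha : a ≠ 0 ∧ a.Coprime (4 * m)
    · by_cases hb : b ≠ 0 ∧ b.Coprime (4 * m)
      · rw [if_pos ha, if_pos hb, if_pos ⟨mul_ne_zero ha.1 hb.1, ha.2.mul_left hb.2⟩]
        norm_num
      · rw [if_pos ha, if_neg hb, if_neg]
        · norm_num
        · rintro ⟨h1, h2⟩
          exact hb ⟨right_ne_zero_of_mul h1, Nat.Coprime.coprime_mul_left h2⟩
    · rw [if_neg ha, if_neg]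
      · norm_num
      · rintro ⟨h1, h2⟩
        exact ha ⟨left_ne_zero_of_mul h1, Nat.Coprime.coprime_mul_right h2⟩

lemma conv_le_card (m k : ℕ) : (Fm m * Gm m) k ≤ (k.divisors.card : ℝ) := by
  rw [ArithmeticFunction.mul_apply]
  calc ∑ x ∈ k.divisorsAntidiagonal, Fm m x.1 * Gm m x.2 ≤
      ∑ x ∈ k.divisorsAntidiagonal, (1 : ℝ) := by
        refine sum_le_sum fun x _ => ?_
        have h1 := (abs_le.mp (abs_Fm_le m x.1))
        have h2 := Gm_nonneg m x.2
        have h3 := Gm_le_one m x.2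
        nlinarith [h1.1, h1.2]
    _ = (k.divisors.card : ℝ) := by
        rw [Nat.sum_divisorsAntidiagonal (fun _ _ => (1 : ℝ)), sum_const, nsmul_eq_mul, mul_one]

lemma conv_coprime {m k : ℕ} (h : (Fm m * Gm m) k ≠ 0) : k.Coprime (4 * m) := by
  rw [ArithmeticFunction.mul_apply] at h
  obtain ⟨x, hx, hne⟩ := exists_ne_zero_of_sum_ne_zero h
  have h1 : Fm m x.1 ≠ 0 := left_ne_zero_of_mul hne
  have h2 : Gm m x.2 ≠ 0 := right_ne_zero_of_mul hne
  rw [← (Nat.mem_divisorsAntidiagonal.mp hx).1]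
  refine Nat.Coprime.mul_left ?_ ?_
  · by_contra hc
    apply h1
    rw [Fm_apply, jval_eq_zero_of_not_coprime hc]
    norm_num
  · by_contra hc
    apply h2
    rw [Gm_apply, if_neg (fun h => hc h.2)]

lemma conv_prime_pow {m p a : ℕ} (hp : p.Prime) (hc : p.Coprime (4 * m)) :
    (Fm m * Gm m) (p ^ a) = ∑ i ∈ range (a + 1), (jval m p : ℝ) ^ i := by
  rw [ArithmeticFunction.mul_apply]
  have h1 : ∑ x ∈ (p ^ a).divisorsAntidiagonal, Fm m x.1 * Gm m x.2 =
      ∑ x ∈ (p ^ a).divisorsAntidiagonal, Fm m x.1 := by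
    refine sum_congr rfl fun x hx => ?_
    have hx2 : x.2 ∣ p ^ a := by
      rw [← (Nat.mem_divisorsAntidiagonal.mp hx).1]; exact Dvd.intro_left _ rfl
    have hx3 := Nat.ne_zero_of_mem_divisorsAntidiagonal hx
    rw [Gm_apply, if_pos ⟨hx3.2, Nat.Coprime.coprime_dvd_left hx2 (hc.pow_left a)⟩, mul_one]
  rw [h1, Nat.sum_divisorsAntidiagonal (fun i _ => Fm m i), Nat.sum_divisors_prime_pow hp]
  have hpow : ∀ i, jval m (p ^ i) = jval m p ^ i := by
    intro i
    induction i with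
    | zero => simp [jval_one]
    | succ i ih => rw [pow_succ, jval_mul, pow_succ, ih]
  refine sum_congr rfl fun i _ => ?_
  rw [Fm_apply, hpow]
  push_cast
  rfl

lemma conv_odd_exponent {m k p : ℕ} (hk : k ≠ 0) (h : (Fm m * Gm m) k ≠ 0) (hp : p.Prime)
    (hodd : k.factorization p % 2 = 1) : jval m p = 1 := by
  have hcop := conv_coprime h
  have hpk : p ∣ k := by
    by_contra hc
    have := Nat.factorization_eq_zero_of_not_dvd hc
    omega
  have hpc : p.Coprime (4 * m) := Nat.Coprime.coprime_dvd_left hpk hcop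
  have hmul : (Fm m * Gm m).IsMultiplicative := (isMultiplicative_Fm m).mul (isMultiplicative_Gm m)
  rw [hmul.multiplicative_factorization _ hk, Finsupp.prod, prod_ne_zero_iff] at h
  have h1 := h p (by rw [Nat.support_factorization]; exact Nat.mem_primeFactors.mpr ⟨hp, hpk, hk⟩)
  rw [conv_prime_pow hp hpc] at h1
  rcases jval_trichotomy m p with h2 | h2 | h2
  · exact absurd h2 (jval_ne_zero_of_coprime hpc)
  · exact h2
  · exfalso
    apply h1
    rw [h2]
    push_cast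
    rw [neg_one_geom_sum, if_pos]
    rw [Nat.even_iff]; omega

lemma exists_sqrt_mod_prime {m p : ℕ} (hp : p.Prime) (h : jval m p = 1) :
    ∃ x : ℤ, (p : ℤ) ∣ x ^ 2 - m := by
  have : Fact p.Prime := ⟨hp⟩
  have hodd : p % 2 = 1 := by
    by_contra hc
    rw [jval_even (by omega)] at h
    omega
  rw [jval_odd hodd] at h
  have h1 := ZMod.isSquare_of_jacobiSym_eq_one h
  obtain ⟨r, hr⟩ := h1
  refine ⟨(r.val : ℤ), ?_⟩
  rw [← ZMod.intCast_zmod_eq_zero_iff_dvd]
  push_cast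
  rw [ZMod.natCast_zmod_val]
  push_cast at hr
  rw [hr]; ring

lemma exists_sqrt_mod_squarefree (m : ℕ) : ∀ u : ℕ, Squarefree u →
    (∀ p : ℕ, p.Prime → p ∣ u → jval m p = 1) → ∃ x : ℤ, (u : ℤ) ∣ x ^ 2 - m := by
  intro u
  induction u using Nat.strong_induction_on with
  | _ u ih =>
    intro hsq h
    by_cases hu1 : u = 1
    · exact ⟨0, by rw [hu1]; simp⟩
    obtain ⟨p, hp, v, hv⟩ := Nat.exists_prime_and_dvd hu1
    have hu0 : u ≠ 0 := hsq.ne_zero
    have hv0 : v ≠ 0 := by rintro rfl; simp at hv; omega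
    have hpv : ¬ p ∣ v := by
      rintro ⟨t, rfl⟩
      have h1 : p * p ∣ u := ⟨t, by rw [hv]; ring⟩
      have := hsq p h1
      exact hp.one_lt.ne' (Nat.isUnit_iff.mp this)
    have hvu : v ∣ u := ⟨p, by rw [hv]; ring⟩
    have hvlt : v < u := by
      rw [hv]
      have := hp.one_lt
      nlinarith [Nat.pos_of_ne_zero hv0]
    obtain ⟨xv, hxv⟩ := ih v hvlt (hsq.squarefree_of_dvd hvu)
      (fun q hq hqv => h q hq (hqv.trans hvu))
    obtain ⟨xp, hxp⟩ := exists_sqrt_mod_prime hp (h p hp ⟨v, hv⟩)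
    have hcop : IsCoprime (p : ℤ) (v : ℤ) := by
      rw [Nat.isCoprime_iff_coprime]
      exact (hp.coprime_iff_not_dvd).mpr hpv
    obtain ⟨a, b, hab⟩ := hcop
    refine ⟨xv * (a * p) + xp * (b * v), ?_⟩
    rw [hv]
    push_cast
    refine IsCoprime.mul_dvd ⟨a, b, hab⟩ ?_ ?_
    · have e1 : (p : ℤ) ∣ (xv * (a * p) + xp * (b * v)) - xp := by
        refine ⟨xv * a - xp * a, ?_⟩
        linear_combination xp * hab
      have e : (xv * (a * p) + xp * (b * v)) ^ 2 - (m : ℤ) = (xp ^ 2 - m) +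
          ((xv * (a * p) + xp * (b * v)) - xp) * ((xv * (a * p) + xp * (b * v)) + xp) := by ring
      rw [e]
      exact dvd_add hxp (e1.mul_right _)
    · have e1 : (v : ℤ) ∣ (xv * (a * p) + xp * (b * v)) - xv := by
        refine ⟨xp * b - xv * b, ?_⟩
        linear_combination xv * hab
      have e : (xv * (a * p) + xp * (b * v)) ^ 2 - (m : ℤ) = (xv ^ 2 - m) +
          ((xv * (a * p) + xp * (b * v)) - xv) * ((xv * (a * p) + xp * (b * v)) + xv) := by ring
      rw [e]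
      exact dvd_add hxv (e1.mul_right _)

open scoped Classical in
lemma card_conv_ne_zero_le (m Y : ℕ) :
    ((Ioc 0 (Y * Y)).filter (fun k => (Fm m * Gm m) k ≠ 0)).card ≤
      ∑ t ∈ Ioc 0 Y, (pairs (m : ℤ) ((Y * Y / t ^ 2 : ℕ) : ℤ)).card := by
  rw [← card_sigma]
  refine card_le_card_of_forall_subsingleton (fun k q => k = q.1 ^ 2 * q.2.1.toNat) ?_ ?_
  · intro k hk
    obtain ⟨hk1, hk2⟩ := mem_filter.mp hk
    have hk1' := mem_Ioc.mp hk1
    have hk0 : k ≠ 0 := by omega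
    obtain ⟨u, t, htu, husq⟩ := Nat.sq_mul_squarefree k
    have hu0 : u ≠ 0 := husq.ne_zero
    have ht0 : t ≠ 0 := by rintro rfl; simp at htu; omega
    obtain ⟨x, hx⟩ := exists_sqrt_mod_squarefree m u husq (by
      intro p hp hpu
      refine conv_odd_exponent hk0 hk2 hp ?_
      rw [← htu, Nat.factorization_mul (pow_ne_zero 2 ht0) hu0, Nat.factorization_pow]
      simp only [Finsupp.add_apply, Finsupp.smul_apply, smul_eq_mul]
      have h1 : u.factorization p = 1 := by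
        have a1 := husq.natFactorization_le_one p
        have a2 := hp.factorization_pos_of_dvd hu0 hpu
        omega
      rw [h1]; omega)
    have hupos : (0 : ℤ) < u := by exact_mod_cast Nat.pos_of_ne_zero hu0
    refine ⟨⟨t, ((u : ℤ), x % u)⟩, ?_, ?_⟩
    · rw [mem_sigma]
      refine ⟨?_, ?_⟩
      · rw [mem_Ioc]
        refine ⟨Nat.pos_of_ne_zero ht0, ?_⟩
        show t ≤ Y
        by_contra hc
        push Not at hc
        have : t * t ≤ Y * Y := by
          calc t * t = t ^ 2 * 1 := by ring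
            _ ≤ t ^ 2 * u := Nat.mul_le_mul_left _ (Nat.pos_of_ne_zero hu0)
            _ = k := htu
            _ ≤ _ := hk1'.2
        nlinarith
      · rw [mem_pairs]
        refine ⟨?_, ?_, Int.emod_nonneg _ hupos.ne', Int.emod_lt_of_pos _ hupos, ?_⟩
        · show (1 : ℤ) ≤ (u : ℤ)
          omega
        · show (u : ℤ) ≤ ((Y * Y / t ^ 2 : ℕ) : ℤ)
          have : u ≤ Y * Y / t ^ 2 := by
            rw [Nat.le_div_iff_mul_le (by positivity)]
            calc u * t ^ 2 = k := by rw [← htu]; ring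
              _ ≤ _ := hk1'.2
          exact_mod_cast this
        · show (u : ℤ) ∣ (x % u) ^ 2 - m
          have e2 : (u : ℤ) ∣ x - x % u := Int.dvd_self_sub_emod
          have e : (x % u) ^ 2 - (m : ℤ) = (x ^ 2 - m) - (x - x % u) * (x + x % u) := by ring
          rw [e]
          exact dvd_sub hx (e2.mul_right _)
    · show k = t ^ 2 * (u : ℤ).toNat
      rw [Int.toNat_natCast, htu]
  · intro q hq k hk k' hk'
    exact hk.2.trans hk'.2.symm

/-- The upper bound. -/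
theorem sum_conv_le (m Y : ℕ) (T : ℝ)
    (hT : ∀ k ∈ Ioc 0 (Y * Y), (k.divisors.card : ℝ) ≤ T) (hT0 : 0 ≤ T) :
    ∑ k ∈ Ioc 0 (Y * Y), (Fm m * Gm m) k ≤
      T * ∑ t ∈ Ioc 0 Y, ((pairs (m : ℤ) ((Y * Y / t ^ 2 : ℕ) : ℤ)).card : ℝ) := by
  classical
  have h1 : ∑ k ∈ Ioc 0 (Y * Y), (Fm m * Gm m) k =
      ∑ k ∈ (Ioc 0 (Y * Y)).filter (fun k => (Fm m * Gm m) k ≠ 0), (Fm m * Gm m) k :=
    (sum_filter_ne_zero _).symm
  rw [h1]
  calc _ ≤ ∑ k ∈ (Ioc 0 (Y * Y)).filter (fun k => (Fm m * Gm m) k ≠ 0), T := by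
        refine sum_le_sum fun k hk => ?_
        exact (conv_le_card m k).trans (hT k (mem_filter.mp hk).1)
    _ = T * (((Ioc 0 (Y * Y)).filter (fun k => (Fm m * Gm m) k ≠ 0)).card : ℝ) := by
        rw [sum_const, nsmul_eq_mul]; ring
    _ ≤ _ := by
        refine mul_le_mul_of_nonneg_left ?_ hT0
        exact_mod_cast card_conv_ne_zero_le m Y

end Pool.Agent.Lib.P5632c9
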